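import Mathlib

/-!
# Elementary counting lemmas for `AP.lean`
-/

namespace Pool.Agent.E25B

open Finset

set_option linter.unusedSectionVars false

noncomputable section

lemma gcd_prod_dvd_aux (S : Finset ℕ) (q : ℕ → ℕ) (n : ℕ) :
    Nat.gcd n (∏ p ∈ S, q p) ∣ ∏ p ∈ S, Nat.gcd (q p) n := by
  classical
  induction S using Finset.induction_on with
  | empty => simp
  | insert a S ha ih =>
    rw [prod_insert ha, prod_insert ha]
    refine (Nat.gcd_mul_right_dvd_mul_gcd n (q a) (∏ p ∈ S, q p)).trans ?_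
    rw [Nat.gcd_comm n (q a)]
    exact Nat.mul_dvd_mul_left _ ih

lemma crt_key (S : Finset ℕ) (q : ℕ → ℕ)
    (hcop : (S : Set ℕ).Pairwise fun a b => Nat.Coprime (q a) (q b)) {n : ℕ}
    (hn : n ∣ ∏ p ∈ S, q p) (b m : ℕ) :
    (∀ p ∈ S, m ≡ b [MOD Nat.gcd (q p) n]) ↔ m ≡ b [MOD n] := by
  constructor
  · intro h
    have h2 : n ∣ ∏ p ∈ S, Nat.gcd (q p) n := by
      have := gcd_prod_dvd_aux S q n
      rwa [Nat.gcd_eq_left hn] at this
    refine Nat.ModEq.of_dvd h2 ?_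
    rw [Nat.modEq_iff_dvd]
    push_cast
    refine Finset.prod_dvd_of_coprime ?_ ?_
    · intro i hi j hj hij
      have : Nat.Coprime (Nat.gcd (q i) n) (Nat.gcd (q j) n) :=
        Nat.Coprime.coprime_dvd_left (Nat.gcd_dvd_left _ _)
          (Nat.Coprime.coprime_dvd_right (Nat.gcd_dvd_left _ _) (hcop hi hj hij))
      exact Nat.isCoprime_iff_coprime.2 this
    · intro i hi
      exact Nat.modEq_iff_dvd.1 (h i hi)
  · intro h p _
    exact h.of_dvd (Nat.gcd_dvd_right _ _)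

/-- exact count in a multiple of the period. -/
lemma card_range_modEq (L M v : ℕ) (hL : 0 < L) (h : L ∣ M) :
    (#{m ∈ range M | m ≡ v [MOD L]} : ℝ) = M / L := by
  have h1 := Nat.count_modEq_card M hL v
  rw [Nat.count_eq_card_filter_range] at h1
  have h2 : M % L = 0 := Nat.mod_eq_zero_of_dvd h
  rw [h2] at h1
  simp only [Nat.not_lt_zero, if_false, add_zero] at h1
  rw [h1, Nat.cast_div h (by exact_mod_cast hL.ne')]

/-- count in `(y, 2y]`. -/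
lemma card_Ioc_modEq (L y v : ℕ) (hL : 0 < L) :
    |(#{m ∈ Ioc y (2 * y) | m ≡ v [MOD L]} : ℝ) - y / L| ≤ 1 := by
  have h1 := Nat.Ioc_filter_modEq_card y (2 * y) hL v
  have hL' : (0 : ℚ) < L := by exact_mod_cast hL
  have hmono : ⌊((y : ℚ) - v) / L⌋ ≤ ⌊(((2 * y : ℕ) : ℚ) - v) / L⌋ := by
    refine Int.floor_le_floor (div_le_div_of_nonneg_right ?_ hL'.le)
    push_cast
    have : (0 : ℚ) ≤ y := Nat.cast_nonneg y
    linarith
  rw [max_eq_left (sub_nonneg.2 hmono)] at h1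
  have a1 := Int.floor_le (((y : ℚ) - v) / L)
  have a2 := Int.lt_floor_add_one (((y : ℚ) - v) / L)
  have b1 := Int.floor_le ((((2 * y : ℕ) : ℚ) - v) / L)
  have b2 := Int.lt_floor_add_one ((((2 * y : ℕ) : ℚ) - v) / L)
  have e : (((2 * y : ℕ) : ℚ) - v) / L = ((y : ℚ) - v) / L + y / L := by
    push_cast; ring
  have h2 : ((#{m ∈ Ioc y (2 * y) | m ≡ v [MOD L]} : ℕ) : ℚ)
      = (⌊(((2 * y : ℕ) : ℚ) - v) / L⌋ : ℚ) - (⌊((y : ℚ) - v) / L⌋ : ℚ) := by
    exact_mod_cast h1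
  have h3 : |((#{m ∈ Ioc y (2 * y) | m ≡ v [MOD L]} : ℕ) : ℚ) - y / L| ≤ 1 := by
    rw [h2, abs_le]
    rw [e] at b1 b2
    constructor <;> rw [e] <;> linarith
  have h4 := (Rat.cast_le (K := ℝ)).2 h3
  push_cast at h4
  exact h4

/-- the joint condition of two classes is a class modulo the lcm or empty. -/
lemma two_classes (n D a c m₀ : ℕ) (h1 : m₀ ≡ a [MOD n]) (h2 : m₀ ≡ c [MOD D]) (m : ℕ) :
    (m ≡ a [MOD n] ∧ m ≡ c [MOD D]) ↔ m ≡ m₀ [MOD (Nat.lcm n D)] := by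
  constructor
  · rintro ⟨h3, h4⟩
    have h5 : m ≡ m₀ [MOD n] := h3.trans h1.symm
    have h6 : m ≡ m₀ [MOD D] := h4.trans h2.symm
    rw [Nat.modEq_iff_dvd, Int.natCast_dvd] at h5 h6 ⊢
    exact Nat.lcm_dvd h5 h6
  · intro h
    exact ⟨(h.of_dvd (Nat.dvd_lcm_left _ _)).trans h1, (h.of_dvd (Nat.dvd_lcm_right _ _)).trans h2⟩

lemma count_two_classes (n D a c M y : ℕ) (hM : 0 < M) (hn : n ∣ M) (hD : D ∣ M) :
    |(#{m ∈ Ioc y (2 * y) | m ≡ a [MOD n] ∧ m ≡ c [MOD D]} : ℝ)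
      - (y : ℝ) / M * #{m ∈ range M | m ≡ a [MOD n] ∧ m ≡ c [MOD D]}| ≤ 1 := by
  by_cases h : ∃ m₀, m₀ ≡ a [MOD n] ∧ m₀ ≡ c [MOD D]
  · obtain ⟨m₀, h1, h2⟩ := h
    have hL : Nat.lcm n D ∣ M := Nat.lcm_dvd hn hD
    have hLpos : 0 < Nat.lcm n D := Nat.pos_of_dvd_of_pos hL hM
    simp only [two_classes n D a c m₀ h1 h2]
    rw [card_range_modEq _ M m₀ hLpos hL]
    have h3 := card_Ioc_modEq (Nat.lcm n D) y m₀ hLpos
    have h4 : (y : ℝ) / M * ((M : ℝ) / (Nat.lcm n D : ℕ)) = (y : ℝ) / (Nat.lcm n D : ℕ) := by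
      have : (M : ℝ) ≠ 0 := by exact_mod_cast hM.ne'
      field_simp
    rw [h4]
    exact h3
  · push Not at h
    have e1 : {m ∈ Ioc y (2 * y) | m ≡ a [MOD n] ∧ m ≡ c [MOD D]} = ∅ :=
      filter_eq_empty_iff.2 fun m _ hm => h m hm.1 hm.2
    have e2 : {m ∈ range M | m ≡ a [MOD n] ∧ m ≡ c [MOD D]} = ∅ :=
      filter_eq_empty_iff.2 fun m _ hm => h m hm.1 hm.2
    rw [e1, e2]
    simp

/-- A periodic function summed over a class. -/
lemma sum_class_periodic (N r b : ℕ) (hN : 0 < N) (hr : 0 < r) (hc : Nat.Coprime r N)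
    (g : ℕ → ℝ) (hg : ∀ m, g (m % N) = g m) :
    ∑ m ∈ range (N * r) with m ≡ b [MOD r], g m = ∑ u ∈ range N, g u := by
  refine Finset.sum_nbij (fun m => m % N) ?_ ?_ ?_ ?_
  · intro m _
    exact mem_range.2 (Nat.mod_lt _ hN)
  · intro m hm m' hm' h
    rw [mem_coe, mem_filter, mem_range] at hm hm'
    have h1 : m ≡ m' [MOD N] := h
    have h2 : m ≡ m' [MOD r] := hm.2.trans hm'.2.symm
    have h3 : m ≡ m' [MOD (N * r)] := (Nat.modEq_and_modEq_iff_modEq_mul hc.symm).1 ⟨h1, h2⟩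
    exact h3.eq_of_lt_of_lt hm.1 hm'.1
  · intro u hu
    rw [mem_coe, mem_range] at hu
    obtain ⟨k, hk1, hk2⟩ := Nat.chineseRemainder hc.symm u b
    refine ⟨k % (N * r), ?_, ?_⟩
    · rw [mem_coe, mem_filter, mem_range]
      refine ⟨Nat.mod_lt _ (Nat.mul_pos hN hr), ?_⟩
      exact ((Nat.mod_modEq k (N * r)).of_dvd (Dvd.intro_left _ rfl)).trans hk2
    · show k % (N * r) % N = u
      rw [Nat.mod_mul_right_mod]
      have : k % N = u % N := hk1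
      rw [this, Nat.mod_eq_of_lt hu]
  · intro m _
    exact (hg m).symm

end

end Pool.Agent.E25B
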