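import Mathlib

/-!
# Averages on finite product spaces: definitions and basic facts
-/

namespace Pool.Agent.E25B

open Finset

noncomputable section

/-- Uniform average over a finite type. -/
def ex {Ω : Type} [Fintype Ω] (f : Ω → ℝ) : ℝ := (∑ x, f x) / (Fintype.card Ω : ℝ)

section ex
variable {Ω Ω' α : Type} [Fintype Ω] [Fintype Ω']

lemma ex_add (f g : Ω → ℝ) : ex (fun x => f x + g x) = ex f + ex g := by
  simp only [ex, sum_add_distrib, add_div]

lemma ex_sub (f g : Ω → ℝ) : ex (fun x => f x - g x) = ex f - ex g := by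
  simp only [ex, sum_sub_distrib, sub_div]

lemma ex_neg (f : Ω → ℝ) : ex (fun x => - f x) = - ex f := by
  simp only [ex, sum_neg_distrib, neg_div]

lemma ex_const_mul (c : ℝ) (f : Ω → ℝ) : ex (fun x => c * f x) = c * ex f := by
  simp only [ex, ← mul_sum, mul_div_assoc]

lemma ex_mul_const (f : Ω → ℝ) (c : ℝ) : ex (fun x => f x * c) = ex f * c := by
  simp only [ex, ← sum_mul]; ring

lemma ex_const [Nonempty Ω] (c : ℝ) : ex (fun _ : Ω => c) = c := by
  have h : (Fintype.card Ω : ℝ) ≠ 0 := by exact_mod_cast Fintype.card_ne_zero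
  simp only [ex, sum_const, card_univ, nsmul_eq_mul]
  field_simp

lemma ex_sum (s : Finset α) (f : α → Ω → ℝ) :
    ex (fun x => ∑ a ∈ s, f a x) = ∑ a ∈ s, ex (f a) := by
  simp only [ex]; rw [sum_comm, sum_div]

lemma ex_mono {f g : Ω → ℝ} (h : ∀ x, f x ≤ g x) : ex f ≤ ex g :=
  div_le_div_of_nonneg_right (sum_le_sum fun x _ => h x) (Nat.cast_nonneg _)

lemma ex_nonneg {f : Ω → ℝ} (h : ∀ x, 0 ≤ f x) : 0 ≤ ex f :=
  div_nonneg (sum_nonneg fun x _ => h x) (Nat.cast_nonneg _)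

lemma ex_comm (f : Ω → Ω' → ℝ) :
    ex (fun x => ex fun y => f x y) = ex fun y => ex fun x => f x y := by
  simp only [ex, ← sum_div]
  rw [sum_comm]; ring

lemma ex_congr {f g : Ω → ℝ} (h : ∀ x, f x = g x) : ex f = ex g := by
  rw [funext h]

lemma ex_sq_le [Nonempty Ω] (f : Ω → ℝ) : (ex f) ^ 2 ≤ ex (fun x => f x ^ 2) := by
  have hc : (0 : ℝ) < Fintype.card Ω := by exact_mod_cast Fintype.card_pos
  have h := sq_sum_le_card_mul_sum_sq (s := (univ : Finset Ω)) (f := f)
  simp only [ex]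
  rw [div_pow, div_le_div_iff₀ (by positivity) hc]
  rw [card_univ] at h
  nlinarith [sum_nonneg fun x (_ : x ∈ (univ : Finset Ω)) => sq_nonneg (f x)]

lemma abs_ex_le (f : Ω → ℝ) : |ex f| ≤ ex (fun x => |f x|) := by
  simp only [ex]
  rw [abs_div, Nat.abs_cast]
  exact div_le_div_of_nonneg_right (abs_sum_le_sum_abs _ _) (Nat.cast_nonneg _)

lemma ex_le_of_le [Nonempty Ω] {f : Ω → ℝ} {c : ℝ} (h : ∀ x, f x ≤ c) : ex f ≤ c :=
  (ex_mono h).trans_eq (ex_const c)

lemma ex_equiv (e : Ω ≃ Ω') (f : Ω' → ℝ) : ex (fun x => f (e x)) = ex f := by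
  simp only [ex]
  rw [Fintype.card_congr e, Equiv.sum_comp e f]

end ex

variable {ι : Type} [Fintype ι] [DecidableEq ι] {κ : ι → Type} [∀ i, Fintype (κ i)]

/-- `f` depends only on the coordinates in `T`. -/
def Dep (T : Finset ι) (f : (∀ i, κ i) → ℝ) : Prop := ∀ x y, (∀ i ∈ T, x i = y i) → f x = f y

/-- Average over the coordinates outside `T`. -/
def av (T : Finset ι) (f : (∀ i, κ i) → ℝ) (x : ∀ i, κ i) : ℝ := ex fun y => f (T.piecewise x y)

/-- Efron-Stein component of `f` on `S`, relative to the base set `J` (used for `S` disjoint from `J`). -/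
def comp (J S : Finset ι) (f : (∀ i, κ i) → ℝ) (x : ∀ i, κ i) : ℝ :=
  ∑ T ∈ S.powerset, (-1) ^ (#(S \ T)) * av (J ∪ T) f x

/-- The part of `f` of degree larger than `d`, relative to the base set `J`. -/
def tl (J : Finset ι) (d : ℕ) (f : (∀ i, κ i) → ℝ) (x : ∀ i, κ i) : ℝ :=
  ∑ S ∈ Jᶜ.powerset with d < #S, comp J S f x

end

end Pool.Agent.E25B
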