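import Mathlib
import Pool.Agent.E25B.Basic

/-!
# Efron-Stein decomposition on finite product spaces
-/

namespace Pool.Agent.E25B

open Finset

set_option linter.unusedSectionVars false

noncomputable section

variable {ι : Type} [Fintype ι] [DecidableEq ι] {κ : ι → Type} [∀ i, Fintype (κ i)]

/-! ## Averages -/

/-- The involution exchanging the coordinates outside `T`. -/
private def swapE (T : Finset ι) : ((∀ i, κ i) × (∀ i, κ i)) ≃ ((∀ i, κ i) × (∀ i, κ i)) where
  toFun p := (T.piecewise p.1 p.2, T.piecewise p.2 p.1)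
  invFun p := (T.piecewise p.1 p.2, T.piecewise p.2 p.1)
  left_inv p := by
    refine Prod.ext (funext fun i => ?_) (funext fun i => ?_) <;> by_cases h : i ∈ T <;> simp [h]
  right_inv p := by
    refine Prod.ext (funext fun i => ?_) (funext fun i => ?_) <;> by_cases h : i ∈ T <;> simp [h]

/-- Resampling: swapping coordinates outside `T` between two independent copies preserves the law. -/
lemma ex_swap (T : Finset ι) (F : (∀ i, κ i) → (∀ i, κ i) → ℝ) :
    ex (fun x => ex fun y => F (T.piecewise x y) (T.piecewise y x)) = ex fun x => ex fun y => F x y := by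
  have h : ∀ G : (∀ i, κ i) → (∀ i, κ i) → ℝ, ex (fun x => ex fun y => G x y) =
      (∑ p : (∀ i, κ i) × (∀ i, κ i), G p.1 p.2) /
        (Fintype.card (∀ i, κ i) : ℝ) / (Fintype.card (∀ i, κ i) : ℝ) := by
    intro G
    simp only [ex]
    rw [Fintype.sum_prod_type, Finset.sum_div, Finset.sum_div]
    simp only [Finset.sum_div]
  rw [h, h]
  congr 2
  exact Equiv.sum_comp (swapE T) fun p => F p.1 p.2

lemma ex_piecewise [∀ i, Nonempty (κ i)] (T : Finset ι) (f : (∀ i, κ i) → ℝ) :
    ex (fun x => ex fun y => f (T.piecewise x y)) = ex f := by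
  rw [ex_swap T fun x _ => f x]
  exact ex_congr fun x => ex_const _

lemma ex_av [∀ i, Nonempty (κ i)] (T : Finset ι) (f : (∀ i, κ i) → ℝ) : ex (av T f) = ex f := by
  exact ex_piecewise T f

lemma av_av [∀ i, Nonempty (κ i)] (S T : Finset ι) (f : (∀ i, κ i) → ℝ) (x : ∀ i, κ i) :
    av S (av T f) x = av (S ∩ T) f x := by
  have h := ex_piecewise T fun w => f ((S ∩ T).piecewise x w)
  unfold av
  rw [← h]
  refine ex_congr fun y => ex_congr fun z => ?_
  congr 1
  funext i
  by_cases h1 : i ∈ S <;> by_cases h2 : i ∈ T <;> simp [h1, h2]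

lemma av_univ [∀ i, Nonempty (κ i)] (f : (∀ i, κ i) → ℝ) (x : ∀ i, κ i) : av univ f x = f x := by
  unfold av
  simp only [Finset.piecewise_univ]
  exact ex_const _

lemma av_empty (f : (∀ i, κ i) → ℝ) (x : ∀ i, κ i) : av ∅ f x = ex f := by
  unfold av
  simp only [Finset.piecewise_empty]

lemma dep_av (T : Finset ι) (f : (∀ i, κ i) → ℝ) : Dep T (av T f) := by
  intro x y h
  unfold av
  refine ex_congr fun z => ?_
  congr 1
  funext i
  by_cases h1 : i ∈ T
  · simp [h1, h i h1]
  · simp [h1]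

lemma dep_mono {S T : Finset ι} (h : S ⊆ T) {f : (∀ i, κ i) → ℝ} (hf : Dep S f) : Dep T f := by
  exact fun x y hxy => hf x y fun i hi => hxy i (h hi)

lemma av_of_dep [∀ i, Nonempty (κ i)] {T : Finset ι} {f : (∀ i, κ i) → ℝ} (hf : Dep T f)
    (x : ∀ i, κ i) : av T f x = f x := by
  unfold av
  rw [ex_congr (g := fun _ => f x) fun y => hf _ _ fun i hi => by simp [hi]]
  exact ex_const _

/-- If `f` depends only on `S`, averaging outside `T` is averaging outside `T ∩ S`. -/
lemma av_inter_of_dep [∀ i, Nonempty (κ i)] {S : Finset ι} {f : (∀ i, κ i) → ℝ} (hf : Dep S f)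
    (T : Finset ι) (x : ∀ i, κ i) : av T f x = av (T ∩ S) f x := by
  unfold av
  refine ex_congr fun y => hf _ _ fun i hi => ?_
  by_cases h1 : i ∈ T <;> simp [h1, hi]

lemma av_mul_of_dep {T : Finset ι} {g : (∀ i, κ i) → ℝ} (hg : Dep T g) (f : (∀ i, κ i) → ℝ)
    (x : ∀ i, κ i) : av T (fun y => g y * f y) x = g x * av T f x := by
  unfold av
  rw [← ex_const_mul]
  refine ex_congr fun y => ?_
  show g (T.piecewise x y) * f (T.piecewise x y) = g x * f (T.piecewise x y)
  rw [hg (T.piecewise x y) x fun i hi => by simp [hi]]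

lemma av_add (T : Finset ι) (f g : (∀ i, κ i) → ℝ) (x : ∀ i, κ i) :
    av T (fun y => f y + g y) x = av T f x + av T g x := ex_add _ _

lemma av_sub (T : Finset ι) (f g : (∀ i, κ i) → ℝ) (x : ∀ i, κ i) :
    av T (fun y => f y - g y) x = av T f x - av T g x := ex_sub _ _

lemma av_const_mul (T : Finset ι) (c : ℝ) (f : (∀ i, κ i) → ℝ) (x : ∀ i, κ i) :
    av T (fun y => c * f y) x = c * av T f x := ex_const_mul _ _

lemma av_sum {α : Type} (T : Finset ι) (s : Finset α) (f : α → (∀ i, κ i) → ℝ) (x : ∀ i, κ i) :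
    av T (fun y => ∑ a ∈ s, f a y) x = ∑ a ∈ s, av T (f a) x := ex_sum _ _

lemma av_mono (T : Finset ι) {f g : (∀ i, κ i) → ℝ} (h : ∀ x, f x ≤ g x) (x : ∀ i, κ i) :
    av T f x ≤ av T g x := ex_mono fun _ => h _

lemma av_nonneg (T : Finset ι) {f : (∀ i, κ i) → ℝ} (h : ∀ x, 0 ≤ f x) (x : ∀ i, κ i) :
    0 ≤ av T f x := ex_nonneg fun _ => h _

lemma av_sq_le [∀ i, Nonempty (κ i)] (T : Finset ι) (f : (∀ i, κ i) → ℝ) (x : ∀ i, κ i) :
    (av T f x) ^ 2 ≤ av T (fun y => f y ^ 2) x := ex_sq_le _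

/-- Self-adjointness. -/
lemma ex_mul_av [∀ i, Nonempty (κ i)] (T : Finset ι) (f g : (∀ i, κ i) → ℝ) :
    ex (fun x => f x * av T g x) = ex (fun x => av T f x * g x) := by
  have h := ex_swap T fun a b => f a * g (T.piecewise a b)
  have h1 : ex (fun x => f x * av T g x) =
      ex fun x => ex fun y => f x * g (T.piecewise x y) := by
    refine ex_congr fun x => ?_
    rw [ex_const_mul]
    rfl
  have h2 : ex (fun x => av T f x * g x) =
      ex fun x => ex fun y => f (T.piecewise x y) * g x := by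
    refine ex_congr fun x => ?_
    rw [ex_mul_const]
    rfl
  rw [h1, h2, ← h]
  refine ex_congr fun x => ex_congr fun y => ?_
  congr 2
  funext i
  by_cases h1 : i ∈ T <;> simp [h1]

/-- Averages of products of functions of disjoint sets of coordinates. -/
lemma ex_mul_of_disjoint [∀ i, Nonempty (κ i)] {S T : Finset ι} (hST : Disjoint S T)
    {f g : (∀ i, κ i) → ℝ} (hf : Dep S f) (hg : Dep T g) :
    ex (fun x => f x * g x) = ex f * ex g := by
  rw [← ex_piecewise S fun x => f x * g x]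
  have h : ∀ x, ex (fun y => f (S.piecewise x y) * g (S.piecewise x y)) = f x * ex g := by
    intro x
    rw [← ex_const_mul]
    refine ex_congr fun y => ?_
    rw [hf (S.piecewise x y) x fun i hi => by simp [hi],
      hg (S.piecewise x y) y fun i hi => by
        have : i ∉ S := fun h => Finset.disjoint_left.mp hST h hi
        simp [this]]
  rw [ex_congr h, ex_mul_const]

/-- The measure of a product set. -/
lemma ex_prod_ind (T : Finset ι) (C : ∀ i, Finset (κ i)) [∀ i, Nonempty (κ i)] [∀ i, DecidableEq (κ i)] :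
    ex (fun x : ∀ i, κ i => ∏ i ∈ T, (if x i ∈ C i then (1 : ℝ) else 0))
      = ∏ i ∈ T, ((#(C i) : ℝ) / Fintype.card (κ i)) := by
  have h1 : ∀ x : ∀ i, κ i, ∏ i ∈ T, (if x i ∈ C i then (1 : ℝ) else 0) =
      ∏ i, (if i ∈ T then (if x i ∈ C i then (1 : ℝ) else 0) else 1) := by
    intro x
    rw [Finset.prod_ite_mem, Finset.univ_inter]
  have h2 : ∏ i ∈ T, ((#(C i) : ℝ) / Fintype.card (κ i)) =
      ∏ i, (if i ∈ T then ((#(C i) : ℝ) / Fintype.card (κ i)) else 1) := by
    rw [Finset.prod_ite_mem, Finset.univ_inter]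
  simp only [h1]
  rw [h2]
  unfold ex
  have h3 : ∑ x : ∀ i, κ i, ∏ i, (if i ∈ T then (if x i ∈ C i then (1 : ℝ) else 0) else 1) =
      ∏ i, ∑ a : κ i, (if i ∈ T then (if a ∈ C i then (1 : ℝ) else 0) else 1) := by
    rw [Finset.prod_univ_sum, Fintype.piFinset_univ]
  rw [h3, Fintype.card_pi, Nat.cast_prod, ← Finset.prod_div_distrib]
  refine Finset.prod_congr rfl fun i _ => ?_
  by_cases h : i ∈ T
  · simp [h]
  · have hc : (Fintype.card (κ i) : ℝ) ≠ 0 := by exact_mod_cast Fintype.card_ne_zero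
    simp [h, hc]

/-! ## Components -/

private lemma sdiff_sign {S T : Finset ι} {i : ι} (hS : i ∉ S) (hT : T ⊆ S) :
    (-1 : ℝ) ^ #(insert i S \ T) = -(-1) ^ #(S \ T) := by
  have hiT : i ∉ T := fun h => hS (hT h)
  rw [Finset.insert_sdiff_of_notMem _ hiT, Finset.card_insert_of_notMem
    (fun h => hS (Finset.mem_sdiff.mp h).1), pow_succ]
  ring

private lemma sdiff_sign' {S T : Finset ι} {i : ι} (hS : i ∉ S) :
    (-1 : ℝ) ^ #(insert i S \ insert i T) = (-1) ^ #(S \ T) := by
  congr 2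
  ext j
  simp only [Finset.mem_sdiff, Finset.mem_insert]
  constructor
  · rintro ⟨h1, h2⟩
    push Not at h2
    exact ⟨h1.resolve_left h2.1, h2.2⟩
  · rintro ⟨h1, h2⟩
    refine ⟨Or.inr h1, ?_⟩
    push Not
    exact ⟨fun h => hS (h ▸ h1), h2⟩

private lemma moebius (U : Finset ι) : ∀ a : Finset ι → ℝ,
    ∑ S ∈ U.powerset, ∑ T ∈ S.powerset, (-1) ^ #(S \ T) * a T = a U := by
  induction U using Finset.induction_on with
  | empty => intro a; simp
  | insert i U hi ih =>
    intro a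
    rw [Finset.sum_powerset_insert hi]
    have h : ∀ S ∈ U.powerset, ∑ T ∈ (insert i S).powerset, (-1) ^ #(insert i S \ T) * a T =
        -(∑ T ∈ S.powerset, (-1) ^ #(S \ T) * a T) +
          ∑ T ∈ S.powerset, (-1) ^ #(S \ T) * a (insert i T) := by
      intro S hS
      have hiS : i ∉ S := fun h => hi (Finset.mem_powerset.mp hS h)
      rw [Finset.sum_powerset_insert hiS, ← Finset.sum_neg_distrib]
      congr 1
      · refine Finset.sum_congr rfl fun T hT => ?_
        rw [sdiff_sign hiS (Finset.mem_powerset.mp hT)]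
        ring
      · refine Finset.sum_congr rfl fun T _ => ?_
        rw [sdiff_sign' hiS]
    rw [Finset.sum_congr rfl h, Finset.sum_add_distrib, Finset.sum_neg_distrib, ih a,
      ih fun T => a (insert i T)]
    ring

private lemma alt_sum_zero {S : Finset ι} {i : ι} (hi : i ∈ S) (a : Finset ι → ℝ)
    (ha : ∀ T, i ∉ T → a (insert i T) = a T) :
    ∑ T ∈ S.powerset, (-1) ^ #(S \ T) * a T = 0 := by
  have hS : insert i (S.erase i) = S := Finset.insert_erase hi
  rw [← hS, Finset.sum_powerset_insert (Finset.notMem_erase i S), ← Finset.sum_add_distrib]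
  refine Finset.sum_eq_zero fun T hT => ?_
  have hT' : T ⊆ S.erase i := Finset.mem_powerset.mp hT
  have hiT : i ∉ T := fun h => Finset.notMem_erase i S (hT' h)
  rw [sdiff_sign (Finset.notMem_erase i S) hT', sdiff_sign' (Finset.notMem_erase i S), ha T hiT]
  ring

/-- Möbius inversion, local form. -/
lemma sum_comp_powerset (J U : Finset ι) (f : (∀ i, κ i) → ℝ) (x : ∀ i, κ i) :
    ∑ S ∈ U.powerset, comp J S f x = av (J ∪ U) f x := by
  exact moebius U fun T => av (J ∪ T) f x

/-- Möbius inversion. -/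
lemma sum_comp [∀ i, Nonempty (κ i)] (J : Finset ι) (f : (∀ i, κ i) → ℝ) (x : ∀ i, κ i) :
    ∑ S ∈ Jᶜ.powerset, comp J S f x = f x := by
  rw [sum_comp_powerset, Finset.union_compl, av_univ]

lemma dep_comp (J S : Finset ι) (f : (∀ i, κ i) → ℝ) : Dep (J ∪ S) (comp J S f) := by
  intro x y h
  unfold comp
  refine Finset.sum_congr rfl fun T hT => ?_
  rw [dep_mono (Finset.union_subset_union_right (Finset.mem_powerset.mp hT))
    (dep_av (J ∪ T) f) x y h]

lemma av_comp_zero [∀ i, Nonempty (κ i)] {S S' : Finset ι} (h : ¬ S ⊆ S')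
    (f : (∀ i, κ i) → ℝ) (x : ∀ i, κ i) : av S' (comp ∅ S f) x = 0 := by
  obtain ⟨i, hi, hi'⟩ := Finset.not_subset.mp h
  have h1 : av S' (comp ∅ S f) x =
      ∑ T ∈ S.powerset, (-1) ^ #(S \ T) * av (S' ∩ (∅ ∪ T)) f x := by
    unfold comp
    rw [av_sum]
    refine Finset.sum_congr rfl fun T _ => ?_
    rw [av_const_mul, av_av]
  rw [h1]
  refine alt_sum_zero hi (fun T => av (S' ∩ (∅ ∪ T)) f x) fun T _ => ?_
  have h2 : S' ∩ (∅ ∪ insert i T) = S' ∩ (∅ ∪ T) := by
    rw [Finset.empty_union, Finset.empty_union, Finset.inter_insert_of_notMem hi']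
  rw [h2]

lemma comp_orth [∀ i, Nonempty (κ i)] (S S' : Finset ι) (h : S ≠ S') (f : (∀ i, κ i) → ℝ) :
    ex (fun x => comp ∅ S f x * comp ∅ S' f x) = 0 := by
  have key : ∀ S S' : Finset ι, ¬ S ⊆ S' →
      ex (fun x => comp ∅ S f x * comp ∅ S' f x) = 0 := by
    intro S S' hSS
    have h1 : ex (fun x => comp ∅ S f x * comp ∅ S' f x) =
        ex (fun x => comp ∅ S f x * av S' (comp ∅ S' f) x) :=
      ex_congr fun x => by rw [av_of_dep (dep_comp ∅ S' f |> dep_mono (by simp))]
    rw [h1, ex_mul_av]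
    rw [ex_congr (g := fun _ => 0) fun x => by rw [av_comp_zero hSS, zero_mul]]
    simp [ex]
  by_cases h1 : S ⊆ S'
  · have h2 : ¬ S' ⊆ S := fun h2 => h (h1.antisymm h2)
    rw [← key S' S h2]
    exact ex_congr fun x => mul_comm _ _
  · exact key S S' h1

lemma ex_sum_comp_sq [∀ i, Nonempty (κ i)] (𝒮 : Finset (Finset ι)) (f : (∀ i, κ i) → ℝ) :
    ex (fun x => (∑ S ∈ 𝒮, comp ∅ S f x) ^ 2) = ∑ S ∈ 𝒮, ex (fun x => comp ∅ S f x ^ 2) := by
  have h1 : ex (fun x => (∑ S ∈ 𝒮, comp ∅ S f x) ^ 2) =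
      ∑ S ∈ 𝒮, ∑ S' ∈ 𝒮, ex (fun x => comp ∅ S f x * comp ∅ S' f x) := by
    rw [← Finset.sum_congr rfl fun S _ =>
      ex_sum 𝒮 fun S' x => comp ∅ S f x * comp ∅ S' f x, ← ex_sum]
    refine ex_congr fun x => ?_
    rw [sq, Finset.sum_mul_sum]
  rw [h1]
  refine Finset.sum_congr rfl fun S hS => ?_
  rw [Finset.sum_eq_single_of_mem S hS fun S' _ hne => comp_orth S S' (Ne.symm hne) f]
  exact ex_congr fun x => (sq _).symm

/-- Parseval. -/
lemma parseval [∀ i, Nonempty (κ i)] (f : (∀ i, κ i) → ℝ) :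
    ∑ S : Finset ι, ex (fun x => comp ∅ S f x ^ 2) = ex (fun x => f x ^ 2) := by
  rw [← ex_sum_comp_sq]
  refine ex_congr fun x => ?_
  have h := sum_comp ∅ f x
  rw [Finset.compl_empty, Finset.powerset_univ] at h
  rw [h]

lemma sum_comp_superset [∀ i, Nonempty (κ i)] (R : Finset ι) (f : (∀ i, κ i) → ℝ) (x : ∀ i, κ i) :
    ∑ S : Finset ι with R ⊆ S, comp ∅ S f x = ∑ T ∈ R.powerset, (-1) ^ (#T) * av (Tᶜ) f x := by
  have h1 : ∀ T ∈ R.powerset, (-1 : ℝ) ^ #T * av Tᶜ f x =
      ∑ S : Finset ι, if T ⊆ R \ S then (-1 : ℝ) ^ #T * comp ∅ S f x else 0 := by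
    intro T hT
    have h2 := sum_comp_powerset ∅ Tᶜ f x
    rw [Finset.empty_union] at h2
    rw [← h2, Finset.mul_sum, ← Finset.sum_filter]
    refine Finset.sum_congr ?_ fun _ _ => rfl
    ext S
    simp only [Finset.mem_powerset, Finset.mem_filter, Finset.mem_univ, true_and]
    constructor
    · intro h j hj
      exact Finset.mem_sdiff.mpr ⟨Finset.mem_powerset.mp hT hj,
        fun hjS => (Finset.mem_compl.mp (h hjS)) hj⟩
    · intro h j hj
      exact Finset.mem_compl.mpr fun hjT => (Finset.mem_sdiff.mp (h hjT)).2 hj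
  rw [Finset.sum_congr rfl h1, Finset.sum_comm, Finset.sum_filter]
  refine Finset.sum_congr rfl fun S _ => ?_
  rw [← Finset.sum_filter]
  have h3 : R.powerset.filter (fun T => T ⊆ R \ S) = (R \ S).powerset := by
    ext T
    simp only [Finset.mem_filter, Finset.mem_powerset]
    exact ⟨fun h => h.2, fun h => ⟨h.trans Finset.sdiff_subset, h⟩⟩
  rw [h3, ← Finset.sum_mul]
  have h4 : ∑ T ∈ (R \ S).powerset, (-1 : ℝ) ^ #T = if R \ S = ∅ then 1 else 0 := by
    have := Finset.sum_powerset_neg_one_pow_card (x := R \ S)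
    exact_mod_cast this
  rw [h4]
  simp only [Finset.sdiff_eq_empty_iff_subset]
  split_ifs <;> simp

/-- The tail relative to `J` is the tail of the restricted function. -/
lemma tl_piecewise [∀ i, Nonempty (κ i)] (J : Finset ι) (d : ℕ) (f : (∀ i, κ i) → ℝ)
    (x y : ∀ i, κ i) :
    tl J d f (J.piecewise x y) = tl ∅ d (fun z => f (J.piecewise x z)) y := by
  unfold tl
  have hcomp : ∀ S, comp J S f (J.piecewise x y) =
      comp ∅ S (fun z => f (J.piecewise x z)) y := by
    intro S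
    unfold comp av
    refine Finset.sum_congr rfl fun T _ => ?_
    congr 1
    refine ex_congr fun z => ?_
    congr 1
    funext i
    by_cases h1 : i ∈ J <;> by_cases h2 : i ∈ T <;> simp [h1, h2]
  rw [Finset.sum_congr rfl fun S _ => hcomp S]
  refine Finset.sum_subset ?_ ?_
  · intro S hS
    simp only [Finset.mem_filter, Finset.mem_powerset] at hS ⊢
    exact ⟨by simp, hS.2⟩
  · intro S hS hS'
    simp only [Finset.mem_filter, Finset.mem_powerset] at hS hS'
    have h1 : ¬ S ⊆ Jᶜ := fun h => hS' ⟨h, hS.2⟩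
    obtain ⟨i, hi, hi'⟩ := Finset.not_subset.mp h1
    have hiJ : i ∈ J := by simpa using hi'
    unfold comp
    refine alt_sum_zero hi (fun T => av (∅ ∪ T) (fun z => f (J.piecewise x z)) y)
      fun T _ => ?_
    unfold av
    refine ex_congr fun z => ?_
    have h5 : J.piecewise x ((∅ ∪ insert i T : Finset ι).piecewise y z) =
        J.piecewise x ((∅ ∪ T : Finset ι).piecewise y z) := by
      funext j
      by_cases h2 : j ∈ J
      · simp [h2]
      · have h3 : j ≠ i := fun h => h2 (h ▸ hiJ)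
        by_cases h4 : j ∈ T <;> simp [h2, h3, h4]
    exact congrArg f h5

end

end Pool.Agent.E25B
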