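import Mathlib
import Pool.Agent.E25B.ES

/-!
# Restricting further coordinates
-/

namespace Pool.Agent.E25B

open Finset

set_option linter.unusedSectionVars false

noncomputable section

variable {ι : Type} [Fintype ι] [DecidableEq ι] {κ : ι → Type} [∀ i, Fintype (κ i)]

/-- Splitting off one coordinate. -/
private lemma comp_insert {J S : Finset ι} {i : ι} (hS : i ∉ S)
    (f : (∀ i, κ i) → ℝ) (x : ∀ i, κ i) :
    comp J (insert i S) f x = comp (insert i J) S f x - comp J S f x := by
  unfold comp
  rw [Finset.sum_powerset_insert hS, add_comm, sub_eq_add_neg, ← Finset.sum_neg_distrib]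
  congr 1
  · refine Finset.sum_congr rfl fun T hT => ?_
    have hT' : T ⊆ S := Finset.mem_powerset.mp hT
    have h1 : insert i S \ insert i T = S \ T := by
      ext j
      simp only [Finset.mem_sdiff, Finset.mem_insert]
      constructor
      · rintro ⟨h1, h2⟩
        push Not at h2
        exact ⟨h1.resolve_left h2.1, h2.2⟩
      · rintro ⟨h1, h2⟩
        refine ⟨Or.inr h1, ?_⟩
        push Not
        exact ⟨fun h => hS (h ▸ h1), h2⟩
    rw [h1, Finset.union_insert, Finset.insert_union]
  · refine Finset.sum_congr rfl fun T hT => ?_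
    have hT' : T ⊆ S := Finset.mem_powerset.mp hT
    have hiT : i ∉ T := fun h => hS (hT' h)
    rw [Finset.insert_sdiff_of_notMem _ hiT, Finset.card_insert_of_notMem
      (fun h => hS (Finset.mem_sdiff.mp h).1), pow_succ]
    ring

/-- Sum over subsets of `Jᶜ` split according to a coordinate `i ∉ J`. -/
private lemma sum_split {J : Finset ι} {i : ι} (hi : i ∉ J) (a : Finset ι → ℝ) :
    ∑ S ∈ Jᶜ.powerset, a S =
      ∑ S ∈ (insert i J)ᶜ.powerset, a S + ∑ S ∈ (insert i J)ᶜ.powerset, a (insert i S) := by
  have h1 : Jᶜ = insert i (insert i J)ᶜ := by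
    ext j
    simp only [Finset.mem_compl, Finset.mem_insert]
    by_cases h : j = i
    · subst h; simp [hi]
    · simp [h]
  have h2 : i ∉ (insert i J)ᶜ := by simp
  conv_lhs => rw [h1]
  rw [Finset.sum_powerset_insert h2]

/-- The layer of degree exactly `d` not using coordinate `i`. -/
private def layer (J : Finset ι) (i : ι) (d : ℕ) (f : (∀ i, κ i) → ℝ) (x : ∀ i, κ i) : ℝ :=
  ∑ S ∈ (insert i J)ᶜ.powerset, if #S = d then comp J S f x else 0

private lemma tl_split {J : Finset ι} {i : ι} (hi : i ∉ J) {d : ℕ} (hd : 1 ≤ d)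
    (f : (∀ i, κ i) → ℝ) (x : ∀ i, κ i) :
    tl J d f x = tl (insert i J) (d - 1) f x - layer J i d f x := by
  unfold tl layer
  rw [Finset.sum_filter, Finset.sum_filter, sum_split hi, ← Finset.sum_add_distrib,
    ← Finset.sum_sub_distrib]
  refine Finset.sum_congr rfl fun S hS => ?_
  have hiS : i ∉ S := fun h => by
    have := Finset.mem_powerset.mp hS h
    simp at this
  rw [comp_insert hiS, Finset.card_insert_of_notMem hiS]
  by_cases h1 : #S = d
  · have h2 : ¬ d < #S := by omega
    have h3 : d < #S + 1 := by omega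
    have h4 : d - 1 < #S := by omega
    simp [h1, h4, (by omega : d - 1 < d)]
  · by_cases h2 : d < #S
    · have h3 : d < #S + 1 := by omega
      have h4 : d - 1 < #S := by omega
      simp [h1, h2, h3, h4]
    · have h3 : ¬ d < #S + 1 := by omega
      have h4 : ¬ d - 1 < #S := by omega
      simp [h1, h2, h3, h4]

/-- Averaging over a coordinate of `S` kills the component on `S`. -/
private lemma av_comp_kill [∀ i, Nonempty (κ i)] {J S : Finset ι} {i : ι} (hi : i ∉ J)
    (hS : i ∉ S) (f : (∀ i, κ i) → ℝ) (x : ∀ i, κ i) :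
    av (univ.erase i) (comp J (insert i S) f) x = 0 := by
  have h1 : av (univ.erase i) (comp J (insert i S) f) x =
      ∑ T ∈ (insert i S).powerset, (-1) ^ #(insert i S \ T) * av (univ.erase i ∩ (J ∪ T)) f x := by
    unfold comp
    rw [av_sum]
    refine Finset.sum_congr rfl fun T _ => ?_
    rw [av_const_mul, av_av]
  rw [h1, Finset.sum_powerset_insert hS, ← Finset.sum_add_distrib]
  refine Finset.sum_eq_zero fun T hT => ?_
  have hT' : T ⊆ S := Finset.mem_powerset.mp hT
  have hiT : i ∉ T := fun h => hS (hT' h)
  have h2 : insert i S \ insert i T = S \ T := by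
    ext j
    simp only [Finset.mem_sdiff, Finset.mem_insert]
    constructor
    · rintro ⟨h1, h2⟩
      push Not at h2
      exact ⟨h1.resolve_left h2.1, h2.2⟩
    · rintro ⟨h1, h2⟩
      refine ⟨Or.inr h1, ?_⟩
      push Not
      exact ⟨fun h => hS (h ▸ h1), h2⟩
  have h3 : univ.erase i ∩ (J ∪ insert i T) = univ.erase i ∩ (J ∪ T) := by
    ext j
    simp only [Finset.mem_inter, Finset.mem_erase, Finset.mem_univ, Finset.mem_union,
      Finset.mem_insert]
    tauto
  rw [h2, h3, Finset.insert_sdiff_of_notMem _ hiT, Finset.card_insert_of_notMem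
    (fun h => hS (Finset.mem_sdiff.mp h).1), pow_succ]
  ring

private lemma layer_eq [∀ i, Nonempty (κ i)] {J : Finset ι} {i : ι} (hi : i ∉ J) {d : ℕ}
    (hd : 1 ≤ d) (f : (∀ i, κ i) → ℝ) (x : ∀ i, κ i) :
    layer J i d f x = av (univ.erase i) (fun y => tl J (d - 1) f y - tl J d f y) x := by
  have h1 : ∀ y, tl J (d - 1) f y - tl J d f y =
      ∑ S ∈ Jᶜ.powerset, (if #S = d then comp J S f y else 0) := by
    intro y
    unfold tl
    rw [Finset.sum_filter, Finset.sum_filter, ← Finset.sum_sub_distrib]
    refine Finset.sum_congr rfl fun S _ => ?_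
    by_cases h1 : #S = d
    · simp [h1, (by omega : d - 1 < d)]
    · by_cases h2 : d < #S
      · have h4 : d - 1 < #S := by omega
        simp [h1, h2, h4]
      · have h4 : ¬ d - 1 < #S := by omega
        simp [h1, h2, h4]
  have h2 : (fun y => tl J (d - 1) f y - tl J d f y) =
      fun y => ∑ S ∈ Jᶜ.powerset, (if #S = d then comp J S f y else 0) := funext h1
  rw [h2, av_sum, sum_split hi]
  have h3 : ∀ S ∈ (insert i J)ᶜ.powerset,
      av (univ.erase i) (fun y => if #(insert i S) = d then comp J (insert i S) f y else 0) x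
        = 0 := by
    intro S hS
    have hiS : i ∉ S := fun h => by
      have := Finset.mem_powerset.mp hS h
      simp at this
    by_cases h : #(insert i S) = d
    · simp only [h, if_true]
      exact av_comp_kill hi hiS f x
    · simp only [h, if_false]
      simp [av, ex]
  rw [Finset.sum_eq_zero h3, add_zero]
  unfold layer
  refine Finset.sum_congr rfl fun S hS => ?_
  have hiS : i ∉ S := fun h => by
    have := Finset.mem_powerset.mp hS h
    simp at this
  by_cases h : #S = d
  · simp only [h, if_true]
    refine (av_of_dep (dep_mono ?_ (dep_comp J S f)) x).symm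
    intro j hj
    refine Finset.mem_erase.mpr ⟨?_, Finset.mem_univ _⟩
    rintro rfl
    rcases Finset.mem_union.mp hj with h | h
    · exact hi h
    · exact hiS h
  · simp only [h, if_false]
    simp [av, ex]

/-- If all conditional tails are small, they stay small after restricting further coordinates. -/
theorem tl_restrict [∀ i, Nonempty (κ i)] (f : (∀ i, κ i) → ℝ) (ε : ℕ → ℝ) (hε : Antitone ε)
    (hf : ∀ J d x, av J (fun y => tl J d f y ^ 2) x ≤ ε d)
    (J K : Finset ι) (d : ℕ) (hd : #K ≤ d) (x : ∀ i, κ i) :
    av (J ∪ K) (fun y => tl J d f y ^ 2) x ≤ 10 ^ (#K) * ε (d - #K) := by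
  have hε0 : ∀ d, 0 ≤ ε d := fun d =>
    (av_nonneg ∅ (fun y => sq_nonneg (tl ∅ d f y)) x).trans (hf ∅ d x)
  induction K using Finset.induction_on generalizing J d x with
  | empty => simpa using hf J d x
  | insert i K hi ih =>
    rw [Finset.card_insert_of_notMem hi] at hd ⊢
    by_cases hJ : i ∈ J
    · have h1 : J ∪ insert i K = J ∪ K := by
        rw [Finset.union_insert, Finset.insert_eq_of_mem (Finset.mem_union_left _ hJ)]
      rw [h1]
      refine (ih J d (by omega) x).trans ?_
      have h2 : ε (d - #K) ≤ ε (d - (#K + 1)) := hε (by omega)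
      have h3 : (10 : ℝ) ^ #K ≤ 10 ^ (#K + 1) := pow_le_pow_right₀ (by norm_num) (by omega)
      exact mul_le_mul h3 h2 (hε0 _) (by positivity)
    · have hd1 : 1 ≤ d := by omega
      -- the layer
      set L : (∀ i, κ i) → ℝ := layer J i d f with hL
      set g : (∀ i, κ i) → ℝ := fun y => tl J (d - 1) f y - tl J d f y with hg
      have hLg : ∀ y, L y = av (univ.erase i) g y := fun y => layer_eq hJ hd1 f y
      have hLdep : Dep (univ.erase i) (fun y => L y ^ 2) := by
        intro y z h
        have : L y = L z := by rw [hLg, hLg]; exact dep_av _ _ y z h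
        simp only [this]
      have hset : (J ∪ insert i K) ∩ univ.erase i = J ∪ K := by
        ext j
        simp only [Finset.mem_inter, Finset.mem_union, Finset.mem_insert, Finset.mem_erase,
          Finset.mem_univ, and_true]
        constructor
        · rintro ⟨h1, h2⟩
          rcases h1 with h1 | h1 | h1
          · exact Or.inl h1
          · exact absurd h1 h2
          · exact Or.inr h1
        · rintro (h1 | h1)
          · exact ⟨Or.inl h1, fun h => hJ (h ▸ h1)⟩
          · exact ⟨Or.inr (Or.inr h1), fun h => hi (h ▸ h1)⟩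
      have hset' : (J ∪ K) ∩ univ.erase i = J ∪ K := by
        ext j
        simp only [Finset.mem_inter, Finset.mem_union, Finset.mem_erase,
          Finset.mem_univ, and_true]
        constructor
        · rintro ⟨h1, _⟩; exact h1
        · rintro (h1 | h1)
          · exact ⟨Or.inl h1, fun h => hJ (h ▸ h1)⟩
          · exact ⟨Or.inr h1, fun h => hi (h ▸ h1)⟩
      -- the estimate for `L`
      have hA : av (J ∪ insert i K) (fun y => L y ^ 2) x ≤ av (J ∪ K) (fun y => g y ^ 2) x := by
        rw [av_inter_of_dep hLdep (J ∪ insert i K) x, hset]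
        have h1 : ∀ y, L y ^ 2 ≤ av (univ.erase i) (fun y => g y ^ 2) y := by
          intro y
          rw [hLg]
          exact av_sq_le _ g y
        refine (av_mono (J ∪ K) h1 x).trans ?_
        rw [av_av, hset']
      have hB : av (J ∪ K) (fun y => g y ^ 2) x ≤
          4 * (10 ^ #K * ε (d - (#K + 1))) := by
        have h1 : ∀ y, g y ^ 2 ≤ 2 * tl J (d - 1) f y ^ 2 + 2 * tl J d f y ^ 2 := by
          intro y
          simp only [hg]
          nlinarith [sq_nonneg (tl J (d - 1) f y + tl J d f y)]
        refine (av_mono (J ∪ K) h1 x).trans ?_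
        rw [av_add, av_const_mul, av_const_mul]
        have h2 := ih J (d - 1) (by omega) x
        have h3 := ih J d (by omega) x
        have h4 : d - 1 - #K = d - (#K + 1) := by omega
        rw [h4] at h2
        have h5 : ε (d - #K) ≤ ε (d - (#K + 1)) := hε (by omega)
        have h6 : (10 : ℝ) ^ #K * ε (d - #K) ≤ 10 ^ #K * ε (d - (#K + 1)) :=
          mul_le_mul_of_nonneg_left h5 (by positivity)
        linarith
      have hC : av (J ∪ insert i K) (fun y => tl (insert i J) (d - 1) f y ^ 2) x ≤
          10 ^ #K * ε (d - (#K + 1)) := by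
        have h1 : J ∪ insert i K = insert i J ∪ K := by
          rw [Finset.union_insert, Finset.insert_union]
        rw [h1]
        have h2 := ih (insert i J) (d - 1) (by omega) x
        have h4 : d - 1 - #K = d - (#K + 1) := by omega
        rwa [h4] at h2
      have hD : ∀ y, tl J d f y ^ 2 ≤
          2 * tl (insert i J) (d - 1) f y ^ 2 + 2 * L y ^ 2 := by
        intro y
        rw [tl_split hJ hd1 f y]
        simp only [hL]
        nlinarith [sq_nonneg (tl (insert i J) (d - 1) f y + layer J i d f y)]
      refine (av_mono (J ∪ insert i K) hD x).trans ?_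
      rw [av_add, av_const_mul, av_const_mul, pow_succ]
      linarith

end

end Pool.Agent.E25B
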