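import Mathlib

/-!
Cube lemma: for a DNF of width `w` on the cube `Finset ι`,
`∑_{|S| = s} #{a : ∂_S G (a) ≠ 0} ≤ 2^{|ι|} (8 w)^s`.
-/

open Finset

namespace Pool.Agent.E25B.CubeAux

section Cube

variable {ι : Type*} [DecidableEq ι]

/-- indicator of `some term of the list is true at z`. -/
noncomputable def cubeG (l : List (Finset ι × (Finset ι → Bool))) (z : Finset ι) : ℤ :=
  open Classical in if ∃ t ∈ l, t.2 z = true then 1 else 0

/-- discrete derivative in the directions `S` at `a` (up to sign). -/
noncomputable def cubeD (l : List (Finset ι × (Finset ι → Bool))) (S a : Finset ι) : ℤ :=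
  ∑ T ∈ S.powerset, (-1) ^ T.card * cubeG l ((a \ S) ∪ T)

/-- the encoding predicate. -/
inductive CubeEnc (l : List (Finset ι × (Finset ι → Bool))) : Finset ι → Finset ι → Prop
  | nil (z : Finset ι) : CubeEnc l ∅ z
  | cons (S z : Finset ι) (t : Finset ι × (Finset ι → Bool)) (P : Finset ι)
      (h1 : l.find? (fun t => t.2 z) = some t) (h2 : (S ∩ t.1).Nonempty) (h3 : P ⊆ S ∩ t.1)
      (h4 : CubeEnc l (S \ t.1) ((z \ (S ∩ t.1)) ∪ P)) : CubeEnc l S z

theorem cube_geom (w s : ℕ) :
    (∑ j ∈ Finset.Icc 1 s, (2 * w) ^ j * (4 * w) ^ (s - j)) + (2 * w) ^ s ≤ (4 * w) ^ s := by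
  induction s with
  | zero => simp
  | succ s ih =>
    rw [Finset.sum_Icc_succ_top (by omega)]
    have e1 : ∑ j ∈ Finset.Icc 1 s, (2 * w) ^ j * (4 * w) ^ (s + 1 - j)
        = (4 * w) * ∑ j ∈ Finset.Icc 1 s, (2 * w) ^ j * (4 * w) ^ (s - j) := by
      rw [Finset.mul_sum]
      refine Finset.sum_congr rfl (fun j hj => ?_)
      rw [Finset.mem_Icc] at hj
      rw [Nat.sub_add_comm hj.2, pow_succ]
      ring
    rw [e1]
    have h := Nat.mul_le_mul_left (4 * w) ih
    calc _ = (4 * w) * ((∑ j ∈ Finset.Icc 1 s, (2 * w) ^ j * (4 * w) ^ (s - j)) + (2 * w) ^ s) := by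
          simp only [Nat.sub_self, pow_zero, mul_one]
          ring
      _ ≤ _ := h
      _ = _ := by ring

/-- sub-cube splitting of the derivative. -/
theorem cubeD_split (l : List (Finset ι × (Finset ι → Bool))) (S a J : Finset ι) :
    cubeD l S a = ∑ P ∈ (S ∩ J).powerset, (-1) ^ P.card * cubeD l (S \ J) ((a \ S) ∪ P) := by
  classical
  unfold cubeD
  simp_rw [Finset.mul_sum]
  rw [← Finset.sum_product']
  symm
  refine Finset.sum_bij' (fun x _ => x.1 ∪ x.2) (fun T _ => (T ∩ J, T \ J)) ?_ ?_ ?_ ?_ ?_
  · rintro ⟨P, Q⟩ h
    simp only [Finset.mem_product, Finset.mem_powerset] at h ⊢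
    exact Finset.union_subset (h.1.trans Finset.inter_subset_left)
      (h.2.trans Finset.sdiff_subset)
  · intro T h
    simp only [Finset.mem_product, Finset.mem_powerset] at h ⊢
    exact ⟨Finset.inter_subset_inter_right h, Finset.sdiff_subset_sdiff h le_rfl⟩
  · rintro ⟨P, Q⟩ h
    simp only [Finset.mem_product, Finset.mem_powerset] at h
    have hP : P ⊆ J := h.1.trans Finset.inter_subset_right
    have hQ : ∀ x ∈ Q, x ∉ J := fun x hx => (Finset.mem_sdiff.1 (h.2 hx)).2
    ext x
    · simp only [Finset.mem_inter, Finset.mem_union]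
      constructor
      · rintro ⟨h1 | h1, h2⟩
        · exact h1
        · exact absurd h2 (hQ x h1)
      · exact fun hx => ⟨Or.inl hx, hP hx⟩
    · simp only [Finset.mem_sdiff, Finset.mem_union]
      constructor
      · rintro ⟨h1 | h1, h2⟩
        · exact absurd (hP h1) h2
        · exact h1
      · exact fun hx => ⟨Or.inr hx, hQ x hx⟩
  · intro T _
    ext x
    simp only [Finset.mem_union, Finset.mem_inter, Finset.mem_sdiff]
    tauto
  · rintro ⟨P, Q⟩ h
    simp only [Finset.mem_product, Finset.mem_powerset] at h
    have hP : P ⊆ J := h.1.trans Finset.inter_subset_right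
    have hPS : P ⊆ S := h.1.trans Finset.inter_subset_left
    have hQ : ∀ x ∈ Q, x ∉ J := fun x hx => (Finset.mem_sdiff.1 (h.2 hx)).2
    have hd : Disjoint P Q := by
      rw [Finset.disjoint_left]
      exact fun x hx hx' => hQ x hx' (hP hx)
    have e : (((a \ S) ∪ P) \ (S \ J)) ∪ Q = (a \ S) ∪ (P ∪ Q) := by
      ext x
      simp only [Finset.mem_union, Finset.mem_sdiff]
      have := @hP x
      have := @hPS x
      tauto
    simp only
    rw [Finset.card_union_of_disjoint hd, e, pow_add]
    ring

/-- if all the values on the sub-cube are equal and `S ≠ ∅` the derivative is zero. -/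
theorem cubeD_const (l : List (Finset ι × (Finset ι → Bool))) (S a : Finset ι)
    (hS : S.Nonempty) (c : ℤ) (h : ∀ z, z \ S = a \ S → cubeG l z = c) : cubeD l S a = 0 := by
  classical
  unfold cubeD
  have e : ∑ T ∈ S.powerset, (-1 : ℤ) ^ T.card * cubeG l ((a \ S) ∪ T)
      = ∑ T ∈ S.powerset, (-1 : ℤ) ^ T.card * c := by
    refine Finset.sum_congr rfl (fun T hT => ?_)
    rw [h]
    rw [Finset.mem_powerset] at hT
    ext x
    simp only [Finset.mem_union, Finset.mem_sdiff]
    have := @hT x
    tauto
  rw [e, ← Finset.sum_mul, Finset.sum_powerset_neg_one_pow_card_of_nonempty hS, zero_mul]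

/-- a non zero derivative is encoded by a point of the same sub-cube. -/
theorem cubeEnc_of_deriv (l : List (Finset ι × (Finset ι → Bool)))
    (hdep : ∀ t ∈ l, ∀ z z' : Finset ι, z ∩ t.1 = z' ∩ t.1 → t.2 z = t.2 z') :
    ∀ (S a : Finset ι), cubeD l S a ≠ 0 → ∃ z, z \ S = a \ S ∧ CubeEnc l S z := by
  classical
  intro S
  induction S using Finset.strongInduction with
  | H S ih =>
    intro a hne
    rcases Finset.eq_empty_or_nonempty S with hS | hS
    · subst hS
      exact ⟨a, rfl, CubeEnc.nil a⟩
    · rcases hf : l.find? (fun t => decide (∃ z, z \ S = a \ S ∧ t.2 z = true)) with _ | t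
      · exfalso
        rw [List.find?_eq_none] at hf
        refine hne (cubeD_const l S a hS 0 (fun z hz => ?_))
        unfold cubeG
        rw [if_neg]
        rintro ⟨t, ht, htz⟩
        exact hf t ht (by simpa using ⟨z, hz, htz⟩)
      · obtain ⟨hsat, as, bs, hl, has⟩ := List.find?_eq_some_iff_append.1 hf
        have htl : t ∈ l := by rw [hl]; simp
        obtain ⟨z0, hz0, hz0t⟩ := of_decide_eq_true hsat
        have hS1 : (S ∩ t.1).Nonempty := by
          by_contra hem
          rw [Finset.not_nonempty_iff_eq_empty] at hem
          refine hne (cubeD_const l S a hS 1 (fun z hz => ?_))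
          unfold cubeG
          rw [if_pos]
          refine ⟨t, htl, ?_⟩
          rw [← hz0t]
          refine hdep t htl z z0 ?_
          ext x
          simp only [Finset.mem_inter]
          have h1 : x ∈ t.1 → x ∉ S := fun hx hx' => by
            have : x ∈ S ∩ t.1 := Finset.mem_inter.2 ⟨hx', hx⟩
            rw [hem] at this
            exact absurd this (Finset.notMem_empty x)
          have h2 : x ∈ z \ S ↔ x ∈ z0 \ S := by rw [hz, hz0]
          simp only [Finset.mem_sdiff] at h2
          tauto
        rw [cubeD_split l S a t.1] at hne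
        obtain ⟨P, hP, hPne⟩ := Finset.exists_ne_zero_of_sum_ne_zero hne
        rw [Finset.mem_powerset] at hP
        have hD : cubeD l (S \ t.1) ((a \ S) ∪ P) ≠ 0 := fun h => hPne (by rw [h, mul_zero])
        have hlt : S \ t.1 ⊂ S := by
          rw [Finset.ssubset_iff_subset_ne]
          refine ⟨Finset.sdiff_subset, fun h => ?_⟩
          obtain ⟨x, hx⟩ := hS1
          rw [Finset.mem_inter] at hx
          have : x ∈ S \ t.1 := by rw [h]; exact hx.1
          exact (Finset.mem_sdiff.1 this).2 hx.2
        obtain ⟨z', hz', henc⟩ := ih (S \ t.1) hlt _ hD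
        have hz'' : ∀ x, x ∈ z' \ (S \ t.1) ↔ x ∈ ((a \ S) ∪ P) \ (S \ t.1) := fun x => by rw [hz']
        simp only [Finset.mem_sdiff, Finset.mem_union] at hz''
        have hz0' : ∀ x, x ∈ z0 \ S ↔ x ∈ a \ S := fun x => by rw [hz0]
        simp only [Finset.mem_sdiff] at hz0'
        have hPs : ∀ x, x ∈ P → x ∈ S ∧ x ∈ t.1 := fun x hx => by
          have := hP hx
          rwa [Finset.mem_inter] at this
        set z : Finset ι := (z' \ (S ∩ t.1)) ∪ (z0 ∩ (S ∩ t.1)) with hzdef
        have hzS : z \ S = a \ S := by
          ext x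
          simp only [hzdef, Finset.mem_union, Finset.mem_sdiff, Finset.mem_inter]
          have := hz'' x
          have := hPs x
          tauto
        have hzt : t.2 z = true := by
          rw [← hz0t]
          refine hdep t htl z z0 ?_
          ext x
          simp only [hzdef, Finset.mem_union, Finset.mem_sdiff, Finset.mem_inter]
          have := hz'' x
          have := hPs x
          have := hz0' x
          tauto
        have hfind : l.find? (fun t => t.2 z) = some t := by
          rw [List.find?_eq_some_iff_append]
          refine ⟨hzt, as, bs, hl, fun u hu => ?_⟩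
          have := has u hu
          simp only [Bool.not_eq_true', decide_eq_false_iff_not, not_exists, not_and] at this
          simpa using this z hzS
        refine ⟨z, hzS, CubeEnc.cons S z t P hfind hS1 hP ?_⟩
        have e : (z \ (S ∩ t.1)) ∪ P = z' := by
          ext x
          simp only [hzdef, Finset.mem_union, Finset.mem_sdiff, Finset.mem_inter]
          have := hz'' x
          have := hPs x
          tauto
        rw [e]
        exact henc

variable [Fintype ι]

/-- number of encodings at a point. -/
theorem cubeEnc_count (l : List (Finset ι × (Finset ι → Bool))) (w : ℕ)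
    (hw : ∀ t ∈ l, t.1.card ≤ w) :
    ∀ (s : ℕ) (z : Finset ι), (open Classical in
      ((Finset.powersetCard s (Finset.univ : Finset ι)).filter (fun S => CubeEnc l S z)).card)
        ≤ (4 * w) ^ s := by
  classical
  intro s
  induction s using Nat.strong_induction_on with
  | _ s ih =>
    intro z
    rcases Nat.eq_zero_or_pos s with hs | hs
    · subst hs
      rw [pow_zero]
      refine (Finset.card_filter_le _ _).trans ?_
      simp
    · rcases hf : l.find? (fun t => t.2 z) with _ | t
      · have : (Finset.powersetCard s (Finset.univ : Finset ι)).filter (fun S => CubeEnc l S z)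
            = ∅ := by
          rw [Finset.filter_eq_empty_iff]
          intro S hS henc
          rw [Finset.mem_powersetCard] at hS
          cases henc with
          | nil => simp at hS; omega
          | cons _ _ t P h1 h2 h3 h4 => rw [hf] at h1; cases h1
        rw [this]
        simp
      · have htl : t ∈ l := List.mem_of_find?_eq_some hf
        have hsub : (Finset.powersetCard s (Finset.univ : Finset ι)).filter
            (fun S => CubeEnc l S z) ⊆
            (Finset.Icc 1 s).biUnion (fun j => (Finset.powersetCard j t.1).biUnion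
              (fun S1 => S1.powerset.biUnion (fun P =>
                (((Finset.powersetCard (s - j) (Finset.univ : Finset ι)).filter
                  (fun S => CubeEnc l S ((z \ S1) ∪ P))).image (fun S => S1 ∪ S))))) := by
          intro S hS
          rw [Finset.mem_filter, Finset.mem_powersetCard] at hS
          obtain ⟨⟨-, hcard⟩, henc⟩ := hS
          cases henc with
          | nil => simp at hcard; omega
          | cons _ _ t' P h1 h2 h3 h4 =>
            rw [hf] at h1
            obtain rfl : t = t' := by simpa using h1
            have hle : (S ∩ t.1).card ≤ s := hcard ▸ Finset.card_le_card Finset.inter_subset_left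
            simp only [Finset.mem_biUnion, Finset.mem_Icc, Finset.mem_powersetCard,
              Finset.mem_powerset, Finset.mem_image, Finset.mem_filter]
            refine ⟨(S ∩ t.1).card, ⟨h2.card_pos, hle⟩, S ∩ t.1,
              ⟨Finset.inter_subset_right, rfl⟩, P, h3, S \ t.1, ⟨⟨Finset.subset_univ _, ?_⟩, h4⟩, ?_⟩
            · have := Finset.card_sdiff_add_card_inter S t.1
              omega
            · ext x
              simp only [Finset.mem_union, Finset.mem_inter, Finset.mem_sdiff]
              tauto
        refine (Finset.card_le_card hsub).trans ?_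
        refine (Finset.card_biUnion_le).trans ?_
        have hb : ∀ j ∈ Finset.Icc 1 s, ((Finset.powersetCard j t.1).biUnion
              (fun S1 => S1.powerset.biUnion (fun P =>
                (((Finset.powersetCard (s - j) (Finset.univ : Finset ι)).filter
                  (fun S => CubeEnc l S ((z \ S1) ∪ P))).image (fun S => S1 ∪ S))))).card
              ≤ (2 * w) ^ j * (4 * w) ^ (s - j) := by
          intro j hj
          rw [Finset.mem_Icc] at hj
          refine (Finset.card_biUnion_le_card_mul _ _ (2 ^ j * (4 * w) ^ (s - j))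
            (fun S1 hS1 => ?_)).trans ?_
          · rw [Finset.mem_powersetCard] at hS1
            refine (Finset.card_biUnion_le_card_mul _ _ ((4 * w) ^ (s - j))
              (fun P _ => ?_)).trans ?_
            · exact (Finset.card_image_le).trans (ih (s - j) (by omega) _)
            · rw [Finset.card_powerset, hS1.2]
          · rw [Finset.card_powersetCard]
            have h1 : t.1.card.choose j ≤ w ^ j :=
              (Nat.choose_le_pow _ _).trans (Nat.pow_le_pow_left (hw t htl) j)
            calc _ ≤ w ^ j * (2 ^ j * (4 * w) ^ (s - j)) := Nat.mul_le_mul_right _ h1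
              _ = _ := by rw [mul_pow]; ring
        refine (Finset.sum_le_sum hb).trans ?_
        exact (Nat.le_add_right _ _).trans (cube_geom w s)

/-- **Cube lemma.** -/
theorem cube_lemma (l : List (Finset ι × (Finset ι → Bool))) (w : ℕ)
    (hw : ∀ t ∈ l, t.1.card ≤ w)
    (hdep : ∀ t ∈ l, ∀ z z' : Finset ι, z ∩ t.1 = z' ∩ t.1 → t.2 z = t.2 z') (s : ℕ) :
    ∑ S ∈ Finset.powersetCard s (Finset.univ : Finset ι),
      (Finset.univ.filter (fun a : Finset ι => cubeD l S a ≠ 0)).card
      ≤ 2 ^ (Fintype.card ι) * (8 * w) ^ s := by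
  classical
  have h1 : ∀ S ∈ Finset.powersetCard s (Finset.univ : Finset ι),
      (Finset.univ.filter (fun a : Finset ι => cubeD l S a ≠ 0)).card
      ≤ ∑ z : Finset ι, if CubeEnc l S z then 2 ^ s else 0 := by
    intro S hS
    rw [Finset.mem_powersetCard] at hS
    have hsub : Finset.univ.filter (fun a : Finset ι => cubeD l S a ≠ 0) ⊆
        (Finset.univ.filter (fun z : Finset ι => CubeEnc l S z)).biUnion
          (fun z => Finset.univ.filter (fun a : Finset ι => a \ S = z \ S)) := by
      intro a ha
      rw [Finset.mem_filter] at ha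
      obtain ⟨z, hz, henc⟩ := cubeEnc_of_deriv l hdep S a ha.2
      simp only [Finset.mem_biUnion, Finset.mem_filter, Finset.mem_univ, true_and]
      exact ⟨z, henc, hz.symm⟩
    refine (Finset.card_le_card hsub).trans ((Finset.card_biUnion_le).trans ?_)
    rw [Finset.sum_filter]
    refine Finset.sum_le_sum (fun z _ => ?_)
    split_ifs
    · have hinj : Set.InjOn (fun a : Finset ι => a ∩ S)
          (Finset.univ.filter (fun a : Finset ι => a \ S = z \ S) : Finset (Finset ι)) := by
        intro a ha b hb hab
        simp only [Finset.coe_filter, Finset.mem_univ, true_and, Set.mem_ofPred_eq] at ha hb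
        simp only at hab
        rw [← Finset.sdiff_union_inter a S, ← Finset.sdiff_union_inter b S, hab, ha, hb]
      rw [← Finset.card_image_of_injOn hinj, ← hS.2, ← Finset.card_powerset]
      refine Finset.card_le_card ?_
      intro x hx
      simp only [Finset.mem_image] at hx
      obtain ⟨a, -, rfl⟩ := hx
      exact Finset.mem_powerset.2 Finset.inter_subset_right
    · exact le_rfl
  refine (Finset.sum_le_sum h1).trans ?_
  rw [Finset.sum_comm]
  have h2 : ∀ z ∈ (Finset.univ : Finset (Finset ι)),
      (∑ S ∈ Finset.powersetCard s (Finset.univ : Finset ι), if CubeEnc l S z then 2 ^ s else 0)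
        ≤ (4 * w) ^ s * 2 ^ s := by
    intro z _
    rw [← Finset.sum_filter, Finset.sum_const, smul_eq_mul]
    exact Nat.mul_le_mul_right _ (cubeEnc_count l w hw s z)
  refine (Finset.sum_le_sum h2).trans ?_
  rw [Finset.sum_const, Finset.card_univ, Fintype.card_finset, smul_eq_mul, ← mul_pow]
  have : 4 * w * 2 = 8 * w := by ring
  rw [this]

end Cube

end Pool.Agent.E25B.CubeAux
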