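import Mathlib
import Pool.Agent.E25B.CubeAux

/-!
# The encoding lemma for DNFs on the cube

Points of the cube are subsets `z` of `ι`.  A DNF is a list of pairs `(J, B)`, `B` a predicate on subsets that
depends only on `z ∩ J`.
-/

namespace Pool.Agent.E25B.Cube

open Finset
open scoped Classical

noncomputable section

variable {ι : Type} [Fintype ι]

/-- A term on the cube. -/
structure CTerm (ι : Type) where
  J : Finset ι
  B : Finset ι → Prop
  dep : ∀ x y : Finset ι, (∀ i ∈ J, i ∈ x ↔ i ∈ y) → (B x ↔ B y)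

/-- value of the DNF -/
def G (l : List (CTerm ι)) (z : Finset ι) : ℝ := if ∃ t ∈ l, t.B z then 1 else 0

/-- discrete derivative in the directions `S` -/
def der (S : Finset ι) (f : Finset ι → ℝ) (a : Finset ι) : ℝ :=
  ∑ T ∈ S.powerset, (-1) ^ (#T) * f ((a \ S) ∪ T)

/-- conversion to the Boolean format of `CubeAux` -/
def toB (l : List (CTerm ι)) : List (Finset ι × (Finset ι → Bool)) :=
  l.map fun t => (t.J, fun z => decide (t.B z))

lemma cubeG_toB (l : List (CTerm ι)) (z : Finset ι) :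
    ((CubeAux.cubeG (toB l) z : ℤ) : ℝ) = G l z := by
  have h : (∃ t ∈ toB l, t.2 z = true) ↔ ∃ t ∈ l, t.B z := by
    simp only [toB, List.mem_map]
    constructor
    · rintro ⟨_, ⟨t, ht, rfl⟩, hz⟩
      exact ⟨t, ht, by simpa using hz⟩
    · rintro ⟨t, ht, hz⟩
      exact ⟨_, ⟨t, ht, rfl⟩, by simpa using hz⟩
  unfold CubeAux.cubeG G
  by_cases h' : ∃ t ∈ l, t.B z
  · rw [if_pos (h.2 h'), if_pos h']; norm_num
  · rw [if_neg (fun h'' => h' (h.1 h'')), if_neg h']; norm_num

lemma cubeD_toB (l : List (CTerm ι)) (S a : Finset ι) :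
    ((CubeAux.cubeD (toB l) S a : ℤ) : ℝ) = der S (G l) a := by
  unfold CubeAux.cubeD der
  push_cast
  refine sum_congr rfl fun T _ => ?_
  rw [cubeG_toB]

/-- The total number of pairs `(S, a)`, `|S| = s`, with nonzero derivative is at most `2^n (8w)^s`. -/
theorem cube_lemma (l : List (CTerm ι)) (w : ℕ) (hw : ∀ t ∈ l, #t.J ≤ w) (s : ℕ) :
    (∑ S ∈ (univ : Finset ι).powersetCard s, (#{a : Finset ι | der S (G l) a ≠ 0} : ℝ))
      ≤ 2 ^ (Fintype.card ι) * (8 * w) ^ s := by
  have h1 : ∀ t ∈ toB l, #t.1 ≤ w := by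
    intro t ht
    simp only [toB, List.mem_map] at ht
    obtain ⟨u, hu, rfl⟩ := ht
    exact hw u hu
  have h2 : ∀ t ∈ toB l, ∀ z z' : Finset ι, z ∩ t.1 = z' ∩ t.1 → t.2 z = t.2 z' := by
    intro t ht z z' hz
    simp only [toB, List.mem_map] at ht
    obtain ⟨u, hu, rfl⟩ := ht
    have : u.B z ↔ u.B z' := u.dep z z' fun i hi => by
      have h3 : i ∈ z ∩ u.J ↔ i ∈ z' ∩ u.J := by
        have : z ∩ u.J = z' ∩ u.J := hz
        rw [this]
      simp only [mem_inter, hi, and_true] at h3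
      exact h3
    simp only [this]
  have h3 := CubeAux.cube_lemma (toB l) w h1 h2 s
  have h4 : ∀ S : Finset ι, #{a : Finset ι | der S (G l) a ≠ 0}
      = #{a : Finset ι | CubeAux.cubeD (toB l) S a ≠ 0} := by
    intro S
    congr 1
    ext a
    simp only [mem_filter, mem_univ, true_and]
    rw [← cubeD_toB]
    exact not_congr Int.cast_eq_zero
  simp only [h4]
  have h5 : ((∑ S ∈ powersetCard s (univ : Finset ι),
      #{a : Finset ι | CubeAux.cubeD (toB l) S a ≠ 0} : ℕ) : ℝ)
      ≤ ((2 ^ Fintype.card ι * (8 * w) ^ s : ℕ) : ℝ) := by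
    exact_mod_cast h3
  push_cast at h5
  exact h5

end

end Pool.Agent.E25B.Cube
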