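import Mathlib
import Pool.Agent.E25B.Basic

/-!
# DNFs on finite product spaces
-/

namespace Pool.Agent.E25B

open Finset
open scoped Classical

set_option linter.unusedSectionVars false

noncomputable section

variable {ι : Type} [Fintype ι] [DecidableEq ι] {κ : ι → Type} [∀ i, Fintype (κ i)]

/-- A term: an event depending on the coordinates in `J` only. -/
structure Term (κ : ι → Type) where
  J : Finset ι
  B : (∀ i, κ i) → Prop
  dep : ∀ x y, (∀ i ∈ J, x i = y i) → (B x ↔ B y)

/-- Indicator of a proposition. -/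
def ind (p : Prop) : ℝ := if p then 1 else 0

lemma ind_nonneg (p : Prop) : 0 ≤ ind p := by unfold ind; split_ifs <;> norm_num
lemma ind_le_one (p : Prop) : ind p ≤ 1 := by unfold ind; split_ifs <;> norm_num
lemma ind_sq (p : Prop) : ind p * ind p = ind p := by unfold ind; split_ifs <;> norm_num
lemma ind_true {p : Prop} (h : p) : ind p = 1 := if_pos h
lemma ind_false {p : Prop} (h : ¬ p) : ind p = 0 := if_neg h
lemma ind_and (p r : Prop) : ind (p ∧ r) = ind p * ind r := by
  unfold ind; by_cases h : p <;> by_cases h' : r <;> simp [h, h']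
lemma ind_congr {p r : Prop} (h : p ↔ r) : ind p = ind r := by rw [propext h]
lemma ind_mono {p r : Prop} (h : p → r) : ind p ≤ ind r := by
  unfold ind
  by_cases h1 : p
  · simp [h1, h h1]
  · simp only [h1, if_false]; split_ifs <;> norm_num

/-- The value of a DNF (a list of terms). -/
def H (l : List (Term κ)) (x : ∀ i, κ i) : ℝ := ind (∃ t ∈ l, t.B x)

/-- The number of satisfied terms. -/
def cnt (l : List (Term κ)) (x : ∀ i, κ i) : ℝ := (l.map fun t => ind (t.B x)).sum

lemma dep_term (t : Term κ) : Dep t.J (fun x => ind (t.B x)) := fun x y h => by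
  simp only [ind, t.dep x y h]

lemma H_nil (x : ∀ i, κ i) : H ([] : List (Term κ)) x = 0 := by simp [H, ind]

lemma H_cons (t : Term κ) (l : List (Term κ)) (x : ∀ i, κ i) :
    H (t :: l) x = H l x + ind (t.B x) * (1 - H l x) := by
  unfold H ind
  by_cases h : t.B x <;> by_cases h' : ∃ t ∈ l, t.B x <;> simp [h, h']

lemma cnt_cons (t : Term κ) (l : List (Term κ)) (x : ∀ i, κ i) :
    cnt (t :: l) x = ind (t.B x) + cnt l x := by simp [cnt]

lemma H_nonneg (l : List (Term κ)) (x : ∀ i, κ i) : 0 ≤ H l x := ind_nonneg _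
lemma H_le_one (l : List (Term κ)) (x : ∀ i, κ i) : H l x ≤ 1 := ind_le_one _

lemma cnt_nonneg (l : List (Term κ)) (x : ∀ i, κ i) : 0 ≤ cnt l x :=
  List.sum_nonneg (by simp only [List.mem_map]; rintro _ ⟨t, _, rfl⟩; exact ind_nonneg _)

/-- Conjunction of two terms. -/
def Term.and (t u : Term κ) : Term κ where
  J := t.J ∪ u.J
  B := fun x => t.B x ∧ u.B x
  dep := fun x y h => and_congr (t.dep x y fun i hi => h i (mem_union_left _ hi))
    (u.dep x y fun i hi => h i (mem_union_right _ hi))

/-- Conjunction of two DNFs. -/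
def conj (l m : List (Term κ)) : List (Term κ) := (l ×ˢ m).map fun p => p.1.and p.2

lemma H_conj (l m : List (Term κ)) (x : ∀ i, κ i) : H (conj l m) x = H l x * H m x := by
  unfold H
  rw [← ind_and]
  refine ind_congr ?_
  simp only [conj, List.mem_map, List.mem_product, Prod.exists]
  constructor
  · rintro ⟨_, ⟨t, u, ⟨ht, hu⟩, rfl⟩, h⟩
    exact ⟨⟨t, ht, h.1⟩, ⟨u, hu, h.2⟩⟩
  · rintro ⟨⟨t, ht, h1⟩, ⟨u, hu, h2⟩⟩
    exact ⟨_, ⟨t, u, ⟨ht, hu⟩, rfl⟩, ⟨h1, h2⟩⟩

lemma cnt_conj (l m : List (Term κ)) (x : ∀ i, κ i) : cnt (conj l m) x = cnt l x * cnt m x := by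
  induction l with
  | nil => simp [conj, cnt]
  | cons t l ih =>
    have h1 : conj (t :: l) m = (m.map fun u => t.and u) ++ conj l m := by
      simp [conj, List.product_cons, List.map_append, List.map_map, Function.comp_def]
    have h2 : cnt (m.map fun u => t.and u) x = ind (t.B x) * cnt m x := by
      simp only [cnt, List.map_map, Function.comp_def, Term.and, ind_and]
      rw [List.sum_map_mul_left]
    have h3 : cnt (conj (t :: l) m) x = cnt (m.map fun u => t.and u) x + cnt (conj l m) x := by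
      rw [h1]; simp [cnt]
    rw [h3, h2, ih, cnt_cons]; ring

lemma width_conj {l m : List (Term κ)} {w w' : ℕ} (hl : ∀ t ∈ l, #t.J ≤ w) (hm : ∀ t ∈ m, #t.J ≤ w') :
    ∀ t ∈ conj l m, #t.J ≤ w + w' := by
  intro t ht
  simp only [conj, List.mem_map, List.mem_product, Prod.exists] at ht
  obtain ⟨a, b, ⟨ha, hb⟩, rfl⟩ := ht
  exact (card_union_le _ _).trans (Nat.add_le_add (hl a ha) (hm b hb))

lemma length_conj (l m : List (Term κ)) : (conj l m).length = l.length * m.length := by
  simp only [conj, List.length_map]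
  exact List.length_product l m

/-- Restriction of a term: freeze the coordinates in `J` to those of `x`. -/
def Term.res (J : Finset ι) (x : ∀ i, κ i) (t : Term κ) : Term κ where
  J := t.J
  B := fun y => t.B (J.piecewise x y)
  dep := fun y z h => t.dep _ _ fun i hi => by
    by_cases hJ : i ∈ J
    · rw [Finset.piecewise_eq_of_mem _ _ _ hJ, Finset.piecewise_eq_of_mem _ _ _ hJ]
    · rw [Finset.piecewise_eq_of_notMem _ _ _ hJ, Finset.piecewise_eq_of_notMem _ _ _ hJ, h i hi]

lemma H_res (J : Finset ι) (x : ∀ i, κ i) (l : List (Term κ)) (y : ∀ i, κ i) :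
    H (l.map (Term.res J x)) y = H l (J.piecewise x y) := by
  unfold H
  refine ind_congr ?_
  simp only [List.mem_map]
  constructor
  · rintro ⟨_, ⟨t, ht, rfl⟩, h⟩; exact ⟨t, ht, h⟩
  · rintro ⟨t, ht, h⟩; exact ⟨_, ⟨t, ht, rfl⟩, h⟩

end

end Pool.Agent.E25B
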