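import Mathlib
import Pool.Agent.E25B.ES
import Pool.Agent.E25B.DNF
import Pool.Agent.E25B.Cube

/-!
# Fourier tails of DNFs on product spaces
-/

namespace Pool.Agent.E25B

open Finset
open scoped Classical

set_option linter.unusedSectionVars false

noncomputable section

variable {ι : Type} [Fintype ι] [DecidableEq ι] {κ : ι → Type} [∀ i, Fintype (κ i)]

lemma pow_le_pow_mul_choose (n s : ℕ) (h : s ≤ n) : n ^ s ≤ s ^ s * n.choose s := by
  have h1 : ∏ i ∈ range s, n * (s - i) ≤ ∏ i ∈ range s, s * (n - i) := by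
    refine prod_le_prod' fun i hi => ?_
    rw [mem_range] at hi
    obtain ⟨a, rfl⟩ := Nat.exists_eq_add_of_lt hi
    obtain ⟨b, rfl⟩ := Nat.exists_eq_add_of_le h
    have e1 : i + a + 1 - i = a + 1 := by omega
    have e2 : i + a + 1 + b - i = a + 1 + b := by omega
    rw [e1, e2]
    nlinarith [Nat.zero_le (i * b)]
  rw [prod_mul_distrib, prod_mul_distrib, prod_const, prod_const, card_range,
    ← Nat.descFactorial_eq_prod_range, ← Nat.descFactorial_eq_prod_range,
    Nat.descFactorial_self, Nat.descFactorial_eq_factorial_mul_choose] at h1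
  have h2 : 0 < s.factorial := Nat.factorial_pos s
  have h3 : s.factorial * n ^ s ≤ s.factorial * (s ^ s * n.choose s) := by
    calc s.factorial * n ^ s = n ^ s * s.factorial := mul_comm _ _
      _ ≤ s ^ s * (s.factorial * n.choose s) := h1
      _ = s.factorial * (s ^ s * n.choose s) := by ring
  exact Nat.le_of_mul_le_mul_left h3 h2

/-- discrete derivative along resampling -/
def DR (f : (∀ i, κ i) → ℝ) (R : Finset ι) (x y : ∀ i, κ i) : ℝ :=
  ∑ T ∈ R.powerset, (-1) ^ (#T) * f (Tᶜ.piecewise x y)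

lemma abs_DR_le (f : (∀ i, κ i) → ℝ) (hf : ∀ x, |f x| ≤ 1) (R : Finset ι) (x y : ∀ i, κ i) :
    |DR f R x y| ≤ 2 ^ (#R) := by
  unfold DR
  refine (abs_sum_le_sum_abs _ _).trans ?_
  calc ∑ T ∈ R.powerset, |(-1) ^ (#T) * f (Tᶜ.piecewise x y)|
      ≤ ∑ T ∈ R.powerset, (1 : ℝ) := by
        refine sum_le_sum fun T _ => ?_
        rw [abs_mul, abs_pow, abs_neg, abs_one, one_pow, one_mul]
        exact hf _
    _ = 2 ^ (#R) := by rw [sum_const, card_powerset, nsmul_eq_mul, mul_one]; push_cast; rfl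

/-- the second moment of the upper part of the decomposition. -/
lemma ex_superset_le [∀ i, Nonempty (κ i)] (f : (∀ i, κ i) → ℝ) (hf : ∀ x, |f x| ≤ 1)
    (R : Finset ι) :
    ∑ S : Finset ι with R ⊆ S, ex (fun x => comp ∅ S f x ^ 2)
      ≤ 4 ^ (#R) * ex (fun x => ex fun y => ind (DR f R x y ≠ 0)) := by
  rw [← ex_sum_comp_sq, ← ex_const_mul]
  refine ex_mono fun x => ?_
  rw [sum_comp_superset]
  have h1 : ∑ T ∈ R.powerset, (-1 : ℝ) ^ (#T) * av (Tᶜ) f x = ex (fun y => DR f R x y) := by
    unfold DR av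
    rw [ex_sum]
    refine sum_congr rfl fun T _ => ?_
    rw [ex_const_mul]
  rw [h1, ← ex_const_mul]
  refine (ex_sq_le _).trans (ex_mono fun y => ?_)
  by_cases h : DR f R x y = 0
  · rw [h]
    simp only [ne_eq, not_true_eq_false]
    rw [ind_false (by simp)]
    simp
  · rw [ind_true h, mul_one]
    have h2 := abs_DR_le f hf R x y
    have h3 : DR f R x y ^ 2 = |DR f R x y| ^ 2 := (sq_abs _).symm
    rw [h3]
    calc |DR f R x y| ^ 2 ≤ (2 ^ (#R)) ^ 2 := pow_le_pow_left₀ (abs_nonneg _) h2 2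
      _ = 4 ^ (#R) := by rw [← pow_mul, mul_comm, pow_mul]; norm_num

/-- the cube terms attached to a pair of points. -/
def cterm (x y : ∀ i, κ i) (t : Term κ) : Cube.CTerm ι where
  J := t.J
  B := fun z => t.B (z.piecewise x y)
  dep := fun z z' h => t.dep _ _ fun i hi => by
    by_cases hz : i ∈ z
    · have hz' := (h i hi).1 hz
      rw [Finset.piecewise_eq_of_mem _ _ _ hz, Finset.piecewise_eq_of_mem _ _ _ hz']
    · have hz' : i ∉ z' := fun h' => hz ((h i hi).2 h')
      rw [Finset.piecewise_eq_of_notMem _ _ _ hz, Finset.piecewise_eq_of_notMem _ _ _ hz']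

lemma G_cterm (x y : ∀ i, κ i) (l : List (Term κ)) (z : Finset ι) :
    Cube.G (l.map (cterm x y)) z = H l (z.piecewise x y) := by
  unfold Cube.G H ind
  have h : (∃ t ∈ l.map (cterm x y), t.B z) ↔ ∃ t ∈ l, t.B (z.piecewise x y) := by
    simp only [List.mem_map]
    constructor
    · rintro ⟨_, ⟨t, ht, rfl⟩, hz⟩
      exact ⟨t, ht, hz⟩
    · rintro ⟨t, ht, hz⟩
      exact ⟨_, ⟨t, ht, rfl⟩, hz⟩
  by_cases h' : ∃ t ∈ l, t.B (z.piecewise x y)
  · rw [if_pos (h.2 h'), if_pos h']
  · rw [if_neg (fun h'' => h' (h.1 h'')), if_neg h']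

/-- derivatives after swapping the coordinates outside `a` are derivatives on the cube. -/
lemma DR_swap (l : List (Term κ)) (R a : Finset ι) (x y : ∀ i, κ i) :
    DR (H l) R (a.piecewise x y) (a.piecewise y x)
      = (-1) ^ (#(a ∩ R)) * Cube.der R (Cube.G (l.map (cterm x y))) a := by
  unfold DR Cube.der
  rw [mul_sum]
  refine Finset.sum_bij' (fun T _ => symmDiff (a ∩ R) T) (fun T _ => symmDiff (a ∩ R) T)
    ?_ ?_ ?_ ?_ ?_
  · intro T hT
    rw [mem_powerset] at hT ⊢
    intro i hi
    rw [mem_symmDiff] at hi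
    rcases hi with ⟨h, -⟩ | ⟨h, -⟩
    · exact (mem_inter.1 h).2
    · exact hT h
  · intro T hT
    rw [mem_powerset] at hT ⊢
    intro i hi
    rw [mem_symmDiff] at hi
    rcases hi with ⟨h, -⟩ | ⟨h, -⟩
    · exact (mem_inter.1 h).2
    · exact hT h
  · intro T _
    exact symmDiff_symmDiff_cancel_left _ _
  · intro T _
    exact symmDiff_symmDiff_cancel_left _ _
  · intro T hT
    rw [mem_powerset] at hT
    rw [G_cterm]
    have e1 : Tᶜ.piecewise (a.piecewise x y) (a.piecewise y x)
        = ((a \ R) ∪ symmDiff (a ∩ R) T).piecewise x y := by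
      funext i
      have hmem : i ∈ (a \ R) ∪ symmDiff (a ∩ R) T ↔ ((i ∈ a ∧ i ∉ T) ∨ (i ∉ a ∧ i ∈ T)) := by
        rw [mem_union, mem_sdiff, mem_symmDiff, mem_inter]
        have := @hT i
        tauto
      by_cases h1 : i ∈ T
      · have h1' : i ∉ Tᶜ := by simpa using h1
        rw [Finset.piecewise_eq_of_notMem _ _ _ h1']
        by_cases h2 : i ∈ a
        · rw [Finset.piecewise_eq_of_mem _ _ _ h2,
            Finset.piecewise_eq_of_notMem _ _ _ (fun h => by rw [hmem] at h; tauto)]
        · rw [Finset.piecewise_eq_of_notMem _ _ _ h2,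
            Finset.piecewise_eq_of_mem _ _ _ (by rw [hmem]; tauto)]
      · have h1' : i ∈ Tᶜ := by simpa using h1
        rw [Finset.piecewise_eq_of_mem _ _ _ h1']
        by_cases h2 : i ∈ a
        · rw [Finset.piecewise_eq_of_mem _ _ _ h2,
            Finset.piecewise_eq_of_mem _ _ _ (by rw [hmem]; tauto)]
        · rw [Finset.piecewise_eq_of_notMem _ _ _ h2,
            Finset.piecewise_eq_of_notMem _ _ _ (fun h => by rw [hmem] at h; tauto)]
    rw [e1, ← mul_assoc]
    have e2 : H l (((a \ R) ∪ symmDiff (a ∩ R) T).piecewise x y)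
        = H l (Finset.piecewise (@Union.union _ (@Finset.instUnion ι fun a b => Classical.propDecidable (a = b))
          (@SDiff.sdiff _ (@Finset.instSDiff ι fun a b => Classical.propDecidable (a = b)) a R)
          (symmDiff (a ∩ R) T)) x y) := by
      refine congrArg (H l) ?_
      funext i
      have h1 : i ∈ (@Union.union _ (@Finset.instUnion ι fun a b => Classical.propDecidable (a = b))
          (@SDiff.sdiff _ (@Finset.instSDiff ι fun a b => Classical.propDecidable (a = b)) a R)
          (symmDiff (a ∩ R) T)) ↔ i ∈ (a \ R) ∪ symmDiff (a ∩ R) T := by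
        rw [@Finset.mem_union, @Finset.mem_sdiff, Finset.mem_union, Finset.mem_sdiff]
      by_cases h2 : i ∈ (a \ R) ∪ symmDiff (a ∩ R) T
      · rw [Finset.piecewise_eq_of_mem _ _ _ h2, Finset.piecewise_eq_of_mem _ _ _ (h1.2 h2)]
      · rw [Finset.piecewise_eq_of_notMem _ _ _ h2,
          Finset.piecewise_eq_of_notMem _ _ _ (fun h => h2 (h1.1 h))]
    rw [e2]
    refine congrArg₂ (· * ·) ?_ rfl
    -- signs
    have h3 : #(symmDiff (a ∩ R) T) + 2 * #((a ∩ R) ∩ T) = #(a ∩ R) + #T := by
      have h4 : #(symmDiff (a ∩ R) T) = #((a ∩ R) \ T) + #(T \ (a ∩ R)) := by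
        rw [symmDiff_def, sup_eq_union]
        exact card_union_of_disjoint (disjoint_sdiff_sdiff)
      have h5 := Finset.card_sdiff_add_card_inter (a ∩ R) T
      have h6 := Finset.card_sdiff_add_card_inter T (a ∩ R)
      rw [Finset.inter_comm T (a ∩ R)] at h6
      omega
    have h7 : (-1 : ℝ) ^ (#(symmDiff (a ∩ R) T)) = (-1) ^ (#(a ∩ R) + #T) := by
      rw [← h3, pow_add, pow_mul]
      norm_num
    rw [h7, pow_add, ← mul_assoc, ← pow_add, ← two_mul, pow_mul]
    norm_num

/-- the total probability of a nonzero derivative. -/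
lemma sum_prob_le [∀ i, Nonempty (κ i)] (l : List (Term κ)) (w : ℕ) (hw : ∀ t ∈ l, #t.J ≤ w)
    (s : ℕ) :
    ∑ R ∈ (univ : Finset ι).powersetCard s, ex (fun x => ex fun y => ind (DR (H l) R x y ≠ 0))
      ≤ (8 * w) ^ s := by
  have hn : (0 : ℝ) < 2 ^ (Fintype.card ι) := by positivity
  have h1 : ∀ R, ex (fun x => ex fun y => ind (DR (H l) R x y ≠ 0))
      = ex (fun x => ex fun y => (∑ a : Finset ι,
          ind (DR (H l) R (a.piecewise x y) (a.piecewise y x) ≠ 0)) / 2 ^ (Fintype.card ι)) := by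
    intro R
    have h2 : ∀ a : Finset ι, ex (fun x => ex fun y =>
        ind (DR (H l) R (a.piecewise x y) (a.piecewise y x) ≠ 0))
        = ex (fun x => ex fun y => ind (DR (H l) R x y ≠ 0)) :=
      fun a => ex_swap a (fun x y => ind (DR (H l) R x y ≠ 0))
    have h3 : ex (fun x => ex fun y => (∑ a : Finset ι,
          ind (DR (H l) R (a.piecewise x y) (a.piecewise y x) ≠ 0)) / 2 ^ (Fintype.card ι))
        = (∑ a : Finset ι, ex (fun x => ex fun y =>
          ind (DR (H l) R (a.piecewise x y) (a.piecewise y x) ≠ 0))) * (2 ^ (Fintype.card ι))⁻¹ := by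
      simp only [div_eq_mul_inv]
      simp only [ex_mul_const, ex_sum]
    rw [h3]
    simp only [h2]
    rw [sum_const, card_univ, Fintype.card_finset, nsmul_eq_mul]
    push_cast
    field_simp
  simp only [h1]
  rw [← ex_sum]
  refine ex_le_of_le fun x => ?_
  rw [← ex_sum]
  refine ex_le_of_le fun y => ?_
  rw [← sum_div, div_le_iff₀ hn]
  have h4 := Cube.cube_lemma (l.map (cterm x y)) w (by
    intro t ht
    rw [List.mem_map] at ht
    obtain ⟨u, hu, rfl⟩ := ht
    exact hw u hu) s
  refine le_trans (le_of_eq ?_) (h4.trans (le_of_eq (mul_comm _ _)))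
  refine sum_congr rfl fun R _ => ?_
  rw [Finset.card_filter]
  push_cast
  refine sum_congr rfl fun a _ => ?_
  rw [DR_swap]
  have h5 : ((-1 : ℝ) ^ (#(a ∩ R)) * Cube.der R (Cube.G (l.map (cterm x y))) a ≠ 0)
      ↔ Cube.der R (Cube.G (l.map (cterm x y))) a ≠ 0 := by
    rw [mul_ne_zero_iff]
    exact ⟨fun h => h.2, fun h => ⟨pow_ne_zero _ (by norm_num), h⟩⟩
  rw [ind_congr h5]
  unfold ind
  by_cases h6 : Cube.der R (Cube.G (l.map (cterm x y))) a ≠ 0 <;> simp [h6]

/-- the weighted Parseval sum. -/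
lemma choose_sum_le [∀ i, Nonempty (κ i)] (l : List (Term κ)) (w : ℕ) (hw : ∀ t ∈ l, #t.J ≤ w)
    (s : ℕ) :
    ∑ S : Finset ι, ((#S).choose s : ℝ) * ex (fun x => comp ∅ S (H l) x ^ 2) ≤ (32 * w) ^ s := by
  have h1 : ∑ S : Finset ι, ((#S).choose s : ℝ) * ex (fun x => comp ∅ S (H l) x ^ 2)
      = ∑ R ∈ (univ : Finset ι).powersetCard s,
          ∑ S : Finset ι with R ⊆ S, ex (fun x => comp ∅ S (H l) x ^ 2) := by
    have h2 : ∀ S : Finset ι, ((#S).choose s : ℝ) * ex (fun x => comp ∅ S (H l) x ^ 2)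
        = ∑ R ∈ (univ : Finset ι).powersetCard s,
          if R ⊆ S then ex (fun x => comp ∅ S (H l) x ^ 2) else 0 := by
      intro S
      rw [← sum_filter, sum_const, nsmul_eq_mul]
      congr 2
      rw [← card_powersetCard]
      congr 1
      ext R
      simp only [mem_powersetCard, mem_filter, subset_univ, true_and]
      tauto
    rw [sum_congr rfl fun S _ => h2 S, sum_comm]
    refine sum_congr rfl fun R _ => ?_
    rw [sum_filter]
  rw [h1]
  have hf : ∀ x, |H l x| ≤ 1 := fun x => by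
    rw [abs_of_nonneg (H_nonneg l x)]
    exact H_le_one l x
  calc ∑ R ∈ (univ : Finset ι).powersetCard s,
          ∑ S : Finset ι with R ⊆ S, ex (fun x => comp ∅ S (H l) x ^ 2)
      ≤ ∑ R ∈ (univ : Finset ι).powersetCard s,
          4 ^ s * ex (fun x => ex fun y => ind (DR (H l) R x y ≠ 0)) := by
        refine sum_le_sum fun R hR => ?_
        have := ex_superset_le (H l) hf R
        rwa [(mem_powersetCard.1 hR).2] at this
    _ = 4 ^ s * ∑ R ∈ (univ : Finset ι).powersetCard s,
          ex (fun x => ex fun y => ind (DR (H l) R x y ≠ 0)) := by rw [mul_sum]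
    _ ≤ 4 ^ s * (8 * w) ^ s := mul_le_mul_of_nonneg_left (sum_prob_le l w hw s) (by positivity)
    _ = (32 * w) ^ s := by rw [← mul_pow]; congr 1; ring

/-- unconditional tail bound. -/
lemma tail_empty [∀ i, Nonempty (κ i)] (l : List (Term κ)) (w : ℕ) (hw : ∀ t ∈ l, #t.J ≤ w)
    (s : ℕ) (hs : 1 ≤ s) (d : ℕ) :
    ex (fun y => tl ∅ d (H l) y ^ 2) ≤ (32 * w * s / (d + 1)) ^ s := by
  have h1 : ex (fun y => tl ∅ d (H l) y ^ 2)
      = ∑ S : Finset ι with d < #S, ex (fun x => comp ∅ S (H l) x ^ 2) := by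
    unfold tl
    rw [ex_sum_comp_sq, compl_empty, powerset_univ]
  have hnn : ∀ S : Finset ι, 0 ≤ ex (fun x => comp ∅ S (H l) x ^ 2) :=
    fun S => ex_nonneg fun x => sq_nonneg _
  have hd : (0 : ℝ) < (d : ℝ) + 1 := by positivity
  rcases Nat.eq_zero_or_pos w with hw0 | hwpos
  · -- width zero
    subst hw0
    have h2 := choose_sum_le l 0 hw 1
    simp only [Nat.cast_zero, mul_zero, pow_one] at h2
    have h3 : ∑ S : Finset ι with d < #S, ex (fun x => comp ∅ S (H l) x ^ 2)
        ≤ ∑ S : Finset ι, ((#S).choose 1 : ℝ) * ex (fun x => comp ∅ S (H l) x ^ 2) := by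
      rw [sum_filter]
      refine sum_le_sum fun S _ => ?_
      split_ifs with h
      · rw [Nat.choose_one_right]
        have : (1 : ℝ) ≤ #S := by exact_mod_cast (by omega : 1 ≤ #S)
        exact le_mul_of_one_le_left (hnn S) this
      · exact mul_nonneg (Nat.cast_nonneg _) (hnn S)
    rw [h1]
    refine (h3.trans h2).trans (le_of_eq ?_)
    rw [Nat.cast_zero, mul_zero, zero_mul, zero_div, zero_pow (by omega)]
  · rcases Nat.lt_or_ge (d + 1) s with hds | hds
    · -- trivial range
      have h2 : ex (fun y => tl ∅ d (H l) y ^ 2) ≤ 1 := by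
        rw [h1]
        have h3 : ∑ S : Finset ι with d < #S, ex (fun x => comp ∅ S (H l) x ^ 2)
            ≤ ∑ S : Finset ι, ex (fun x => comp ∅ S (H l) x ^ 2) :=
          sum_le_sum_of_subset_of_nonneg (filter_subset _ _) fun S _ _ => hnn S
        refine h3.trans ?_
        rw [parseval]
        refine ex_le_of_le fun x => ?_
        exact pow_le_one₀ (H_nonneg l x) (H_le_one l x)
      refine h2.trans (one_le_pow₀ ?_)
      rw [le_div_iff₀ hd]
      have h4 : (1 : ℝ) ≤ w := by exact_mod_cast hwpos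
      have h5 : ((d : ℝ) + 1) ≤ s := by exact_mod_cast hds.le
      nlinarith
    · -- main range
      have h2 := choose_sum_le l w hw s
      have hs0 : (0 : ℝ) < s := by exact_mod_cast hs
      have h3 : (((d : ℝ) + 1) / s) ^ s * ∑ S : Finset ι with d < #S,
          ex (fun x => comp ∅ S (H l) x ^ 2)
          ≤ ∑ S : Finset ι, ((#S).choose s : ℝ) * ex (fun x => comp ∅ S (H l) x ^ 2) := by
        rw [mul_sum, sum_filter]
        refine sum_le_sum fun S _ => ?_
        split_ifs with h
        · refine mul_le_mul_of_nonneg_right ?_ (hnn S)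
          have h4 : ((#S : ℝ) / s) ^ s ≤ ((#S).choose s : ℝ) := by
            have h5 : (s : ℝ) ^ s * ((#S).choose s : ℝ) ≥ (#S : ℝ) ^ s := by
              exact_mod_cast pow_le_pow_mul_choose (#S) s (by omega)
            rw [div_pow, div_le_iff₀ (by positivity)]
            linarith
          refine le_trans (pow_le_pow_left₀ (by positivity) ?_ s) h4
          refine div_le_div_of_nonneg_right ?_ hs0.le
          exact_mod_cast h
        · exact mul_nonneg (Nat.cast_nonneg _) (hnn S)
      rw [h1]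
      have h6 : (0 : ℝ) < (((d : ℝ) + 1) / s) ^ s := by positivity
      have h7 := h3.trans h2
      rw [mul_comm, ← le_div_iff₀ h6] at h7
      refine h7.trans (le_of_eq ?_)
      rw [← div_pow]
      congr 1
      field_simp

/-- Tail bound for DNFs of width `w`, conditional on the coordinates in `J`, pointwise. -/
theorem tail_bound [∀ i, Nonempty (κ i)] (l : List (Term κ)) (w : ℕ) (hw : ∀ t ∈ l, #t.J ≤ w)
    (s : ℕ) (hs : 1 ≤ s) (J : Finset ι) (d : ℕ) (x : ∀ i, κ i) :
    av J (fun y => tl J d (H l) y ^ 2) x ≤ (32 * w * s / (d + 1)) ^ s := by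
  have h1 : av J (fun y => tl J d (H l) y ^ 2) x
      = ex (fun y => tl ∅ d (H (l.map (Term.res J x))) y ^ 2) := by
    unfold av
    refine ex_congr fun y => ?_
    show tl J d (H l) (J.piecewise x y) ^ 2 = _
    rw [tl_piecewise]
    have h2 : (fun z => H l (J.piecewise x z)) = H (l.map (Term.res J x)) := by
      funext z
      rw [H_res]
    rw [h2]
  rw [h1]
  refine tail_empty _ w ?_ s hs d
  intro t ht
  rw [List.mem_map] at ht
  obtain ⟨u, hu, rfl⟩ := ht
  exact hw u hu

end

end Pool.Agent.E25B
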