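import Mathlib
import Pool.Agent.E25B.Tail
import Pool.Agent.E25B.Restrict

/-!
# Sandwiching approximants for DNFs
-/

namespace Pool.Agent.E25B

open Finset
open scoped Classical

set_option linter.unusedSectionVars false

noncomputable section

variable {ι : Type} [Fintype ι] [DecidableEq ι] {κ : ι → Type} [∀ i, Fintype (κ i)]

/-- `CF q f c`: `f` is a finite sum of bounded functions of few coordinates, of total cost at most `c`,
where a function bounded by `B` and depending on the coordinates in `T` costs `B * ∏_{i ∈ T} q i`. -/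
inductive CF (q : ι → ℕ) : ((∀ i, κ i) → ℝ) → ℝ → Prop
  | atom (T : Finset ι) (f : (∀ i, κ i) → ℝ) (B : ℝ) (hd : Dep T f) (hb : ∀ x, |f x| ≤ B) :
      CF q f (B * ∏ i ∈ T, (q i : ℝ))
  | add (f g : (∀ i, κ i) → ℝ) (c c' : ℝ) : CF q f c → CF q g c' → CF q (fun x => f x + g x) (c + c')
  | mono (f : (∀ i, κ i) → ℝ) (c c' : ℝ) : CF q f c → c ≤ c' → CF q f c'

/-! ## Closure properties of `CF` -/

lemma dep_const (T : Finset ι) (c : ℝ) : Dep (κ := κ) T (fun _ => c) := fun _ _ _ => rfl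

lemma Dep.mono' {S T : Finset ι} (h : S ⊆ T) {f : (∀ i, κ i) → ℝ} (hf : Dep S f) : Dep T f :=
  fun x y hxy => hf x y fun i hi => hxy i (h hi)

lemma Dep.mul {S T : Finset ι} {f g : (∀ i, κ i) → ℝ} (hf : Dep S f) (hg : Dep T g) :
    Dep (S ∪ T) (fun x => f x * g x) := fun x y hxy => by
  show f x * g x = f y * g y
  rw [hf x y fun i hi => hxy i (mem_union_left _ hi), hg x y fun i hi => hxy i (mem_union_right _ hi)]

lemma CF.nonneg [∀ i, Nonempty (κ i)] {q : ι → ℕ} {f : (∀ i, κ i) → ℝ} {c : ℝ} (h : CF q f c) :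
    0 ≤ c := by
  induction h with
  | atom T f B hd hb =>
    have hB : 0 ≤ B := (abs_nonneg _).trans (hb (Classical.arbitrary _))
    positivity
  | add f g c c' _ _ ih1 ih2 => exact add_nonneg ih1 ih2
  | mono f c c' _ hcc ih => exact ih.trans hcc

lemma CF.const (q : ι → ℕ) {c : ℝ} (B : ℝ) (hc : |c| ≤ B) : CF (κ := κ) q (fun _ => c) B := by
  have h := CF.atom (κ := κ) (q := q) ∅ (fun _ => c) B (dep_const _ _) (fun _ => hc)
  rwa [prod_empty, mul_one] at h

lemma CF.mul_atom [∀ i, Nonempty (κ i)] {q : ι → ℕ} (hq1 : ∀ i, 1 ≤ q i) (T : Finset ι)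
    (f : (∀ i, κ i) → ℝ) (B : ℝ) (hd : Dep T f) (hb : ∀ x, |f x| ≤ B) {g : (∀ i, κ i) → ℝ} {c' : ℝ}
    (hg : CF q g c') : CF q (fun x => f x * g x) (B * (∏ i ∈ T, (q i : ℝ)) * c') := by
  have hB : 0 ≤ B := (abs_nonneg _).trans (hb (Classical.arbitrary _))
  have hP : ∀ T : Finset ι, 1 ≤ ∏ i ∈ T, (q i : ℝ) := fun T => by
    have h : ∏ i ∈ T, (1 : ℝ) ≤ ∏ i ∈ T, (q i : ℝ) :=
      prod_le_prod (fun _ _ => zero_le_one) (fun i _ => by exact_mod_cast hq1 i)
    simpa using h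
  induction hg with
  | atom T' g B' hd' hb' =>
    have hB' : 0 ≤ B' := (abs_nonneg _).trans (hb' (Classical.arbitrary _))
    refine CF.mono _ _ _ (CF.atom (T ∪ T') _ (B * B') (hd.mul hd') ?_) ?_
    · intro x
      rw [abs_mul]
      exact mul_le_mul (hb x) (hb' x) (abs_nonneg _) hB
    · have h1 : (∏ i ∈ T ∪ T', (q i : ℝ)) ≤ (∏ i ∈ T, (q i : ℝ)) * ∏ i ∈ T', (q i : ℝ) := by
        rw [← prod_union_inter]
        exact le_mul_of_one_le_right (zero_le_one.trans (hP _)) (hP _)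
      calc B * B' * ∏ i ∈ T ∪ T', (q i : ℝ)
          ≤ B * B' * ((∏ i ∈ T, (q i : ℝ)) * ∏ i ∈ T', (q i : ℝ)) :=
            mul_le_mul_of_nonneg_left h1 (mul_nonneg hB hB')
        _ = B * (∏ i ∈ T, (q i : ℝ)) * (B' * ∏ i ∈ T', (q i : ℝ)) := by ring
  | add g g' c c' _ _ ih1 ih2 =>
    have h := CF.add _ _ _ _ ih1 ih2
    rw [← mul_add] at h
    have h2 : (fun x => f x * (g x + g' x)) = fun x => f x * g x + f x * g' x := by
      funext x; ring
    show CF q (fun x => f x * (g x + g' x)) _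
    rw [h2]
    exact h
  | mono g c c' _ hcc ih =>
    exact CF.mono _ _ _ ih (mul_le_mul_of_nonneg_left hcc (mul_nonneg hB (zero_le_one.trans (hP T))))

lemma CF.mul [∀ i, Nonempty (κ i)] {q : ι → ℕ} (hq1 : ∀ i, 1 ≤ q i) {f g : (∀ i, κ i) → ℝ} {c c' : ℝ}
    (hf : CF q f c) (hg : CF q g c') : CF q (fun x => f x * g x) (c * c') := by
  induction hf with
  | atom T f B hd hb => exact CF.mul_atom hq1 T f B hd hb hg
  | add f f' c c'' _ _ ih1 ih2 =>
    have h := CF.add _ _ _ _ ih1 ih2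
    rw [← add_mul] at h
    have h2 : (fun x => (f x + f' x) * g x) = fun x => f x * g x + f' x * g x := by
      funext x; ring
    show CF q (fun x => (f x + f' x) * g x) _
    rw [h2]
    exact h
  | mono f c c'' _ hcc ih =>
    exact CF.mono _ _ _ ih (mul_le_mul_of_nonneg_right hcc hg.nonneg)

lemma CF.neg [∀ i, Nonempty (κ i)] {q : ι → ℕ} (hq1 : ∀ i, 1 ≤ q i) {f : (∀ i, κ i) → ℝ} {c : ℝ}
    (hf : CF q f c) : CF q (fun x => - f x) c := by
  have h := CF.mul hq1 (CF.const (κ := κ) q (c := -1) 1 (by norm_num)) hf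
  rw [one_mul] at h
  have h2 : (fun x => - f x) = fun x => (-1) * f x := by funext x; ring
  rw [h2]; exact h

lemma CF.sub [∀ i, Nonempty (κ i)] {q : ι → ℕ} (hq1 : ∀ i, 1 ≤ q i) {f g : (∀ i, κ i) → ℝ} {c c' : ℝ}
    (hf : CF q f c) (hg : CF q g c') : CF q (fun x => f x - g x) (c + c') := by
  have h := CF.add _ _ _ _ hf (hg.neg hq1)
  have h2 : (fun x => f x - g x) = fun x => f x + - g x := by funext x; ring
  rw [h2]; exact h

lemma CF.sum {α : Type} {q : ι → ℕ} (s : Finset α) (f : α → (∀ i, κ i) → ℝ) (c : α → ℝ)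
    (h : ∀ a ∈ s, CF q (f a) (c a)) : CF q (fun x => ∑ a ∈ s, f a x) (∑ a ∈ s, c a) := by
  induction s using Finset.induction_on with
  | empty =>
    simp only [sum_empty]
    exact CF.const q 0 (by simp)
  | insert a s ha ih =>
    simp only [sum_insert ha]
    exact CF.add _ _ _ _ (h a (mem_insert_self _ _)) (ih fun b hb => h b (mem_insert_of_mem hb))

/-! ## Low degree part -/

/-- The part of `f` of degree at most `d` relative to `J`. -/
def low (J : Finset ι) (d : ℕ) (f : (∀ i, κ i) → ℝ) (x : ∀ i, κ i) : ℝ :=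
  ∑ S ∈ Jᶜ.powerset with #S ≤ d, comp J S f x

lemma sub_low [∀ i, Nonempty (κ i)] (J : Finset ι) (d : ℕ) (f : (∀ i, κ i) → ℝ) (x : ∀ i, κ i) :
    f x - low J d f x = tl J d f x := by
  have h := sum_comp J f x
  have h2 := sum_filter_add_sum_filter_not Jᶜ.powerset (fun S => #S ≤ d) (fun S => comp J S f x)
  have h3 : (Jᶜ.powerset.filter fun S => ¬ #S ≤ d) = Jᶜ.powerset.filter fun S => d < #S :=
    filter_congr fun S _ => not_le
  rw [h3] at h2
  unfold low tl
  rw [← h, ← h2]; ring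

lemma abs_av_le [∀ i, Nonempty (κ i)] (T : Finset ι) {f : (∀ i, κ i) → ℝ} (hf : ∀ x, |f x| ≤ 1)
    (x : ∀ i, κ i) : |av T f x| ≤ 1 :=
  (abs_ex_le _).trans (ex_le_of_le fun _ => hf _)

lemma abs_comp_le [∀ i, Nonempty (κ i)] (J S : Finset ι) {f : (∀ i, κ i) → ℝ} (hf : ∀ x, |f x| ≤ 1)
    (x : ∀ i, κ i) : |comp J S f x| ≤ 2 ^ #S := by
  unfold comp
  refine (abs_sum_le_sum_abs _ _).trans ?_
  calc ∑ T ∈ S.powerset, |(-1) ^ (#(S \ T)) * av (J ∪ T) f x|
      ≤ ∑ T ∈ S.powerset, (1 : ℝ) := sum_le_sum fun T _ => by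
        rw [abs_mul, abs_pow, abs_neg, abs_one, one_pow, one_mul]
        exact abs_av_le _ hf x
    _ = 2 ^ #S := by simp

lemma dep_compF [∀ i, Nonempty (κ i)] (J S : Finset ι) (f : (∀ i, κ i) → ℝ) :
    Dep (J ∪ S) (comp J S f) := fun x y h => by
  unfold comp
  refine sum_congr rfl fun T hT => ?_
  congr 1
  exact dep_av (J ∪ T) f x y fun i hi => h i (union_subset_union_right (mem_powerset.1 hT) hi)

lemma cost_low [∀ i, Nonempty (κ i)] (q : ι → ℕ) (z : ℕ) (hz : 2 ≤ z)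
    (hι : Fintype.card ι + 1 ≤ z) (hq : ∀ i, q i ≤ z) (J : Finset ι) (d : ℕ)
    {f : (∀ i, κ i) → ℝ} (hf : ∀ x, |f x| ≤ 1) :
    CF q (low J d f) ((z : ℝ) ^ (#J + 3 * d)) := by
  have h1 : CF q (low J d f)
      (∑ S ∈ Jᶜ.powerset with #S ≤ d, (2 ^ #S : ℝ) * ∏ i ∈ J ∪ S, (q i : ℝ)) :=
    CF.sum _ _ _ fun S _ => CF.atom (J ∪ S) _ _ (dep_compF J S f) (abs_comp_le J S hf)
  refine CF.mono _ _ _ h1 ?_
  have hz0 : (0 : ℝ) ≤ z := Nat.cast_nonneg _
  have hz1 : (1 : ℝ) ≤ z := by exact_mod_cast (by omega : 1 ≤ z)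
  set n := Fintype.card ι with hn
  have h2 : ∀ S : Finset ι, (2 ^ #S : ℝ) * ∏ i ∈ J ∪ S, (q i : ℝ) ≤ z ^ #J * (2 * z) ^ #S := by
    intro S
    have h3 : ∏ i ∈ J ∪ S, (q i : ℝ) ≤ z ^ #(J ∪ S) := by
      calc ∏ i ∈ J ∪ S, (q i : ℝ) ≤ ∏ i ∈ J ∪ S, (z : ℝ) :=
            prod_le_prod (fun _ _ => Nat.cast_nonneg _) (fun i _ => by exact_mod_cast hq i)
        _ = z ^ #(J ∪ S) := by rw [prod_const]
    have h4 : (z : ℝ) ^ #(J ∪ S) ≤ z ^ (#J + #S) := pow_le_pow_right₀ hz1 (card_union_le _ _)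
    calc (2 ^ #S : ℝ) * ∏ i ∈ J ∪ S, (q i : ℝ) ≤ 2 ^ #S * z ^ (#J + #S) :=
          mul_le_mul_of_nonneg_left (h3.trans h4) (by positivity)
      _ = z ^ #J * (2 * z) ^ #S := by rw [pow_add, mul_pow]; ring
  calc ∑ S ∈ Jᶜ.powerset with #S ≤ d, (2 ^ #S : ℝ) * ∏ i ∈ J ∪ S, (q i : ℝ)
      ≤ ∑ S ∈ Jᶜ.powerset with #S ≤ d, (z : ℝ) ^ #J * (2 * z) ^ #S := sum_le_sum fun S _ => h2 S
    _ ≤ ∑ S ∈ (univ : Finset ι).powerset with #S ≤ d, (z : ℝ) ^ #J * (2 * z) ^ #S := by
        refine sum_le_sum_of_subset_of_nonneg ?_ fun _ _ _ => by positivity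
        exact filter_subset_filter _ (powerset_mono.2 (subset_univ _))
    _ = (z : ℝ) ^ #J * ∑ S ∈ (univ : Finset ι).powerset, (if #S ≤ d then (2 * (z : ℝ)) ^ #S else 0) := by
        rw [mul_sum, sum_filter]
        refine sum_congr rfl fun S _ => ?_
        split_ifs <;> simp
    _ = (z : ℝ) ^ #J * ∑ m ∈ range (n + 1), n.choose m • (if m ≤ d then (2 * (z : ℝ)) ^ m else 0) := by
        rw [sum_powerset_apply_card (fun m => if m ≤ d then (2 * (z : ℝ)) ^ m else 0)]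
        rw [card_univ]
    _ ≤ (z : ℝ) ^ #J * ∑ m ∈ range (d + 1), ((n : ℝ) * (2 * z)) ^ m * (d.choose m : ℝ) := by
        refine mul_le_mul_of_nonneg_left ?_ (by positivity)
        have h5 : ∑ m ∈ range (n + 1), n.choose m • (if m ≤ d then (2 * (z : ℝ)) ^ m else 0)
            = ∑ m ∈ (range (n + 1)).filter (fun m => m ≤ d), (n.choose m : ℝ) * (2 * (z : ℝ)) ^ m := by
          rw [sum_filter]
          refine sum_congr rfl fun m _ => ?_
          split_ifs <;> simp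
        rw [h5]
        calc ∑ m ∈ (range (n + 1)).filter (fun m => m ≤ d), (n.choose m : ℝ) * (2 * (z : ℝ)) ^ m
            ≤ ∑ m ∈ (range (n + 1)).filter (fun m => m ≤ d), ((n : ℝ) * (2 * z)) ^ m * (d.choose m : ℝ) := by
              refine sum_le_sum fun m hm => ?_
              have hm' : m ≤ d := (mem_filter.1 hm).2
              have h6 : (n.choose m : ℝ) ≤ (n : ℝ) ^ m := by exact_mod_cast Nat.choose_le_pow n m
              have h7 : (1 : ℝ) ≤ (d.choose m : ℝ) := by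
                exact_mod_cast Nat.one_le_iff_ne_zero.2 (Nat.choose_pos hm').ne'
              calc (n.choose m : ℝ) * (2 * (z : ℝ)) ^ m ≤ (n : ℝ) ^ m * (2 * (z : ℝ)) ^ m :=
                    mul_le_mul_of_nonneg_right h6 (by positivity)
                _ = ((n : ℝ) * (2 * z)) ^ m := by rw [mul_pow (n : ℝ)]
                _ ≤ ((n : ℝ) * (2 * z)) ^ m * (d.choose m : ℝ) :=
                    le_mul_of_one_le_right (by positivity) h7
          _ ≤ ∑ m ∈ range (d + 1), ((n : ℝ) * (2 * z)) ^ m * (d.choose m : ℝ) := by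
              refine sum_le_sum_of_subset_of_nonneg ?_ fun _ _ _ => by positivity
              intro m hm
              have := (mem_filter.1 hm).2
              exact mem_range.2 (by omega)
    _ = (z : ℝ) ^ #J * ((n : ℝ) * (2 * z) + 1) ^ d := by
        rw [add_pow]
        congr 1
        refine sum_congr rfl fun m _ => ?_
        rw [one_pow, mul_one]
    _ ≤ (z : ℝ) ^ #J * ((z : ℝ) ^ 3) ^ d := by
        refine mul_le_mul_of_nonneg_left (pow_le_pow_left₀ (by positivity) ?_ d) (by positivity)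
        have h8 : (n : ℝ) + 1 ≤ z := by exact_mod_cast hι
        have h9 : (2 : ℝ) ≤ z := by exact_mod_cast hz
        have h10 : (n : ℝ) * (2 * z) + 1 ≤ 2 * z * z := by nlinarith
        have h11 : 2 * (z : ℝ) * z ≤ z ^ 3 := by
          have : 0 ≤ (z : ℝ) * z * (z - 2) := mul_nonneg (mul_nonneg hz0 hz0) (by linarith)
          nlinarith
        exact h10.trans h11
    _ = (z : ℝ) ^ (#J + 3 * d) := by rw [← pow_mul, pow_add]

/-! ## The approximants -/

/-- First approximant. -/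
def gA (J : Finset ι) (d : ℕ) : List (Term κ) → (∀ i, κ i) → ℝ
  | [], _ => 0
  | t :: l, x => gA J d l x + ind (t.B x) * (1 - low (J ∪ t.J) d (H l) x)

/-- Lower approximant. -/
def loA (J : Finset ι) (d : ℕ) (l : List (Term κ)) (x : ∀ i, κ i) : ℝ :=
  2 * gA J d l x - gA J d l x * gA J d l x

/-- Upper approximant. -/
def upA (J : Finset ι) (d : ℕ) : List (Term κ) → (∀ i, κ i) → ℝ
  | [], _ => 0
  | t :: l, x => upA J d l x + ind (t.B x) * (1 - loA (J ∪ t.J) d l x)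

/-- Sum of squares of the tails at the satisfied terms. -/
def RA (J : Finset ι) (d : ℕ) : List (Term κ) → (∀ i, κ i) → ℝ
  | [], _ => 0
  | t :: l, x => RA J d l x + ind (t.B x) * (tl (J ∪ t.J) d (H l) x) ^ 2

lemma ind_zero_or_one (p : Prop) : ind p = 0 ∨ ind p = 1 := by
  unfold ind; split_ifs <;> simp

lemma H_mul_self (l : List (Term κ)) (x : ∀ i, κ i) : H l x * H l x = H l x := ind_sq _

lemma H_mul_ind (t : Term κ) (l : List (Term κ)) (x : ∀ i, κ i) :
    H (t :: l) x * ind (t.B x) = ind (t.B x) := by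
  rw [H_cons]
  rcases ind_zero_or_one (t.B x) with h | h <;> rw [h] <;> ring

lemma H_mul_H (t : Term κ) (l : List (Term κ)) (x : ∀ i, κ i) :
    H (t :: l) x * H l x = H l x := by
  have h := H_mul_self l x
  rw [H_cons]
  linear_combination (1 - ind (t.B x)) * h

lemma H_mul_gA (J : Finset ι) (d : ℕ) (l : List (Term κ)) (x : ∀ i, κ i) :
    H l x * gA J d l x = gA J d l x := by
  induction l with
  | nil => simp [gA]
  | cons t l ih =>
    have h1 := H_mul_ind t l x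
    have h2 : H (t :: l) x * gA J d l x = gA J d l x := by
      rw [← ih, ← mul_assoc, H_mul_H]
    simp only [gA]
    rw [mul_add, h2, ← mul_assoc, h1]

lemma loA_eq (J : Finset ι) (d : ℕ) (l : List (Term κ)) (x : ∀ i, κ i) :
    loA J d l x = H l x - (H l x - gA J d l x) ^ 2 := by
  have h1 := H_mul_self l x
  have h2 := H_mul_gA J d l x
  unfold loA
  linear_combination (-2 : ℝ) * h2 + h1

lemma loA_le (J : Finset ι) (d : ℕ) (l : List (Term κ)) (x : ∀ i, κ i) :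
    loA J d l x ≤ H l x := by
  rw [loA_eq]
  nlinarith [sq_nonneg (H l x - gA J d l x)]

lemma le_upA (J : Finset ι) (d : ℕ) (l : List (Term κ)) (x : ∀ i, κ i) :
    H l x ≤ upA J d l x := by
  induction l with
  | nil => simp [upA, H_nil]
  | cons t l ih =>
    rw [H_cons]
    simp only [upA]
    refine add_le_add ih (mul_le_mul_of_nonneg_left ?_ (ind_nonneg _))
    linarith [loA_le (J ∪ t.J) d l x]

lemma RA_nonneg (J : Finset ι) (d : ℕ) (l : List (Term κ)) (x : ∀ i, κ i) : 0 ≤ RA J d l x := by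
  induction l with
  | nil => simp [RA]
  | cons t l ih =>
    simp only [RA]
    exact add_nonneg ih (mul_nonneg (ind_nonneg _) (sq_nonneg _))

lemma H_sub_gA_cons [∀ i, Nonempty (κ i)] (J : Finset ι) (d : ℕ) (t : Term κ) (l : List (Term κ))
    (x : ∀ i, κ i) :
    H (t :: l) x - gA J d (t :: l) x
      = (H l x - gA J d l x) - ind (t.B x) * tl (J ∪ t.J) d (H l) x := by
  rw [← sub_low, H_cons]
  simp only [gA]
  ring

lemma sq_le_cnt_mul_RA [∀ i, Nonempty (κ i)] (J : Finset ι) (d : ℕ) (l : List (Term κ))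
    (x : ∀ i, κ i) : (H l x - gA J d l x) ^ 2 ≤ cnt l x * RA J d l x := by
  induction l with
  | nil => simp [gA, RA, H_nil]
  | cons t l ih =>
    rw [H_sub_gA_cons, cnt_cons]
    simp only [RA]
    have hN := cnt_nonneg l x
    have hR := RA_nonneg J d l x
    rcases ind_zero_or_one (t.B x) with h | h <;> rw [h]
    · simpa using ih
    · set D := H l x - gA J d l x with hD
      set τ := tl (J ∪ t.J) d (H l) x with hτ
      have h3 : |2 * D * τ| ≤ cnt l x * τ ^ 2 + RA J d l x := by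
        refine abs_le_of_sq_le_sq ?_ (by positivity)
        have h4 : D ^ 2 * τ ^ 2 ≤ cnt l x * RA J d l x * τ ^ 2 :=
          mul_le_mul_of_nonneg_right ih (sq_nonneg _)
        nlinarith [sq_nonneg (cnt l x * τ ^ 2 - RA J d l x)]
      have h5 := (abs_le.1 h3).1
      nlinarith

/-- Integrality of the number of satisfied terms. -/
lemma cnt_nat (l : List (Term κ)) (x : ∀ i, κ i) : ∃ n : ℕ, cnt l x = n := by
  induction l with
  | nil => exact ⟨0, by simp [cnt]⟩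
  | cons t l ih =>
    obtain ⟨n, hn⟩ := ih
    rw [cnt_cons, hn]
    rcases ind_zero_or_one (t.B x) with h | h <;> rw [h]
    · exact ⟨n, by simp⟩
    · exact ⟨n + 1, by push_cast; ring⟩

lemma cnt_sq_le_cube (l : List (Term κ)) (x : ∀ i, κ i) : cnt l x ^ 2 ≤ cnt l x ^ 3 := by
  obtain ⟨n, hn⟩ := cnt_nat l x
  rw [hn]
  rcases Nat.eq_zero_or_pos n with h | h
  · simp [h]
  · have : (1 : ℝ) ≤ n := by exact_mod_cast h
    exact pow_le_pow_right₀ this (by norm_num)

/-! ## The error bound -/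

section err
variable [∀ i, Nonempty (κ i)]

lemma ex_mul_le_of_av (T : Finset ι) {A f : (∀ i, κ i) → ℝ} (hA : ∀ x, 0 ≤ A x) (hdep : Dep T A)
    (c : ℝ) (hf : ∀ x, av T f x ≤ c) : ex (fun x => A x * f x) ≤ c * ex A := by
  have h1 : ex (fun x => A x * f x) = ex (av T fun x => A x * f x) := (ex_av T _).symm
  have h2 : ex (av T fun x => A x * f x) = ex (fun x => A x * av T f x) :=
    ex_congr fun x => av_mul_of_dep hdep f x
  rw [h1, h2, ← ex_const_mul]
  exact ex_mono fun x => by rw [mul_comm c]; exact mul_le_mul_of_nonneg_left (hf x) (hA x)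

/-- one satisfied term: the basic estimate -/
lemma err_one (W s : ℕ) (hW : 1 ≤ W) (hs : 1 ≤ s) (l : List (Term κ)) (hw : ∀ t ∈ l, #t.J ≤ W)
    (J K : Finset ι) (hK : #K ≤ W) {A : (∀ i, κ i) → ℝ} (hA : ∀ x, 0 ≤ A x) (hdep : Dep (J ∪ K) A) :
    ex (fun x => A x * (tl J (W + 64 * W * s) (H l) x) ^ 2) ≤ 10 ^ W / 2 ^ s * ex A := by
  refine ex_mul_le_of_av (J ∪ K) hA hdep _ fun x => ?_
  have hs' : (1 : ℝ) ≤ s := by exact_mod_cast hs
  have hW' : (1 : ℝ) ≤ W := by exact_mod_cast hW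
  have hanti : Antitone fun d : ℕ => (32 * (W : ℝ) * s / (d + 1)) ^ s := by
    intro a b hab
    have hab' : (a : ℝ) ≤ b := by exact_mod_cast hab
    refine pow_le_pow_left₀ (by positivity) ?_ s
    exact div_le_div_of_nonneg_left (by positivity) (by positivity) (by linarith)
  have h1 := tl_restrict (H l) (fun d : ℕ => (32 * (W : ℝ) * s / (d + 1)) ^ s) hanti
    (fun J d x => tail_bound l W hw s hs J d x) J K (W + 64 * W * s) (by omega) x
  refine h1.trans ?_
  have h2 : (10 : ℝ) ^ #K ≤ 10 ^ W := pow_le_pow_right₀ (by norm_num) hK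
  have h3 : (32 * (W : ℝ) * s / (((W + 64 * W * s - #K : ℕ) : ℝ) + 1)) ^ s ≤ 1 / 2 ^ s := by
    rw [← one_div_pow]
    refine pow_le_pow_left₀ (by positivity) ?_ s
    have h4 : (64 * (W : ℝ) * s) ≤ ((W + 64 * W * s - #K : ℕ) : ℝ) := by
      have : 64 * W * s ≤ W + 64 * W * s - #K := by omega
      exact_mod_cast this
    rw [div_le_div_iff₀ (by positivity) (by norm_num)]
    nlinarith
  calc (10 : ℝ) ^ #K * (32 * (W : ℝ) * s / (((W + 64 * W * s - #K : ℕ) : ℝ) + 1)) ^ s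
      ≤ 10 ^ W * (1 / 2 ^ s) := mul_le_mul h2 h3 (by positivity) (by positivity)
    _ = 10 ^ W / 2 ^ s := by ring

/-- one satisfied term, weighted by a number of satisfied terms -/
lemma err_cnt (W s : ℕ) (hW : 1 ≤ W) (hs : 1 ≤ s) (l : List (Term κ)) (hw : ∀ t ∈ l, #t.J ≤ W)
    (J : Finset ι) {A : (∀ i, κ i) → ℝ} (hA : ∀ x, 0 ≤ A x) (hdep : Dep J A)
    (m : List (Term κ)) (hm : ∀ t ∈ m, #t.J ≤ W) :
    ex (fun x => A x * cnt m x * (tl J (W + 64 * W * s) (H l) x) ^ 2)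
      ≤ 10 ^ W / 2 ^ s * ex (fun x => A x * cnt m x) := by
  induction m with
  | nil =>
    have h0 : ex (fun _ : (∀ i, κ i) => (0 : ℝ)) = 0 := ex_const 0
    simp [cnt, h0]
  | cons u m ih =>
    have hu : #u.J ≤ W := hm u List.mem_cons_self
    have ih' := ih fun t ht => hm t (List.mem_cons_of_mem _ ht)
    have h1 := err_one W s hW hs l hw J u.J hu (A := fun x => A x * ind (u.B x))
      (fun x => mul_nonneg (hA x) (ind_nonneg _)) (hdep.mul (dep_term u))
    have e1 : ex (fun x => A x * cnt (u :: m) x * (tl J (W + 64 * W * s) (H l) x) ^ 2)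
        = ex (fun x => A x * ind (u.B x) * (tl J (W + 64 * W * s) (H l) x) ^ 2)
          + ex (fun x => A x * cnt m x * (tl J (W + 64 * W * s) (H l) x) ^ 2) := by
      rw [← ex_add]
      exact ex_congr fun x => by rw [cnt_cons]; ring
    have e2 : ex (fun x => A x * cnt (u :: m) x)
        = ex (fun x => A x * ind (u.B x)) + ex (fun x => A x * cnt m x) := by
      rw [← ex_add]
      exact ex_congr fun x => by rw [cnt_cons]; ring
    rw [e1, e2, mul_add]
    exact add_le_add h1 ih'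

lemma err_RA (W s : ℕ) (hW : 1 ≤ W) (hs : 1 ≤ s) (l : List (Term κ)) (hw : ∀ t ∈ l, #t.J ≤ W)
    (J : Finset ι) {A : (∀ i, κ i) → ℝ} (hA : ∀ x, 0 ≤ A x) (hdep : Dep J A)
    (m : List (Term κ)) (hm : ∀ t ∈ m, #t.J ≤ W) :
    ex (fun x => A x * cnt m x * RA J (W + 64 * W * s) l x)
      ≤ 10 ^ W / 2 ^ s * ex (fun x => A x * cnt m x * cnt l x) := by
  induction l with
  | nil =>
    have h0 : ex (fun _ : (∀ i, κ i) => (0 : ℝ)) = 0 := ex_const 0
    simp [cnt, RA, h0]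
  | cons t l ih =>
    have hwl : ∀ t ∈ l, #t.J ≤ W := fun u hu => hw u (List.mem_cons_of_mem _ hu)
    have ih' := ih hwl
    have h1 := err_cnt W s hW hs l hwl (J ∪ t.J) (A := fun x => A x * ind (t.B x))
      (fun x => mul_nonneg (hA x) (ind_nonneg _)) (hdep.mul (dep_term t)) m hm
    have e1 : ex (fun x => A x * cnt m x * RA J (W + 64 * W * s) (t :: l) x)
        = ex (fun x => A x * cnt m x * RA J (W + 64 * W * s) l x)
          + ex (fun x => A x * ind (t.B x) * cnt m x * (tl (J ∪ t.J) (W + 64 * W * s) (H l) x) ^ 2) := by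
      rw [← ex_add]
      exact ex_congr fun x => by simp only [RA]; ring
    have e2 : ex (fun x => A x * cnt m x * cnt (t :: l) x)
        = ex (fun x => A x * cnt m x * cnt l x) + ex (fun x => A x * ind (t.B x) * cnt m x) := by
      rw [← ex_add]
      exact ex_congr fun x => by rw [cnt_cons]; ring
    rw [e1, e2, mul_add]
    exact add_le_add ih' h1

lemma err_lo (W s : ℕ) (hW : 1 ≤ W) (hs : 1 ≤ s) (l : List (Term κ)) (hw : ∀ t ∈ l, #t.J ≤ W)
    (J : Finset ι) {A : (∀ i, κ i) → ℝ} (hA : ∀ x, 0 ≤ A x) (hdep : Dep J A) :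
    ex (fun x => A x * (H l x - loA J (W + 64 * W * s) l x))
      ≤ 10 ^ W / 2 ^ s * ex (fun x => A x * cnt l x ^ 2) := by
  have h1 := err_RA W s hW hs l hw J hA hdep l hw
  have e2 : ex (fun x => A x * cnt l x * cnt l x) = ex (fun x => A x * cnt l x ^ 2) :=
    ex_congr fun x => by ring
  rw [e2] at h1
  refine le_trans (ex_mono fun x => ?_) h1
  rw [loA_eq]
  have h2 := sq_le_cnt_mul_RA J (W + 64 * W * s) l x
  have h3 := mul_le_mul_of_nonneg_left h2 (hA x)
  calc A x * (H l x - (H l x - (H l x - gA J (W + 64 * W * s) l x) ^ 2))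
      = A x * (H l x - gA J (W + 64 * W * s) l x) ^ 2 := by ring
    _ ≤ A x * (cnt l x * RA J (W + 64 * W * s) l x) := h3
    _ = A x * cnt l x * RA J (W + 64 * W * s) l x := by ring

lemma err_up (W s : ℕ) (hW : 1 ≤ W) (hs : 1 ≤ s) (l : List (Term κ)) (hw : ∀ t ∈ l, #t.J ≤ W)
    (J : Finset ι) {A : (∀ i, κ i) → ℝ} (hA : ∀ x, 0 ≤ A x) (hdep : Dep J A) :
    ex (fun x => A x * (upA J (W + 64 * W * s) l x - H l x))
      ≤ 10 ^ W / 2 ^ s * ex (fun x => A x * cnt l x ^ 3) := by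
  induction l with
  | nil =>
    have h0 : ex (fun _ : (∀ i, κ i) => (0 : ℝ)) = 0 := ex_const 0
    simp [cnt, upA, H_nil, h0]
  | cons t l ih =>
    have hwl : ∀ t ∈ l, #t.J ≤ W := fun u hu => hw u (List.mem_cons_of_mem _ hu)
    have ih' := ih hwl
    have h1 := err_lo W s hW hs l hwl (J ∪ t.J) (A := fun x => A x * ind (t.B x))
      (fun x => mul_nonneg (hA x) (ind_nonneg _)) (hdep.mul (dep_term t))
    have e1 : ex (fun x => A x * (upA J (W + 64 * W * s) (t :: l) x - H (t :: l) x))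
        = ex (fun x => A x * (upA J (W + 64 * W * s) l x - H l x))
          + ex (fun x => A x * ind (t.B x) * (H l x - loA (J ∪ t.J) (W + 64 * W * s) l x)) := by
      rw [← ex_add]
      refine ex_congr fun x => ?_
      rw [H_cons]; simp only [upA]; ring
    rw [e1]
    have h2 := add_le_add ih' h1
    refine h2.trans ?_
    rw [← mul_add, ← ex_add]
    refine mul_le_mul_of_nonneg_left (ex_mono fun x => ?_) (by positivity)
    rw [cnt_cons, mul_assoc, ← mul_add]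
    refine mul_le_mul_of_nonneg_left ?_ (hA x)
    have hN := cnt_nonneg l x
    rcases ind_zero_or_one (t.B x) with h | h <;> rw [h]
    · simp
    · nlinarith [mul_nonneg hN hN, mul_nonneg (mul_nonneg hN hN) hN]

end err

/-! ## Costs -/

section cost
variable [∀ i, Nonempty (κ i)]

lemma cost_ind (q : ι → ℕ) (z : ℕ) (hz : 2 ≤ z) (hq : ∀ i, q i ≤ z) (W : ℕ) (t : Term κ)
    (ht : #t.J ≤ W) : CF q (fun x => ind (t.B x)) ((z : ℝ) ^ W) := by
  have hz1 : (1 : ℝ) ≤ z := by exact_mod_cast (by omega : 1 ≤ z)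
  refine CF.mono _ _ _ (CF.atom t.J _ 1 (dep_term t) fun x => ?_) ?_
  · rw [abs_of_nonneg (ind_nonneg _)]; exact ind_le_one _
  · rw [one_mul]
    calc ∏ i ∈ t.J, (q i : ℝ) ≤ ∏ i ∈ t.J, (z : ℝ) :=
          prod_le_prod (fun _ _ => Nat.cast_nonneg _) (fun i _ => by exact_mod_cast hq i)
      _ = z ^ #t.J := by rw [prod_const]
      _ ≤ z ^ W := pow_le_pow_right₀ hz1 ht

lemma abs_H_le (l : List (Term κ)) (x : ∀ i, κ i) : |H l x| ≤ 1 := by
  rw [abs_of_nonneg (H_nonneg l x)]; exact H_le_one l x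

lemma one_add_pow_le (z : ℕ) (hz : 2 ≤ z) (e : ℕ) : (1 : ℝ) + z ^ e ≤ z ^ (e + 1) := by
  have hz2 : (2 : ℝ) ≤ z := by exact_mod_cast hz
  have h1 : (1 : ℝ) ≤ (z : ℝ) ^ e := one_le_pow₀ (by linarith)
  rw [pow_succ]; nlinarith

lemma cost_gA (q : ι → ℕ) (z : ℕ) (hz : 2 ≤ z) (hι : Fintype.card ι + 1 ≤ z)
    (hq1 : ∀ i, 1 ≤ q i) (hq : ∀ i, q i ≤ z) (W d : ℕ) (l : List (Term κ))
    (hw : ∀ t ∈ l, #t.J ≤ W) (J : Finset ι) (hJ : #J ≤ 2 * W) :
    CF q (gA J d l) ((l.length : ℝ) * (z : ℝ) ^ (4 * W + 3 * d + 1)) := by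
  have hz1 : (1 : ℝ) ≤ z := by exact_mod_cast (by omega : 1 ≤ z)
  induction l with
  | nil =>
    have h := CF.const (κ := κ) q (c := 0) 0 (by simp)
    have e : (gA J d ([] : List (Term κ))) = fun _ => 0 := by funext x; simp [gA]
    rw [e]; simpa using h
  | cons t l ih =>
    have ih' := ih fun u hu => hw u (List.mem_cons_of_mem _ hu)
    have ht : #t.J ≤ W := hw t List.mem_cons_self
    have h1 := cost_ind q z hz hq W t ht
    have h2 := cost_low q z hz hι hq (J ∪ t.J) d (f := H l) (abs_H_le l)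
    have h3 : CF q (low (J ∪ t.J) d (H l)) ((z : ℝ) ^ (3 * W + 3 * d)) := by
      refine CF.mono _ _ _ h2 (pow_le_pow_right₀ hz1 ?_)
      have := card_union_le J t.J
      omega
    have h4 := CF.sub hq1 (CF.const (κ := κ) q (c := 1) 1 (by simp)) h3
    have h5 := CF.mul hq1 h1 h4
    have h6 := CF.add _ _ _ _ ih' h5
    have e : gA J d (t :: l) = fun x => gA J d l x + ind (t.B x) * (1 - low (J ∪ t.J) d (H l) x) := by
      funext x; simp [gA]
    rw [e]
    refine CF.mono _ _ _ h6 ?_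
    have h7 := one_add_pow_le z hz (3 * W + 3 * d)
    have h8 : (z : ℝ) ^ W * (1 + (z : ℝ) ^ (3 * W + 3 * d)) ≤ z ^ (4 * W + 3 * d + 1) := by
      calc (z : ℝ) ^ W * (1 + (z : ℝ) ^ (3 * W + 3 * d)) ≤ z ^ W * z ^ (3 * W + 3 * d + 1) :=
            mul_le_mul_of_nonneg_left h7 (by positivity)
        _ = z ^ (4 * W + 3 * d + 1) := by rw [← pow_add]; congr 1; ring
    have h9 : (((t :: l).length : ℕ) : ℝ) = l.length + 1 := by simp
    rw [h9]
    linarith

lemma cost_loA (q : ι → ℕ) (z : ℕ) (hz : 2 ≤ z) (hι : Fintype.card ι + 1 ≤ z)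
    (hq1 : ∀ i, 1 ≤ q i) (hq : ∀ i, q i ≤ z) (lam W d : ℕ) (l : List (Term κ))
    (hw : ∀ t ∈ l, #t.J ≤ W) (hl : l.length ≤ z ^ lam) (J : Finset ι) (hJ : #J ≤ 2 * W) :
    CF q (loA J d l) ((z : ℝ) ^ (2 * lam + 8 * W + 6 * d + 4)) := by
  have hz1 : (1 : ℝ) ≤ z := by exact_mod_cast (by omega : 1 ≤ z)
  have hz2 : (2 : ℝ) ≤ z := by exact_mod_cast hz
  have h1 := cost_gA q z hz hι hq1 hq W d l hw J hJ
  have h2 : CF q (gA J d l) ((z : ℝ) ^ (lam + 4 * W + 3 * d + 1)) := by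
    refine CF.mono _ _ _ h1 ?_
    have hl' : (l.length : ℝ) ≤ (z : ℝ) ^ lam := by exact_mod_cast hl
    calc (l.length : ℝ) * (z : ℝ) ^ (4 * W + 3 * d + 1)
        ≤ (z : ℝ) ^ lam * (z : ℝ) ^ (4 * W + 3 * d + 1) :=
          mul_le_mul_of_nonneg_right hl' (by positivity)
      _ = (z : ℝ) ^ (lam + 4 * W + 3 * d + 1) := by rw [← pow_add]; congr 1; ring
  have h3 := CF.mul hq1 (CF.const (κ := κ) q (c := 2) 2 (by norm_num)) h2
  have h4 := CF.mul hq1 h2 h2
  have h5 := CF.sub hq1 h3 h4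
  have e : loA J d l = fun x => 2 * gA J d l x - gA J d l x * gA J d l x := by
    funext x; simp [loA]
  rw [e]
  refine CF.mono _ _ _ h5 ?_
  set c : ℝ := (z : ℝ) ^ (lam + 4 * W + 3 * d + 1) with hc
  have hc1 : 1 ≤ c := one_le_pow₀ hz1
  have h6 : (z : ℝ) ^ (2 * lam + 8 * W + 6 * d + 4) = c * c * z ^ 2 := by
    rw [hc, ← pow_add, ← pow_add]; congr 1; ring
  rw [h6]
  have h7 : (4 : ℝ) ≤ (z : ℝ) ^ 2 := by nlinarith
  have h8 : c * c * 4 ≤ c * c * z ^ 2 := mul_le_mul_of_nonneg_left h7 (by positivity)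
  nlinarith

lemma cost_upA (q : ι → ℕ) (z : ℕ) (hz : 2 ≤ z) (hι : Fintype.card ι + 1 ≤ z)
    (hq1 : ∀ i, 1 ≤ q i) (hq : ∀ i, q i ≤ z) (lam W d : ℕ) (l : List (Term κ))
    (hw : ∀ t ∈ l, #t.J ≤ W) (hl : l.length ≤ z ^ lam) (J : Finset ι) (hJ : #J ≤ W) :
    CF q (upA J d l) ((l.length : ℝ) * (z : ℝ) ^ (2 * lam + 9 * W + 6 * d + 5)) := by
  have hz1 : (1 : ℝ) ≤ z := by exact_mod_cast (by omega : 1 ≤ z)
  induction l with
  | nil =>
    have h := CF.const (κ := κ) q (c := 0) 0 (by simp)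
    have e : (upA J d ([] : List (Term κ))) = fun _ => 0 := by funext x; simp [upA]
    rw [e]; simpa using h
  | cons t l ih =>
    have hwl : ∀ t ∈ l, #t.J ≤ W := fun u hu => hw u (List.mem_cons_of_mem _ hu)
    have hll : l.length ≤ z ^ lam := by
      have : (t :: l).length = l.length + 1 := by simp
      omega
    have ih' := ih hwl hll
    have ht : #t.J ≤ W := hw t List.mem_cons_self
    have h1 := cost_ind q z hz hq W t ht
    have h3 := cost_loA q z hz hι hq1 hq lam W d l hwl hll (J ∪ t.J)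
      ((card_union_le J t.J).trans (by omega))
    have h4 := CF.sub hq1 (CF.const (κ := κ) q (c := 1) 1 (by simp)) h3
    have h5 := CF.mul hq1 h1 h4
    have h6 := CF.add _ _ _ _ ih' h5
    have e : upA J d (t :: l) = fun x => upA J d l x + ind (t.B x) * (1 - loA (J ∪ t.J) d l x) := by
      funext x; simp [upA]
    rw [e]
    refine CF.mono _ _ _ h6 ?_
    have h7 := one_add_pow_le z hz (2 * lam + 8 * W + 6 * d + 4)
    have h8 : (z : ℝ) ^ W * (1 + (z : ℝ) ^ (2 * lam + 8 * W + 6 * d + 4))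
        ≤ z ^ (2 * lam + 9 * W + 6 * d + 5) := by
      calc (z : ℝ) ^ W * (1 + (z : ℝ) ^ (2 * lam + 8 * W + 6 * d + 4))
          ≤ z ^ W * z ^ (2 * lam + 8 * W + 6 * d + 4 + 1) :=
            mul_le_mul_of_nonneg_left h7 (by positivity)
        _ = z ^ (2 * lam + 9 * W + 6 * d + 5) := by rw [← pow_add]; congr 1; ring
    have h9 : (((t :: l).length : ℕ) : ℝ) = l.length + 1 := by simp
    rw [h9]
    linarith

end cost

/-- **Sandwich theorem** (proof: note §4). -/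
theorem fooling [∀ i, Nonempty (κ i)] (q : ι → ℕ) (z lam W s : ℕ) (hz : 2 ≤ z)
    (hι : Fintype.card ι + 1 ≤ z) (hq1 : ∀ i, 1 ≤ q i) (hq : ∀ i, q i ≤ z) (hW : 1 ≤ W) (hs : 1 ≤ s)
    (l : List (Term κ)) (hw : ∀ t ∈ l, #t.J ≤ W) (hl : l.length ≤ z ^ lam) (J : Finset ι) (hJ : #J ≤ W) :
    ∃ lo up : (∀ i, κ i) → ℝ, (∀ x, lo x ≤ H l x) ∧ (∀ x, H l x ≤ up x) ∧
      CF q lo ((z : ℝ) ^ (3 * lam + 404 * W * s)) ∧ CF q up ((z : ℝ) ^ (3 * lam + 404 * W * s)) ∧
      ∀ A : (∀ i, κ i) → ℝ, (∀ x, 0 ≤ A x) → Dep J A →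
        ex (fun x => A x * (H l x - lo x)) ≤ 10 ^ W / 2 ^ s * ex (fun x => A x * cnt l x ^ 3) ∧
        ex (fun x => A x * (up x - H l x)) ≤ 10 ^ W / 2 ^ s * ex (fun x => A x * cnt l x ^ 3) := by
  have hz1 : (1 : ℝ) ≤ z := by exact_mod_cast (by omega : 1 ≤ z)
  have hWs : W ≤ W * s := Nat.le_mul_of_pos_right _ (by omega)
  refine ⟨loA J (W + 64 * W * s) l, upA J (W + 64 * W * s) l, loA_le _ _ _, le_upA _ _ _, ?_, ?_, ?_⟩
  · refine CF.mono _ _ _ (cost_loA q z hz hι hq1 hq lam W (W + 64 * W * s) l hw hl J (by omega)) ?_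
    refine pow_le_pow_right₀ hz1 ?_
    have e1 : 64 * W * s = 64 * (W * s) := by ring
    have e2 : 404 * W * s = 404 * (W * s) := by ring
    rw [e1, e2]
    omega
  · refine CF.mono _ _ _ (cost_upA q z hz hι hq1 hq lam W (W + 64 * W * s) l hw hl J hJ) ?_
    have hl' : (l.length : ℝ) ≤ (z : ℝ) ^ lam := by exact_mod_cast hl
    refine (mul_le_mul_of_nonneg_right hl' (by positivity)).trans ?_
    rw [← pow_add]
    refine pow_le_pow_right₀ hz1 ?_
    have e1 : 64 * W * s = 64 * (W * s) := by ring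
    have e2 : 404 * W * s = 404 * (W * s) := by ring
    rw [e1, e2]
    omega
  · intro A hA hdep
    refine ⟨(err_lo W s hW hs l hw J hA hdep).trans ?_, err_up W s hW hs l hw J hA hdep⟩
    refine mul_le_mul_of_nonneg_left (ex_mono fun x => ?_) (by positivity)
    exact mul_le_mul_of_nonneg_left (cnt_sq_le_cube l x) (hA x)

end

end Pool.Agent.E25B
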