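import Mathlib
import Pool.Agent.E25B.Fool
import Pool.Agent.E25B.AP1

/-!
# Residues as points of a product space; counting in arithmetic progressions
-/

namespace Pool.Agent.E25B

open Finset
open scoped Classical

set_option linter.unusedSectionVars false

noncomputable section

/-- The product of the `Fin (q p)`, `p ∈ P`. -/
abbrev Sp (P : Finset ℕ) (q : ℕ → ℕ) : Type := ∀ p : ↥P, Fin (q p)

/-- The point of `Sp P q` given by an integer. -/
def prj (P : Finset ℕ) (q : ℕ → ℕ) (hq : ∀ p ∈ P, 0 < q p) (m : ℕ) : Sp P q :=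
  fun p => ⟨m % q p, Nat.mod_lt _ (hq p p.2)⟩

/-- `x` is compatible with the class `b mod n`. -/
def mt (P : Finset ℕ) (q : ℕ → ℕ) (n b : ℕ) (x : Sp P q) : Prop :=
  ∀ p : ↥P, (x p : ℕ) ≡ b [MOD (Nat.gcd (q p) n)]

variable {P R : Finset ℕ} {q : ℕ → ℕ}

lemma sp_nonempty (hq : ∀ p ∈ P, 0 < q p) : ∀ p : ↥P, Nonempty (Fin (q p)) :=
  fun p => ⟨⟨0, hq p p.2⟩⟩

lemma mt_prj_iff (hq : ∀ p ∈ P, 0 < q p) (n b m : ℕ) :
    mt P q n b (prj P q hq m) ↔ ∀ p ∈ P, m ≡ b [MOD (Nat.gcd (q p) n)] := by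
  unfold mt prj
  have key : ∀ p : ℕ, (m % q p ≡ b [MOD (Nat.gcd (q p) n)]) ↔ m ≡ b [MOD (Nat.gcd (q p) n)] := by
    intro p
    have h : m % q p ≡ m [MOD (Nat.gcd (q p) n)] :=
      (Nat.mod_modEq m (q p)).of_dvd (Nat.gcd_dvd_left _ _)
    exact ⟨fun h' => h.symm.trans h', fun h' => h.trans h'⟩
  constructor
  · intro h p hp
    exact (key p).1 (h ⟨p, hp⟩)
  · intro h p
    exact (key p).2 (h p p.2)

/-- Chinese remainder theorem, one block. -/
lemma mt_prj (hq : ∀ p ∈ P, 0 < q p) (hcop : (P : Set ℕ).Pairwise fun a b => Nat.Coprime (q a) (q b))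
    {n : ℕ} (hn : n ∣ ∏ p ∈ P, q p) (b m : ℕ) :
    mt P q n b (prj P q hq m) ↔ m ≡ b [MOD n] := by
  rw [mt_prj_iff]
  exact crt_key P q hcop hn b m

/-- Chinese remainder theorem, two blocks. -/
lemma mt_prj_two (hPR : Disjoint P R) (hqP : ∀ p ∈ P, 0 < q p) (hqR : ∀ p ∈ R, 0 < q p)
    (hcop : ((P ∪ R : Finset ℕ) : Set ℕ).Pairwise fun a b => Nat.Coprime (q a) (q b))
    {n : ℕ} (hn : n ∣ (∏ p ∈ P, q p) * ∏ p ∈ R, q p) (b m : ℕ) :
    (mt P q n b (prj P q hqP m) ∧ mt R q n b (prj R q hqR m)) ↔ m ≡ b [MOD n] := by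
  rw [mt_prj_iff, mt_prj_iff, ← crt_key (P ∪ R) q hcop (by rwa [prod_union hPR]) b m]
  constructor
  · rintro ⟨h1, h2⟩ p hp
    rcases mem_union.1 hp with h | h
    · exact h1 p h
    · exact h2 p h
  · intro h
    exact ⟨fun p hp => h p (mem_union_left _ hp), fun p hp => h p (mem_union_right _ hp)⟩

lemma prj_congr (hq : ∀ p ∈ P, 0 < q p) {m m' : ℕ} (h : ∀ p ∈ P, m ≡ m' [MOD q p]) :
    prj P q hq m = prj P q hq m' := by
  funext p
  exact Fin.ext (h p p.2)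

lemma prj_mod (hq : ∀ p ∈ P, 0 < q p) {M : ℕ} (hM : ∀ p ∈ P, q p ∣ M) (m : ℕ) :
    prj P q hq (m % M) = prj P q hq m :=
  prj_congr hq fun p hp => (Nat.mod_modEq m M).of_dvd (hM p hp)

lemma prj_eq_iff (hq : ∀ p ∈ P, 0 < q p) {m m' : ℕ} :
    prj P q hq m = prj P q hq m' ↔ ∀ p ∈ P, m ≡ m' [MOD q p] := by
  refine ⟨fun h p hp => ?_, prj_congr hq⟩
  have := congrFun h ⟨p, hp⟩
  exact Fin.ext_iff.1 this

lemma card_Sp (P : Finset ℕ) (q : ℕ → ℕ) : Fintype.card (Sp P q) = ∏ p ∈ P, q p := by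
  rw [Fintype.card_pi]
  simp only [Fintype.card_fin]
  exact Finset.prod_coe_sort P q

lemma modEq_of_forall (S : Finset ℕ)
    (hcop : (S : Set ℕ).Pairwise fun a b => Nat.Coprime (q a) (q b)) {m m' : ℕ}
    (h : ∀ p ∈ S, m ≡ m' [MOD q p]) : m ≡ m' [MOD (∏ p ∈ S, q p)] :=
  (crt_key S q hcop dvd_rfl m' m).1 fun p hp => (h p hp).of_dvd (Nat.gcd_dvd_left _ _)

/-- The average over a full period is the average over the product space. -/
theorem transfer (hPR : Disjoint P R) (hqP : ∀ p ∈ P, 0 < q p) (hqR : ∀ p ∈ R, 0 < q p)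
    (hcop : ((P ∪ R : Finset ℕ) : Set ℕ).Pairwise fun a b => Nat.Coprime (q a) (q b))
    (f : Sp P q → Sp R q → ℝ) :
    (∑ m ∈ range ((∏ p ∈ P, q p) * ∏ p ∈ R, q p), f (prj P q hqP m) (prj R q hqR m))
      = ((∏ p ∈ P, q p : ℕ) : ℝ) * ((∏ p ∈ R, q p : ℕ) : ℝ) * ex fun σ => ex fun ρ => f σ ρ := by
  have hP0 : 0 < ∏ p ∈ P, q p := prod_pos hqP
  have hR0 : 0 < ∏ p ∈ R, q p := prod_pos hqR
  have hinj : Set.InjOn (fun m => (prj P q hqP m, prj R q hqR m))
      (range ((∏ p ∈ P, q p) * ∏ p ∈ R, q p) : Finset ℕ) := by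
    intro m hm m' hm' h
    rw [mem_coe, mem_range] at hm hm'
    have h1 := (prj_eq_iff hqP).1 (Prod.ext_iff.1 h).1
    have h2 := (prj_eq_iff hqR).1 (Prod.ext_iff.1 h).2
    have h3 : m ≡ m' [MOD (∏ p ∈ P ∪ R, q p)] := by
      refine modEq_of_forall (P ∪ R) hcop fun p hp => ?_
      rcases mem_union.1 hp with h | h
      · exact h1 p h
      · exact h2 p h
    rw [prod_union hPR] at h3
    exact h3.eq_of_lt_of_lt hm hm'
  have himg : (range ((∏ p ∈ P, q p) * ∏ p ∈ R, q p)).image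
      (fun m => (prj P q hqP m, prj R q hqR m)) = univ := by
    rw [← card_eq_iff_eq_univ, card_image_of_injOn hinj, card_range, Fintype.card_prod, card_Sp,
      card_Sp]
  have h1 : (∑ m ∈ range ((∏ p ∈ P, q p) * ∏ p ∈ R, q p), f (prj P q hqP m) (prj R q hqR m))
      = ∑ x : Sp P q × Sp R q, f x.1 x.2 := by
    rw [← himg, sum_image hinj]
  rw [h1, Fintype.sum_prod_type]
  simp only [ex, card_Sp, ← sum_div]
  have e1 : ((∏ p ∈ P, q p : ℕ) : ℝ) ≠ 0 := by exact_mod_cast hP0.ne'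
  have e2 : ((∏ p ∈ R, q p : ℕ) : ℝ) ≠ 0 := by exact_mod_cast hR0.ne'
  field_simp

/-- The number of common elements of several classes in a full period. -/
theorem class_inter_le {α : Type} (V : Finset α) (n b : α → ℕ) (M : ℕ) (hM : 0 < M)
    (hn : ∀ j ∈ V, n j ∣ M) :
    (#{m ∈ range M | ∀ j ∈ V, m ≡ b j [MOD n j]} : ℝ) ≤ M / (V.lcm n : ℕ) := by
  have hL : V.lcm n ∣ M := Finset.lcm_dvd hn
  have hLpos : 0 < V.lcm n := Nat.pos_of_dvd_of_pos hL hM
  rcases Finset.eq_empty_or_nonempty {m ∈ range M | ∀ j ∈ V, m ≡ b j [MOD n j]} with he | ⟨m₀, hm₀⟩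
  · rw [he]
    simp only [card_empty, Nat.cast_zero]
    positivity
  · rw [mem_filter] at hm₀
    rw [← card_range_modEq (V.lcm n) M m₀ hLpos hL]
    refine Nat.cast_le.2 (card_le_card fun m hm => ?_)
    rw [mem_filter] at hm ⊢
    refine ⟨hm.1, ?_⟩
    rw [Nat.modEq_iff_dvd, Int.natCast_dvd]
    refine Finset.lcm_dvd fun j hj => ?_
    rw [← Int.natCast_dvd, ← Nat.modEq_iff_dvd]
    exact (hm.2 j hj).trans (hm₀.2 j hj).symm

/-- the value of a function of the coordinates in `T` at a projection. -/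
lemma dep_prj (hq : ∀ p ∈ P, 0 < q p) {f : Sp P q → ℝ} {T : Finset ↥P} (hf : Dep T f) (m : ℕ) :
    f (prj P q hq (m % ∏ p ∈ T, q p)) = f (prj P q hq m) := by
  refine hf _ _ fun p hp => ?_
  refine Fin.ext ?_
  exact (Nat.mod_modEq m _).of_dvd (Finset.dvd_prod_of_mem (fun p : ↥P => q p) hp)

/-- Counting in arithmetic progressions: a function of cost `c`. -/
theorem AP_count (hq : ∀ p ∈ P, 0 < q p)
    (hcop : (P : Set ℕ).Pairwise fun a b => Nat.Coprime (q a) (q b))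
    {f : Sp P q → ℝ} {c : ℝ} (hf : CF (fun p : ↥P => q p) f c) (n a M y : ℕ) (hM : 0 < M)
    (hn : n ∣ M) (hPM : (∏ p ∈ P, q p) ∣ M) :
    |∑ m ∈ Ioc y (2 * y) with m ≡ a [MOD n], f (prj P q hq m)
      - (y : ℝ) / M * ∑ m ∈ range M with m ≡ a [MOD n], f (prj P q hq m)| ≤ c := by
  induction hf with
  | atom T f B hd hb =>
    have hB : 0 ≤ B := (abs_nonneg _).trans (hb (prj P q hq 0))
    set D : ℕ := ∏ p ∈ T, q p with hD
    have hDpos : 0 < D := prod_pos fun p _ => hq p p.2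
    have hDP : D ∣ ∏ p ∈ P, q p := by
      rw [← Finset.prod_coe_sort P q]
      exact Finset.prod_dvd_prod_of_subset T univ (fun p : ↥P => q p) (subset_univ _)
    have hDM : D ∣ M := hDP.trans hPM
    have key : ∀ U : Finset ℕ, ∑ m ∈ U with m ≡ a [MOD n], f (prj P q hq m)
        = ∑ c ∈ range D, f (prj P q hq c) * #{m ∈ U | m ≡ a [MOD n] ∧ m ≡ c [MOD D]} := by
      intro U
      rw [← Finset.sum_fiberwise_of_maps_to (s := {m ∈ U | m ≡ a [MOD n]}) (t := range D)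
        (g := fun m => m % D) (fun m _ => mem_range.2 (Nat.mod_lt _ hDpos))]
      refine sum_congr rfl fun c hc => ?_
      rw [filter_filter]
      have e : ∀ m ∈ {m ∈ U | m ≡ a [MOD n] ∧ m % D = c}, f (prj P q hq m) = f (prj P q hq c) := by
        intro m hm
        rw [mem_filter] at hm
        rw [← dep_prj hq hd m, hm.2.2]
      rw [sum_congr rfl e, sum_const, nsmul_eq_mul, mul_comm]
      congr 3
      refine filter_congr fun m _ => ?_
      rw [mem_range] at hc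
      have : m ≡ c [MOD D] ↔ m % D = c := by
        unfold Nat.ModEq
        rw [Nat.mod_eq_of_lt hc]
      rw [this]
    rw [key, key, mul_sum, ← sum_sub_distrib]
    refine (abs_sum_le_sum_abs _ _).trans ?_
    have hterm : ∀ c ∈ range D, |f (prj P q hq c) * (#{m ∈ Ioc y (2 * y) | m ≡ a [MOD n] ∧ m ≡ c [MOD D]} : ℝ)
        - (y : ℝ) / M * (f (prj P q hq c) * (#{m ∈ range M | m ≡ a [MOD n] ∧ m ≡ c [MOD D]} : ℝ))| ≤ B := by
      intro c _
      have e : f (prj P q hq c) * (#{m ∈ Ioc y (2 * y) | m ≡ a [MOD n] ∧ m ≡ c [MOD D]} : ℝ)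
        - (y : ℝ) / M * (f (prj P q hq c) * (#{m ∈ range M | m ≡ a [MOD n] ∧ m ≡ c [MOD D]} : ℝ))
        = f (prj P q hq c) * ((#{m ∈ Ioc y (2 * y) | m ≡ a [MOD n] ∧ m ≡ c [MOD D]} : ℝ)
          - (y : ℝ) / M * (#{m ∈ range M | m ≡ a [MOD n] ∧ m ≡ c [MOD D]} : ℝ)) := by ring
      rw [e, abs_mul]
      calc _ ≤ B * 1 := mul_le_mul (hb _) (count_two_classes n D a c M y hM hn hDM)
            (abs_nonneg _) hB
        _ = B := mul_one B
    refine (sum_le_sum hterm).trans ?_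
    rw [sum_const, card_range, nsmul_eq_mul, mul_comm, hD]
    push_cast
    exact le_rfl
  | add f g c c' _ _ ihf ihg =>
    simp only [sum_add_distrib, mul_add]
    have e : ∀ s1 s2 t1 t2 : ℝ, (s1 + s2) - (t1 + t2) = (s1 - t1) + (s2 - t2) := by
      intros; ring
    rw [e]
    exact (abs_add_le _ _).trans (add_le_add ihf ihg)
  | mono f c c' _ hcc ih => exact ih.trans hcc

/-- **Fooling in arithmetic progressions.**  `s₀` is a modulus dividing `∏_P q`, `r` is coprime to it. -/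
theorem AP_fool (hq : ∀ p ∈ P, 0 < q p)
    (hcop : (P : Set ℕ).Pairwise fun a b => Nat.Coprime (q a) (q b))
    (z lam W s : ℕ) (hz : 2 ≤ z) (hP : #P + 1 ≤ z) (hqz : ∀ p ∈ P, q p ≤ z) (hW : 1 ≤ W) (hs : 1 ≤ s)
    (l : List (Term (fun p : ↥P => Fin (q p)))) (hw : ∀ t ∈ l, #t.J ≤ W) (hl : l.length ≤ z ^ lam)
    (s₀ r b y : ℕ) (hs₀ : s₀ ∣ ∏ p ∈ P, q p) (hs₀W : #{p ∈ P | Nat.gcd (q p) s₀ ≠ 1} ≤ W)
    (hr : 0 < r) (hrP : Nat.Coprime r (∏ p ∈ P, q p)) :
    |∑ m ∈ Ioc y (2 * y) with m ≡ b [MOD (s₀ * r)], H l (prj P q hq m)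
      - (y : ℝ) / r * ex (fun σ => ind (mt P q s₀ b σ) * H l σ)|
      ≤ (y : ℝ) / r * (10 ^ W / 2 ^ s) * ex (fun σ => ind (mt P q s₀ b σ) * cnt l σ ^ 3)
        + (z : ℝ) ^ (3 * lam + 404 * W * s) := by
  have : ∀ p : ↥P, Nonempty (Fin (q p)) := sp_nonempty hq
  set N : ℕ := ∏ p ∈ P, q p with hN
  have hNpos : 0 < N := prod_pos hq
  -- the base set
  set J : Finset ↥P := univ.filter fun p : ↥P => Nat.gcd (q p) s₀ ≠ 1 with hJdef
  have hJ : #J ≤ W := by
    refine le_trans ?_ hs₀W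
    have : J.image (fun p : ↥P => (p : ℕ)) ⊆ {p ∈ P | Nat.gcd (q p) s₀ ≠ 1} := by
      intro p hp
      rw [mem_image] at hp
      obtain ⟨p', hp', rfl⟩ := hp
      rw [hJdef, mem_filter] at hp'
      exact mem_filter.2 ⟨p'.2, hp'.2⟩
    rw [← card_image_of_injective J Subtype.val_injective]
    exact card_le_card this
  obtain ⟨lo, up, hlo, hup, clo, cup, hA⟩ := fooling (fun p : ↥P => q p) z lam W s hz
    (by rw [Fintype.card_coe]; exact hP) (fun p => hq p p.2) (fun p => hqz p p.2) hW hs l hw hl J hJ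
  -- the weight
  have hdep : Dep J (fun σ => ind (mt P q s₀ b σ)) := by
    intro x x' h
    refine ind_congr ?_
    unfold mt
    refine forall_congr' fun p => ?_
    by_cases hp : p ∈ J
    · rw [h p hp]
    · have h1 : Nat.gcd (q p) s₀ = 1 := by
        by_contra h2
        exact hp (by rw [hJdef, mem_filter]; exact ⟨mem_univ _, h2⟩)
      rw [h1]
      exact ⟨fun _ => Nat.modEq_one, fun _ => Nat.modEq_one⟩
  obtain ⟨hA1, hA2⟩ := hA _ (fun σ => ind_nonneg _) hdep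
  -- the mean over a full period
  have hM : 0 < N * r := Nat.mul_pos hNpos hr
  have hmean : ∀ F : Sp P q → ℝ, ∑ m ∈ range (N * r) with m ≡ b [MOD (s₀ * r)], F (prj P q hq m)
      = N * ex (fun σ => ind (mt P q s₀ b σ) * F σ) := by
    intro F
    have hs₀r : Nat.Coprime s₀ r := (Nat.Coprime.coprime_dvd_right hs₀ hrP).symm
    have e1 : ∑ m ∈ range (N * r) with m ≡ b [MOD (s₀ * r)], F (prj P q hq m)
        = ∑ m ∈ range (N * r) with m ≡ b [MOD r],
            ind (mt P q s₀ b (prj P q hq m)) * F (prj P q hq m) := by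
      rw [sum_filter, sum_filter]
      refine sum_congr rfl fun m _ => ?_
      have h1 : m ≡ b [MOD (s₀ * r)] ↔ (m ≡ b [MOD s₀] ∧ m ≡ b [MOD r]) :=
        (Nat.modEq_and_modEq_iff_modEq_mul hs₀r).symm
      by_cases h2 : m ≡ b [MOD r]
      · by_cases h3 : m ≡ b [MOD s₀]
        · rw [if_pos (h1.2 ⟨h3, h2⟩), if_pos h2, ind_true ((mt_prj hq hcop hs₀ b m).2 h3), one_mul]
        · rw [if_neg (fun h => h3 (h1.1 h).1), if_pos h2,
            ind_false (fun h => h3 ((mt_prj hq hcop hs₀ b m).1 h)), zero_mul]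
      · rw [if_neg (fun h => h2 (h1.1 h).2), if_neg h2]
    rw [e1, sum_class_periodic N r b hNpos hr hrP
      (fun m => ind (mt P q s₀ b (prj P q hq m)) * F (prj P q hq m)) (fun m => by
        rw [prj_mod hq (fun p hp => Finset.dvd_prod_of_mem q hp) m])]
    have h2 : ∑ u ∈ range N, ind (mt P q s₀ b (prj P q hq u)) * F (prj P q hq u)
        = ∑ σ : Sp P q, ind (mt P q s₀ b σ) * F σ := by
      have hinj : Set.InjOn (fun m => prj P q hq m) (range N : Finset ℕ) := by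
        intro m hm m' hm' h
        rw [mem_coe, mem_range] at hm hm'
        exact (modEq_of_forall P hcop ((prj_eq_iff hq).1 h)).eq_of_lt_of_lt hm hm'
      have himg : (range N).image (fun m => prj P q hq m) = univ := by
        rw [← card_eq_iff_eq_univ, card_image_of_injOn hinj, card_range, card_Sp]
      rw [← himg, sum_image hinj]
    rw [h2]
    unfold ex
    rw [card_Sp, ← hN]
    have : (N : ℝ) ≠ 0 := by exact_mod_cast hNpos.ne'
    field_simp
  have hcount : ∀ F : Sp P q → ℝ, CF (fun p : ↥P => q p) F ((z : ℝ) ^ (3 * lam + 404 * W * s)) →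
      |∑ m ∈ Ioc y (2 * y) with m ≡ b [MOD (s₀ * r)], F (prj P q hq m)
        - (y : ℝ) / r * ex (fun σ => ind (mt P q s₀ b σ) * F σ)|
        ≤ (z : ℝ) ^ (3 * lam + 404 * W * s) := by
    intro F hF
    have h1 := AP_count hq hcop hF (s₀ * r) b (N * r) y hM (Nat.mul_dvd_mul_right hs₀ r)
      (Dvd.intro _ rfl)
    rw [hmean F] at h1
    have e : (y : ℝ) / ((N * r : ℕ) : ℝ) * (N * ex (fun σ => ind (mt P q s₀ b σ) * F σ))
        = (y : ℝ) / r * ex (fun σ => ind (mt P q s₀ b σ) * F σ) := by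
      push_cast
      have h2 : (N : ℝ) ≠ 0 := by exact_mod_cast hNpos.ne'
      have h3 : (r : ℝ) ≠ 0 := by exact_mod_cast hr.ne'
      field_simp
    rw [e] at h1
    exact h1
  have hclo := abs_le.1 (hcount lo clo)
  have hcup := abs_le.1 (hcount up cup)
  have hyr : (0 : ℝ) ≤ (y : ℝ) / r := by positivity
  -- comparison of the sums
  have hs1 : ∑ m ∈ Ioc y (2 * y) with m ≡ b [MOD (s₀ * r)], lo (prj P q hq m)
      ≤ ∑ m ∈ Ioc y (2 * y) with m ≡ b [MOD (s₀ * r)], H l (prj P q hq m) :=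
    sum_le_sum fun m _ => hlo _
  have hs2 : ∑ m ∈ Ioc y (2 * y) with m ≡ b [MOD (s₀ * r)], H l (prj P q hq m)
      ≤ ∑ m ∈ Ioc y (2 * y) with m ≡ b [MOD (s₀ * r)], up (prj P q hq m) :=
    sum_le_sum fun m _ => hup _
  have e1 : ex (fun σ => ind (mt P q s₀ b σ) * (H l σ - lo σ))
      = ex (fun σ => ind (mt P q s₀ b σ) * H l σ) - ex (fun σ => ind (mt P q s₀ b σ) * lo σ) := by
    rw [← ex_sub]
    exact ex_congr fun σ => by ring
  have e2 : ex (fun σ => ind (mt P q s₀ b σ) * (up σ - H l σ))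
      = ex (fun σ => ind (mt P q s₀ b σ) * up σ) - ex (fun σ => ind (mt P q s₀ b σ) * H l σ) := by
    rw [← ex_sub]
    exact ex_congr fun σ => by ring
  rw [e1] at hA1
  rw [e2] at hA2
  have g1 := mul_le_mul_of_nonneg_left hA1 hyr
  have g2 := mul_le_mul_of_nonneg_left hA2 hyr
  rw [mul_sub] at g1 g2
  rw [abs_le]
  have assoc : (y : ℝ) / r * (10 ^ W / 2 ^ s) * ex (fun σ => ind (mt P q s₀ b σ) * cnt l σ ^ 3)
      = (y : ℝ) / r * (10 ^ W / 2 ^ s * ex (fun σ => ind (mt P q s₀ b σ) * cnt l σ ^ 3)) := by ring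
  rw [assoc]
  constructor
  · linarith [hclo.1]
  · linarith [hcup.2]

end

end Pool.Agent.E25B
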