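import Mathlib
import Pool.Agent.E25B.ES
import Pool.Agent.E25B.DNF

/-!
# A pointwise Bessel-type inequality for unions of events with few coordinates
-/

namespace Pool.Agent.E25B

open Finset
open scoped Classical

set_option linter.unusedSectionVars false

noncomputable section

variable {ι : Type} [Fintype ι] [DecidableEq ι] {κ : ι → Type} [∀ i, Fintype (κ i)]

/-- Indicator of the union of the events `E t`, `t ∈ I`, whose set of coordinates `g t` contains `S`. -/
def FS {α : Type} (I : Finset α) (E : α → (∀ i, κ i) → Prop) (g : α → Finset ι) (S : Finset ι)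
    (x : ∀ i, κ i) : ℝ := ind (∃ t ∈ I, S ⊆ g t ∧ E t x)

/-- The constant. -/
def Cb (k : ℕ) : ℝ := 2 ^ (6 * k ^ 2 + 12 * k + 2)

/-- The thresholds in the proof of `bessel`. -/
private def dl (k l : ℕ) : ℝ := 2 ^ ((2 * k + 3) * l) / 2 ^ (k + (2 * k + 3) * k)

private lemma dl_pos (k l : ℕ) : 0 < dl k l := by unfold dl; positivity

private lemma dl_succ (k l : ℕ) : dl k (l + 1) = 2 ^ (2 * k + 3) * dl k l := by
  unfold dl; rw [mul_add, pow_add, mul_one]; ring

private lemma dl_mono (k : ℕ) {l l' : ℕ} (h : l ≤ l') : dl k l ≤ dl k l' := by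
  unfold dl
  gcongr
  norm_num

private lemma dl_self (k : ℕ) : dl k k = 1 / 2 ^ k := by
  unfold dl
  rw [pow_add, div_eq_div_iff (by positivity) (by positivity)]
  ring

private lemma dl_zero_cube (k : ℕ) : Cb k * (1 / 4 * dl k 0 ^ 3) = 1 := by
  unfold Cb dl
  have h : (2 : ℝ) ^ (6 * k ^ 2 + 12 * k + 2) = 4 * (2 ^ (k + (2 * k + 3) * k)) ^ 3 := by
    rw [← pow_mul]
    have : (4 : ℝ) = 2 ^ 2 := by norm_num
    rw [this, ← pow_add]
    congr 1
    ring
  rw [h]
  field_simp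
  norm_num

theorem bessel {α : Type} [∀ i, Nonempty (κ i)] (k : ℕ) (I : Finset α)
    (E : α → (∀ i, κ i) → Prop) (g : α → Finset ι)
    (hdep : ∀ t ∈ I, ∀ x y : ∀ i, κ i, (∀ i ∈ g t, x i = y i) → (E t x ↔ E t y))
    (hg : ∀ t ∈ I, #(g t) ≤ k) (x : ∀ i, κ i) (t : α) (ht : t ∈ I) (hE : E t x) :
    1 ≤ Cb k * ∑ S ∈ (g t).powerset, av S (FS I E g S) x * comp ∅ S (FS I E g ∅) x ^ 2 := by
  set F := FS I E g ∅ with hF
  have hFnn : ∀ y, 0 ≤ F y := fun y => ind_nonneg _
  have hFt : av (g t) F x = 1 := by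
    unfold av
    rw [ex_congr (g := fun _ => (1 : ℝ)) fun y => ?_]
    · exact ex_const _
    · refine ind_true ⟨t, ht, empty_subset _, ?_⟩
      refine (hdep t ht x _ fun i hi => ?_).1 hE
      rw [Finset.piecewise_eq_of_mem _ _ _ hi]
  have hpow : ∀ T : Finset ι, ∑ S ∈ T.powerset, comp ∅ S F x = av T F x := fun T => by
    rw [sum_comp_powerset, empty_union]
  have hgk : #(g t) ≤ k := hg t ht
  -- some component is large
  have h1 : ∃ S ∈ (g t).powerset, 1 / 2 ^ k ≤ |comp ∅ S F x| := by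
    by_contra hcon
    push Not at hcon
    have hlt : (1 : ℝ) < 1 := by
      calc (1 : ℝ) = ∑ S ∈ (g t).powerset, comp ∅ S F x := by rw [hpow, hFt]
        _ ≤ ∑ S ∈ (g t).powerset, |comp ∅ S F x| := sum_le_sum fun S _ => le_abs_self _
        _ < ∑ S ∈ (g t).powerset, (1 / 2 ^ k : ℝ) :=
            sum_lt_sum_of_nonempty ⟨∅, empty_mem_powerset _⟩ hcon
        _ = 2 ^ #(g t) / 2 ^ k := by
            rw [sum_const, card_powerset, nsmul_eq_mul]; push_cast; ring
        _ ≤ 1 := by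
            rw [div_le_one (by positivity)]
            exact pow_le_pow_right₀ (by norm_num) hgk
    exact lt_irrefl _ hlt
  set 𝒮 := (g t).powerset.filter fun S => dl k #S ≤ |comp ∅ S F x| with h𝒮
  have hne : 𝒮.Nonempty := by
    obtain ⟨S, hS, hS2⟩ := h1
    refine ⟨S, mem_filter.2 ⟨hS, ?_⟩⟩
    rw [← dl_self] at hS2
    exact (dl_mono k ((card_le_card (mem_powerset.1 hS)).trans hgk)).trans hS2
  obtain ⟨S, hS, hmin⟩ := exists_min_image 𝒮 (fun S => #S) hne
  obtain ⟨hSg, hSb⟩ := mem_filter.1 hS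
  have hSg' : S ⊆ g t := mem_powerset.1 hSg
  have hSk : #S ≤ k := (card_le_card hSg').trans hgk
  -- components on proper subsets are small
  set ε : ℝ := if #S = 0 then 0 else dl k (#S - 1) with hε
  have hε0 : 0 ≤ ε := by
    rw [hε]; split_ifs
    · exact le_rfl
    · exact (dl_pos _ _).le
  have hεδ : 2 ^ (2 * k + 3) * ε ≤ dl k #S := by
    rw [hε]; split_ifs with h
    · rw [mul_zero]; exact (dl_pos _ _).le
    · conv_rhs => rw [show #S = (#S - 1) + 1 by omega, dl_succ]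
  have hsmall : ∀ U, U ⊂ S → |comp ∅ U F x| ≤ ε := by
    intro U hU
    have hc : #U < #S := card_lt_card hU
    have hUn : U ∉ 𝒮 := fun h => absurd (hmin U h) (not_le.2 hc)
    have hUg : U ∈ (g t).powerset := mem_powerset.2 (hU.1.trans hSg')
    have h2 : |comp ∅ U F x| < dl k #U := by
      by_contra h3
      exact hUn (mem_filter.2 ⟨hUg, not_lt.1 h3⟩)
    rw [hε, if_neg (by omega)]
    exact h2.le.trans (dl_mono k (by omega))
  have hcardS : (#S.powerset : ℝ) ≤ 2 ^ k := by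
    rw [card_powerset]; push_cast
    exact pow_le_pow_right₀ (by norm_num) hSk
  have hcardss : (#S.ssubsets : ℝ) ≤ 2 ^ k := by
    refine le_trans ?_ hcardS
    exact_mod_cast card_le_card (erase_subset _ _)
  have hφ : ∀ T, T ⊂ S → av T F x ≤ 2 ^ k * ε := by
    intro T hT
    calc av T F x = ∑ U ∈ T.powerset, comp ∅ U F x := (hpow T).symm
      _ ≤ ∑ U ∈ T.powerset, ε := sum_le_sum fun U hU =>
          (le_abs_self _).trans (hsmall U (lt_of_le_of_lt (mem_powerset.1 hU) hT))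
      _ = #T.powerset * ε := by rw [sum_const, nsmul_eq_mul]
      _ ≤ 2 ^ k * ε := by
          refine mul_le_mul_of_nonneg_right (le_trans ?_ hcardS) hε0
          exact_mod_cast card_le_card (powerset_mono.2 hT.1)
  have hsplit : av S F x = comp ∅ S F x + ∑ U ∈ S.ssubsets, comp ∅ U F x := by
    rw [← hpow S, ssubsets]
    exact (add_sum_erase S.powerset (fun U => comp ∅ U F x) (mem_powerset_self S)).symm
  have hrest : |∑ U ∈ S.ssubsets, comp ∅ U F x| ≤ 2 ^ k * ε := by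
    calc |∑ U ∈ S.ssubsets, comp ∅ U F x| ≤ ∑ U ∈ S.ssubsets, |comp ∅ U F x| := abs_sum_le_sum_abs _ _
      _ ≤ ∑ U ∈ S.ssubsets, ε := sum_le_sum fun U hU => hsmall U (mem_ssubsets.1 hU)
      _ = #S.ssubsets * ε := by rw [sum_const, nsmul_eq_mul]
      _ ≤ 2 ^ k * ε := mul_le_mul_of_nonneg_right hcardss hε0
  have hδpos : 0 < dl k #S := dl_pos _ _
  have hp1 : (1 : ℝ) ≤ 2 ^ k := one_le_pow₀ (by norm_num)
  have hp3 : (2 : ℝ) ^ (2 * k + 3) = 8 * (2 ^ k * 2 ^ k) := by
    rw [pow_add, two_mul, pow_add]; ring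
  rw [hp3] at hεδ
  have hk2 : 2 ^ k * ε ≤ 2 ^ k * 2 ^ k * ε := by
    have : 0 ≤ 2 ^ k * ε := by positivity
    nlinarith
  -- the union over terms containing `S`
  have hup : av S F x ≤ av S (FS I E g S) x + ∑ T ∈ S.ssubsets, av T F x := by
    have hpt : ∀ y, F y ≤ FS I E g S y + ∑ T ∈ S.ssubsets, ind (∃ t ∈ I, g t ∩ S = T ∧ E t y) := by
      intro y
      by_cases hy : ∃ t ∈ I, ∅ ⊆ g t ∧ E t y
      · obtain ⟨t', ht', -, hE'⟩ := hy
        have hle1 : F y ≤ 1 := ind_le_one _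
        have hnn1 : 0 ≤ FS I E g S y := ind_nonneg _
        by_cases hsub : S ⊆ g t'
        · have : FS I E g S y = 1 := ind_true ⟨t', ht', hsub, hE'⟩
          have h0 : 0 ≤ ∑ T ∈ S.ssubsets, ind (∃ t ∈ I, g t ∩ S = T ∧ E t y) :=
            sum_nonneg fun _ _ => ind_nonneg _
          linarith
        · have hT : g t' ∩ S ∈ S.ssubsets := by
            rw [mem_ssubsets, Finset.ssubset_iff_subset_ne]
            exact ⟨inter_subset_right, fun h => hsub (inter_eq_right.1 h)⟩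
          have h0 : ind (∃ t ∈ I, g t ∩ S = g t' ∩ S ∧ E t y)
              ≤ ∑ T ∈ S.ssubsets, ind (∃ t ∈ I, g t ∩ S = T ∧ E t y) :=
            single_le_sum (f := fun T => ind (∃ t ∈ I, g t ∩ S = T ∧ E t y))
              (fun _ _ => ind_nonneg _) hT
          have h2 : ind (∃ t ∈ I, g t ∩ S = g t' ∩ S ∧ E t y) = 1 := ind_true ⟨t', ht', rfl, hE'⟩
          linarith
      · have : F y = 0 := ind_false hy
        rw [this]
        exact add_nonneg (ind_nonneg _) (sum_nonneg fun _ _ => ind_nonneg _)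
    calc av S F x ≤ av S (fun y => FS I E g S y + ∑ T ∈ S.ssubsets, ind (∃ t ∈ I, g t ∩ S = T ∧ E t y)) x :=
          av_mono S hpt x
      _ = av S (FS I E g S) x + ∑ T ∈ S.ssubsets, av S (fun y => ind (∃ t ∈ I, g t ∩ S = T ∧ E t y)) x := by
          rw [av_add, av_sum]
      _ ≤ av S (FS I E g S) x + ∑ T ∈ S.ssubsets, av T F x := by
          gcongr with T hT
          have hTS : T ⊆ S := (mem_ssubsets.1 hT).1
          unfold av
          refine ex_mono fun y => ind_mono ?_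
          rintro ⟨t', ht', hT', hE'⟩
          refine ⟨t', ht', empty_subset _, ?_⟩
          refine (hdep t' ht' _ _ fun i hi => ?_).1 hE'
          by_cases hiS : i ∈ S
          · have hiT : i ∈ T := by rw [← hT']; exact mem_inter.2 ⟨hi, hiS⟩
            rw [Finset.piecewise_eq_of_mem _ _ _ hiS, Finset.piecewise_eq_of_mem _ _ _ hiT]
          · have hiT : i ∉ T := fun h => hiS (hTS h)
            rw [Finset.piecewise_eq_of_notMem _ _ _ hiS, Finset.piecewise_eq_of_notMem _ _ _ hiT]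
  have hsumφ : ∑ T ∈ S.ssubsets, av T F x ≤ 2 ^ k * 2 ^ k * ε := by
    calc ∑ T ∈ S.ssubsets, av T F x ≤ ∑ T ∈ S.ssubsets, 2 ^ k * ε :=
          sum_le_sum fun T hT => hφ T (mem_ssubsets.1 hT)
      _ = #S.ssubsets * (2 ^ k * ε) := by rw [sum_const, nsmul_eq_mul]
      _ ≤ 2 ^ k * (2 ^ k * ε) := mul_le_mul_of_nonneg_right hcardss (by positivity)
      _ = 2 ^ k * 2 ^ k * ε := by ring
  have hφS : 0 ≤ av S F x := av_nonneg S hFnn x
  obtain ⟨hr1, hr2⟩ := abs_le.1 hrest
  have hcS : dl k #S ≤ comp ∅ S F x := by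
    rcases le_abs'.1 hSb with h | h
    · exfalso
      nlinarith
    · exact h
  have hmain : 1 / 4 * dl k #S ≤ av S (FS I E g S) x := by
    nlinarith
  have hδ0 : dl k 0 ≤ dl k #S := dl_mono k (Nat.zero_le _)
  have hδ00 : 0 < dl k 0 := dl_pos _ _
  have hterm : 1 / 4 * dl k 0 ^ 3 ≤ av S (FS I E g S) x * comp ∅ S F x ^ 2 := by
    calc 1 / 4 * dl k 0 ^ 3 = (1 / 4 * dl k 0) * dl k 0 ^ 2 := by ring
      _ ≤ (1 / 4 * dl k #S) * comp ∅ S F x ^ 2 := by
          have := hδ0.trans hcS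
          gcongr
      _ ≤ av S (FS I E g S) x * comp ∅ S F x ^ 2 := mul_le_mul_of_nonneg_right hmain (sq_nonneg _)
  have hCb : 0 < Cb k := by unfold Cb; positivity
  calc (1 : ℝ) = Cb k * (1 / 4 * dl k 0 ^ 3) := (dl_zero_cube k).symm
    _ ≤ Cb k * (av S (FS I E g S) x * comp ∅ S F x ^ 2) := mul_le_mul_of_nonneg_left hterm hCb.le
    _ ≤ Cb k * ∑ S ∈ (g t).powerset, av S (FS I E g S) x * comp ∅ S F x ^ 2 := by
        refine mul_le_mul_of_nonneg_left ?_ hCb.le
        exact single_le_sum (f := fun S => av S (FS I E g S) x * comp ∅ S F x ^ 2)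
          (fun S _ => mul_nonneg (av_nonneg S (fun _ => ind_nonneg _) x) (sq_nonneg _)) hSg

theorem bessel_sum {α : Type} [∀ i, Nonempty (κ i)] (I : Finset α)
    (E : α → (∀ i, κ i) → Prop) (g : α → Finset ι) :
    ∑ S : Finset ι, ex (fun x => av S (FS I E g S) x * comp ∅ S (FS I E g ∅) x ^ 2)
      ≤ ex (FS I E g ∅) := by
  calc ∑ S : Finset ι, ex (fun x => av S (FS I E g S) x * comp ∅ S (FS I E g ∅) x ^ 2)
      ≤ ∑ S : Finset ι, ex (fun x => comp ∅ S (FS I E g ∅) x ^ 2) := by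
        refine sum_le_sum fun S _ => ex_mono fun x => ?_
        have h1 : av S (FS I E g S) x ≤ 1 := ex_le_of_le fun y => ind_le_one _
        nlinarith [sq_nonneg (comp ∅ S (FS I E g ∅) x)]
    _ = ex (fun x => FS I E g ∅ x ^ 2) := parseval _
    _ = ex (FS I E g ∅) := ex_congr fun x => by rw [sq]; exact ind_sq _

end

end Pool.Agent.E25B
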