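import Mathlib

/-!
# Moments: sums of reciprocals of least common multiples
-/

namespace Pool.Agent.E25B

open Finset

noncomputable section

/-- The moment sum used in the core estimate. -/
def Mom (n : ℕ → ℕ) (I : Finset ℕ) : ℝ :=
  ∑ t ∈ I, (1 : ℝ) / n t
    + ∑ t ∈ I, ∑ v ∈ Fintype.piFinset (fun _ : Fin 9 => I),
        (1 : ℝ) / (Nat.lcm (n t) ((univ : Finset (Fin 9)).lcm fun a => n (v a)) : ℕ)

lemma card_divisors_mul_le (a b : ℕ) :
    #(Nat.divisors (a * b)) ≤ #(Nat.divisors a) * #(Nat.divisors b) := by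
  rw [Nat.divisors_mul]
  exact Finset.card_mul_le

/-- `∑_{l ≤ x} τ(l)^j / l ≤ (∑_{l ≤ x} 1/l)^(2^j)`; use `S_j ≤ S_{j-1}^2`, `τ(ab) ≤ τ(a) τ(b)`. -/
theorem tau_pow_sum (x j : ℕ) :
    ∑ l ∈ Icc 1 x, ((#(Nat.divisors l) : ℝ) ^ j) / l ≤ (∑ l ∈ Icc 1 x, (1 : ℝ) / l) ^ (2 ^ j) := by
  induction j with
  | zero => simp
  | succ j ih =>
    have hnn : 0 ≤ ∑ l ∈ Icc 1 x, ((#(Nat.divisors l) : ℝ) ^ j) / l :=
      sum_nonneg fun l _ => by positivity
    calc ∑ l ∈ Icc 1 x, ((#(Nat.divisors l) : ℝ) ^ (j + 1)) / l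
        = ∑ l ∈ Icc 1 x, ∑ p ∈ l.divisorsAntidiagonal, ((#(Nat.divisors l) : ℝ) ^ j) / l := by
          refine sum_congr rfl fun l _ => ?_
          have hc : #(l.divisorsAntidiagonal) = #(Nat.divisors l) := by
            rw [← Nat.map_div_right_divisors, card_map]
          rw [sum_const, nsmul_eq_mul, hc]
          ring
      _ ≤ ∑ l ∈ Icc 1 x, ∑ p ∈ l.divisorsAntidiagonal,
            (((#(Nat.divisors p.1) : ℝ) ^ j) / p.1) * (((#(Nat.divisors p.2) : ℝ) ^ j) / p.2) := by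
          refine sum_le_sum fun l _ => sum_le_sum fun p hp => ?_
          obtain ⟨hp1, hp2⟩ := Nat.mem_divisorsAntidiagonal.1 hp
          have h1 : (#(Nat.divisors l) : ℝ) ≤ #(Nat.divisors p.1) * #(Nat.divisors p.2) := by
            rw [← hp1]; exact_mod_cast card_divisors_mul_le p.1 p.2
          have h2 : (l : ℝ) = p.1 * p.2 := by rw [← hp1]; push_cast; ring
          rw [div_mul_div_comm, ← mul_pow, ← h2]
          gcongr
      _ = ∑ q ∈ (Icc 1 x).sigma fun l => l.divisorsAntidiagonal,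
            (((#(Nat.divisors q.2.1) : ℝ) ^ j) / q.2.1) * (((#(Nat.divisors q.2.2) : ℝ) ^ j) / q.2.2) := by
          rw [sum_sigma]
      _ = ∑ p ∈ ((Icc 1 x).sigma fun l => l.divisorsAntidiagonal).image (fun q => q.2),
            (((#(Nat.divisors p.1) : ℝ) ^ j) / p.1) * (((#(Nat.divisors p.2) : ℝ) ^ j) / p.2) := by
          rw [sum_image]
          rintro ⟨l, p⟩ hq ⟨l', p'⟩ hq' h
          simp only [coe_sigma, Set.mem_sigma_iff, mem_coe, Nat.mem_divisorsAntidiagonal] at hq hq'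
          simp only at h
          subst h
          have : l = l' := hq.2.1.symm.trans hq'.2.1
          subst this
          rfl
      _ ≤ ∑ p ∈ Icc 1 x ×ˢ Icc 1 x,
            (((#(Nat.divisors p.1) : ℝ) ^ j) / p.1) * (((#(Nat.divisors p.2) : ℝ) ^ j) / p.2) := by
          refine sum_le_sum_of_subset_of_nonneg ?_ fun p _ _ => by positivity
          intro p hp
          simp only [mem_image, mem_sigma, mem_Icc, Nat.mem_divisorsAntidiagonal] at hp
          obtain ⟨⟨l, p'⟩, ⟨⟨h1, h2⟩, h3, h4⟩, rfl⟩ := hp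
          simp only at h1 h2 h3 h4 ⊢
          have ha : 0 < p'.1 := Nat.pos_of_ne_zero fun h => h4 (by rw [← h3, h, zero_mul])
          have hb : 0 < p'.2 := Nat.pos_of_ne_zero fun h => h4 (by rw [← h3, h, mul_zero])
          simp only [mem_product, mem_Icc]
          refine ⟨⟨ha, ?_⟩, hb, ?_⟩
          · exact (Nat.le_mul_of_pos_right _ hb).trans (h3.trans_le h2)
          · exact (Nat.le_mul_of_pos_left _ ha).trans (h3.trans_le h2)
      _ = (∑ l ∈ Icc 1 x, ((#(Nat.divisors l) : ℝ) ^ j) / l) ^ 2 := by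
          rw [sq, sum_mul_sum, sum_product]
      _ ≤ ((∑ l ∈ Icc 1 x, (1 : ℝ) / l) ^ (2 ^ j)) ^ 2 := by gcongr
      _ = (∑ l ∈ Icc 1 x, (1 : ℝ) / l) ^ (2 ^ (j + 1)) := by rw [← pow_mul, pow_succ]

lemma harm_Icc_le (N : ℕ) : ∑ l ∈ Icc 1 N, (1 : ℝ) / l ≤ 1 + Real.log N := by
  have h := harmonic_le_one_add_log N
  have h2 : ((harmonic N : ℚ) : ℝ) = ∑ l ∈ Icc 1 N, (1 : ℝ) / l := by
    rw [harmonic_eq_sum_Icc]
    push_cast
    exact sum_congr rfl fun l _ => (one_div _).symm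
  rwa [h2] at h

/-- All `j`-tuples of distinct-valued moduli: the number of tuples with lcm `l` is at most `τ(l)^j`. -/
theorem lcm_moment (n : ℕ → ℕ) (I : Finset ℕ) (hinj : Set.InjOn n I) (hpos : ∀ t ∈ I, 0 < n t)
    (Y : ℕ) (hY1 : 1 ≤ Y) (hY : ∀ t ∈ I, n t ≤ Y) (j : ℕ) :
    ∑ v ∈ Fintype.piFinset (fun _ : Fin j => I), (1 : ℝ) / ((univ : Finset (Fin j)).lcm fun a => n (v a) : ℕ)
      ≤ (1 + j * Real.log Y) ^ (2 ^ j) := by
  classical
  set L : (Fin j → ℕ) → ℕ := fun v => (univ : Finset (Fin j)).lcm fun a => n (v a) with hL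
  have hmem : ∀ v ∈ Fintype.piFinset (fun _ : Fin j => I), L v ∈ Icc 1 (Y ^ j) := by
    intro v hv
    rw [Fintype.mem_piFinset] at hv
    have h0 : L v ≠ 0 := by
      rw [hL, Ne, Finset.lcm_eq_zero_iff]
      rintro ⟨a, _, ha⟩
      exact (hpos _ (hv a)).ne' ha
    have h1 : L v ∣ ∏ a, n (v a) := Finset.lcm_dvd fun a _ => Finset.dvd_prod_of_mem _ (mem_univ a)
    have h2 : 0 < ∏ a, n (v a) := Finset.prod_pos fun a _ => hpos _ (hv a)
    have h3 : ∏ a, n (v a) ≤ Y ^ j := by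
      calc ∏ a, n (v a) ≤ ∏ a : Fin j, Y := Finset.prod_le_prod' fun a _ => hY _ (hv a)
        _ = Y ^ j := by simp
    rw [mem_Icc]
    exact ⟨Nat.pos_of_ne_zero h0, (Nat.le_of_dvd h2 h1).trans h3⟩
  calc ∑ v ∈ Fintype.piFinset (fun _ : Fin j => I), (1 : ℝ) / (L v : ℕ)
      = ∑ l ∈ Icc 1 (Y ^ j), ∑ v ∈ Fintype.piFinset (fun _ : Fin j => I) with L v = l, (1 : ℝ) / (L v : ℕ) :=
        (sum_fiberwise_of_maps_to hmem _).symm
    _ = ∑ l ∈ Icc 1 (Y ^ j), (#{v ∈ Fintype.piFinset (fun _ : Fin j => I) | L v = l} : ℝ) / l := by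
        refine sum_congr rfl fun l _ => ?_
        rw [sum_congr rfl (g := fun _ => (1 : ℝ) / (l : ℕ))]
        · rw [sum_const, nsmul_eq_mul]; ring
        · intro v hv
          rw [(mem_filter.1 hv).2]
    _ ≤ ∑ l ∈ Icc 1 (Y ^ j), ((#(Nat.divisors l) : ℝ) ^ j) / l := by
        refine sum_le_sum fun l hl => ?_
        have hl0 : l ≠ 0 := by have := (mem_Icc.1 hl).1; omega
        have hc : #{v ∈ Fintype.piFinset (fun _ : Fin j => I) | L v = l} ≤ #(Nat.divisors l) ^ j := by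
          calc #{v ∈ Fintype.piFinset (fun _ : Fin j => I) | L v = l}
              ≤ #(Fintype.piFinset fun _ : Fin j => Nat.divisors l) := by
                refine Finset.card_le_card_of_injOn (fun v a => n (v a)) ?_ ?_
                · intro v hv
                  have hv' := mem_filter.1 (mem_coe.1 hv)
                  rw [mem_coe, Fintype.mem_piFinset]
                  intro a
                  rw [Nat.mem_divisors]
                  refine ⟨?_, hl0⟩
                  rw [← hv'.2]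
                  exact Finset.dvd_lcm (mem_univ a)
                · intro v hv v' hv' h
                  have hv1 := Fintype.mem_piFinset.1 (mem_filter.1 (mem_coe.1 hv)).1
                  have hv1' := Fintype.mem_piFinset.1 (mem_filter.1 (mem_coe.1 hv')).1
                  funext a
                  exact hinj (mem_coe.2 (hv1 a)) (mem_coe.2 (hv1' a)) (congrFun h a)
            _ = #(Nat.divisors l) ^ j := by simp [Fintype.card_piFinset]
        have hc' : (#{v ∈ Fintype.piFinset (fun _ : Fin j => I) | L v = l} : ℝ)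
            ≤ (#(Nat.divisors l) : ℝ) ^ j := by exact_mod_cast hc
        gcongr
    _ ≤ (∑ l ∈ Icc 1 (Y ^ j), (1 : ℝ) / l) ^ (2 ^ j) := tau_pow_sum _ _
    _ ≤ (1 + j * Real.log Y) ^ (2 ^ j) := by
        have h := harm_Icc_le (Y ^ j)
        rw [Nat.cast_pow, Real.log_pow] at h
        have h0 : 0 ≤ ∑ l ∈ Icc 1 (Y ^ j), (1 : ℝ) / l := sum_nonneg fun l _ => by positivity
        gcongr

theorem Mom_le (n : ℕ → ℕ) (I : Finset ℕ) (hinj : Set.InjOn n I) (hpos : ∀ t ∈ I, 0 < n t)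
    (Y : ℕ) (hY1 : 1 ≤ Y) (hY : ∀ t ∈ I, n t ≤ Y) :
    Mom n I ≤ 2 * (1 + 10 * Real.log Y) ^ 1024 := by
  have hlog : 0 ≤ Real.log Y := Real.log_nonneg (by exact_mod_cast hY1)
  have h10 := lcm_moment n I hinj hpos Y hY1 hY 10
  have h1 := lcm_moment n I hinj hpos Y hY1 hY 1
  have e1 : ∑ t ∈ I, (1 : ℝ) / n t
      = ∑ v ∈ Fintype.piFinset (fun _ : Fin 1 => I), (1 : ℝ) / ((univ : Finset (Fin 1)).lcm fun a => n (v a) : ℕ) := by
    refine sum_bij' (fun t _ => fun _ => t) (fun v _ => v 0) ?_ ?_ ?_ ?_ ?_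
    · intro t ht; rw [Fintype.mem_piFinset]; intro _; exact ht
    · intro v hv; exact Fintype.mem_piFinset.1 hv 0
    · intro t _; rfl
    · intro v _; funext a; rw [Subsingleton.elim a 0]
    · intro t _; simp
  have e10 : ∑ t ∈ I, ∑ v ∈ Fintype.piFinset (fun _ : Fin 9 => I),
        (1 : ℝ) / (Nat.lcm (n t) ((univ : Finset (Fin 9)).lcm fun a => n (v a)) : ℕ)
      = ∑ v ∈ Fintype.piFinset (fun _ : Fin 10 => I),
          (1 : ℝ) / ((univ : Finset (Fin 10)).lcm fun a => n (v a) : ℕ) := by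
    rw [← sum_product']
    refine sum_bij' (fun p _ => (Fin.cons p.1 p.2 : Fin 10 → ℕ)) (fun v _ => (v 0, fun a => v a.succ)) ?_ ?_ ?_ ?_ ?_
    · intro p hp
      rw [mem_product] at hp
      rw [Fintype.mem_piFinset]
      intro a
      refine Fin.cases ?_ (fun b => ?_) a
      · exact hp.1
      · exact Fintype.mem_piFinset.1 hp.2 b
    · intro v hv
      rw [mem_product]
      exact ⟨Fintype.mem_piFinset.1 hv 0, Fintype.mem_piFinset.2 fun a => Fintype.mem_piFinset.1 hv _⟩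
    · intro p _; rfl
    · intro v _
      funext a
      refine Fin.cases ?_ (fun b => ?_) a
      · rfl
      · rfl
    · intro p _
      have : ((univ : Finset (Fin 10)).lcm fun a => n ((Fin.cons p.1 p.2 : Fin 10 → ℕ) a))
          = Nat.lcm (n p.1) ((univ : Finset (Fin 9)).lcm fun a => n (p.2 a)) := by
        have hu : (univ : Finset (Fin 10)) = insert 0 (univ.image Fin.succ) := by
          ext a
          refine Fin.cases ?_ (fun b => ?_) a <;> simp
        rw [hu, Finset.lcm_insert, Finset.lcm_image]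
        rfl
      rw [this]
  unfold Mom
  rw [e1, e10]
  have hb : (1 + (1 : ℕ) * Real.log Y) ^ (2 ^ 1) ≤ (1 + 10 * Real.log Y) ^ 1024 := by
    calc (1 + (1 : ℕ) * Real.log Y) ^ (2 ^ 1) ≤ (1 + 10 * Real.log Y) ^ (2 ^ 1) := by
          refine pow_le_pow_left₀ (by positivity) ?_ _
          push_cast; linarith
      _ ≤ (1 + 10 * Real.log Y) ^ 1024 := pow_le_pow_right₀ (by linarith) (by norm_num)
  have hc : (1 + (10 : ℕ) * Real.log Y) ^ (2 ^ 10) = (1 + 10 * Real.log Y) ^ 1024 := by norm_num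
  rw [two_mul]
  exact add_le_add (h1.trans hb) (h10.trans hc.le)

end

end Pool.Agent.E25B
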