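import Mathlib
import Pool.Agent.E25.Dens
import Pool.Agent.E25B.AP
import Pool.Agent.E25B.Bessel
import Pool.Agent.E25B.Mom

/-!
# Core estimate: definitions
-/

namespace Pool.Agent.E25B

open Finset Pool.Agent.E25
open scoped Classical

set_option linter.unusedSectionVars false

noncomputable section

/-- The standing data: smooth coordinates `P`, rough coordinates `R`, moduli `n t` (`t ∈ I`),
blocking moduli `n i` (`i < h`). -/
structure Data where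
  P : Finset ℕ
  R : Finset ℕ
  q : ℕ → ℕ
  n : ℕ → ℕ
  b : ℕ → ℕ
  I : Finset ℕ
  h : ℕ
  k : ℕ
  w : ℕ
  z : ℕ
  hPR : Disjoint P R
  hq : ∀ p ∈ P ∪ R, 0 < q p
  hcop : ((P ∪ R : Finset ℕ) : Set ℕ).Pairwise fun a b => Nat.Coprime (q a) (q b)
  hz : 2 ≤ z
  hPz : #P + 1 ≤ z
  hqz : ∀ p ∈ P, q p ≤ z
  hw : 1 ≤ w
  hpos : ∀ i, 0 < n i
  hinj : Function.Injective n
  hn : ∀ t ∈ I, n t ∣ (∏ p ∈ P, q p) * ∏ p ∈ R, q p
  hwid : ∀ t ∈ I, #{p ∈ P | Nat.gcd (q p) (n t) ≠ 1} ≤ w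
  hk : ∀ t ∈ I, #{p ∈ R | Nat.gcd (q p) (n t) ≠ 1} ≤ k
  hR : ∀ t ∈ I, ∀ p ∈ R, Nat.gcd (q p) (n t) = 1 ∨ q p ∣ n t
  h0 : ∀ i < h, n i ∣ ∏ p ∈ P, q p
  h0w : ∀ i < h, #{p ∈ P | Nat.gcd (q p) (n i) ≠ 1} ≤ w

namespace Data

variable (D : Data)

abbrev Ωs : Type := Sp D.P D.q
abbrev Ωr : Type := Sp D.R D.q

lemma hqP : ∀ p ∈ D.P, 0 < D.q p := fun p hp => D.hq p (mem_union_left _ hp)
lemma hqR : ∀ p ∈ D.R, 0 < D.q p := fun p hp => D.hq p (mem_union_right _ hp)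

instance neP : ∀ p : ↥D.P, Nonempty (Fin (D.q p)) := sp_nonempty D.hqP
instance neR : ∀ p : ↥D.R, Nonempty (Fin (D.q p)) := sp_nonempty D.hqR

/-- smooth part of the event `t` -/
def A (t : ℕ) (σ : D.Ωs) : Prop := mt D.P D.q (D.n t) (D.b t) σ
/-- rough part of the event `t` -/
def G (t : ℕ) (ρ : D.Ωr) : Prop := mt D.R D.q (D.n t) (D.b t) ρ
/-- smooth coordinates of `t` -/
def J (t : ℕ) : Finset ↥D.P := {p | Nat.gcd (D.q p) (D.n t) ≠ 1}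
/-- rough coordinates of `t` -/
def g (t : ℕ) : Finset ↥D.R := {p | Nat.gcd (D.q p) (D.n t) ≠ 1}
/-- the rough point of the residue of `t` -/
def pt (t : ℕ) : D.Ωr := prj D.R D.q D.hqR (D.b t)
/-- smooth point of an integer -/
def πs (m : ℕ) : D.Ωs := prj D.P D.q D.hqP m
/-- rough point of an integer -/
def πr (m : ℕ) : D.Ωr := prj D.R D.q D.hqR m
/-- the smooth modulus -/
def DP : ℕ := ∏ p ∈ D.P, D.q p
/-- the rough modulus -/
def DR : ℕ := ∏ p ∈ D.R, D.q p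
/-- smooth part of the modulus -/
def s (t : ℕ) : ℕ := Nat.gcd (D.n t) D.DP
/-- product of `q` over a set of rough coordinates -/
def rr (S : Finset ↥D.R) : ℕ := ∏ p ∈ S, D.q p
/-- number of satisfied events -/
def N (σ : D.Ωs) (ρ : D.Ωr) : ℝ := ∑ t ∈ D.I, ind (D.A t σ ∧ D.G t ρ)
/-- the blocking event -/
def U0 (σ : D.Ωs) : ℝ := ind (∃ i < D.h, D.A i σ)

/-- **Moment bound** (to be proved in CoreMom.lean). -/
def MomStatement : Prop := ∀ t ∈ D.I, ∀ T ⊆ D.g t,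
  (1 / (D.rr (D.g t) : ℝ)) * ex (fun ρ => ex fun σ => ind (D.A t σ) * D.N σ (T.piecewise (D.pt t) ρ) ^ 9)
    ≤ ∑ v ∈ Fintype.piFinset (fun _ : Fin 9 => D.I),
        (1 : ℝ) / (Nat.lcm (D.n t) ((univ : Finset (Fin 9)).lcm fun a => D.n (v a)) : ℕ)

end Data

end

end Pool.Agent.E25B
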