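import Mathlib
import Pool.Agent.E25.NT

/-!
# Number-theoretic sums
-/

namespace Pool.Agent.E25B

open Finset Pool.Agent.E25 Pool.Agent.E456
open scoped Classical

noncomputable section

/-- Dyadic criterion for summability. -/
theorem summable_of_dyadic (f : ℕ → ℝ) (h0 : ∀ m, 0 ≤ f m) (c : ℕ → ℝ) (hc : Summable c)
    (h : ∀ j, ∑ m ∈ Ico (2 ^ j) (2 ^ (j + 1)), f m ≤ c j) : Summable f := by
  have hc0 : ∀ j, 0 ≤ c j := fun j => (sum_nonneg fun m _ => h0 m).trans (h j)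
  have hJ : ∀ J, ∑ m ∈ range (2 ^ J), f m ≤ f 0 + ∑ j ∈ range J, c j := by
    intro J
    induction J with
    | zero => simp
    | succ J ih =>
      have h1 : ∑ m ∈ range (2 ^ (J + 1)), f m =
          ∑ m ∈ range (2 ^ J), f m + ∑ m ∈ Ico (2 ^ J) (2 ^ (J + 1)), f m := by
        rw [sum_range_add_sum_Ico]
        exact Nat.pow_le_pow_right (by norm_num) (by omega)
      rw [h1, sum_range_succ]
      have := h J
      linarith
  refine summable_of_sum_le h0 (c := f 0 + ∑' j, c j) ?_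
  intro u
  obtain ⟨J, hJu⟩ : ∃ J, u ⊆ range (2 ^ J) := by
    refine ⟨u.sup id, fun m hm => ?_⟩
    rw [mem_range]
    have h1 : m ≤ u.sup id := le_sup (f := id) hm
    exact lt_of_le_of_lt h1 (Nat.lt_two_pow_self)
  calc ∑ x ∈ u, f x ≤ ∑ m ∈ range (2 ^ J), f m := sum_le_sum_of_subset_of_nonneg hJu fun _ _ _ => h0 _
    _ ≤ f 0 + ∑ j ∈ range J, c j := hJ J
    _ ≤ f 0 + ∑' j, c j := by
      have := hc.sum_le_tsum (range J) (fun j _ => hc0 j)
      linarith

/-- `exp (-c j^θ)` decays faster than any power. -/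
lemma exp_neg_rpow_le {θ c : ℝ} (hθ : 0 < θ) (hc : 0 < c) (N : ℕ) :
    ∃ K : ℝ, 0 < K ∧ ∀ j : ℕ, 1 ≤ j → Real.exp (-(c * (j : ℝ) ^ θ)) ≤ K / (j : ℝ) ^ N := by
  obtain ⟨n, hn⟩ := exists_nat_ge ((N : ℝ) / θ)
  have hn' : (N : ℝ) ≤ θ * n := by
    rw [div_le_iff₀ hθ] at hn
    linarith
  refine ⟨(n.factorial : ℝ) / c ^ n, by positivity, ?_⟩
  intro j hj
  have hj' : (1 : ℝ) ≤ j := by exact_mod_cast hj
  have hj0 : (0 : ℝ) < j := by linarith
  have h1 := Real.pow_div_factorial_le_exp (c * (j : ℝ) ^ θ) (by positivity) n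
  rw [Real.exp_neg]
  have h2 : (j : ℝ) ^ N ≤ ((j : ℝ) ^ θ) ^ n := by
    rw [← Real.rpow_natCast, ← Real.rpow_natCast, ← Real.rpow_mul hj0.le]
    exact Real.rpow_le_rpow_of_exponent_le hj' hn'
  have h3 : 0 < (c * (j : ℝ) ^ θ) ^ n / (n.factorial : ℝ) := by positivity
  calc (Real.exp (c * (j : ℝ) ^ θ))⁻¹ ≤ ((c * (j : ℝ) ^ θ) ^ n / (n.factorial : ℝ))⁻¹ :=
        inv_anti₀ h3 h1
    _ = (n.factorial : ℝ) / c ^ n / ((j : ℝ) ^ θ) ^ n := by
        rw [inv_div, mul_pow]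
        field_simp
    _ ≤ (n.factorial : ℝ) / c ^ n / (j : ℝ) ^ N := by
        gcongr

/-- `∑_{b > B, b ∈ s} 1/b^2 ≤ 2/B`. -/
lemma sum_inv_sq_le (B : ℝ) (hB : 1 ≤ B) (s : Finset ℕ) (hs : ∀ b ∈ s, B < b) :
    ∑ b ∈ s, (1 : ℝ) / (b : ℝ) ^ 2 ≤ 2 / B := by
  -- telescoping
  obtain ⟨n, hn⟩ : ∃ n : ℕ, n = ⌊B⌋₊ := ⟨_, rfl⟩
  have hn1 : 1 ≤ n := by
    rw [hn]
    exact Nat.one_le_iff_ne_zero.mpr (Nat.floor_pos.mpr hB).ne'
  have hn1' : (1 : ℝ) ≤ n := by exact_mod_cast hn1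
  have hnB : B < n + 1 := by
    rw [hn]
    exact Nat.lt_floor_add_one B
  have htel : ∀ M, n ≤ M → ∑ b ∈ Ioc n M, (1 : ℝ) / (b : ℝ) ^ 2 ≤ 1 / n - 1 / M := by
    intro M hM
    induction M, hM using Nat.le_induction with
    | base => simp
    | succ M hM ih =>
      rw [sum_Ioc_succ_top hM]
      have hM1 : (1 : ℝ) ≤ M := by exact_mod_cast hn1.trans hM
      have h1 : (1 : ℝ) / ((M + 1 : ℕ) : ℝ) ^ 2 ≤ 1 / M - 1 / ((M + 1 : ℕ) : ℝ) := by
        push_cast
        rw [div_sub_div _ _ (by positivity) (by positivity), div_le_div_iff₀ (by positivity) (by positivity)]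
        nlinarith
      linarith
  have hsub : s ⊆ Ioc n (max n (s.sup id)) := by
    intro b hb
    rw [mem_Ioc]
    refine ⟨?_, ?_⟩
    · have h1 := hs b hb
      have h2 : (n : ℝ) ≤ B := by
        rw [hn]
        exact Nat.floor_le (by linarith)
      exact_mod_cast (h2.trans_lt h1)
    · exact le_max_of_le_right (le_sup (f := id) hb)
  calc ∑ b ∈ s, (1 : ℝ) / (b : ℝ) ^ 2 ≤ ∑ b ∈ Ioc n (max n (s.sup id)), (1 : ℝ) / (b : ℝ) ^ 2 :=
        sum_le_sum_of_subset_of_nonneg hsub fun _ _ _ => by positivity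
    _ ≤ 1 / n - 1 / (max n (s.sup id) : ℕ) := htel _ (le_max_left _ _)
    _ ≤ 1 / n := by
        have : (0 : ℝ) ≤ 1 / (max n (s.sup id) : ℕ) := by positivity
        linarith
    _ ≤ 2 / B := by
        rw [div_le_div_iff₀ (by linarith) (by linarith)]
        linarith

/-- Integers divisible by the square of a large number. -/
theorem summable_square {θ : ℝ} (hθ : 0 < θ) :
    Summable fun m : ℕ =>
      if ∃ b : ℕ, b ^ 2 ∣ m ∧ Real.exp ((Real.log m) ^ θ / 3) < b then (1 : ℝ) / m else 0 := by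
  have hl2 : 0 < Real.log 2 := Real.log_pos (by norm_num)
  have hcc : 0 < (Real.log 2) ^ θ / 3 := by positivity
  obtain ⟨K, hK, hKj⟩ := exp_neg_rpow_le hθ hcc 3
  -- the bound for a block
  have hblock : ∀ j : ℕ, ∑ m ∈ Ico (2 ^ j) (2 ^ (j + 1)),
      (if ∃ b : ℕ, b ^ 2 ∣ m ∧ Real.exp ((Real.log m) ^ θ / 3) < b then (1 : ℝ) / m else 0) ≤
      (j + 2) * (2 * Real.exp (-((Real.log 2) ^ θ / 3 * (j : ℝ) ^ θ))) := by
    intro j
    set B : ℝ := Real.exp ((Real.log 2) ^ θ / 3 * (j : ℝ) ^ θ) with hB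
    have hB1 : 1 ≤ B := Real.one_le_exp (by positivity)
    rw [← sum_filter]
    have h1 : ∑ m ∈ Ico (2 ^ j) (2 ^ (j + 1)) with
        (∃ b : ℕ, b ^ 2 ∣ m ∧ Real.exp ((Real.log m) ^ θ / 3) < b), (1 : ℝ) / m ≤
        ∑ m ∈ ((range (2 ^ (j + 1) + 1)).filter (fun b : ℕ => B < b)).biUnion
          (fun b => {m ∈ Icc 1 (2 ^ (j + 1)) | b ^ 2 ∣ m}), (1 : ℝ) / m := by
      refine sum_le_sum_of_subset_of_nonneg ?_ fun _ _ _ => by positivity
      intro m hm
      rw [mem_filter, mem_Ico] at hm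
      obtain ⟨⟨hm1, hm2⟩, b, hb1, hb2⟩ := hm
      have hm0 : 1 ≤ m := le_trans Nat.one_le_two_pow hm1
      rw [mem_biUnion]
      refine ⟨b, ?_, ?_⟩
      · rw [mem_filter, mem_range]
        refine ⟨?_, ?_⟩
        · have h2 : b ^ 2 ≤ m := Nat.le_of_dvd hm0 hb1
          have h3 : b ≤ b ^ 2 := Nat.le_self_pow (by norm_num) b
          omega
        · refine lt_of_le_of_lt ?_ hb2
          rw [hB]
          apply Real.exp_le_exp.mpr
          have h2 : (j : ℝ) * Real.log 2 ≤ Real.log m := by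
            rw [← Real.log_pow]
            refine Real.log_le_log (by positivity) ?_
            exact_mod_cast hm1
          have h3 : ((j : ℝ) * Real.log 2) ^ θ ≤ (Real.log m) ^ θ :=
            Real.rpow_le_rpow (by positivity) h2 hθ.le
          rw [Real.mul_rpow (by positivity) hl2.le] at h3
          linarith
      · rw [mem_filter, mem_Icc]
        exact ⟨⟨hm0, hm2.le⟩, hb1⟩
    refine h1.trans ((sum_biUnion_le_sum' _ _ _ (fun _ => by positivity)).trans ?_)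
    have hlog : Real.log ((2 ^ (j + 1) : ℕ) : ℝ) ≤ j + 1 := by
      push_cast
      rw [Real.log_pow]
      have : Real.log 2 ≤ 1 := by
        have := Real.log_two_lt_d9
        linarith
      push_cast
      nlinarith
    have h2 : ∀ b ∈ (range (2 ^ (j + 1) + 1)).filter (fun b : ℕ => B < b),
        ∑ m ∈ Icc 1 (2 ^ (j + 1)) with b ^ 2 ∣ m, (1 : ℝ) / m ≤ (j + 2) * (1 / (b : ℝ) ^ 2) := by
      intro b hb
      rw [mem_filter] at hb
      have hb0 : (0 : ℝ) < b := by linarith [hb.2]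
      have hb0' : 0 < b := by exact_mod_cast hb0
      refine (sum_multiples (b ^ 2) (2 ^ (j + 1)) (by positivity)).trans ?_
      push_cast at hlog ⊢
      rw [mul_comm]
      refine mul_le_mul_of_nonneg_right ?_ (by positivity)
      linarith
    refine (sum_le_sum h2).trans ?_
    rw [← mul_sum]
    gcongr
    refine (sum_inv_sq_le B hB1 _ (fun b hb => (mem_filter.mp hb).2)).trans ?_
    rw [Real.exp_neg, ← hB]
    exact le_of_eq (by rw [div_eq_mul_inv])
  refine summable_of_dyadic _ ?_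
    (fun j => (j + 2) * (2 * Real.exp (-((Real.log 2) ^ θ / 3 * (j : ℝ) ^ θ)))) ?_ hblock
  · intro m
    split_ifs <;> positivity
  · rw [← summable_nat_add_iff 1]
    refine Summable.of_nonneg_of_le (fun j => by positivity) ?_
      (((summable_nat_add_iff 1).mpr (Real.summable_one_div_nat_pow.mpr (by norm_num : 1 < 2))).mul_left (6 * K))
    intro j
    have h1 := hKj (j + 1) (by omega)
    have hj : (0 : ℝ) < ((j + 1 : ℕ) : ℝ) := by positivity
    have hj1 : (1 : ℝ) ≤ ((j + 1 : ℕ) : ℝ) := by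
      push_cast
      linarith [(Nat.cast_nonneg j : (0 : ℝ) ≤ j)]
    calc (((j + 1 : ℕ) : ℝ) + 2) * (2 * Real.exp (-((Real.log 2) ^ θ / 3 * ((j + 1 : ℕ) : ℝ) ^ θ)))
        ≤ (3 * ((j + 1 : ℕ) : ℝ)) * (2 * (K / ((j + 1 : ℕ) : ℝ) ^ 3)) := by
          gcongr
          linarith
      _ = 6 * K * (1 / ((j + 1 : ℕ) : ℝ) ^ 2) := by
          field_simp
          ring

/-- Number of distinct prime factors allowed for an integer with `Nat.log 2 m = j`. -/
def ww (j : ℕ) : ℕ := 5 * (Nat.log 2 (j + 2) + 1)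

/-- the sum of reciprocals -/
lemma sum_one_div_le (x : ℕ) : ∑ m ∈ Icc 1 x, (1 : ℝ) / m ≤ 1 + Real.log x := by
  have h1 := harmonic_le_one_add_log x
  rw [harmonic_eq_sum_Icc] at h1
  push_cast at h1
  simpa using h1

lemma two_pow_omega_le (m : ℕ) (hm : m ≠ 0) : 2 ^ #m.primeFactors ≤ #m.divisors := by
  rw [Nat.card_divisors hm, ← prod_const]
  refine prod_le_prod' ?_
  intro p hp
  have h1 := Nat.mem_primeFactors.mp hp
  have h2 : 1 ≤ m.factorization p := h1.1.factorization_pos_of_dvd hm h1.2.1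
  omega

lemma sum_two_pow_omega_le (x : ℕ) :
    ∑ m ∈ Icc 1 x, (2 : ℝ) ^ #m.primeFactors / m ≤ (∑ m ∈ Icc 1 x, (1 : ℝ) / m) ^ 2 := by
  have h1 : ∀ m ∈ Icc 1 x, (2 : ℝ) ^ #m.primeFactors / m ≤
      ∑ q ∈ ((Icc 1 x ×ˢ Icc 1 x).filter (fun q : ℕ × ℕ => q.1 * q.2 ≤ x)) with q.1 * q.2 = m,
        (1 : ℝ) / q.1 * (1 / q.2) := by
    intro m hm
    rw [mem_Icc] at hm
    have h2 : ∑ q ∈ ((Icc 1 x ×ˢ Icc 1 x).filter (fun q : ℕ × ℕ => q.1 * q.2 ≤ x)) with
        q.1 * q.2 = m, (1 : ℝ) / q.1 * (1 / q.2) =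
        ∑ q ∈ m.divisorsAntidiagonal, (1 : ℝ) / m := by
      refine sum_congr ?_ ?_
      · ext q
        simp only [mem_filter, mem_product, mem_Icc, Nat.mem_divisorsAntidiagonal]
        constructor
        · rintro ⟨⟨⟨⟨h3, h4⟩, h5, h6⟩, h7⟩, h8⟩
          exact ⟨h8, by omega⟩
        · rintro ⟨h3, h4⟩
          have h5 : q.1 ≠ 0 := by
            intro h
            rw [h, zero_mul] at h3
            omega
          have h6 : q.2 ≠ 0 := by
            intro h
            rw [h, mul_zero] at h3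
            omega
          have h7 : q.1 ≤ m := by
            rw [← h3]
            exact Nat.le_mul_of_pos_right _ (by omega)
          have h8 : q.2 ≤ m := by
            rw [← h3]
            exact Nat.le_mul_of_pos_left _ (by omega)
          exact ⟨⟨⟨⟨by omega, by omega⟩, by omega, by omega⟩, by omega⟩, h3⟩
      · intro q hq
        rw [Nat.mem_divisorsAntidiagonal] at hq
        rw [← hq.1]
        push_cast
        rw [div_mul_div_comm, one_mul]
    rw [h2, sum_const, nsmul_eq_mul, mul_one_div]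
    gcongr
    have h3 : #m.divisorsAntidiagonal = #m.divisors := by
      rw [← Nat.map_div_right_divisors, card_map]
    rw [h3]
    exact_mod_cast two_pow_omega_le m (by omega)
  refine (sum_le_sum h1).trans ?_
  rw [sum_fiberwise_of_maps_to (t := Icc 1 x) (g := fun q : ℕ × ℕ => q.1 * q.2)]
  · rw [sq, sum_mul_sum, ← sum_product']
    exact sum_le_sum_of_subset_of_nonneg (filter_subset _ _) fun _ _ _ => by positivity
  · intro q hq
    simp only [mem_filter, mem_product, mem_Icc] at hq ⊢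
    refine ⟨?_, hq.2⟩
    have := Nat.mul_le_mul hq.1.1.1 hq.1.2.1
    omega

/-- Integers with too many prime factors; use `∑_{m ≤ x} 2^{ω(m)} / m ≤ (∑_{m ≤ x} 1/m)^2`. -/
theorem summable_omega :
    Summable fun m : ℕ => if ww (Nat.log 2 m) < #m.primeFactors then (1 : ℝ) / m else 0 := by
  have hblock : ∀ j : ℕ, ∑ m ∈ Ico (2 ^ j) (2 ^ (j + 1)),
      (if ww (Nat.log 2 m) < #m.primeFactors then (1 : ℝ) / m else 0) ≤
      1 / ((j + 2 : ℕ) : ℝ) ^ 3 := by
    intro j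
    have h1 : ∀ m ∈ Ico (2 ^ j) (2 ^ (j + 1)),
        (if ww (Nat.log 2 m) < #m.primeFactors then (1 : ℝ) / m else 0) ≤
        (1 / 2 ^ ww j) * ((2 : ℝ) ^ #m.primeFactors / m) := by
      intro m hm
      rw [mem_Ico] at hm
      have hlog : Nat.log 2 m = j := Nat.log_eq_of_pow_le_of_lt_pow hm.1 hm.2
      rw [hlog]
      split_ifs with h2
      · rw [div_mul_div_comm, one_mul, div_le_div_iff₀
          (by exact_mod_cast lt_of_lt_of_le (by positivity) hm.1)
          (by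
            have : (0 : ℝ) < m := by exact_mod_cast lt_of_lt_of_le (by positivity) hm.1
            positivity)]
        have h3 : (2 : ℝ) ^ ww j ≤ 2 ^ #m.primeFactors := pow_le_pow_right₀ (by norm_num) h2.le
        have h4 : (0 : ℝ) ≤ m := by positivity
        rw [one_mul]
        exact mul_le_mul_of_nonneg_right h3 h4
      · positivity
    refine (sum_le_sum h1).trans ?_
    rw [← mul_sum]
    have h2 : ∑ m ∈ Ico (2 ^ j) (2 ^ (j + 1)), (2 : ℝ) ^ #(Nat.primeFactors m) / m ≤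
        ((j + 2 : ℕ) : ℝ) ^ 2 := by
      calc ∑ m ∈ Ico (2 ^ j) (2 ^ (j + 1)), (2 : ℝ) ^ #(Nat.primeFactors m) / m
          ≤ ∑ m ∈ Icc 1 (2 ^ (j + 1)), (2 : ℝ) ^ #(Nat.primeFactors m) / m := by
            refine sum_le_sum_of_subset_of_nonneg ?_ fun _ _ _ => by positivity
            intro m hm
            rw [mem_Ico] at hm
            rw [mem_Icc]
            exact ⟨le_trans Nat.one_le_two_pow hm.1, hm.2.le⟩
        _ ≤ (∑ m ∈ Icc 1 (2 ^ (j + 1)), (1 : ℝ) / ((m : ℕ) : ℝ)) ^ 2 := sum_two_pow_omega_le _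
        _ ≤ ((j + 2 : ℕ) : ℝ) ^ 2 := by
            refine pow_le_pow_left₀ (sum_nonneg fun _ _ => by positivity) ?_ 2
            refine (sum_one_div_le _).trans ?_
            push_cast
            rw [Real.log_pow]
            have h3 : Real.log 2 ≤ 1 := by
              have := Real.log_two_lt_d9
              linarith
            push_cast
            nlinarith [(Nat.cast_nonneg j : (0 : ℝ) ≤ j)]
    have h3 : ((j + 2 : ℕ) : ℝ) ^ 5 ≤ 2 ^ ww j := by
      unfold ww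
      rw [mul_comm, pow_mul]
      gcongr
      exact_mod_cast (Nat.lt_pow_succ_log_self (by norm_num) (j + 2)).le
    have hj : (0 : ℝ) < ((j + 2 : ℕ) : ℝ) := by positivity
    calc 1 / 2 ^ ww j * ∑ m ∈ Ico (2 ^ j) (2 ^ (j + 1)), (2 : ℝ) ^ #(Nat.primeFactors m) / m
        ≤ 1 / ((j + 2 : ℕ) : ℝ) ^ 5 * ((j + 2 : ℕ) : ℝ) ^ 2 := by gcongr
      _ = 1 / ((j + 2 : ℕ) : ℝ) ^ 3 := by field_simp
  refine summable_of_dyadic _ ?_ _ ?_ hblock
  · intro m
    split_ifs <;> positivity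
  · exact (summable_nat_add_iff 2).mpr (Real.summable_one_div_nat_pow.mpr (by norm_num : 1 < 3))

lemma inv_one_sub_le_exp' {u : ℝ} (h0 : 0 ≤ u) (h1 : u ≤ 1 / 2) :
    (1 - u)⁻¹ ≤ Real.exp (u + u ^ 2) := by
  have h2 : 0 < 1 - u := by linarith
  have h3 := Real.quadratic_le_exp_of_nonneg (x := u + u ^ 2) (by positivity)
  refine le_trans ?_ h3
  rw [inv_le_iff_one_le_mul₀ h2]
  have h4 : (1 + (u + u ^ 2) + (u + u ^ 2) ^ 2 / 2) * (1 - u) =
      1 + u ^ 2 / 2 * (1 - u - u ^ 2 - u ^ 3) := by ring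
  rw [h4]
  have h5 : u ^ 2 ≤ 1 / 4 := by nlinarith
  have h6 : u ^ 3 ≤ 1 / 8 := by nlinarith
  have h7 : 0 ≤ u ^ 2 / 2 * (1 - u - u ^ 2 - u ^ 3) := by
    apply mul_nonneg (by positivity)
    linarith
  linarith

/-- `∑_{m ≤ x, m Z-smooth} 1/m ≤ exp (S1 Z + 2)`. -/
lemma A_zero_le_exp (Z x : ℕ) : A Z 0 x ≤ Real.exp (S1 Z + 2) := by
  have h1 : ∀ m ∈ ({m ∈ Icc 1 x | big Z m ≤ 0} : Finset ℕ), m ∈ (Z + 1).smoothNumbers := by
    intro m hm
    simp only [mem_filter, mem_Icc] at hm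
    rw [Nat.mem_smoothNumbers']
    intro p hp hpm
    by_contra hcon
    have hb : 0 < big Z m := by
      unfold big
      apply List.length_pos_of_mem (a := p)
      simp only [List.mem_filter, decide_eq_true_eq]
      exact ⟨(Nat.mem_primeFactorsList (by omega)).mpr ⟨hp, hpm⟩, by omega⟩
    omega
  let f : ℕ →* ℝ := { toFun := fun m => (1 : ℝ) / m, map_one' := by simp, map_mul' := by
                        intro a b; push_cast; rw [div_mul_div_comm, one_mul] }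
  have hf : ∀ {p : ℕ}, p.Prime → ‖f p‖ < 1 := by
    intro p hp
    have h2 : (1 : ℝ) < p := by exact_mod_cast hp.one_lt
    change ‖(1 : ℝ) / p‖ < 1
    rw [Real.norm_of_nonneg (by positivity), div_lt_one (by linarith)]
    exact h2
  obtain ⟨hsum, hhas⟩ := EulerProduct.summable_and_hasSum_smoothNumbers_prod_primesBelow_geometric hf (Z + 1)
  have h2 : A Z 0 x ≤ ∏ p ∈ (Z + 1).primesBelow, (1 - f p)⁻¹ := by
    unfold A
    set B : Finset ℕ := {m ∈ Icc 1 x | big Z m ≤ 0} with hB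
    let g : {m // m ∈ B} ↪ (Z + 1).smoothNumbers :=
      ⟨fun m => ⟨m.1, h1 m.1 m.2⟩, fun a b hab => by
        apply Subtype.ext; simpa using congrArg (fun z : (Z + 1).smoothNumbers => (z : ℕ)) hab⟩
    have h3 : ∑ m ∈ B, (1 : ℝ) / m = ∑ m ∈ B.attach.map g, f (m : ℕ) := by
      rw [sum_map, ← sum_attach]
      rfl
    rw [h3]
    exact sum_le_hasSum _ (fun m _ => by change (0 : ℝ) ≤ 1 / ((m : ℕ) : ℝ); positivity) hhas
  refine h2.trans ?_
  have h4 : ∏ p ∈ (Z + 1).primesBelow, (1 - f p)⁻¹ ≤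
      ∏ p ∈ (Z + 1).primesBelow, Real.exp (1 / (p : ℝ) + 1 / (p : ℝ) ^ 2) := by
    refine prod_le_prod ?_ ?_
    · intro p hp
      have hp' := Nat.prime_of_mem_primesBelow hp
      have h5 : (2 : ℝ) ≤ p := by exact_mod_cast hp'.two_le
      have h6 : f p ≤ 1 / 2 := by
        change (1 : ℝ) / p ≤ 1 / 2
        exact one_div_le_one_div_of_le (by norm_num) h5
      apply inv_nonneg.mpr
      linarith
    · intro p hp
      have hp' := Nat.prime_of_mem_primesBelow hp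
      have h5 : (2 : ℝ) ≤ p := by exact_mod_cast hp'.two_le
      have h6 := inv_one_sub_le_exp' (u := 1 / (p : ℝ)) (by positivity)
        (one_div_le_one_div_of_le (by norm_num) h5)
      rw [one_div_pow] at h6
      exact h6
  refine h4.trans ?_
  rw [← Real.exp_sum]
  apply Real.exp_le_exp.mpr
  rw [sum_add_distrib]
  have h7 : ∑ p ∈ (Z + 1).primesBelow, (1 : ℝ) / p = S1 Z := by
    unfold S1
    refine sum_congr ?_ fun _ _ => rfl
    ext p
    simp only [Nat.mem_primesBelow, mem_filter, mem_Ioc]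
    constructor
    · rintro ⟨h, hp⟩; exact ⟨⟨hp.pos, by omega⟩, hp⟩
    · rintro ⟨⟨_, h⟩, hp⟩; exact ⟨by omega, hp⟩
  rw [h7]
  have h8 := sum_inv_sq_le 1 le_rfl (Z + 1).primesBelow (fun p hp => by
    have hp' := Nat.prime_of_mem_primesBelow hp
    exact_mod_cast hp'.one_lt)
  linarith

/-- `∑_{m ≤ x, m Z-smooth} 1/m ≤ C log Z`  (`A Z 0 x` is this sum, see `Pool.Agent.E25.NT`; improve `A_zero_le`
by `(1-u)⁻¹ ≤ exp (u + u^2)` and use `Pool.Agent.E456.mertens2`). -/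
theorem A_zero_le' : ∃ C : ℝ, 0 < C ∧ ∀ Z x : ℕ, 2 ≤ Z → A Z 0 x ≤ C * Real.log Z := by
  obtain ⟨C, hC, hCN⟩ := mertens2
  refine ⟨Real.exp (C + 2), Real.exp_pos _, ?_⟩
  intro Z x hZ
  have hZ' : (2 : ℝ) ≤ Z := by exact_mod_cast hZ
  have hlZ : 0 < Real.log Z := Real.log_pos (by linarith)
  refine (A_zero_le_exp Z x).trans ?_
  have h1 := (abs_le.mp (hCN Z hZ)).2
  calc Real.exp (S1 Z + 2) ≤ Real.exp ((C + 2) + Real.log (Real.log Z)) :=
        Real.exp_le_exp.mpr (by linarith)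
    _ = Real.exp (C + 2) * Real.log Z := by rw [Real.exp_add, Real.exp_log hlZ]

/-- Growth of the reciprocal sum of integers with at most `k` prime factors above `exp ((log m)^θ)`. -/
theorem class_sum {θ α : ℝ} (hθ : 0 < θ) (hθ1 : θ < 1) (hα : θ < α) (k : ℕ) :
    ∃ C : ℝ, 0 < C ∧ ∀ x : ℕ, 2 ≤ x →
      ∑ m ∈ Icc 1 x with
        ((m.primeFactorsList.filter (fun p : ℕ => decide (Real.exp ((Real.log m) ^ θ) < (p : ℝ)))).length ≤ k),
        (1 : ℝ) / m ≤ C * (Real.log x) ^ α := by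
  obtain ⟨C₁, hC₁, hA⟩ := A_zero_le'
  obtain ⟨C₂, hC₂, hM⟩ := mertens2
  have hl2 : 0 < Real.log 2 := Real.log_pos (by norm_num)
  have hl2' : Real.log 2 < 1 := by
    have := Real.log_two_lt_d9
    linarith
  set ε : ℝ := (α - θ) / (k + 1) with hε
  have hk : (0 : ℝ) < (k : ℝ) + 1 := by positivity
  have hε0 : 0 < ε := div_pos (by linarith) hk
  -- constants
  set K₁ : ℝ := (1 + C₂) / (Real.log 2) ^ ε + 1 / ε with hK₁
  have hK₁0 : 0 < K₁ := by positivity
  set K₂ : ℝ := 1 / (Real.log 2) ^ ε with hK₂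
  have hK₂0 : 0 < K₂ := by positivity
  refine ⟨C₁ * K₁ ^ k * K₂, by positivity, ?_⟩
  intro x hx
  have hx' : (2 : ℝ) ≤ x := by exact_mod_cast hx
  have hy : Real.log 2 ≤ Real.log x := Real.log_le_log (by norm_num) hx'
  have hy0 : 0 < Real.log x := hl2.trans_le hy
  set y : ℝ := Real.log x with hydef
  have hyε : (Real.log 2) ^ ε ≤ y ^ ε := Real.rpow_le_rpow hl2.le hy hε0.le
  have hyε0 : 0 < (Real.log 2) ^ ε := by positivity
  -- the threshold
  have hexp2 : 2 ≤ Real.exp (y ^ θ) := by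
    have h1 : Real.log 2 ≤ y ^ θ := by
      have h2 : (Real.log 2) ^ (1 : ℝ) ≤ (Real.log 2) ^ θ :=
        Real.rpow_le_rpow_of_exponent_ge hl2 hl2'.le hθ1.le
      rw [Real.rpow_one] at h2
      exact h2.trans (Real.rpow_le_rpow hl2.le hy hθ.le)
    calc (2 : ℝ) = Real.exp (Real.log 2) := (Real.exp_log (by norm_num)).symm
      _ ≤ Real.exp (y ^ θ) := Real.exp_le_exp.mpr h1
  obtain ⟨Z, hZ⟩ : ∃ Z : ℕ, Z = ⌊Real.exp (y ^ θ)⌋₊ := ⟨_, rfl⟩
  have hZ2 : 2 ≤ Z := by
    rw [hZ]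
    exact Nat.le_floor (by exact_mod_cast hexp2)
  have hZle : (Z : ℝ) ≤ Real.exp (y ^ θ) := by
    rw [hZ]
    exact Nat.floor_le (Real.exp_pos _).le
  have hZlt : Real.exp (y ^ θ) < Z + 1 := by
    rw [hZ]
    exact Nat.lt_floor_add_one _
  have hlogZ : Real.log Z ≤ y ^ θ := by
    have hZ0 : (0 : ℝ) < Z := by
      have : (2 : ℝ) ≤ Z := by exact_mod_cast hZ2
      linarith
    rw [← Real.log_exp (y ^ θ)]
    exact Real.log_le_log hZ0 hZle
  -- comparison with `A Z k x`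
  have h1 : ∑ m ∈ Icc 1 x with
      ((m.primeFactorsList.filter (fun p : ℕ => decide (Real.exp ((Real.log m) ^ θ) < (p : ℝ)))).length ≤ k),
      (1 : ℝ) / m ≤ A Z k x := by
    unfold A
    refine sum_le_sum_of_subset_of_nonneg ?_ fun _ _ _ => by positivity
    intro m hm
    rw [mem_filter] at hm ⊢
    refine ⟨hm.1, le_trans ?_ hm.2⟩
    unfold big
    rw [mem_Icc] at hm
    have hm1 : (1 : ℝ) ≤ m := by exact_mod_cast hm.1.1
    have hmx : (m : ℝ) ≤ x := by exact_mod_cast hm.1.2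
    have h2 : (Real.log m) ^ θ ≤ y ^ θ :=
      Real.rpow_le_rpow (Real.log_nonneg hm1) (Real.log_le_log (by linarith) hmx) hθ.le
    refine (List.monotone_filter_right _ ?_).length_le
    intro p hp
    simp only [decide_eq_true_eq] at hp ⊢
    have h3 : ((Z + 1 : ℕ) : ℝ) ≤ p := by exact_mod_cast hp
    push_cast at h3
    have h4 : Real.exp ((Real.log m) ^ θ) ≤ Real.exp (y ^ θ) := Real.exp_le_exp.mpr h2
    linarith
  refine h1.trans ((A_le Z k x).trans ?_)
  have hS : 0 ≤ S1 x := sum_nonneg fun _ _ => by positivity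
  have h2 : 1 + S1 x ≤ K₁ * y ^ ε := by
    have h3 := (abs_le.mp (hM x hx)).2
    have h4 := Real.log_le_rpow_div hy0.le hε0
    have h5 : 1 + C₂ ≤ (1 + C₂) / (Real.log 2) ^ ε * y ^ ε := by
      rw [div_mul_eq_mul_div, le_div_iff₀ hyε0]
      exact mul_le_mul_of_nonneg_left hyε (by positivity)
    rw [hK₁, add_mul, one_div_mul_eq_div]
    linarith
  have h3 : (1 + S1 x) ^ k ≤ K₁ ^ k * (y ^ ε) ^ k := by
    rw [← mul_pow]
    exact pow_le_pow_left₀ (by linarith) h2 k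
  have h4 : 1 ≤ K₂ * y ^ ε := by
    rw [hK₂, one_div_mul_eq_div, le_div_iff₀ hyε0, one_mul]
    exact hyε
  have h5 : y ^ θ * (y ^ ε) ^ k * y ^ ε = y ^ α := by
    rw [mul_assoc, ← pow_succ, ← Real.rpow_natCast, ← Real.rpow_mul hy0.le, ← Real.rpow_add hy0]
    congr 1
    rw [hε]
    push_cast
    field_simp
    ring
  have hyθ : 0 ≤ y ^ θ := by positivity
  calc A Z 0 x * (1 + S1 x) ^ k ≤ (C₁ * y ^ θ) * (K₁ ^ k * (y ^ ε) ^ k) := by
        gcongr
        refine (hA Z x hZ2).trans ?_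
        gcongr
    _ ≤ (C₁ * y ^ θ) * (K₁ ^ k * (y ^ ε) ^ k) * (K₂ * y ^ ε) := by
        refine le_mul_of_one_le_right ?_ h4
        positivity
    _ = C₁ * K₁ ^ k * K₂ * (y ^ θ * (y ^ ε) ^ k * y ^ ε) := by ring
    _ = C₁ * K₁ ^ k * K₂ * y ^ α := by rw [h5]

/-- Harmonic sum over a residue class from the modulus on. -/
theorem harm_class (n b N : ℕ) (hn : 0 < n) (hN : n ≤ N) :
    ∑ m ∈ Icc n N with m % n = b % n, (1 : ℝ) / m ≤ (1 + Real.log ((N : ℝ) / n)) / n := by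
  have hn' : (0 : ℝ) < n := by exact_mod_cast hn
  have h1 : ∑ m ∈ Icc n N with m % n = b % n, (1 : ℝ) / m ≤
      ∑ q ∈ Icc 1 (N / n), (1 : ℝ) / n * (1 / q) := by
    calc ∑ m ∈ Icc n N with m % n = b % n, (1 : ℝ) / m
        ≤ ∑ m ∈ Icc n N with m % n = b % n, (1 : ℝ) / n * (1 / ((m / n : ℕ) : ℝ)) := by
          refine sum_le_sum ?_
          intro m hm
          rw [mem_filter, mem_Icc] at hm
          have h2 : 1 ≤ m / n := (Nat.one_le_div_iff hn).mpr hm.1.1
          have h3 : (1 : ℝ) ≤ ((m / n : ℕ) : ℝ) := by exact_mod_cast h2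
          rw [div_mul_div_comm, one_mul]
          refine one_div_le_one_div_of_le (by positivity) ?_
          exact_mod_cast Nat.mul_div_le m n
      _ = ∑ q ∈ ({m ∈ Icc n N | m % n = b % n}).image (fun m => m / n), (1 : ℝ) / n * (1 / (q : ℝ)) := by
          rw [sum_image]
          intro m hm m' hm' h
          rw [mem_coe, mem_filter, mem_Icc] at hm hm'
          rw [← Nat.div_add_mod m n, ← Nat.div_add_mod m' n, hm.2, hm'.2]
          simp only at h
          rw [h]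
      _ ≤ ∑ q ∈ Icc 1 (N / n), (1 : ℝ) / n * (1 / q) := by
          refine sum_le_sum_of_subset_of_nonneg ?_ fun _ _ _ => by positivity
          intro q hq
          rw [mem_image] at hq
          obtain ⟨m, hm, rfl⟩ := hq
          rw [mem_filter, mem_Icc] at hm
          rw [mem_Icc]
          exact ⟨(Nat.one_le_div_iff hn).mpr hm.1.1, Nat.div_le_div_right hm.1.2⟩
  refine h1.trans ?_
  rw [← mul_sum, div_mul_eq_mul_div, one_mul]
  gcongr
  refine (sum_one_div_le _).trans ?_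
  have h2 : 1 ≤ N / n := (Nat.one_le_div_iff hn).mpr hN
  have h3 : (0 : ℝ) < ((N / n : ℕ) : ℝ) := by exact_mod_cast h2
  have h4 : ((N / n : ℕ) : ℝ) ≤ (N : ℝ) / n := Nat.cast_div_le
  have := Real.log_le_log h3 h4
  linarith

end

end Pool.Agent.E25B
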