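import Mathlib
import Pool.Agent.E25.Main
import Pool.Agent.E25B.NTS

/-!
# Good moduli and the parameters at scale `j`
-/

namespace Pool.Agent.E25B

open Finset Pool.Agent.E25
open scoped Classical

noncomputable section

/-- A good modulus. -/
structure GoodMod (θ : ℝ) (k m : ℕ) : Prop where
  few : (m.primeFactorsList.filter (fun p : ℕ => decide (Real.exp ((Real.log m) ^ θ) < (p : ℝ)))).length ≤ k
  sq : ¬ ∃ b : ℕ, b ^ 2 ∣ m ∧ Real.exp ((Real.log m) ^ θ / 3) < b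
  om : #m.primeFactors ≤ ww (Nat.log 2 m)

/-- smoothness level for the block `(2^j, 2^(j+1)]` -/
def zz' (θ : ℝ) (j : ℕ) : ℕ := ⌊Real.exp ((Real.log ((2 : ℝ) ^ (j + 1))) ^ θ)⌋₊

/-- width parameter -/
def wj (j : ℕ) : ℕ := ww (j + 1)

/-- depth parameter -/
def sj (j : ℕ) : ℕ := 1200 * (Nat.log 2 (j + 3) + 1)

/-- cut-off: moduli `m` with `m * cut θ j ≤ 2 ^ j` are moderate -/
def cut (θ : ℝ) (j : ℕ) : ℕ := (zz' θ j) ^ (1300 * wj j * sj j) * (j + 1)

end

end Pool.Agent.E25B
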