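import Mathlib
import Pool.Agent.E25B.CoreDefs

/-!
# Construction of the data of a block from elementary conditions
-/

namespace Pool.Agent.E25B

open Finset

noncomputable section

/-- the coordinate moduli: the largest power of `p` that is `≤ z` if `p ≤ z`, and `p` itself otherwise. -/
def qz (z p : ℕ) : ℕ := if p ≤ z then p ^ Nat.log p z else p

lemma qz_pos {z p : ℕ} (hp : p.Prime) : 0 < qz z p := by
  unfold qz
  split_ifs
  · exact pow_pos hp.pos _
  · exact hp.pos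

lemma qz_le {z p : ℕ} (hpz : p ≤ z) (hz : z ≠ 0) : qz z p ≤ z := by
  unfold qz
  rw [if_pos hpz]
  exact Nat.pow_log_le_self p hz

lemma qz_eq_pow (z p : ℕ) : ∃ e, qz z p = p ^ e := by
  unfold qz
  split_ifs
  · exact ⟨_, rfl⟩
  · exact ⟨1, (pow_one p).symm⟩

lemma pow_dvd_qz {z p e : ℕ} (hp : p.Prime) (hpz : p ≤ z) (he : p ^ e ≤ z) : p ^ e ∣ qz z p := by
  unfold qz
  rw [if_pos hpz]
  exact pow_dvd_pow p (Nat.le_log_of_pow_le hp.one_lt he)

lemma qz_coprime {z a b : ℕ} (ha : a.Prime) (hb : b.Prime) (hab : a ≠ b) :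
    Nat.Coprime (qz z a) (qz z b) := by
  obtain ⟨e, he⟩ := qz_eq_pow z a
  obtain ⟨f, hf⟩ := qz_eq_pow z b
  rw [he, hf]
  exact Nat.Coprime.pow _ _ ((Nat.coprime_primes ha hb).2 hab)

/-- smooth primes -/
def Pz (z : ℕ) : Finset ℕ := (range (z + 1)).filter Nat.Prime
/-- rough primes -/
def Rz (z Y : ℕ) : Finset ℕ := (Ioc z Y).filter Nat.Prime

lemma mem_Pz {z p : ℕ} : p ∈ Pz z ↔ p ≤ z ∧ p.Prime := by
  unfold Pz
  rw [mem_filter, mem_range, Nat.lt_succ_iff]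

lemma mem_Rz {z Y p : ℕ} : p ∈ Rz z Y ↔ (z < p ∧ p ≤ Y) ∧ p.Prime := by
  unfold Rz
  rw [mem_filter, mem_Ioc]

lemma prime_of_mem {z Y p : ℕ} (hp : p ∈ Pz z ∪ Rz z Y) : p.Prime := by
  rcases mem_union.1 hp with h | h
  · exact (mem_Pz.1 h).2
  · exact (mem_Rz.1 h).2

lemma gcd_qz_ne_one {z n p : ℕ} (hp : p.Prime) (h : Nat.gcd (qz z p) n ≠ 1) : p ∣ n := by
  obtain ⟨e, he⟩ := qz_eq_pow z p
  rw [he] at h
  by_contra hd
  exact h (Nat.Coprime.pow_left e ((Nat.Prime.coprime_iff_not_dvd hp).2 hd))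

lemma dvd_prod_of_factors {S : Finset ℕ} {q : ℕ → ℕ} {n : ℕ} (hn : n ≠ 0)
    (h : ∀ p ∈ n.primeFactors, p ∈ S ∧ p ^ n.factorization p ∣ q p) : n ∣ ∏ p ∈ S, q p := by
  have h1 : n = ∏ p ∈ n.primeFactors, p ^ n.factorization p :=
    (Nat.prod_factorization_pow_eq_self hn).symm
  have h2 : ∏ p ∈ n.primeFactors, p ^ n.factorization p ∣ ∏ p ∈ n.primeFactors, q p :=
    prod_dvd_prod_of_dvd _ _ fun p hp => (h p hp).2
  have h3 : ∏ p ∈ n.primeFactors, q p ∣ ∏ p ∈ S, q p :=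
    prod_dvd_prod_of_subset _ _ _ fun p hp => (h p hp).1
  rw [← h1] at h2
  exact h2.trans h3

/-- **Construction of the data.** -/
theorem mkData (n b : ℕ → ℕ) (I : Finset ℕ) (h k w z Y : ℕ) (hz : 2 ≤ z) (hw : 1 ≤ w)
    (hpos : ∀ i, 0 < n i) (hinj : Function.Injective n)
    (hY : ∀ t ∈ I, n t ≤ Y)
    (hsm : ∀ t ∈ I, ∀ p, p.Prime → p ≤ z → p ^ (n t).factorization p ≤ z)
    (hro : ∀ t ∈ I, ∀ p, p.Prime → z < p → (n t).factorization p ≤ 1)
    (hwI : ∀ t ∈ I, #(n t).primeFactors ≤ w)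
    (hkI : ∀ t ∈ I, #{p ∈ (n t).primeFactors | z < p} ≤ k)
    (hh : ∀ i < h, n i ≤ z)
    (hwh : ∀ i < h, #(n i).primeFactors ≤ w) :
    ∃ D : Data, D.n = n ∧ D.b = b ∧ D.I = I ∧ D.h = h ∧ D.k = k ∧ D.w = w ∧ D.z = z := by
  have hPR : Disjoint (Pz z) (Rz z Y) := by
    rw [Finset.disjoint_left]
    intro p hp hp'
    have h1 := (mem_Pz.1 hp).1
    have h2 := (mem_Rz.1 hp').1.1
    omega
  have hwid : ∀ m, #{p ∈ Pz z | Nat.gcd (qz z p) m ≠ 1} ≤ #m.primeFactors ∨ m = 0 := by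
    intro m
    rcases Nat.eq_zero_or_pos m with hm | hm
    · exact Or.inr hm
    · refine Or.inl (card_le_card fun p hp => ?_)
      rw [mem_filter] at hp
      have hpp := (mem_Pz.1 hp.1).2
      exact Nat.mem_primeFactors.2 ⟨hpp, gcd_qz_ne_one hpp hp.2, hm.ne'⟩
  refine ⟨{
    P := Pz z
    R := Rz z Y
    q := qz z
    n := n
    b := b
    I := I
    h := h
    k := k
    w := w
    z := z
    hPR := hPR
    hq := fun p hp => qz_pos (prime_of_mem hp)
    hcop := fun a ha b hb hab => qz_coprime (prime_of_mem (mem_coe.1 ha)) (prime_of_mem (mem_coe.1 hb)) hab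
    hz := hz
    hPz := ?_
    hqz := fun p hp => qz_le (mem_Pz.1 hp).1 (by omega)
    hw := hw
    hpos := hpos
    hinj := hinj
    hn := ?_
    hwid := fun t ht => ((hwid (n t)).resolve_right (hpos t).ne').trans (hwI t ht)
    hk := ?_
    hR := ?_
    h0 := ?_
    h0w := fun i hi => ((hwid (n i)).resolve_right (hpos i).ne').trans (hwh i hi) },
    rfl, rfl, rfl, rfl, rfl, rfl, rfl⟩
  · -- number of smooth primes
    have h1 : Pz z ⊆ Icc 2 z := by
      intro p hp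
      rw [mem_Pz] at hp
      exact mem_Icc.2 ⟨hp.2.two_le, hp.1⟩
    have h2 := card_le_card h1
    rw [Nat.card_Icc] at h2
    omega
  · intro t ht
    rw [← prod_union hPR]
    refine dvd_prod_of_factors (hpos t).ne' fun p hp => ?_
    have hpp := Nat.prime_of_mem_primeFactors hp
    have hdvd := Nat.dvd_of_mem_primeFactors hp
    by_cases hpz : p ≤ z
    · exact ⟨mem_union_left _ (mem_Pz.2 ⟨hpz, hpp⟩), pow_dvd_qz hpp hpz (hsm t ht p hpp hpz)⟩
    · have hpY : p ≤ Y := (Nat.le_of_dvd (hpos t) hdvd).trans (hY t ht)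
      refine ⟨mem_union_right _ (mem_Rz.2 ⟨⟨by omega, hpY⟩, hpp⟩), ?_⟩
      have h1 := hro t ht p hpp (by omega)
      unfold qz
      rw [if_neg hpz]
      calc p ^ (n t).factorization p ∣ p ^ 1 := pow_dvd_pow p h1
        _ = p := pow_one p
  · intro t ht
    refine le_trans (card_le_card fun p hp => ?_) (hkI t ht)
    rw [mem_filter] at hp ⊢
    have hpp := (mem_Rz.1 hp.1).2
    exact ⟨Nat.mem_primeFactors.2 ⟨hpp, gcd_qz_ne_one hpp hp.2, (hpos t).ne'⟩, (mem_Rz.1 hp.1).1.1⟩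
  · intro t ht p hp
    have hpp := (mem_Rz.1 hp).2
    have h1 : qz z p = p := by
      unfold qz
      rw [if_neg (by have := (mem_Rz.1 hp).1.1; omega)]
    rw [h1]
    by_cases hd : p ∣ n t
    · exact Or.inr hd
    · exact Or.inl ((Nat.Prime.coprime_iff_not_dvd hpp).2 hd)
  · intro i hi
    refine dvd_prod_of_factors (hpos i).ne' fun p hp => ?_
    have hpp := Nat.prime_of_mem_primeFactors hp
    have hdvd := Nat.dvd_of_mem_primeFactors hp
    have hpz : p ≤ z := (Nat.le_of_dvd (hpos i) hdvd).trans (hh i hi)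
    refine ⟨mem_Pz.2 ⟨hpz, hpp⟩, pow_dvd_qz hpp hpz ?_⟩
    exact (Nat.ordProj_le p (hpos i).ne').trans (hh i hi)

end

end Pool.Agent.E25B
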