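import Mathlib
import Pool.Agent.E25B.GoodMod
import Pool.Agent.E25B.CoreDefs
import Pool.Agent.E25B.MkData

/-!
# Constructing the data at block `j`
-/

namespace Pool.Agent.E25B

open Finset Pool.Agent.E25 Filter
open scoped Classical

noncomputable section

lemma zz'_tendsto {θ : ℝ} (h0 : 0 < θ) : Tendsto (fun j : ℕ => zz' θ j) atTop atTop := by
  unfold zz'
  refine tendsto_nat_floor_atTop.comp (Real.tendsto_exp_atTop.comp ((tendsto_rpow_atTop h0).comp ?_))
  refine Real.tendsto_log_atTop.comp ?_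
  exact (tendsto_pow_atTop_atTop_of_one_lt (by norm_num : (1 : ℝ) < 2)).comp (tendsto_add_atTop_nat 1)

lemma ww_mono {a b : ℕ} (h : a ≤ b) : ww a ≤ ww b := by
  unfold ww
  have := Nat.log_mono_right (b := 2) (show a + 2 ≤ b + 2 by omega)
  omega

lemma one_le_wj (j : ℕ) : 1 ≤ wj j := by
  unfold wj ww
  omega

lemma wj_large (N : ℕ) : ∃ j0 : ℕ, ∀ j ≥ j0, N ≤ wj j := by
  refine ⟨2 ^ N, fun j hj => ?_⟩
  unfold wj ww
  have h1 : N ≤ Nat.log 2 (j + 1 + 2) := Nat.le_log_of_pow_le (by norm_num) (by omega)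
  omega

/-- a bound by the real exponential gives a bound by the level. -/
lemma le_zz' {θ : ℝ} (h0 : 0 < θ) {j m a : ℕ} (hm0 : 0 < m) (hm : m ≤ 2 ^ (j + 1))
    (ha : (a : ℝ) ≤ Real.exp ((Real.log m) ^ θ)) : a ≤ zz' θ j := by
  unfold zz'
  refine Nat.le_floor (ha.trans (Real.exp_le_exp.2 ?_))
  have h1 : Real.log (m : ℝ) ≤ Real.log ((2 : ℝ) ^ (j + 1)) := by
    refine Real.log_le_log (by exact_mod_cast hm0) ?_
    exact_mod_cast hm
  exact Real.rpow_le_rpow (Real.log_nonneg (by exact_mod_cast hm0)) h1 h0.le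

/-- `P` = primes `≤ z`, `q p = p ^ (Nat.log p z)` for `p ≤ z`, `R` = primes in `(z, 2^(j+1)]`, `q p = p` there,
`z = zz' θ j`.  A good modulus `m ≤ 2^(j+1)` divides `∏_P q * ∏_R q`: if `p ^ e ∣ m`, `e ≥ 2`, then
`b = p ^ (e / 2)` has `b ^ 3 ≥ p ^ e`... so `p ^ e ≤ exp ((log m)^θ)`, hence `p ^ e ≤ z`. -/
theorem block_data {θ : ℝ} (h0 : 0 < θ) (h1 : θ < 1) (k h : ℕ) (n b : ℕ → ℕ) (hmono : StrictMono n)
    (hpos : ∀ i, 0 < n i) :
    ∃ j0 : ℕ, ∀ j ≥ j0, ∀ I : Finset ℕ, (∀ t ∈ I, GoodMod θ k (n t) ∧ n t ≤ 2 ^ (j + 1)) →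
      ∃ D : Data, D.n = n ∧ D.b = b ∧ D.I = I ∧ D.h = h ∧ D.k = k ∧ D.w = wj j ∧ D.z = zz' θ j := by
  obtain ⟨j1, hj1⟩ := eventually_atTop.1 ((zz'_tendsto h0).eventually_ge_atTop (n h + 2))
  obtain ⟨j2, hj2⟩ := wj_large (n h)
  refine ⟨max j1 j2, fun j hj I hI => ?_⟩
  have hz := hj1 j ((le_max_left _ _).trans hj)
  have hw := hj2 j ((le_max_right _ _).trans hj)
  have hle : ∀ i < h, n i ≤ n h := fun i hi => (hmono hi).le
  -- bounds on prime powers
  have key : ∀ t ∈ I, ∀ p, p.Prime → 2 ≤ (n t).factorization p →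
      p ^ (n t).factorization p ≤ zz' θ j := by
    intro t ht p hp he
    obtain ⟨hg, hle'⟩ := hI t ht
    set e := (n t).factorization p with hedef
    have hpe : p ^ e ∣ n t := Nat.ordProj_dvd (n t) p
    have h2 : (p ^ (e / 2)) ^ 2 ∣ n t := by
      rw [← pow_mul]
      exact (pow_dvd_pow p (by omega)).trans hpe
    have h3 : ((p ^ (e / 2) : ℕ) : ℝ) ≤ Real.exp ((Real.log (n t)) ^ θ / 3) := by
      by_contra h4
      push Not at h4
      exact hg.sq ⟨_, h2, h4⟩
    refine le_zz' h0 (hpos t) hle' ?_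
    have h5 : ((p ^ e : ℕ) : ℝ) ≤ ((p ^ (e / 2) : ℕ) : ℝ) ^ 3 := by
      have : p ^ e ≤ (p ^ (e / 2)) ^ 3 := by
        rw [← pow_mul]
        exact Nat.pow_le_pow_right hp.pos (by omega)
      exact_mod_cast this
    refine h5.trans ?_
    have h6 : Real.exp ((Real.log (n t)) ^ θ) = Real.exp ((Real.log (n t)) ^ θ / 3) ^ 3 := by
      rw [← Real.exp_nat_mul]
      congr 1
      push_cast
      ring
    rw [h6]
    exact pow_le_pow_left₀ (Nat.cast_nonneg _) h3 3
  refine mkData n b I h k (wj j) (zz' θ j) (2 ^ (j + 1)) (by omega) (one_le_wj j) hpos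
    hmono.injective (fun t ht => (hI t ht).2) ?_ ?_ ?_ ?_ ?_ ?_
  · intro t ht p hp hpz
    rcases Nat.lt_or_ge ((n t).factorization p) 2 with h2 | h2
    · rcases Nat.lt_or_ge ((n t).factorization p) 1 with h3 | h3
      · have h4 : (n t).factorization p = 0 := by omega
        rw [h4, pow_zero]
        omega
      · have h4 : (n t).factorization p = 1 := by omega
        rw [h4, pow_one]
        exact hpz
    · exact key t ht p hp h2
  · intro t ht p hp hpz
    by_contra h2
    have h3 := key t ht p hp (by omega)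
    have h4 : p ≤ p ^ (n t).factorization p := Nat.le_self_pow (by omega) p
    omega
  · intro t ht
    refine (hI t ht).1.om.trans (ww_mono ?_)
    have h2 := Nat.log_mono_right (b := 2) (hI t ht).2
    rwa [Nat.log_pow (by norm_num)] at h2
  · intro t ht
    obtain ⟨hg, hle'⟩ := hI t ht
    refine le_trans ?_ hg.few
    have hsub : {p ∈ (n t).primeFactors | zz' θ j < p} ⊆
        ((n t).primeFactorsList.filter
          (fun p : ℕ => decide (Real.exp ((Real.log (n t)) ^ θ) < (p : ℝ)))).toFinset := by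
      intro p hp
      rw [mem_filter] at hp
      rw [List.mem_toFinset, List.mem_filter]
      refine ⟨List.mem_toFinset.1 hp.1, ?_⟩
      rw [decide_eq_true_eq]
      by_contra h2
      push Not at h2
      have := le_zz' h0 (hpos t) hle' h2
      omega
    exact (card_le_card hsub).trans (List.toFinset_card_le _)
  · intro i hi
    have := hle i hi
    omega
  · intro i hi
    have h2 : #(n i).primeFactors ≤ n i := by
      have h3 : (n i).primeFactors ⊆ Icc 1 (n i) := by
        intro p hp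
        have hp' := Nat.mem_primeFactors.1 hp
        exact mem_Icc.2 ⟨hp'.1.one_le, Nat.le_of_dvd (hpos i) hp'.2.1⟩
      have h4 := card_le_card h3
      rw [Nat.card_Icc] at h4
      omega
    exact (h2.trans (hle i hi)).trans hw

end

end Pool.Agent.E25B
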