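import Mathlib
import Pool.Agent.E25B.CoreDefs

/-!
# Core estimate: lists of terms
-/

namespace Pool.Agent.E25B

open Finset Pool.Agent.E25
open scoped Classical

set_option linter.unusedSectionVars false

noncomputable section

/-- the term of a class -/
def tm (P : Finset ℕ) (q : ℕ → ℕ) (s b : ℕ) : Term (fun p : ↥P => Fin (q p)) where
  J := {p | Nat.gcd (q p) s ≠ 1}
  B := mt P q s b
  dep := fun x y h => by
    unfold mt
    refine forall_congr' fun p => ?_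
    by_cases hp : Nat.gcd (q p) s = 1
    · rw [hp]; simp [Nat.modEq_one]
    · rw [h p (by simpa using hp)]

lemma card_sub (P : Finset ℕ) (Q : ℕ → Prop) [DecidablePred Q] :
    #({p : ↥P | Q p} : Finset ↥P) = #{p ∈ P | Q p} := by
  rw [← Finset.card_map (Function.Embedding.subtype _)]
  congr 1
  ext a
  simp only [mem_map, mem_filter, mem_univ, true_and, Function.Embedding.coe_subtype, Subtype.exists,
    exists_and_right, exists_eq_right]
  constructor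
  · rintro ⟨h1, h2⟩; exact ⟨h1, h2⟩
  · rintro ⟨h1, h2⟩; exact ⟨h1, h2⟩

lemma gcd_prod_dvd (P : Finset ℕ) (q : ℕ → ℕ) (n : ℕ) :
    Nat.gcd n (∏ p ∈ P, q p) ∣ ∏ p ∈ P, Nat.gcd n (q p) := by
  induction P using Finset.induction_on with
  | empty => simp
  | insert a s ha ih =>
    rw [prod_insert ha, prod_insert ha]
    exact (Nat.gcd_mul_right_dvd_mul_gcd _ _ _).trans (mul_dvd_mul_left _ ih)

namespace Data

variable (D : Data)

lemma gcd_s (t : ℕ) (p : ℕ) (hp : p ∈ D.P) : Nat.gcd (D.q p) (D.s t) = Nat.gcd (D.q p) (D.n t) := by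
  unfold s
  have h : D.q p ∣ D.DP := dvd_prod_of_mem _ hp
  rw [Nat.gcd_comm (D.n t), ← Nat.gcd_assoc, Nat.gcd_eq_left h]

lemma A_iff (t : ℕ) (σ : D.Ωs) :
    mt D.P D.q (D.s t) (D.b t % D.s t) σ ↔ D.A t σ := by
  unfold A mt
  refine forall_congr' fun p => ?_
  rw [D.gcd_s t p p.2]
  have h1 : D.b t % D.s t ≡ D.b t [MOD (Nat.gcd (D.q p) (D.n t))] := by
    rw [← D.gcd_s t p p.2]
    exact (Nat.mod_modEq _ _).of_dvd (Nat.gcd_dvd_right _ _)
  exact ⟨fun h => h.trans h1, fun h => h.trans h1.symm⟩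

lemma A_iff' (t : ℕ) (σ : D.Ωs) : mt D.P D.q (D.s t) (D.b t) σ ↔ D.A t σ := by
  unfold A mt
  refine forall_congr' fun p => ?_
  rw [D.gcd_s t p p.2]

lemma DP_pos : 0 < D.DP := prod_pos fun p hp => D.hqP p hp
lemma DR_pos : 0 < D.DR := prod_pos fun p hp => D.hqR p hp
lemma s_pos (t : ℕ) : 0 < D.s t := Nat.gcd_pos_of_pos_left _ (D.hpos t)
lemma rr_pos (S : Finset ↥D.R) : 0 < D.rr S := prod_pos fun p _ => D.hqR p p.2

/-- good index: width at most `w` -/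
def Good (t : ℕ) : Prop := #{p ∈ D.P | Nat.gcd (D.q p) (D.n t) ≠ 1} ≤ D.w

lemma s_le {t : ℕ} (ht : D.Good t) : D.s t ≤ D.z ^ D.w := by
  have h1 : D.s t ∣ ∏ p ∈ D.P, Nat.gcd (D.n t) (D.q p) := gcd_prod_dvd _ _ _
  have h2 : 0 < ∏ p ∈ D.P, Nat.gcd (D.n t) (D.q p) :=
    prod_pos fun p _ => Nat.gcd_pos_of_pos_left _ (D.hpos t)
  refine (Nat.le_of_dvd h2 h1).trans ?_
  have h3 : ∏ p ∈ D.P, Nat.gcd (D.n t) (D.q p)
      = ∏ p ∈ D.P with Nat.gcd (D.q p) (D.n t) ≠ 1, Nat.gcd (D.n t) (D.q p) := by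
    rw [prod_filter]
    refine prod_congr rfl fun p _ => ?_
    split_ifs with h
    · rfl
    · rw [not_not] at h; rw [Nat.gcd_comm]; exact h
  rw [h3]
  calc ∏ p ∈ D.P with Nat.gcd (D.q p) (D.n t) ≠ 1, Nat.gcd (D.n t) (D.q p)
      ≤ ∏ p ∈ D.P with Nat.gcd (D.q p) (D.n t) ≠ 1, D.z := by
        refine prod_le_prod' fun p hp => ?_
        have hp' := (mem_filter.mp hp).1
        exact (Nat.le_of_dvd (D.hqP p hp') (Nat.gcd_dvd_right _ _)).trans (D.hqz p hp')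
    _ = D.z ^ (#{p ∈ D.P | Nat.gcd (D.q p) (D.n t) ≠ 1}) := by rw [prod_const]
    _ ≤ D.z ^ D.w := Nat.pow_le_pow_right (by have := D.hz; omega) ht

/-- The DNF of the events `A t`, `t ∈ Q`, with repetitions removed. -/
def lst (Q : Finset ℕ) : List (Term (fun p : ↥D.P => Fin (D.q p))) :=
  (Q.image fun t => (D.s t, D.b t % D.s t)).toList.map fun sb => tm D.P D.q sb.1 sb.2

lemma H_lst (Q : Finset ℕ) (σ : D.Ωs) : H (D.lst Q) σ = ind (∃ t ∈ Q, D.A t σ) := by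
  unfold H
  refine ind_congr ?_
  unfold lst
  simp only [List.mem_map, Finset.mem_toList, mem_image]
  constructor
  · rintro ⟨_, ⟨_, ⟨t, ht, rfl⟩, rfl⟩, h⟩
    exact ⟨t, ht, (D.A_iff t σ).mp h⟩
  · rintro ⟨t, ht, h⟩
    exact ⟨_, ⟨_, ⟨t, ht, rfl⟩, rfl⟩, (D.A_iff t σ).mpr h⟩

lemma cnt_lst_le (Q : Finset ℕ) (σ : D.Ωs) : cnt (D.lst Q) σ ≤ ∑ t ∈ Q, ind (D.A t σ) := by
  unfold cnt lst
  rw [List.map_map, Finset.sum_map_toList]
  simp only [Function.comp_def]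
  have h : ∀ t, ind (D.A t σ) = (fun sb : ℕ × ℕ => ind ((tm D.P D.q sb.1 sb.2).B σ)) (D.s t, D.b t % D.s t) :=
    fun t => ind_congr (D.A_iff t σ).symm
  simp only [h]
  exact Finset.sum_image_le_of_nonneg fun _ _ => ind_nonneg _

lemma width_lst {Q : Finset ℕ} (hQ : ∀ t ∈ Q, D.Good t) : ∀ u ∈ D.lst Q, #u.J ≤ D.w := by
  intro u hu
  unfold lst at hu
  simp only [List.mem_map, Finset.mem_toList, mem_image] at hu
  obtain ⟨_, ⟨t, ht, rfl⟩, rfl⟩ := hu
  have h1 : (tm D.P D.q (D.s t) (D.b t % D.s t)).J = ({p | Nat.gcd (D.q p) (D.s t) ≠ 1} : Finset ↥D.P) := rfl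
  simp only
  rw [h1]
  have h2 : ({p | Nat.gcd (D.q p) (D.s t) ≠ 1} : Finset ↥D.P)
      = ({p | Nat.gcd (D.q p) (D.n t) ≠ 1} : Finset ↥D.P) := by
    ext p; simp only [mem_filter, mem_univ, true_and, D.gcd_s t p p.2]
  rw [h2, card_sub D.P (fun p => Nat.gcd (D.q p) (D.n t) ≠ 1)]
  exact hQ t ht

lemma length_lst {Q : Finset ℕ} (hQ : ∀ t ∈ Q, D.Good t) : (D.lst Q).length ≤ D.z ^ (2 * D.w) := by
  unfold lst
  rw [List.length_map, Finset.length_toList]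
  have h : (Q.image fun t => (D.s t, D.b t % D.s t)) ⊆ Icc 1 (D.z ^ D.w) ×ˢ range (D.z ^ D.w) := by
    intro u hu
    obtain ⟨t, ht, rfl⟩ := mem_image.mp hu
    have h1 := D.s_le (hQ t ht)
    have h2 := D.s_pos t
    have h3 := Nat.mod_lt (D.b t) h2
    simp only [mem_product, mem_Icc, mem_range]
    omega
  refine (card_le_card h).trans ?_
  rw [card_product, Nat.card_Icc, card_range, Nat.add_sub_cancel, ← pow_add, two_mul]

end Data

end

end Pool.Agent.E25B
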