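import Mathlib
import Pool.Agent.E25B.CoreList

/-!
# Core estimate: the rough part
-/

namespace Pool.Agent.E25B

open Finset Pool.Agent.E25
open scoped Classical

set_option linter.unusedSectionVars false

noncomputable section

section general
variable {ι : Type} [Fintype ι] [DecidableEq ι] {κ : ι → Type} [∀ i, Fintype (κ i)]

lemma ex_ind_eq [∀ i, Nonempty (κ i)] (U : Finset ι) (c : ∀ i, κ i) :
    ex (fun x : ∀ i, κ i => ind (∀ p ∈ U, x p = c p)) = ∏ p ∈ U, (1 / (Fintype.card (κ p) : ℝ)) := by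
  have h := ex_prod_ind (κ := κ) U (fun i => {c i})
  simp only [card_singleton, Nat.cast_one] at h
  rw [← h]
  refine ex_congr fun x => ?_
  unfold ind
  split_ifs with h1
  · rw [prod_eq_one]
    intro i hi
    rw [if_pos (by rw [mem_singleton]; exact h1 i hi)]
  · push Not at h1
    obtain ⟨p, hp, h2⟩ := h1
    rw [prod_eq_zero hp]
    rw [if_neg (by rw [mem_singleton]; exact h2)]

end general

namespace Data

variable (D : Data)

lemma G_iff {t : ℕ} (ht : t ∈ D.I) (x : D.Ωr) : D.G t x ↔ ∀ p ∈ D.g t, x p = D.pt t p := by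
  unfold G mt g pt prj
  constructor
  · intro h p hp
    have hp' : Nat.gcd (D.q p) (D.n t) ≠ 1 := by simpa using hp
    have h1 : D.q p ∣ D.n t := (D.hR t ht p p.2).resolve_left hp'
    have h2 := h p
    rw [Nat.gcd_eq_left h1] at h2
    ext
    simp only
    have h3 : (x p : ℕ) % D.q p = D.b t % D.q p := h2
    rwa [Nat.mod_eq_of_lt (x p).2] at h3
  · intro h p
    by_cases hp : Nat.gcd (D.q p) (D.n t) = 1
    · rw [hp]; exact Nat.modEq_one
    · have h1 := h p (by simpa using hp)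
      rw [h1]
      exact (Nat.mod_modEq _ _).of_dvd (Nat.gcd_dvd_left _ _)

lemma ex_ind_pt (U : Finset ↥D.R) (c : D.Ωr) :
    ex (fun x : D.Ωr => ind (∀ p ∈ U, x p = c p)) = 1 / (D.rr U : ℝ) := by
  rw [ex_ind_eq]
  unfold rr
  push_cast
  rw [one_div, ← prod_inv_distrib]
  refine prod_congr rfl fun p _ => ?_
  rw [Fintype.card_fin, one_div]

lemma rr_sdiff {S U : Finset ↥D.R} (h : S ⊆ U) : D.rr U = D.rr S * D.rr (U \ S) := by
  unfold rr
  rw [mul_comm]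
  exact (prod_sdiff h).symm

/-- Integrating out the rough coordinates of an event. -/
lemma ex_G {t : ℕ} (ht : t ∈ D.I) {S : Finset ↥D.R} (hS : S ⊆ D.g t) (ρ : D.Ωr) (f : D.Ωr → ℝ) :
    ex (fun ρ1 => ind (D.G t (S.piecewise ρ ρ1)) * f (S.piecewise ρ ρ1))
      = ind (∀ p ∈ S, ρ p = D.pt t p) * ((1 / (D.rr (D.g t \ S) : ℝ))
        * ex (fun ρ1 => f ((D.g t).piecewise (D.pt t) ρ1))) := by
  have h1 : ∀ ρ1 : D.Ωr, ind (D.G t (S.piecewise ρ ρ1)) * f (S.piecewise ρ ρ1)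
      = ind (∀ p ∈ S, ρ p = D.pt t p) * (ind (∀ p ∈ D.g t \ S, ρ1 p = D.pt t p)
        * f ((D.g t).piecewise (D.pt t) ρ1)) := by
    intro ρ1
    have e1 : D.G t (S.piecewise ρ ρ1) ↔
        ((∀ p ∈ S, ρ p = D.pt t p) ∧ (∀ p ∈ D.g t \ S, ρ1 p = D.pt t p)) := by
      rw [D.G_iff ht]
      constructor
      · intro h
        refine ⟨fun p hp => ?_, fun p hp => ?_⟩
        · have := h p (hS hp)
          rwa [Finset.piecewise_eq_of_mem _ _ _ hp] at this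
        · have := h p (mem_sdiff.mp hp).1
          rwa [Finset.piecewise_eq_of_notMem _ _ _ (mem_sdiff.mp hp).2] at this
      · rintro ⟨h1, h2⟩ p hp
        by_cases hpS : p ∈ S
        · rw [Finset.piecewise_eq_of_mem _ _ _ hpS]; exact h1 p hpS
        · rw [Finset.piecewise_eq_of_notMem _ _ _ hpS]; exact h2 p (mem_sdiff.mpr ⟨hp, hpS⟩)
    by_cases h : D.G t (S.piecewise ρ ρ1)
    · have h2 := e1.mp h
      rw [ind_true h, ind_true h2.1, ind_true h2.2]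
      have e2 : S.piecewise ρ ρ1 = (D.g t).piecewise (D.pt t) ρ1 := by
        funext p
        by_cases hpg : p ∈ D.g t
        · rw [Finset.piecewise_eq_of_mem _ _ _ hpg]
          exact (D.G_iff ht _).mp h p hpg
        · rw [Finset.piecewise_eq_of_notMem _ _ _ hpg,
            Finset.piecewise_eq_of_notMem _ _ _ (fun h' => hpg (hS h'))]
      rw [e2]; ring
    · rw [ind_false h]
      have h2 : ¬ ((∀ p ∈ S, ρ p = D.pt t p) ∧ (∀ p ∈ D.g t \ S, ρ1 p = D.pt t p)) := fun h' => h (e1.mpr h')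
      have h3 := ind_false h2
      rw [ind_and] at h3
      rw [← mul_assoc, h3]; ring
  rw [ex_congr h1, ex_const_mul]
  congr 1
  have hd1 : Dep (D.g t \ S) (fun ρ1 : D.Ωr => ind (∀ p ∈ D.g t \ S, ρ1 p = D.pt t p)) := by
    intro x y h
    refine ind_congr ?_
    refine forall₂_congr fun p hp => ?_
    rw [h p hp]
  have hd2 : Dep (D.g t)ᶜ (fun ρ1 : D.Ωr => f ((D.g t).piecewise (D.pt t) ρ1)) := by
    intro x y h
    simp only
    congr 1
    funext p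
    by_cases hpg : p ∈ D.g t
    · rw [Finset.piecewise_eq_of_mem _ _ _ hpg, Finset.piecewise_eq_of_mem _ _ _ hpg]
    · rw [Finset.piecewise_eq_of_notMem _ _ _ hpg, Finset.piecewise_eq_of_notMem _ _ _ hpg]
      exact h p (mem_compl.mpr hpg)
  have hdisj : Disjoint (D.g t \ S) (D.g t)ᶜ := by
    rw [Finset.disjoint_left]
    intro p hp hp'
    exact (mem_compl.mp hp') (mem_sdiff.mp hp).1
  rw [ex_mul_of_disjoint hdisj hd1 hd2, D.ex_ind_pt]

/-- Union of the rough events of the indices whose smooth part holds at `σ`. -/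
def Fr (σ : D.Ωs) (S : Finset ↥D.R) (ρ : D.Ωr) : ℝ :=
  FS (D.I.filter fun t => D.A t σ) (fun t ρ => D.G t ρ) (fun t => D.g t) S ρ

/-- The quantity summed over the block. -/
def Q (S : Finset ↥D.R) (σ : D.Ωs) (ρ : D.Ωr) : ℝ :=
  (1 - D.U0 σ) * (av S (D.Fr σ S) ρ * comp ∅ S (D.Fr σ ∅) ρ ^ 2)

/-- blocking set -/
def QK (t : ℕ) (S : Finset ↥D.R) (ρ : D.Ωr) : Finset ℕ :=
  range D.h ∪ {t' ∈ D.I | t' < t ∧ S ⊆ D.g t' ∧ D.G t' ρ}

/-- matching set -/
def QF (ρ : D.Ωr) : Finset ℕ := {t' ∈ D.I | D.G t' ρ}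

/-- the summand -/
def V (t : ℕ) (S T T' : Finset ↥D.R) (ρ1 ρ2 ρ3 : D.Ωr) (σ : D.Ωs) : ℝ :=
  (1 - H (D.lst (D.QK t S ((D.g t).piecewise (D.pt t) ρ1))) σ)
    * (H (D.lst (D.QF (T.piecewise (D.pt t) ρ2))) σ * H (D.lst (D.QF (T'.piecewise (D.pt t) ρ3))) σ)

lemma Fr_empty (σ : D.Ωs) (ρ : D.Ωr) : D.Fr σ ∅ ρ = H (D.lst (D.QF ρ)) σ := by
  rw [D.H_lst]
  unfold Fr FS QF
  refine ind_congr ?_
  simp only [mem_filter, empty_subset, true_and]
  constructor
  · rintro ⟨t, ⟨h1, h2⟩, h3⟩; exact ⟨t, ⟨h1, h3⟩, h2⟩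
  · rintro ⟨t, ⟨h1, h3⟩, h2⟩; exact ⟨t, ⟨h1, h2⟩, h3⟩

/-- First satisfied event. -/
lemma first_sat (S : Finset ↥D.R) (σ : D.Ωs) (ρ : D.Ωr) :
    (1 - D.U0 σ) * D.Fr σ S ρ
      = ∑ t ∈ D.I with S ⊆ D.g t, ind (D.A t σ) * (ind (D.G t ρ) * (1 - H (D.lst (D.QK t S ρ)) σ)) := by
  have hK : ∀ t, H (D.lst (D.QK t S ρ)) σ
      = ind ((∃ i < D.h, D.A i σ) ∨ ∃ t' ∈ D.I, t' < t ∧ S ⊆ D.g t' ∧ D.G t' ρ ∧ D.A t' σ) := by
    intro t
    rw [D.H_lst]
    refine ind_congr ?_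
    unfold QK
    simp only [mem_union, mem_range, mem_filter]
    constructor
    · rintro ⟨i, h1 | h1, h2⟩
      · exact Or.inl ⟨i, h1, h2⟩
      · exact Or.inr ⟨i, h1.1, h1.2.1, h1.2.2.1, h1.2.2.2, h2⟩
    · rintro (⟨i, h1, h2⟩ | ⟨i, h1, h2, h3, h4, h5⟩)
      · exact ⟨i, Or.inl h1, h2⟩
      · exact ⟨i, Or.inr ⟨h1, h2, h3, h4⟩, h5⟩
  simp only [hK]
  unfold U0 Fr FS
  by_cases hU : ∃ i < D.h, D.A i σ
  · rw [ind_true hU, sub_self, zero_mul]
    symm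
    refine sum_eq_zero fun t _ => ?_
    rw [ind_true (Or.inl hU)]; ring
  · rw [ind_false hU, sub_zero, one_mul]
    by_cases hE : ∃ t ∈ D.I.filter (fun t => D.A t σ), S ⊆ D.g t ∧ D.G t ρ
    · rw [ind_true hE]
      set W : Finset ℕ := D.I.filter (fun t => D.A t σ ∧ S ⊆ D.g t ∧ D.G t ρ) with hW
      have hWne : W.Nonempty := by
        obtain ⟨t, h1, h2, h3⟩ := hE
        exact ⟨t, by rw [hW, mem_filter]; exact ⟨(mem_filter.mp h1).1, (mem_filter.mp h1).2, h2, h3⟩⟩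
      set t0 := W.min' hWne with ht0
      have h0 : t0 ∈ W := W.min'_mem hWne
      have h0' := mem_filter.mp h0
      rw [sum_eq_single_of_mem t0 (mem_filter.mpr ⟨h0'.1, h0'.2.2.1⟩)]
      · have h4 : ¬ ((∃ i < D.h, D.A i σ) ∨ ∃ t' ∈ D.I, t' < t0 ∧ S ⊆ D.g t' ∧ D.G t' ρ ∧ D.A t' σ) := by
          rintro (h | ⟨t', h1, h2, h3, h4, h5⟩)
          · exact hU h
          · have : t0 ≤ t' := W.min'_le t' (mem_filter.mpr ⟨h1, h5, h3, h4⟩)
            omega
        rw [ind_false h4, ind_true h0'.2.1, ind_true h0'.2.2.2]; ring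
      · intro t ht htne
        have ht' := mem_filter.mp ht
        by_cases h5 : D.A t σ ∧ D.G t ρ
        · have h6 : t ∈ W := mem_filter.mpr ⟨ht'.1, h5.1, ht'.2, h5.2⟩
          have h7 : t0 < t := lt_of_le_of_ne (W.min'_le t h6) (Ne.symm htne)
          rw [ind_true (Or.inr ⟨t0, h0'.1, h7, h0'.2.2.1, h0'.2.2.2, h0'.2.1⟩)]; ring
        · have h6 := ind_false h5
          rw [ind_and] at h6
          rw [← mul_assoc, h6]; ring
    · rw [ind_false hE]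
      symm
      refine sum_eq_zero fun t ht => ?_
      have ht' := mem_filter.mp ht
      have h5 : ¬ (D.A t σ ∧ D.G t ρ) := fun h =>
        hE ⟨t, mem_filter.mpr ⟨ht'.1, h.1⟩, ht'.2, h.2⟩
      have h6 := ind_false h5
      rw [ind_and] at h6
      rw [← mul_assoc, h6]; ring

/-- Formula for `Q`. -/
theorem Q_formula (S : Finset ↥D.R) (σ : D.Ωs) (ρ : D.Ωr) :
    D.Q S σ ρ = ∑ t ∈ D.I with S ⊆ D.g t,
      (1 / (D.rr (D.g t \ S) : ℝ)) * (ind (D.A t σ ∧ ∀ p ∈ S, ρ p = D.pt t p) *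
        ∑ T ∈ S.powerset, ∑ T' ∈ S.powerset, (-1) ^ (#(S \ T)) * (-1) ^ (#(S \ T')) *
          ex fun ρ1 => ex fun ρ2 => ex fun ρ3 => D.V t S T T' ρ1 ρ2 ρ3 σ) := by
  have h1 : (1 - D.U0 σ) * av S (D.Fr σ S) ρ
      = ∑ t ∈ D.I with S ⊆ D.g t, ind (D.A t σ) * (ind (∀ p ∈ S, ρ p = D.pt t p) *
        ((1 / (D.rr (D.g t \ S) : ℝ)) * ex (fun ρ1 =>
          1 - H (D.lst (D.QK t S ((D.g t).piecewise (D.pt t) ρ1))) σ))) := by
    unfold av
    rw [← ex_const_mul]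
    rw [ex_congr (fun ρ1 => D.first_sat S σ (S.piecewise ρ ρ1))]
    rw [ex_sum]
    refine sum_congr rfl fun t ht => ?_
    have ht' := mem_filter.mp ht
    rw [ex_const_mul]
    congr 1
    exact D.ex_G ht'.1 ht'.2 ρ (fun x => 1 - H (D.lst (D.QK t S x)) σ)
  unfold Q
  rw [← mul_assoc, h1, sum_mul]
  refine sum_congr rfl fun t _ => ?_
  by_cases hρ : ∀ p ∈ S, ρ p = D.pt t p
  · have h2 : comp ∅ S (D.Fr σ ∅) ρ = ∑ T ∈ S.powerset, (-1) ^ (#(S \ T)) *
        ex (fun ρ2 => H (D.lst (D.QF (T.piecewise (D.pt t) ρ2))) σ) := by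
      unfold comp
      refine sum_congr rfl fun T hT => ?_
      rw [mem_powerset] at hT
      congr 1
      unfold av
      refine ex_congr fun ρ2 => ?_
      rw [D.Fr_empty, empty_union]
      have : T.piecewise ρ ρ2 = T.piecewise (D.pt t) ρ2 := by
        funext p
        by_cases hp : p ∈ T
        · rw [Finset.piecewise_eq_of_mem _ _ _ hp, Finset.piecewise_eq_of_mem _ _ _ hp]
          exact hρ p (hT hp)
        · rw [Finset.piecewise_eq_of_notMem _ _ _ hp, Finset.piecewise_eq_of_notMem _ _ _ hp]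
      rw [this]
    rw [h2, ind_and, ind_true hρ, sq, sum_mul_sum, mul_sum]
    simp only [mul_sum]
    refine sum_congr rfl fun T _ => ?_
    refine sum_congr rfl fun T' _ => ?_
    have h3 : ex (fun ρ1 => ex fun ρ2 => ex fun ρ3 => D.V t S T T' ρ1 ρ2 ρ3 σ)
        = ex (fun ρ1 => 1 - H (D.lst (D.QK t S ((D.g t).piecewise (D.pt t) ρ1))) σ)
          * (ex (fun ρ2 => H (D.lst (D.QF (T.piecewise (D.pt t) ρ2))) σ)
            * ex (fun ρ3 => H (D.lst (D.QF (T'.piecewise (D.pt t) ρ3))) σ)) := by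
      unfold V
      simp only [ex_const_mul, ex_mul_const]
    rw [h3]; ring
  · have h4 : ind (D.A t σ ∧ ∀ p ∈ S, ρ p = D.pt t p) = 0 := ind_false fun h => hρ h.2
    rw [h4, ind_false hρ]; ring

end Data

end

end Pool.Agent.E25B
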