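import Mathlib
import Pool.Agent.E25B.CoreQ

/-!
# Core estimate: the block sums
-/

namespace Pool.Agent.E25B

open Finset Pool.Agent.E25
open scoped Classical

set_option linter.unusedSectionVars false

noncomputable section

namespace Data

variable (D : Data)

lemma hcP : (D.P : Set ℕ).Pairwise fun a b => Nat.Coprime (D.q a) (D.q b) :=
  fun a ha b hb hab => D.hcop (by simp only [coe_union]; exact Or.inl ha)
    (by simp only [coe_union]; exact Or.inl hb) hab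

lemma hcR : (D.R : Set ℕ).Pairwise fun a b => Nat.Coprime (D.q a) (D.q b) :=
  fun a ha b hb hab => D.hcop (by simp only [coe_union]; exact Or.inr ha)
    (by simp only [coe_union]; exact Or.inr hb) hab

lemma good_of_mem {t : ℕ} (ht : t ∈ D.I) : D.Good t := D.hwid t ht
lemma good_of_lt {t : ℕ} (ht : t < D.h) : D.Good t := D.h0w t ht

lemma rr_dvd (S : Finset ↥D.R) : D.rr S ∣ D.DR := by
  unfold rr DR
  rw [← prod_coe_sort D.R]
  exact prod_dvd_prod_of_subset _ _ _ (subset_univ _)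

lemma coprime_rr (S : Finset ↥D.R) : Nat.Coprime (D.rr S) (∏ p ∈ D.P, D.q p) := by
  unfold rr
  refine Nat.Coprime.prod_left fun p _ => Nat.Coprime.prod_right fun p' hp' => ?_
  refine D.hcop (by simp only [coe_union]; exact Or.inr p.2) (by simp only [coe_union]; exact Or.inl hp') ?_
  intro h
  exact (Finset.disjoint_left.mp D.hPR) hp' (h ▸ p.2)

lemma s_dvd (t : ℕ) : D.s t ∣ ∏ p ∈ D.P, D.q p := Nat.gcd_dvd_right _ _

lemma rough_iff (S : Finset ↥D.R) (b m : ℕ) :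
    (∀ p ∈ S, D.πr m p = prj D.R D.q D.hqR b p) ↔ m ≡ b [MOD D.rr S] := by
  rw [← mt_prj D.hqR D.hcR (D.rr_dvd S) b m]
  unfold mt
  have hS : ∀ p ∈ S, Nat.gcd (D.q p) (D.rr S) = D.q p := fun p hp =>
    Nat.gcd_eq_left (dvd_prod_of_mem (fun p : ↥D.R => D.q p) hp)
  have hS' : ∀ p, p ∉ S → Nat.gcd (D.q p) (D.rr S) = 1 := by
    intro p hp
    refine Nat.Coprime.prod_right fun p' hp' => ?_
    refine D.hcR p.2 p'.2 ?_
    intro h
    exact hp ((Subtype.ext h) ▸ hp')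
  constructor
  · intro h p
    by_cases hp : p ∈ S
    · rw [hS p hp]
      have h1 := h p hp
      unfold πr at h1
      rw [h1]
      exact Nat.mod_modEq _ _
    · rw [hS' p hp]; exact Nat.modEq_one
  · intro h p hp
    have h1 := h p
    rw [hS p hp] at h1
    have h2 : ((prj D.R D.q D.hqR m p : ℕ)) % D.q p = b % D.q p := h1
    rw [Nat.mod_eq_of_lt (prj D.R D.q D.hqR m p).2] at h2
    exact Fin.ext h2

lemma class_iff (t : ℕ) (S : Finset ↥D.R) (m : ℕ) :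
    (D.A t (D.πs m) ∧ ∀ p ∈ S, D.πr m p = D.pt t p) ↔ m ≡ D.b t [MOD (D.s t * D.rr S)] := by
  have h1 : D.A t (D.πs m) ↔ m ≡ D.b t [MOD D.s t] := by
    rw [← D.A_iff']
    exact mt_prj D.hqP D.hcP (D.s_dvd t) _ _
  have h2 : (∀ p ∈ S, D.πr m p = D.pt t p) ↔ m ≡ D.b t [MOD D.rr S] := D.rough_iff S (D.b t) m
  rw [h1, h2]
  have h3 : Nat.Coprime (D.s t) (D.rr S) :=
    ((D.coprime_rr S).symm).coprime_dvd_left (D.s_dvd t)
  exact Nat.modEq_and_modEq_iff_modEq_mul h3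

lemma cnt_QF_le (ρ : D.Ωr) (σ : D.Ωs) : cnt (D.lst (D.QF ρ)) σ ≤ D.N σ ρ := by
  refine (D.cnt_lst_le _ σ).trans ?_
  unfold QF N
  rw [sum_filter]
  refine sum_le_sum fun t _ => ?_
  split_ifs with h
  · exact ind_mono fun h' => ⟨h', h⟩
  · exact ind_nonneg _

lemma cnt_QK_le (t : ℕ) (S : Finset ↥D.R) (ρ : D.Ωr) (σ : D.Ωs) :
    cnt (D.lst (D.QK t S ρ)) σ ≤ D.h + D.N σ ρ := by
  refine (D.cnt_lst_le _ σ).trans ?_
  unfold QK N
  refine (sum_le_sum_of_subset_of_nonneg (show _ ⊆ range D.h ∪ {t' ∈ D.I | D.G t' ρ} from ?_)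
    (fun _ _ _ => ind_nonneg _)).trans ?_
  · refine union_subset_union_right ?_
    intro t' ht'
    rw [mem_filter] at ht' ⊢
    exact ⟨ht'.1, ht'.2.2.2⟩
  · refine (sum_union_inter (s₁ := range D.h) (s₂ := {t' ∈ D.I | D.G t' ρ})
      (f := fun t => ind (D.A t σ)) ▸ le_add_of_nonneg_right (sum_nonneg fun _ _ => ind_nonneg _)).trans ?_
    refine add_le_add ?_ ?_
    · refine (sum_le_sum fun t _ => ind_le_one _).trans_eq ?_
      simp
    · rw [sum_filter]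
      refine sum_le_sum fun t _ => ?_
      split_ifs with h
      · exact ind_mono fun h' => ⟨h', h⟩
      · exact ind_nonneg _

lemma good_QF (ρ : D.Ωr) : ∀ t ∈ D.QF ρ, D.Good t := fun t ht =>
  D.good_of_mem (mem_filter.mp ht).1

lemma good_QK (t : ℕ) (S : Finset ↥D.R) (ρ : D.Ωr) : ∀ t' ∈ D.QK t S ρ, D.Good t' := by
  intro t' ht'
  rcases mem_union.mp ht' with h | h
  · exact D.good_of_lt (mem_range.mp h)
  · exact D.good_of_mem (mem_filter.mp h).1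

/-- the dominating count -/
def Nh (t : ℕ) (T T' : Finset ↥D.R) (ρ1 ρ2 ρ3 : D.Ωr) (σ : D.Ωs) : ℝ :=
  (1 + D.h) + D.N σ ((D.g t).piecewise (D.pt t) ρ1) + D.N σ (T.piecewise (D.pt t) ρ2)
    + D.N σ (T'.piecewise (D.pt t) ρ3)

lemma N_nonneg (σ : D.Ωs) (ρ : D.Ωr) : 0 ≤ D.N σ ρ := sum_nonneg fun _ _ => ind_nonneg _

/-- A general form of the fooling bound. -/
lemma fool_aux (s : ℕ) (hs : 1 ≤ s) (y t : ℕ) (ht : t ∈ D.I) (S : Finset ↥D.R)
    (l : List (Term (fun p : ↥D.P => Fin (D.q p)))) (hl : l.length ≤ D.z ^ (6 * D.w))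
    (hwl : ∀ u ∈ l, #u.J ≤ 3 * D.w) (B : D.Ωs → ℝ) (hB : ∀ σ, cnt l σ ^ 3 ≤ B σ) :
    |∑ m ∈ Ioc y (2 * y) with m ≡ D.b t [MOD (D.s t * D.rr S)], H l (D.πs m)
      - (y : ℝ) / D.rr S * ex (fun σ => ind (D.A t σ) * H l σ)|
      ≤ (y : ℝ) / D.rr S * (10 ^ (3 * D.w) / 2 ^ s) * ex (fun σ => ind (D.A t σ) * B σ)
        + (D.z : ℝ) ^ (1300 * D.w * s) := by
  have hw := D.hw
  have h1 := AP_fool D.hqP D.hcP D.z (6 * D.w) (3 * D.w) s D.hz D.hPz D.hqz (by omega) hs l hwl hl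
    (D.s t) (D.rr S) (D.b t) y (D.s_dvd t) (by
      have h2 := D.good_of_mem ht
      unfold Good at h2
      have h3 : {p ∈ D.P | Nat.gcd (D.q p) (D.s t) ≠ 1} = {p ∈ D.P | Nat.gcd (D.q p) (D.n t) ≠ 1} := by
        refine filter_congr fun p hp => ?_
        rw [D.gcd_s t p hp]
      rw [h3]; omega) (D.rr_pos S) (D.coprime_rr S)
  have e1 : ∀ σ, ind (mt D.P D.q (D.s t) (D.b t) σ) = ind (D.A t σ) := fun σ => ind_congr (D.A_iff' t σ)
  simp only [e1] at h1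
  refine h1.trans (add_le_add ?_ ?_)
  · refine mul_le_mul_of_nonneg_left ?_ (by positivity)
    exact ex_mono fun σ => mul_le_mul_of_nonneg_left (hB σ) (ind_nonneg _)
  · have hz : (1 : ℝ) ≤ D.z := by exact_mod_cast (by have := D.hz; omega)
    refine pow_le_pow_right₀ hz ?_
    nlinarith [Nat.mul_le_mul hw hs]

lemma V_fool (s : ℕ) (hs : 1 ≤ s) (y t : ℕ) (ht : t ∈ D.I) (S T T' : Finset ↥D.R)
    (ρ1 ρ2 ρ3 : D.Ωr) :
    |∑ m ∈ Ioc y (2 * y) with m ≡ D.b t [MOD (D.s t * D.rr S)], D.V t S T T' ρ1 ρ2 ρ3 (D.πs m)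
      - (y : ℝ) / D.rr S * ex (fun σ => ind (D.A t σ) * D.V t S T T' ρ1 ρ2 ρ3 σ)|
      ≤ 2 * ((y : ℝ) / D.rr S * (10 ^ (3 * D.w) / 2 ^ s) *
          ex (fun σ => ind (D.A t σ) * D.Nh t T T' ρ1 ρ2 ρ3 σ ^ 9)
        + (D.z : ℝ) ^ (1300 * D.w * s)) := by
  set lK := D.lst (D.QK t S ((D.g t).piecewise (D.pt t) ρ1)) with hlK
  set l2 := D.lst (D.QF (T.piecewise (D.pt t) ρ2)) with hl2
  set l3 := D.lst (D.QF (T'.piecewise (D.pt t) ρ3)) with hl3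
  have hw := D.hw
  have hz1 : 1 ≤ D.z := by have := D.hz; omega
  have w2 := D.width_lst (D.good_QF (T.piecewise (D.pt t) ρ2))
  have w3 := D.width_lst (D.good_QF (T'.piecewise (D.pt t) ρ3))
  have wK := D.width_lst (D.good_QK t S ((D.g t).piecewise (D.pt t) ρ1))
  have n2 := D.length_lst (D.good_QF (T.piecewise (D.pt t) ρ2))
  have n3 := D.length_lst (D.good_QF (T'.piecewise (D.pt t) ρ3))
  have nK := D.length_lst (D.good_QK t S ((D.g t).piecewise (D.pt t) ρ1))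
  rw [← hl2] at w2 n2
  rw [← hl3] at w3 n3
  rw [← hlK] at wK nK
  have c2 := fun σ => D.cnt_QF_le (T.piecewise (D.pt t) ρ2) σ
  have c3 := fun σ => D.cnt_QF_le (T'.piecewise (D.pt t) ρ3) σ
  have cK := fun σ => D.cnt_QK_le t S ((D.g t).piecewise (D.pt t) ρ1) σ
  rw [← hl2] at c2
  rw [← hl3] at c3
  rw [← hlK] at cK
  have hV : ∀ σ, D.V t S T T' ρ1 ρ2 ρ3 σ = H (conj l2 l3) σ - H (conj lK (conj l2 l3)) σ := by
    intro σ
    unfold V
    rw [H_conj, H_conj, H_conj]; ring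
  have hb2 : ∀ σ, cnt (conj l2 l3) σ ^ 3 ≤ D.Nh t T T' ρ1 ρ2 ρ3 σ ^ 9 := by
    intro σ
    rw [cnt_conj, show (9 : ℕ) = 3 * 3 from rfl, pow_mul]
    refine pow_le_pow_left₀ (mul_nonneg (cnt_nonneg _ _) (cnt_nonneg _ _)) ?_ 3
    have a1 := cnt_nonneg l2 σ
    have a2 := cnt_nonneg l3 σ
    have a3 := D.N_nonneg σ ((D.g t).piecewise (D.pt t) ρ1)
    have a4 := D.N_nonneg σ (T.piecewise (D.pt t) ρ2)
    have a5 := D.N_nonneg σ (T'.piecewise (D.pt t) ρ3)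
    have hh : (0 : ℝ) ≤ D.h := Nat.cast_nonneg _
    have b1 : cnt l2 σ ≤ D.Nh t T T' ρ1 ρ2 ρ3 σ := by unfold Nh; linarith [c2 σ]
    have b2 : cnt l3 σ ≤ D.Nh t T T' ρ1 ρ2 ρ3 σ := by unfold Nh; linarith [c3 σ]
    have b3 : 1 ≤ D.Nh t T T' ρ1 ρ2 ρ3 σ := by unfold Nh; linarith
    calc cnt l2 σ * cnt l3 σ ≤ D.Nh t T T' ρ1 ρ2 ρ3 σ * D.Nh t T T' ρ1 ρ2 ρ3 σ :=
          mul_le_mul b1 b2 a2 (by linarith)
      _ = D.Nh t T T' ρ1 ρ2 ρ3 σ ^ 2 := by ring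
      _ ≤ D.Nh t T T' ρ1 ρ2 ρ3 σ ^ 3 := pow_le_pow_right₀ b3 (by norm_num)
  have hb3 : ∀ σ, cnt (conj lK (conj l2 l3)) σ ^ 3 ≤ D.Nh t T T' ρ1 ρ2 ρ3 σ ^ 9 := by
    intro σ
    rw [cnt_conj, cnt_conj, show (9 : ℕ) = 3 * 3 from rfl, pow_mul]
    refine pow_le_pow_left₀ (mul_nonneg (cnt_nonneg _ _) (mul_nonneg (cnt_nonneg _ _) (cnt_nonneg _ _))) ?_ 3
    have a0 := cnt_nonneg lK σ
    have a1 := cnt_nonneg l2 σ
    have a2 := cnt_nonneg l3 σ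
    have a3 := D.N_nonneg σ ((D.g t).piecewise (D.pt t) ρ1)
    have a4 := D.N_nonneg σ (T.piecewise (D.pt t) ρ2)
    have a5 := D.N_nonneg σ (T'.piecewise (D.pt t) ρ3)
    have hh : (0 : ℝ) ≤ D.h := Nat.cast_nonneg _
    have b0 : cnt lK σ ≤ D.Nh t T T' ρ1 ρ2 ρ3 σ := by unfold Nh; linarith [cK σ]
    have b1 : cnt l2 σ ≤ D.Nh t T T' ρ1 ρ2 ρ3 σ := by unfold Nh; linarith [c2 σ]
    have b2 : cnt l3 σ ≤ D.Nh t T T' ρ1 ρ2 ρ3 σ := by unfold Nh; linarith [c3 σ]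
    have b3 : 1 ≤ D.Nh t T T' ρ1 ρ2 ρ3 σ := by unfold Nh; linarith
    calc cnt lK σ * (cnt l2 σ * cnt l3 σ)
        ≤ D.Nh t T T' ρ1 ρ2 ρ3 σ * (D.Nh t T T' ρ1 ρ2 ρ3 σ * D.Nh t T T' ρ1 ρ2 ρ3 σ) :=
          mul_le_mul b0 (mul_le_mul b1 b2 a2 (by linarith)) (mul_nonneg a1 a2) (by linarith)
      _ = D.Nh t T T' ρ1 ρ2 ρ3 σ ^ 3 := by ring
  have len2 : (conj l2 l3).length ≤ D.z ^ (6 * D.w) := by
    rw [length_conj]
    calc l2.length * l3.length ≤ D.z ^ (2 * D.w) * D.z ^ (2 * D.w) := Nat.mul_le_mul n2 n3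
      _ = D.z ^ (4 * D.w) := by rw [← pow_add]; congr 1; ring
      _ ≤ D.z ^ (6 * D.w) := Nat.pow_le_pow_right hz1 (by omega)
  have len3 : (conj lK (conj l2 l3)).length ≤ D.z ^ (6 * D.w) := by
    rw [length_conj, length_conj]
    calc lK.length * (l2.length * l3.length)
        ≤ D.z ^ (2 * D.w) * (D.z ^ (2 * D.w) * D.z ^ (2 * D.w)) :=
          Nat.mul_le_mul nK (Nat.mul_le_mul n2 n3)
      _ = D.z ^ (6 * D.w) := by rw [← pow_add, ← pow_add]; congr 1; ring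
  have wid2 : ∀ u ∈ conj l2 l3, #u.J ≤ 3 * D.w := fun u hu =>
    (width_conj w2 w3 u hu).trans (by omega)
  have wid3 : ∀ u ∈ conj lK (conj l2 l3), #u.J ≤ 3 * D.w := fun u hu =>
    (width_conj wK (width_conj w2 w3) u hu).trans (by omega)
  have f2 := D.fool_aux s hs y t ht S (conj l2 l3) len2 wid2 _ hb2
  have f3 := D.fool_aux s hs y t ht S (conj lK (conj l2 l3)) len3 wid3 _ hb3
  simp only [hV, mul_sub, sum_sub_distrib, ex_sub]
  rw [abs_le] at f2 f3 ⊢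
  constructor <;> nlinarith [f2.1, f2.2, f3.1, f3.2]

end Data

end

end Pool.Agent.E25B
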