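import Mathlib
import Pool.Agent.E25B.CoreQ

/-!
# The moment bound
-/

namespace Pool.Agent.E25B

open Finset Pool.Agent.E25
open scoped Classical

set_option linter.unusedSectionVars false

noncomputable section

private lemma prod_ind_eq {α : Type} [Fintype α] (X : α → Prop) :
    ∏ a, ind (X a) = ind (∀ a, X a) := by
  by_cases h : ∀ a, X a
  · rw [ind_true h]
    exact prod_eq_one fun a _ => ind_true (h a)
  · rw [ind_false h]
    push Not at h
    obtain ⟨a, ha⟩ := h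
    exact prod_eq_zero (mem_univ a) (ind_false ha)

private lemma sum_ind_eq {α : Type} (s : Finset α) (X : α → Prop) (inst : DecidablePred X) :
    (#(@Finset.filter α X inst s) : ℝ) = ∑ a ∈ s, ind (X a) := by
  have h : ∀ a, ind (X a) = if X a then (1 : ℝ) else 0 := by
    intro a
    by_cases hX : X a
    · rw [ind_true hX, if_pos hX]
    · rw [ind_false hX, if_neg hX]
  rw [sum_congr rfl fun a _ => h a, Finset.sum_boole]

namespace Data

variable (D : Data)

/-- Freezing coordinates. -/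
private lemma ex_freeze (T : Finset ↥D.R) (c : D.Ωr) (f : D.Ωr → ℝ) :
    ex (fun ρ => f (T.piecewise c ρ))
      = (D.rr T : ℝ) * ex (fun ρ => ind (∀ p ∈ T, ρ p = c p) * f ρ) := by
  have h1 : ∀ ρ : D.Ωr, ind (∀ p ∈ T, ρ p = c p) * f ρ
      = ind (∀ p ∈ T, ρ p = c p) * f (T.piecewise c ρ) := by
    intro ρ
    by_cases h : ∀ p ∈ T, ρ p = c p
    · have : T.piecewise c ρ = ρ := by
        funext p
        by_cases hp : p ∈ T
        · rw [Finset.piecewise_eq_of_mem _ _ _ hp, h p hp]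
        · rw [Finset.piecewise_eq_of_notMem _ _ _ hp]
      rw [this]
    · rw [ind_false h]; ring
  have hd1 : Dep T (fun ρ : D.Ωr => ind (∀ p ∈ T, ρ p = c p)) := by
    intro x y h
    refine ind_congr ?_
    refine forall₂_congr fun p hp => ?_
    rw [h p hp]
  have hd2 : Dep Tᶜ (fun ρ : D.Ωr => f (T.piecewise c ρ)) := by
    intro x y h
    simp only
    congr 1
    funext p
    by_cases hp : p ∈ T
    · rw [Finset.piecewise_eq_of_mem _ _ _ hp, Finset.piecewise_eq_of_mem _ _ _ hp]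
    · rw [Finset.piecewise_eq_of_notMem _ _ _ hp, Finset.piecewise_eq_of_notMem _ _ _ hp]
      exact h p (mem_compl.mpr hp)
  rw [ex_congr h1, ex_mul_of_disjoint disjoint_compl_right hd1 hd2, D.ex_ind_pt]
  have h2 : (D.rr T : ℝ) ≠ 0 := by exact_mod_cast (D.rr_pos T).ne'
  field_simp

private lemma n_dvd {t : ℕ} (ht : t ∈ D.I) : D.n t ∣ D.s t * D.rr (D.g t) := by
  have h1 : D.n t ∣ Nat.gcd (D.n t) D.DP * Nat.gcd (D.n t) D.DR := by
    have h := Nat.gcd_mul_right_dvd_mul_gcd (D.n t) D.DP D.DR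
    have h' : Nat.gcd (D.n t) (D.DP * D.DR) = D.n t := Nat.gcd_eq_left (D.hn t ht)
    rwa [h'] at h
  refine h1.trans (mul_dvd_mul_left _ ?_)
  have h2 : Nat.gcd (D.n t) D.DR ∣ ∏ p ∈ D.R, Nat.gcd (D.n t) (D.q p) := gcd_prod_dvd _ _ _
  refine h2.trans ?_
  have h3 : ∏ p ∈ D.R, Nat.gcd (D.n t) (D.q p) = ∏ p : ↥D.R, Nat.gcd (D.n t) (D.q p) :=
    (Finset.prod_coe_sort D.R fun p => Nat.gcd (D.n t) (D.q p)).symm
  have h4 : ∏ p : ↥D.R, Nat.gcd (D.n t) (D.q p) = ∏ p ∈ D.g t, Nat.gcd (D.n t) (D.q p) := by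
    symm
    refine Finset.prod_subset (subset_univ _) fun p _ hp => ?_
    unfold g at hp
    rw [mem_filter] at hp
    rw [Nat.gcd_comm]
    by_contra h
    exact hp ⟨mem_univ _, h⟩
  rw [h3, h4]
  exact Finset.prod_dvd_prod_of_dvd _ _ fun p _ => Nat.gcd_dvd_right _ _

private lemma cop_PR : Nat.Coprime D.DP D.DR := by
  unfold DP DR
  refine Nat.Coprime.prod_left fun p hp => Nat.Coprime.prod_right fun p' hp' => ?_
  refine D.hcop (mem_coe.mpr (mem_union_left _ hp)) (mem_coe.mpr (mem_union_right _ hp')) ?_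
  rintro rfl
  exact Finset.disjoint_left.mp D.hPR hp hp'

private lemma rr_dvd (T : Finset ↥D.R) : D.rr T ∣ D.DR := by
  unfold rr DR
  rw [← Finset.prod_coe_sort D.R D.q]
  exact Finset.prod_dvd_prod_of_subset T univ (fun p : ↥D.R => D.q p) (subset_univ _)

private lemma cop_s_rr (t : ℕ) (T : Finset ↥D.R) : Nat.Coprime (D.s t) (D.rr T) :=
  (Nat.Coprime.coprime_dvd_left (Nat.gcd_dvd_right _ _) D.cop_PR).coprime_dvd_right (D.rr_dvd T)

/-- the system of moduli -/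
private def md (t : ℕ) (T : Finset ↥D.R) (v : Fin 9 → ℕ) : Option (Fin 9) → ℕ
  | none => D.s t * D.rr T
  | some a => D.n (v a)

/-- the system of residues -/
private def rs (t : ℕ) (v : Fin 9 → ℕ) : Option (Fin 9) → ℕ
  | none => D.b t
  | some a => D.b (v a)

private lemma one_tuple {t : ℕ} (T : Finset ↥D.R) (v : Fin 9 → ℕ)
    (hv : ∀ a, v a ∈ D.I) :
    ex (fun ρ : D.Ωr => ex fun σ : D.Ωs => ind (∀ p ∈ T, ρ p = D.pt t p) *
      (ind (D.A t σ) * ∏ a, ind (D.A (v a) σ ∧ D.G (v a) ρ)))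
      ≤ 1 / ((univ.lcm (D.md t T v) : ℕ) : ℝ) := by
  have hM : 0 < D.DP * D.DR := Nat.mul_pos D.DP_pos D.DR_pos
  have hn : ∀ j ∈ (univ : Finset (Option (Fin 9))), D.md t T v j ∣ D.DP * D.DR := by
    rintro (_ | a) _
    · exact mul_dvd_mul (Nat.gcd_dvd_right _ _) (D.rr_dvd T)
    · exact D.hn _ (hv a)
  have h1 := class_inter_le (univ : Finset (Option (Fin 9))) (D.md t T v) (D.rs t v)
    (D.DP * D.DR) hM hn
  rw [sum_ind_eq] at h1
  have h2 := transfer D.hPR D.hqP D.hqR D.hcop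
    (fun σ ρ => ind (∀ p ∈ T, ρ p = D.pt t p) *
      (ind (D.A t σ) * ∏ a, ind (D.A (v a) σ ∧ D.G (v a) ρ)))
  rw [ex_comm]
  have h3 : ∑ m ∈ range ((∏ p ∈ D.P, D.q p) * ∏ p ∈ D.R, D.q p),
      ind (∀ p ∈ T, prj D.R D.q D.hqR m p = D.pt t p) *
        (ind (D.A t (prj D.P D.q D.hqP m)) *
          ∏ a, ind (D.A (v a) (prj D.P D.q D.hqP m) ∧ D.G (v a) (prj D.R D.q D.hqR m)))
      ≤ ∑ m ∈ range (D.DP * D.DR), ind (∀ j ∈ (univ : Finset (Option (Fin 9))),
          m ≡ D.rs t v j [MOD (D.md t T v j)]) := by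
    refine sum_le_sum fun m _ => ?_
    rw [prod_ind_eq, ← ind_and, ← ind_and]
    refine ind_mono ?_
    rintro ⟨hT, hA, hE⟩ (_ | a) _
    · show m ≡ D.b t [MOD (D.s t * D.rr T)]
      rw [← Nat.modEq_and_modEq_iff_modEq_mul (D.cop_s_rr t T)]
      constructor
      · have hA' : mt D.P D.q (D.s t) (D.b t) (prj D.P D.q D.hqP m) := (D.A_iff' t _).mpr hA
        exact (mt_prj D.hqP (fun a ha b hb => D.hcop (mem_coe.mpr (mem_union_left _ ha))
          (mem_coe.mpr (mem_union_left _ hb))) (Nat.gcd_dvd_right _ _) _ _).mp hA'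
      · -- residues on `T`
        have hprod : D.rr T = ∏ p ∈ T.map (Function.Embedding.subtype _), D.q p := by
          unfold rr
          rw [Finset.prod_map]
          rfl
        rw [hprod]
        refine modEq_of_forall _ ?_ ?_
        · intro a ha b hb hab
          rw [mem_coe, mem_map] at ha hb
          obtain ⟨a', _, rfl⟩ := ha
          obtain ⟨b', _, rfl⟩ := hb
          exact D.hcop (mem_coe.mpr (mem_union_right _ a'.2))
            (mem_coe.mpr (mem_union_right _ b'.2)) hab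
        · intro p hp
          rw [mem_map] at hp
          obtain ⟨p', hp', rfl⟩ := hp
          exact Fin.ext_iff.mp (hT p' hp')
    · show m ≡ D.b (v a) [MOD (D.n (v a))]
      exact (mt_prj_two D.hPR D.hqP D.hqR D.hcop (D.hn _ (hv a)) _ _).mp (hE a)
  have h4 := h3.trans h1
  rw [h2] at h4
  have hP : (0 : ℝ) < ((∏ p ∈ D.P, D.q p : ℕ) : ℝ) := by exact_mod_cast D.DP_pos
  have hR : (0 : ℝ) < ((∏ p ∈ D.R, D.q p : ℕ) : ℝ) := by exact_mod_cast D.DR_pos
  have h5 : ((D.DP * D.DR : ℕ) : ℝ) / ((univ.lcm (D.md t T v) : ℕ) : ℝ)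
      = ((∏ p ∈ D.P, D.q p : ℕ) : ℝ) * ((∏ p ∈ D.R, D.q p : ℕ) : ℝ)
        * (1 / ((univ.lcm (D.md t T v) : ℕ) : ℝ)) := by
    unfold DP DR
    push_cast
    ring
  rw [h5] at h4
  exact le_of_mul_le_mul_left h4 (mul_pos hP hR)

/-- Moment bound.  Expand `N ^ 9` by `Finset.sum_pow'`; `ex_ρ f (T ? pt : ρ) = rr T * ex_ρ (ind (ρ = pt on T) * f ρ)`;
`transfer` to integers modulo `DP * DR`; `class_inter_le`; finally `lcm (n t) B ≤ lcm (s t * rr T) B * (rr (g t) / rr T)`. -/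
theorem mom : D.MomStatement := by
  intro t ht T hT
  have h1 := D.ex_freeze T (D.pt t) fun ρ => ex fun σ => ind (D.A t σ) * D.N σ ρ ^ 9
  rw [h1]
  have h2 : ex (fun ρ : D.Ωr => ind (∀ p ∈ T, ρ p = D.pt t p) *
        ex fun σ : D.Ωs => ind (D.A t σ) * D.N σ ρ ^ 9)
      = ∑ v ∈ Fintype.piFinset (fun _ : Fin 9 => D.I),
        ex (fun ρ : D.Ωr => ex fun σ : D.Ωs => ind (∀ p ∈ T, ρ p = D.pt t p) *
          (ind (D.A t σ) * ∏ a, ind (D.A (v a) σ ∧ D.G (v a) ρ))) := by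
    rw [← ex_sum]
    refine ex_congr fun ρ => ?_
    rw [← ex_const_mul, ← ex_sum]
    refine ex_congr fun σ => ?_
    have h3 : D.N σ ρ ^ 9 = ∑ v ∈ Fintype.piFinset (fun _ : Fin 9 => D.I),
        ∏ a, ind (D.A (v a) σ ∧ D.G (v a) ρ) := by
      rw [← Finset.prod_univ_sum (fun _ : Fin 9 => D.I) (fun _ t => ind (D.A t σ ∧ D.G t ρ))]
      rw [Finset.prod_const, Finset.card_univ, Fintype.card_fin]
      rfl
    rw [h3, mul_sum, mul_sum]
  rw [h2, mul_sum, mul_sum]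
  refine sum_le_sum fun v hv => ?_
  have hv' : ∀ a, v a ∈ D.I := fun a => Fintype.mem_piFinset.mp hv a
  have h3 := D.one_tuple (t := t) T v hv'
  set L : ℕ := univ.lcm (D.md t T v) with hL
  set B : ℕ := (univ : Finset (Fin 9)).lcm (fun a => D.n (v a)) with hB
  have hLpos : 0 < L := by
    refine Nat.pos_of_ne_zero fun h => ?_
    rw [hL, Finset.lcm_eq_zero_iff] at h
    obtain ⟨j, _, hj⟩ := h
    rcases j with _ | a
    · have : 0 < D.s t * D.rr T := Nat.mul_pos (D.s_pos t) (D.rr_pos T)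
      simp only [md] at hj
      omega
    · have := D.hpos (v a)
      simp only [md] at hj
      omega
  have h4 : Nat.lcm (D.n t) B ∣ L * D.rr (D.g t \ T) := by
    refine Nat.lcm_dvd ?_ ?_
    · refine (D.n_dvd ht).trans ?_
      rw [D.rr_sdiff hT, ← mul_assoc]
      refine mul_dvd_mul_right ?_ _
      exact Finset.dvd_lcm (f := D.md t T v) (mem_univ none)
    · refine Dvd.dvd.mul_right ?_ _
      exact Finset.lcm_dvd fun a _ => Finset.dvd_lcm (f := D.md t T v) (mem_univ (some a))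
  have h5 : (Nat.lcm (D.n t) B : ℝ) ≤ L * D.rr (D.g t \ T) := by
    exact_mod_cast Nat.le_of_dvd (Nat.mul_pos hLpos (D.rr_pos _)) h4
  have hlpos : (0 : ℝ) < (Nat.lcm (D.n t) B : ℝ) := by
    have hBpos : 0 < B := by
      refine Nat.pos_of_ne_zero fun h => ?_
      rw [hB, Finset.lcm_eq_zero_iff] at h
      obtain ⟨a, _, ha⟩ := h
      have := D.hpos (v a)
      omega
    exact_mod_cast Nat.lcm_pos (D.hpos t) hBpos
  have hT0 : (0 : ℝ) < D.rr T := by exact_mod_cast D.rr_pos T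
  have hg0 : (0 : ℝ) < D.rr (D.g t) := by exact_mod_cast D.rr_pos _
  have hL0 : (0 : ℝ) < (L : ℝ) := by exact_mod_cast hLpos
  have hg : (D.rr (D.g t) : ℝ) = D.rr T * D.rr (D.g t \ T) := by
    exact_mod_cast D.rr_sdiff hT
  have h6 : 1 / (D.rr (D.g t) : ℝ) * ((D.rr T : ℝ) * (1 / (L : ℝ))) ≤ 1 / (Nat.lcm (D.n t) B : ℝ) := by
    rw [one_div_mul_eq_div, mul_one_div, div_div, div_le_div_iff₀ (by positivity) hlpos, one_mul]
    calc (D.rr T : ℝ) * (Nat.lcm (D.n t) B : ℝ) ≤ D.rr T * (L * D.rr (D.g t \ T)) :=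
          mul_le_mul_of_nonneg_left h5 hT0.le
      _ = L * D.rr (D.g t) := by rw [hg]; ring
  refine le_trans ?_ h6
  exact mul_le_mul_of_nonneg_left (mul_le_mul_of_nonneg_left h3 hT0.le) (by positivity)

end Data

end

end Pool.Agent.E25B
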