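import Mathlib
import Pool.Agent.E25B.CoreQ

/-!
# Core estimate: the two outer steps
-/

namespace Pool.Agent.E25B

open Finset Pool.Agent.E25
open scoped Classical

set_option linter.unusedSectionVars false

noncomputable section

lemma card_filter_ind (s : Finset ℕ) (p : ℕ → Prop) {inst : DecidablePred p} :
    ((Finset.filter p s).card : ℝ) = ∑ m ∈ s, ind (p m) := by
  rw [Finset.card_filter]
  push_cast
  refine sum_congr rfl fun m _ => ?_
  unfold ind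
  by_cases h : p m <;> simp [h]

namespace Data

variable (D : Data)

lemma U0_le_one (σ : D.Ωs) : D.U0 σ ≤ 1 := ind_le_one _

lemma Q_nonneg (S : Finset ↥D.R) (σ : D.Ωs) (ρ : D.Ωr) : 0 ≤ D.Q S σ ρ :=
  mul_nonneg (sub_nonneg.2 (D.U0_le_one σ))
    (mul_nonneg (ex_nonneg fun _ => ind_nonneg _) (sq_nonneg _))

lemma hcopP : (D.P : Set ℕ).Pairwise fun a b => Nat.Coprime (D.q a) (D.q b) :=
  D.hcop.mono (by exact_mod_cast subset_union_left)

lemma hcopR : (D.R : Set ℕ).Pairwise fun a b => Nat.Coprime (D.q a) (D.q b) :=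
  D.hcop.mono (by exact_mod_cast subset_union_right)

/-- `G t` depends only on the coordinates in `g t`. -/
lemma dep_G (t : ℕ) (x y : D.Ωr) (h : ∀ p ∈ D.g t, x p = y p) : D.G t x ↔ D.G t y := by
  unfold G mt
  refine forall_congr' fun p => ?_
  by_cases hp : p ∈ D.g t
  · rw [h p hp]
  · have h1 : Nat.gcd (D.q p) (D.n t) = 1 := by
      by_contra h2
      exact hp (by unfold g; rw [mem_filter]; exact ⟨mem_univ _, h2⟩)
    rw [h1]
    exact ⟨fun _ => Nat.modEq_one, fun _ => Nat.modEq_one⟩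

/-- `A t` depends only on the coordinates in `J t`. -/
lemma dep_A (t : ℕ) (x y : D.Ωs) (h : ∀ p ∈ D.J t, x p = y p) : D.A t x ↔ D.A t y := by
  unfold A mt
  refine forall_congr' fun p => ?_
  by_cases hp : p ∈ D.J t
  · rw [h p hp]
  · have h1 : Nat.gcd (D.q p) (D.n t) = 1 := by
      by_contra h2
      exact hp (by unfold J; rw [mem_filter]; exact ⟨mem_univ _, h2⟩)
    rw [h1]
    exact ⟨fun _ => Nat.modEq_one, fun _ => Nat.modEq_one⟩

lemma card_g_le {t : ℕ} (ht : t ∈ D.I) : #(D.g t) ≤ D.k := by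
  refine le_trans ?_ (D.hk t ht)
  have h1 : (D.g t).image (fun p : ↥D.R => (p : ℕ)) ⊆ {p ∈ D.R | Nat.gcd (D.q p) (D.n t) ≠ 1} := by
    intro p hp
    rw [mem_image] at hp
    obtain ⟨p', hp', rfl⟩ := hp
    unfold g at hp'
    rw [mem_filter] at hp'
    exact mem_filter.2 ⟨p'.2, hp'.2⟩
  rw [← card_image_of_injective (D.g t) Subtype.val_injective]
  exact card_le_card h1

lemma card_J_le {t : ℕ} (ht : t ∈ D.I) : #(D.J t) ≤ D.w := by
  refine le_trans ?_ (D.hwid t ht)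
  have h1 : (D.J t).image (fun p : ↥D.P => (p : ℕ)) ⊆ {p ∈ D.P | Nat.gcd (D.q p) (D.n t) ≠ 1} := by
    intro p hp
    rw [mem_image] at hp
    obtain ⟨p', hp', rfl⟩ := hp
    unfold J at hp'
    rw [mem_filter] at hp'
    exact mem_filter.2 ⟨p'.2, hp'.2⟩
  rw [← card_image_of_injective (D.J t) Subtype.val_injective]
  exact card_le_card h1

lemma card_J_le' {i : ℕ} (hi : i < D.h) : #(D.J i) ≤ D.w := by
  refine le_trans ?_ (D.h0w i hi)
  have h1 : (D.J i).image (fun p : ↥D.P => (p : ℕ)) ⊆ {p ∈ D.P | Nat.gcd (D.q p) (D.n i) ≠ 1} := by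
    intro p hp
    rw [mem_image] at hp
    obtain ⟨p', hp', rfl⟩ := hp
    unfold J at hp'
    rw [mem_filter] at hp'
    exact mem_filter.2 ⟨p'.2, hp'.2⟩
  rw [← card_image_of_injective (D.J i) Subtype.val_injective]
  exact card_le_card h1

/-- the class of `t` in the two blocks. -/
lemma AG_iff {t : ℕ} (ht : t ∈ D.I) (m : ℕ) :
    (D.A t (D.πs m) ∧ D.G t (D.πr m)) ↔ m % D.n t = D.b t % D.n t :=
  mt_prj_two D.hPR D.hqP D.hqR D.hcop (D.hn t ht) (D.b t) m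

lemma A_iff_lt {i : ℕ} (hi : i < D.h) (m : ℕ) : D.A i (D.πs m) ↔ m % D.n i = D.b i % D.n i :=
  mt_prj D.hqP D.hcopP (D.h0 i hi) (D.b i) m

lemma U0_πs (m : ℕ) : D.U0 (D.πs m) = ind (Hit D.n D.b (range D.h) m) := by
  unfold U0 Hit
  refine ind_congr ?_
  constructor
  · rintro ⟨i, hi, h⟩
    exact ⟨i, mem_range.2 hi, (D.A_iff_lt hi m).1 h⟩
  · rintro ⟨i, hi, h⟩
    rw [mem_range] at hi
    exact ⟨i, hi, (D.A_iff_lt hi m).2 h⟩

lemma FS_πr (m : ℕ) : D.Fr (D.πs m) ∅ (D.πr m) = ind (Hit D.n D.b D.I m) := by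
  unfold Fr FS Hit
  refine ind_congr ?_
  constructor
  · rintro ⟨t, ht, -, h⟩
    exact ⟨t, (mem_filter.1 ht).1, (D.AG_iff (mem_filter.1 ht).1 m).1 ⟨(mem_filter.1 ht).2, h⟩⟩
  · rintro ⟨t, ht, h⟩
    have h' := (D.AG_iff ht m).2 h
    exact ⟨t, mem_filter.2 ⟨ht, h'.1⟩, empty_subset _, h'.2⟩

lemma Cb_nonneg (k : ℕ) : 0 ≤ Cb k := by unfold Cb; positivity

/-- **Outer step (a)**: pointwise Bessel inequality, summed over `(y, 2y]`. -/
theorem core_point (y : ℕ) :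
    (#{m ∈ Ioc y (2 * y) | Hit D.n D.b D.I m ∧ ¬ Hit D.n D.b (range D.h) m} : ℝ) ≤
      Cb D.k * ∑ m ∈ Ioc y (2 * y), ∑ S : Finset ↥D.R with #S ≤ D.k, D.Q S (D.πs m) (D.πr m) := by
  have key : ∀ m, Hit D.n D.b D.I m ∧ ¬ Hit D.n D.b (range D.h) m →
      1 ≤ Cb D.k * ∑ S : Finset ↥D.R with #S ≤ D.k, D.Q S (D.πs m) (D.πr m) := by
    rintro m ⟨⟨t, ht, hm⟩, h0⟩
    have hE := (D.AG_iff ht m).2 hm
    have h1 := bessel D.k (D.I.filter fun t => D.A t (D.πs m)) (fun t ρ => D.G t ρ)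
      (fun t => D.g t) (fun t _ x y h => D.dep_G t x y h)
      (fun t ht => D.card_g_le (mem_filter.1 ht).1) (D.πr m) t (mem_filter.2 ⟨ht, hE.1⟩) hE.2
    refine h1.trans (mul_le_mul_of_nonneg_left ?_ (Cb_nonneg _))
    have h2 : ∀ S : Finset ↥D.R, D.Q S (D.πs m) (D.πr m)
        = av S (D.Fr (D.πs m) S) (D.πr m) * comp ∅ S (D.Fr (D.πs m) ∅) (D.πr m) ^ 2 := by
      intro S
      unfold Q
      rw [U0_πs, ind_false h0]
      ring
    simp only [h2]
    refine sum_le_sum_of_subset_of_nonneg ?_ ?_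
    · intro S hS
      rw [mem_powerset] at hS
      exact mem_filter.2 ⟨mem_univ _, (card_le_card hS).trans (D.card_g_le ht)⟩
    · intro S _ _
      exact mul_nonneg (ex_nonneg fun _ => ind_nonneg _) (sq_nonneg _)
  have h3 : (#{m ∈ Ioc y (2 * y) | Hit D.n D.b D.I m ∧ ¬ Hit D.n D.b (range D.h) m} : ℝ)
      = ∑ m ∈ Ioc y (2 * y), ind (Hit D.n D.b D.I m ∧ ¬ Hit D.n D.b (range D.h) m) :=
    card_filter_ind _ _
  rw [h3, mul_sum]
  refine sum_le_sum fun m _ => ?_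
  by_cases h : Hit D.n D.b D.I m ∧ ¬ Hit D.n D.b (range D.h) m
  · rw [ind_true h]
    exact key m h
  · rw [ind_false h]
    exact mul_nonneg (Cb_nonneg _) (sum_nonneg fun S _ => D.Q_nonneg S _ _)

/-- **Outer step (b)**: the mean value. -/
theorem core_mean :
    ∑ S : Finset ↥D.R with #S ≤ D.k, ex (fun σ => ex fun ρ => D.Q S σ ρ)
      ≤ dens D.n D.b (range D.h ∪ D.I) - dens D.n D.b (range D.h) := by
  have h1 : ∑ S : Finset ↥D.R with #S ≤ D.k, ex (fun σ => ex fun ρ => D.Q S σ ρ)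
      ≤ ∑ S : Finset ↥D.R, ex (fun σ => ex fun ρ => D.Q S σ ρ) :=
    sum_le_sum_of_subset_of_nonneg (filter_subset _ _)
      fun S _ _ => ex_nonneg fun σ => ex_nonneg fun ρ => D.Q_nonneg S σ ρ
  have h2 : ∑ S : Finset ↥D.R, ex (fun σ => ex fun ρ => D.Q S σ ρ)
      ≤ ex fun σ => ex fun ρ => (1 - D.U0 σ) * D.Fr σ ∅ ρ := by
    rw [← ex_sum]
    refine ex_mono fun σ => ?_
    have h3 : ∑ S : Finset ↥D.R, ex (fun ρ => D.Q S σ ρ)
        = (1 - D.U0 σ) * ∑ S : Finset ↥D.R, ex (fun ρ => av S (D.Fr σ S) ρ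
          * comp ∅ S (D.Fr σ ∅) ρ ^ 2) := by
      rw [mul_sum]
      refine sum_congr rfl fun S _ => ?_
      unfold Q
      rw [ex_const_mul]
    rw [h3, ex_const_mul]
    exact mul_le_mul_of_nonneg_left (bessel_sum (D.I.filter fun t => D.A t σ)
      (fun t ρ => D.G t ρ) (fun t => D.g t))
      (sub_nonneg.2 (D.U0_le_one σ))
  refine (h1.trans h2).trans ?_
  -- transfer to integers
  have hDP : 0 < ∏ p ∈ D.P, D.q p := prod_pos D.hqP
  have hDR : 0 < ∏ p ∈ D.R, D.q p := prod_pos D.hqR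
  have h4 := transfer D.hPR D.hqP D.hqR D.hcop
    (fun σ ρ => (1 - D.U0 σ) * D.Fr σ ∅ ρ)
  set M : ℕ := (∏ p ∈ D.P, D.q p) * ∏ p ∈ D.R, D.q p with hM
  have hMpos : (0 : ℝ) < M := by exact_mod_cast Nat.mul_pos hDP hDR
  have h5 : ∑ m ∈ range M, (1 - D.U0 (prj D.P D.q D.hqP m))
        * D.Fr (prj D.P D.q D.hqP m) ∅ (prj D.R D.q D.hqR m)
      = (#{m ∈ range M | Hit D.n D.b (range D.h ∪ D.I) m} : ℝ)
        - (#{m ∈ range M | Hit D.n D.b (range D.h) m} : ℝ) := by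
    have e : ∀ m, (1 - D.U0 (prj D.P D.q D.hqP m))
        * D.Fr (prj D.P D.q D.hqP m) ∅ (prj D.R D.q D.hqR m)
        = ind (Hit D.n D.b (range D.h ∪ D.I) m) - ind (Hit D.n D.b (range D.h) m) := by
      intro m
      have e1 := D.U0_πs m
      have e2 := D.FS_πr m
      unfold πs at e1 e2
      unfold πr at e2
      rw [e1, e2]
      have e3 : Hit D.n D.b (range D.h ∪ D.I) m
          ↔ (Hit D.n D.b (range D.h) m ∨ Hit D.n D.b D.I m) := by
        unfold Hit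
        simp only [mem_union, or_and_right, exists_or]
      rw [ind_congr e3]
      unfold ind
      by_cases a : Hit D.n D.b (range D.h) m <;> by_cases b : Hit D.n D.b D.I m <;> simp [a, b]
    rw [sum_congr rfl fun m _ => e m, sum_sub_distrib, card_filter_ind, card_filter_ind]
  rw [h5] at h4
  have h6 := dens_eq (b := D.b) D.hpos (S := range D.h) (N := M)
    (fun i hi => (D.h0 i (mem_range.1 hi)).trans (Dvd.intro _ rfl))
  have h7 := dens_eq (b := D.b) D.hpos (S := range D.h ∪ D.I) (N := M) (fun i hi => by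
    rcases mem_union.1 hi with hi | hi
    · exact (D.h0 i (mem_range.1 hi)).trans (Dvd.intro _ rfl)
    · exact D.hn i hi)
  have h8 : ((∏ p ∈ D.P, D.q p : ℕ) : ℝ) * ((∏ p ∈ D.R, D.q p : ℕ) : ℝ) = M := by
    rw [hM]; push_cast; rfl
  rw [h8] at h4
  have h9 : (M : ℝ) * ex (fun σ => ex fun ρ => (1 - D.U0 σ) * D.Fr σ ∅ ρ)
      = M * (dens D.n D.b (range D.h ∪ D.I) - dens D.n D.b (range D.h)) := by
    rw [← h4, mul_sub, ← h6, ← h7]
  exact (mul_left_cancel₀ hMpos.ne' h9).le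

end Data

end

end Pool.Agent.E25B
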