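import Mathlib
import Pool.Agent.E25B.CoreMom
import Pool.Agent.E25B.CoreOut
import Pool.Agent.E25B.CoreFool

/-!
# Core estimate
-/

namespace Pool.Agent.E25B

open Finset Pool.Agent.E25
open scoped Classical

set_option linter.unusedSectionVars false

noncomputable section

/-- power mean for four terms -/
lemma pow_nine_le {a b c d : ℝ} (ha : 0 ≤ a) (hb : 0 ≤ b) (hc : 0 ≤ c) (hd : 0 ≤ d) :
    (a + b + c + d) ^ 9 ≤ 4 ^ 8 * (a ^ 9 + b ^ 9 + c ^ 9 + d ^ 9) := by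
  have h := pow_sum_div_card_le_sum_pow (s := (univ : Finset (Fin 4))) (f := ![a, b, c, d])
    (by intro i _; fin_cases i <;> simpa) 8
  simp only [Fin.sum_univ_four, card_univ, Fintype.card_fin] at h
  simp only [Matrix.cons_val_zero, Matrix.cons_val_one, Matrix.cons_val] at h
  rw [div_le_iff₀ (by positivity)] at h
  norm_num at h ⊢
  linarith

namespace Data

variable (D : Data)

/-- the inner alternating average -/
def Psi (t : ℕ) (S : Finset ↥D.R) (σ : D.Ωs) : ℝ :=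
  ∑ T ∈ S.powerset, ∑ T' ∈ S.powerset, (-1) ^ (#(S \ T)) * (-1) ^ (#(S \ T')) *
    ex fun ρ1 => ex fun ρ2 => ex fun ρ3 => D.V t S T T' ρ1 ρ2 ρ3 σ

lemma Q_eq (S : Finset ↥D.R) (σ : D.Ωs) (ρ : D.Ωr) :
    D.Q S σ ρ = ∑ t ∈ D.I with S ⊆ D.g t,
      (1 / (D.rr (D.g t \ S) : ℝ)) * (ind (D.A t σ ∧ ∀ p ∈ S, ρ p = D.pt t p) * D.Psi t S σ) :=
  D.Q_formula S σ ρ

/-- mean of `Q` -/
lemma ex_Q (S : Finset ↥D.R) :
    ex (fun σ => ex fun ρ => D.Q S σ ρ) = ∑ t ∈ D.I with S ⊆ D.g t,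
      (1 / (D.rr (D.g t) : ℝ)) * ex (fun σ => ind (D.A t σ) * D.Psi t S σ) := by
  have h1 : ∀ σ, ex (fun ρ => D.Q S σ ρ) = ∑ t ∈ D.I with S ⊆ D.g t,
      (1 / (D.rr (D.g t) : ℝ)) * (ind (D.A t σ) * D.Psi t S σ) := by
    intro σ
    simp only [Q_eq]
    rw [ex_sum]
    refine sum_congr rfl fun t ht => ?_
    have ht' := mem_filter.mp ht
    have h2 : ∀ ρ : D.Ωr, (1 / (D.rr (D.g t \ S) : ℝ)) * (ind (D.A t σ ∧ ∀ p ∈ S, ρ p = D.pt t p) * D.Psi t S σ)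
        = ((1 / (D.rr (D.g t \ S) : ℝ)) * (ind (D.A t σ) * D.Psi t S σ)) * ind (∀ p ∈ S, ρ p = D.pt t p) := by
      intro ρ; rw [ind_and]; ring
    rw [ex_congr h2, ex_const_mul, D.ex_ind_pt, D.rr_sdiff ht'.2]
    push_cast
    have e1 : (D.rr S : ℝ) ≠ 0 := by exact_mod_cast (D.rr_pos S).ne'
    have e2 : (D.rr (D.g t \ S) : ℝ) ≠ 0 := by exact_mod_cast (D.rr_pos _).ne'
    field_simp
  rw [ex_congr h1, ex_sum]
  refine sum_congr rfl fun t _ => ?_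
  rw [ex_const_mul]

/-- block sum of `Q` -/
lemma sum_Q (S : Finset ↥D.R) (y : ℕ) :
    ∑ m ∈ Ioc y (2 * y), D.Q S (D.πs m) (D.πr m) = ∑ t ∈ D.I with S ⊆ D.g t,
      (1 / (D.rr (D.g t \ S) : ℝ)) *
        ∑ m ∈ Ioc y (2 * y) with m ≡ D.b t [MOD (D.s t * D.rr S)], D.Psi t S (D.πs m) := by
  simp only [Q_eq]
  rw [sum_comm]
  refine sum_congr rfl fun t _ => ?_
  rw [← mul_sum, sum_filter]
  congr 1
  refine sum_congr rfl fun m _ => ?_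
  have h := D.class_iff t S m
  split_ifs with h1
  · rw [ind_true (h.mpr h1), one_mul]
  · rw [ind_false (fun h2 => h1 (h.mp h2)), zero_mul]

/-- the averaged ninth power -/
def X9 (t : ℕ) (T T' : Finset ↥D.R) : ℝ :=
  ex fun ρ1 => ex fun ρ2 => ex fun ρ3 => ex fun σ => ind (D.A t σ) * D.Nh t T T' ρ1 ρ2 ρ3 σ ^ 9

lemma Psi_fool (s : ℕ) (hs : 1 ≤ s) (y t : ℕ) (ht : t ∈ D.I) (S : Finset ↥D.R) :
    ∑ m ∈ Ioc y (2 * y) with m ≡ D.b t [MOD (D.s t * D.rr S)], D.Psi t S (D.πs m)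
      ≤ (y : ℝ) / D.rr S * ex (fun σ => ind (D.A t σ) * D.Psi t S σ)
        + ∑ T ∈ S.powerset, ∑ T' ∈ S.powerset,
          2 * ((y : ℝ) / D.rr S * (10 ^ (3 * D.w) / 2 ^ s) * D.X9 t T T' + (D.z : ℝ) ^ (1300 * D.w * s)) := by
  have h1 : ∑ m ∈ Ioc y (2 * y) with m ≡ D.b t [MOD (D.s t * D.rr S)], D.Psi t S (D.πs m)
      = ∑ T ∈ S.powerset, ∑ T' ∈ S.powerset, (-1) ^ (#(S \ T)) * (-1) ^ (#(S \ T')) *
        ex fun ρ1 => ex fun ρ2 => ex fun ρ3 =>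
          ∑ m ∈ Ioc y (2 * y) with m ≡ D.b t [MOD (D.s t * D.rr S)], D.V t S T T' ρ1 ρ2 ρ3 (D.πs m) := by
    unfold Psi
    rw [sum_comm]
    refine sum_congr rfl fun T _ => ?_
    rw [sum_comm]
    refine sum_congr rfl fun T' _ => ?_
    rw [← mul_sum]
    congr 1
    simp only [ex_sum]
  have h2 : (y : ℝ) / D.rr S * ex (fun σ => ind (D.A t σ) * D.Psi t S σ)
      = ∑ T ∈ S.powerset, ∑ T' ∈ S.powerset, (-1) ^ (#(S \ T)) * (-1) ^ (#(S \ T')) *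
        ex fun ρ1 => ex fun ρ2 => ex fun ρ3 =>
          (y : ℝ) / D.rr S * ex (fun σ => ind (D.A t σ) * D.V t S T T' ρ1 ρ2 ρ3 σ) := by
    unfold Psi
    simp only [mul_sum, ex_sum]
    refine sum_congr rfl fun T _ => sum_congr rfl fun T' _ => ?_
    have h3 : ∀ σ, ind (D.A t σ) * ((-1) ^ (#(S \ T)) * (-1) ^ (#(S \ T')) *
        ex fun ρ1 => ex fun ρ2 => ex fun ρ3 => D.V t S T T' ρ1 ρ2 ρ3 σ)
        = ((-1) ^ (#(S \ T)) * (-1) ^ (#(S \ T'))) *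
          ex fun ρ1 => ex fun ρ2 => ex fun ρ3 => ind (D.A t σ) * D.V t S T T' ρ1 ρ2 ρ3 σ := by
      intro σ
      simp only [ex_const_mul]; ring
    rw [ex_congr h3, ex_const_mul]
    rw [ex_comm]
    have h4 : ∀ ρ1 : D.Ωr, ex (fun σ => ex fun ρ2 => ex fun ρ3 => ind (D.A t σ) * D.V t S T T' ρ1 ρ2 ρ3 σ)
        = ex fun ρ2 => ex fun ρ3 => ex fun σ => ind (D.A t σ) * D.V t S T T' ρ1 ρ2 ρ3 σ := by
      intro ρ1
      rw [ex_comm]
      refine ex_congr fun ρ2 => ?_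
      rw [ex_comm]
    rw [ex_congr h4]
    simp only [ex_const_mul]; ring
  rw [h1, h2, ← sum_add_distrib]
  refine sum_le_sum fun T _ => ?_
  rw [← sum_add_distrib]
  refine sum_le_sum fun T' _ => ?_
  -- the bound for one pair
  set sg : ℝ := (-1) ^ (#(S \ T)) * (-1) ^ (#(S \ T')) with hsg
  have hsgabs : |sg| = 1 := by
    rw [hsg, abs_mul, abs_pow, abs_pow]; simp
  set f := fun ρ1 ρ2 ρ3 : D.Ωr =>
    ∑ m ∈ Ioc y (2 * y) with m ≡ D.b t [MOD (D.s t * D.rr S)], D.V t S T T' ρ1 ρ2 ρ3 (D.πs m) with hf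
  set g := fun ρ1 ρ2 ρ3 : D.Ωr =>
    (y : ℝ) / D.rr S * ex (fun σ => ind (D.A t σ) * D.V t S T T' ρ1 ρ2 ρ3 σ) with hg
  set e := fun ρ1 ρ2 ρ3 : D.Ωr => 2 * ((y : ℝ) / D.rr S * (10 ^ (3 * D.w) / 2 ^ s) *
          ex (fun σ => ind (D.A t σ) * D.Nh t T T' ρ1 ρ2 ρ3 σ ^ 9)
        + (D.z : ℝ) ^ (1300 * D.w * s)) with he
  have hfge : ∀ ρ1 ρ2 ρ3, sg * f ρ1 ρ2 ρ3 ≤ sg * g ρ1 ρ2 ρ3 + e ρ1 ρ2 ρ3 := by
    intro ρ1 ρ2 ρ3
    have h5 := D.V_fool s hs y t ht S T T' ρ1 ρ2 ρ3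
    have h6 : |sg * (f ρ1 ρ2 ρ3 - g ρ1 ρ2 ρ3)| ≤ e ρ1 ρ2 ρ3 := by
      rw [abs_mul, hsgabs, one_mul]; exact h5
    have h7 := (abs_le.mp h6).2
    linarith
  have h8 : sg * ex (fun ρ1 => ex fun ρ2 => ex fun ρ3 => f ρ1 ρ2 ρ3)
      ≤ sg * ex (fun ρ1 => ex fun ρ2 => ex fun ρ3 => g ρ1 ρ2 ρ3)
        + ex (fun ρ1 => ex fun ρ2 => ex fun ρ3 => e ρ1 ρ2 ρ3) := by
    simp only [← ex_const_mul, ← ex_add]
    exact ex_mono fun ρ1 => ex_mono fun ρ2 => ex_mono fun ρ3 => hfge ρ1 ρ2 ρ3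
  refine h8.trans_eq ?_
  congr 1
  rw [he]
  unfold X9
  simp only [ex_const_mul, ex_add]
  rw [ex_const, ex_const, ex_const]

/-- bound of the ninth powers -/
lemma X9_le (t : ℕ) (ht : t ∈ D.I) (T T' : Finset ↥D.R) (hT : T ⊆ D.g t) (hT' : T' ⊆ D.g t) :
    (1 / (D.rr (D.g t) : ℝ)) * D.X9 t T T' ≤ 4 ^ 8 * ((1 + D.h : ℝ) ^ 9 * (1 / (D.n t : ℝ))
      + 3 * ∑ v ∈ Fintype.piFinset (fun _ : Fin 9 => D.I),
        (1 : ℝ) / (Nat.lcm (D.n t) ((univ : Finset (Fin 9)).lcm fun a => D.n (v a)) : ℕ)) := by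
  have hrr : (0 : ℝ) < D.rr (D.g t) := by exact_mod_cast D.rr_pos _
  have hh : (0 : ℝ) ≤ 1 + D.h := by positivity
  have m1 := D.mom t ht (D.g t) subset_rfl
  have m2 := D.mom t ht T hT
  have m3 := D.mom t ht T' hT'
  -- measure of the event
  have m0 : (1 / (D.rr (D.g t) : ℝ)) * ex (fun σ => ind (D.A t σ)) ≤ 1 / (D.n t : ℝ) := by
    have h1 : (1 / (D.rr (D.g t) : ℝ)) * ex (fun σ => ind (D.A t σ))
        = ex fun σ => ex fun ρ => ind (D.A t σ ∧ D.G t ρ) := by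
      have h2 : ∀ σ, ex (fun ρ => ind (D.A t σ ∧ D.G t ρ)) = (1 / (D.rr (D.g t) : ℝ)) * ind (D.A t σ) := by
        intro σ
        simp only [ind_and, ex_const_mul]
        have h3 : ∀ ρ, ind (D.G t ρ) = ind (∀ p ∈ D.g t, ρ p = D.pt t p) :=
          fun ρ => ind_congr (D.G_iff ht ρ)
        rw [ex_congr h3, D.ex_ind_pt]; ring
      rw [ex_congr h2, ex_const_mul]
    rw [h1]
    have h4 := transfer D.hPR D.hqP D.hqR D.hcop (fun σ ρ => ind (D.A t σ ∧ D.G t ρ))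
    have hM : 0 < (∏ p ∈ D.P, D.q p) * ∏ p ∈ D.R, D.q p :=
      Nat.mul_pos (prod_pos fun p hp => D.hqP p hp) (prod_pos fun p hp => D.hqR p hp)
    have h5 := class_inter_le ({()} : Finset Unit) (fun _ => D.n t) (fun _ => D.b t) _ hM
      (fun _ _ => D.hn t ht)
    have h6 : ∑ m ∈ range ((∏ p ∈ D.P, D.q p) * ∏ p ∈ D.R, D.q p),
        ind (D.A t (prj D.P D.q D.hqP m) ∧ D.G t (prj D.R D.q D.hqR m))
        = (#{m ∈ range ((∏ p ∈ D.P, D.q p) * ∏ p ∈ D.R, D.q p) |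
            ∀ j ∈ ({()} : Finset Unit), m ≡ D.b t [MOD D.n t]} : ℝ) := by
      rw [card_filter]
      push_cast
      refine sum_congr rfl fun m _ => ?_
      have h7 := mt_prj_two D.hPR D.hqP D.hqR D.hcop (D.hn t ht) (D.b t) m
      unfold ind A G
      simp only [mem_singleton, forall_const, h7]
    rw [h6] at h4
    have e5 : ({()} : Finset Unit).lcm (fun _ => D.n t) = D.n t := by simp
    rw [e5, Nat.cast_mul] at h5
    have hMr : (0 : ℝ) < ((∏ p ∈ D.P, D.q p : ℕ) : ℝ) * ((∏ p ∈ D.R, D.q p : ℕ) : ℝ) := by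
      exact_mod_cast hM
    have h8 : ((∏ p ∈ D.P, D.q p : ℕ) : ℝ) * ((∏ p ∈ D.R, D.q p : ℕ) : ℝ) *
        (ex fun σ => ex fun ρ => ind (D.A t σ ∧ D.G t ρ))
        ≤ ((∏ p ∈ D.P, D.q p : ℕ) : ℝ) * ((∏ p ∈ D.R, D.q p : ℕ) : ℝ) * (1 / (D.n t : ℝ)) := by
      rw [← h4]
      have h5' : (((∏ p ∈ D.P, D.q p : ℕ) : ℝ) * ((∏ p ∈ D.R, D.q p : ℕ) : ℝ)) / (D.n t : ℝ)
          = ((∏ p ∈ D.P, D.q p : ℕ) : ℝ) * ((∏ p ∈ D.R, D.q p : ℕ) : ℝ) * (1 / (D.n t : ℝ)) := by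
        rw [div_eq_mul_one_div]
      rw [← h5']
      convert h5 using 3
      ext m
      simp only [mem_filter]
    exact le_of_mul_le_mul_left h8 hMr
  -- pointwise
  have hpt : D.X9 t T T' ≤ ex fun ρ1 => ex fun ρ2 => ex fun ρ3 => ex fun σ =>
      4 ^ 8 * ((1 + D.h : ℝ) ^ 9 * ind (D.A t σ)
        + ind (D.A t σ) * D.N σ ((D.g t).piecewise (D.pt t) ρ1) ^ 9
        + ind (D.A t σ) * D.N σ (T.piecewise (D.pt t) ρ2) ^ 9
        + ind (D.A t σ) * D.N σ (T'.piecewise (D.pt t) ρ3) ^ 9) := by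
    unfold X9
    refine ex_mono fun ρ1 => ex_mono fun ρ2 => ex_mono fun ρ3 => ex_mono fun σ => ?_
    have h9 := pow_nine_le hh (D.N_nonneg σ ((D.g t).piecewise (D.pt t) ρ1))
      (D.N_nonneg σ (T.piecewise (D.pt t) ρ2)) (D.N_nonneg σ (T'.piecewise (D.pt t) ρ3))
    have h10 := mul_le_mul_of_nonneg_left h9 (ind_nonneg (D.A t σ))
    unfold Nh
    refine h10.trans_eq ?_
    ring
  have hval : (ex fun ρ1 : D.Ωr => ex fun ρ2 : D.Ωr => ex fun ρ3 : D.Ωr => ex fun σ : D.Ωs =>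
      4 ^ 8 * ((1 + D.h : ℝ) ^ 9 * ind (D.A t σ)
        + ind (D.A t σ) * D.N σ ((D.g t).piecewise (D.pt t) ρ1) ^ 9
        + ind (D.A t σ) * D.N σ (T.piecewise (D.pt t) ρ2) ^ 9
        + ind (D.A t σ) * D.N σ (T'.piecewise (D.pt t) ρ3) ^ 9))
      = 4 ^ 8 * ((1 + D.h : ℝ) ^ 9 * ex (fun σ => ind (D.A t σ))
        + ex (fun ρ => ex fun σ => ind (D.A t σ) * D.N σ ((D.g t).piecewise (D.pt t) ρ) ^ 9)
        + ex (fun ρ => ex fun σ => ind (D.A t σ) * D.N σ (T.piecewise (D.pt t) ρ) ^ 9)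
        + ex (fun ρ => ex fun σ => ind (D.A t σ) * D.N σ (T'.piecewise (D.pt t) ρ) ^ 9)) := by
    simp only [ex_const_mul, ex_add, ex_const]
  rw [hval] at hpt
  calc (1 / (D.rr (D.g t) : ℝ)) * D.X9 t T T'
      ≤ (1 / (D.rr (D.g t) : ℝ)) * _ := mul_le_mul_of_nonneg_left hpt (by positivity)
    _ = 4 ^ 8 * ((1 + D.h : ℝ) ^ 9 * ((1 / (D.rr (D.g t) : ℝ)) * ex (fun σ => ind (D.A t σ)))
        + (1 / (D.rr (D.g t) : ℝ)) * ex (fun ρ => ex fun σ => ind (D.A t σ) * D.N σ ((D.g t).piecewise (D.pt t) ρ) ^ 9)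
        + (1 / (D.rr (D.g t) : ℝ)) * ex (fun ρ => ex fun σ => ind (D.A t σ) * D.N σ (T.piecewise (D.pt t) ρ) ^ 9)
        + (1 / (D.rr (D.g t) : ℝ)) * ex (fun ρ => ex fun σ => ind (D.A t σ) * D.N σ (T'.piecewise (D.pt t) ρ) ^ 9)) := by
        ring
    _ ≤ _ := by
        refine mul_le_mul_of_nonneg_left ?_ (by norm_num)
        have h11 := mul_le_mul_of_nonneg_left m0 (pow_nonneg hh 9)
        linarith

end Data

/-- **Core estimate** for one block `(y, 2y]`. -/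
theorem core (D : Data) (s : ℕ) (hs : 1 ≤ s) (y : ℕ) :
    (#{m ∈ Ioc y (2 * y) | Hit D.n D.b D.I m ∧ ¬ Hit D.n D.b (range D.h) m} : ℝ) ≤
      Cb D.k * (y * (dens D.n D.b (range D.h ∪ D.I) - dens D.n D.b (range D.h))
        + y * (8 ^ D.k * 4 ^ 10 * (1 + D.h : ℝ) ^ 9 * (10 ^ (3 * D.w) / 2 ^ s)) * Mom D.n D.I
        + 2 * 8 ^ D.k * (#D.I : ℝ) * (D.z : ℝ) ^ (1300 * D.w * s)) := by
  refine (D.core_point y).trans (mul_le_mul_of_nonneg_left ?_ (Data.Cb_nonneg _))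
  have hmean := D.core_mean
  rw [sum_comm]
  set η : ℝ := 10 ^ (3 * D.w) / 2 ^ s with hη
  have hη0 : 0 ≤ η := by positivity
  set Zc : ℝ := (D.z : ℝ) ^ (1300 * D.w * s) with hZc
  have hZ0 : 0 ≤ Zc := by positivity
  -- bound for one `S`
  have h1 : ∀ S : Finset ↥D.R, ∑ m ∈ Ioc y (2 * y), D.Q S (D.πs m) (D.πr m)
      ≤ y * ex (fun σ => ex fun ρ => D.Q S σ ρ)
        + ∑ t ∈ D.I with S ⊆ D.g t, ∑ T ∈ S.powerset, ∑ T' ∈ S.powerset,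
            2 * (y * η * ((1 / (D.rr (D.g t) : ℝ)) * D.X9 t T T') + Zc) := by
    intro S
    rw [D.sum_Q, D.ex_Q, mul_sum, ← sum_add_distrib]
    refine sum_le_sum fun t ht => ?_
    have ht' := mem_filter.mp ht
    have e1 : (0 : ℝ) < D.rr S := by exact_mod_cast D.rr_pos S
    have e2 : (0 : ℝ) < D.rr (D.g t \ S) := by exact_mod_cast D.rr_pos _
    have e3 : (D.rr (D.g t) : ℝ) = D.rr S * D.rr (D.g t \ S) := by
      rw [D.rr_sdiff ht'.2]; push_cast; ring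
    have e4 : (1 : ℝ) ≤ D.rr (D.g t \ S) := by exact_mod_cast D.rr_pos _
    have h2 := mul_le_mul_of_nonneg_left (D.Psi_fool s hs y t ht'.1 S)
      (show (0 : ℝ) ≤ 1 / (D.rr (D.g t \ S) : ℝ) by positivity)
    refine h2.trans ?_
    rw [mul_add]
    refine add_le_add (le_of_eq ?_) ?_
    · rw [e3]; field_simp
    · rw [mul_sum]
      refine sum_le_sum fun T _ => ?_
      rw [mul_sum]
      refine sum_le_sum fun T' _ => ?_
      have e5 : (1 / (D.rr (D.g t \ S) : ℝ)) * (2 * ((y : ℝ) / D.rr S * η * D.X9 t T T' + Zc))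
          = 2 * (y * η * ((1 / (D.rr (D.g t) : ℝ)) * D.X9 t T T') + Zc / D.rr (D.g t \ S)) := by
        rw [e3]; field_simp
      rw [e5]
      have e6 : Zc / D.rr (D.g t \ S) ≤ Zc := div_le_self hZ0 e4
      linarith
  -- bound for one `t`
  set μ : ℕ → ℝ := fun t => ∑ v ∈ Fintype.piFinset (fun _ : Fin 9 => D.I),
        (1 : ℝ) / (Nat.lcm (D.n t) ((univ : Finset (Fin 9)).lcm fun a => D.n (v a)) : ℕ) with hμ
  have hμ0 : ∀ t, 0 ≤ μ t := fun t => sum_nonneg fun _ _ => by positivity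
  set Wt : ℕ → ℝ := fun t => y * η * (4 ^ 8 * ((1 + D.h : ℝ) ^ 9 * (1 / (D.n t : ℝ)) + 3 * μ t)) + Zc with hWt
  have hW0 : ∀ t, 0 ≤ Wt t := by
    intro t
    have := hμ0 t
    simp only [hWt]
    positivity
  have h3 : ∀ S : Finset ↥D.R, ∀ t ∈ D.I.filter (fun t => S ⊆ D.g t), ∑ T ∈ S.powerset, ∑ T' ∈ S.powerset,
            2 * (y * η * ((1 / (D.rr (D.g t) : ℝ)) * D.X9 t T T') + Zc) ≤ 2 * 4 ^ D.k * Wt t := by
    intro S t ht
    have ht' := mem_filter.mp ht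
    have hc : #(D.g t) ≤ D.k := D.card_g_le ht'.1
    have hcS : #S ≤ D.k := (card_le_card ht'.2).trans hc
    calc ∑ T ∈ S.powerset, ∑ T' ∈ S.powerset,
            2 * (y * η * ((1 / (D.rr (D.g t) : ℝ)) * D.X9 t T T') + Zc)
        ≤ ∑ T ∈ S.powerset, ∑ T' ∈ S.powerset, 2 * Wt t := by
          refine sum_le_sum fun T hT => sum_le_sum fun T' hT' => ?_
          have h4 := D.X9_le t ht'.1 T T' ((mem_powerset.mp hT).trans ht'.2)
            ((mem_powerset.mp hT').trans ht'.2)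
          have h5 := mul_le_mul_of_nonneg_left h4 (show 0 ≤ (y : ℝ) * η by positivity)
          simp only [hWt]
          linarith
      _ = (2 : ℝ) ^ #S * ((2 : ℝ) ^ #S * (2 * Wt t)) := by
          simp only [sum_const, card_powerset, nsmul_eq_mul]; push_cast; ring
      _ = 4 ^ #S * (2 * Wt t) := by
          rw [← mul_assoc, ← mul_pow]; norm_num
      _ ≤ 4 ^ D.k * (2 * Wt t) := by
          refine mul_le_mul_of_nonneg_right (pow_le_pow_right₀ (by norm_num) hcS) ?_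
          have := hW0 t; linarith
      _ = 2 * 4 ^ D.k * Wt t := by ring
  have h4 : ∑ S : Finset ↥D.R with #S ≤ D.k, ∑ m ∈ Ioc y (2 * y), D.Q S (D.πs m) (D.πr m)
      ≤ y * ∑ S : Finset ↥D.R with #S ≤ D.k, ex (fun σ => ex fun ρ => D.Q S σ ρ)
        + ∑ S : Finset ↥D.R with #S ≤ D.k, ∑ t ∈ D.I with S ⊆ D.g t, 2 * 4 ^ D.k * Wt t := by
    rw [mul_sum, ← sum_add_distrib]
    refine sum_le_sum fun S _ => (h1 S).trans ?_
    exact add_le_add le_rfl (sum_le_sum fun t ht => h3 S t ht)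
  have h5 : ∑ S : Finset ↥D.R with #S ≤ D.k, ∑ t ∈ D.I with S ⊆ D.g t, 2 * 4 ^ D.k * Wt t
      ≤ ∑ t ∈ D.I, 2 * 8 ^ D.k * Wt t := by
    calc ∑ S : Finset ↥D.R with #S ≤ D.k, ∑ t ∈ D.I with S ⊆ D.g t, 2 * 4 ^ D.k * Wt t
        ≤ ∑ S : Finset ↥D.R, ∑ t ∈ D.I with S ⊆ D.g t, 2 * 4 ^ D.k * Wt t :=
          sum_le_sum_of_subset_of_nonneg (filter_subset _ _) fun S _ _ =>
            sum_nonneg fun t _ => mul_nonneg (by positivity) (hW0 t)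
      _ = ∑ t ∈ D.I, ∑ S : Finset ↥D.R with S ⊆ D.g t, 2 * 4 ^ D.k * Wt t := by
          simp only [sum_filter]
          rw [sum_comm]
      _ ≤ ∑ t ∈ D.I, 2 * 8 ^ D.k * Wt t := by
          refine sum_le_sum fun t ht => ?_
          have e1 : (univ.filter fun S : Finset ↥D.R => S ⊆ D.g t) = (D.g t).powerset := by
            ext S; simp [mem_powerset]
          rw [e1, sum_const, card_powerset, nsmul_eq_mul]
          have hc : #(D.g t) ≤ D.k := D.card_g_le ht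
          have e2 : ((2 ^ #(D.g t) : ℕ) : ℝ) ≤ 2 ^ D.k := by
            push_cast; exact pow_le_pow_right₀ (by norm_num) hc
          calc ((2 ^ #(D.g t) : ℕ) : ℝ) * (2 * 4 ^ D.k * Wt t) ≤ 2 ^ D.k * (2 * 4 ^ D.k * Wt t) :=
                mul_le_mul_of_nonneg_right e2 (mul_nonneg (by positivity) (hW0 t))
            _ = 2 * 8 ^ D.k * Wt t := by
                rw [show (8 : ℝ) = 2 * 4 by norm_num, mul_pow]; ring
  have h6 : ∑ t ∈ D.I, 2 * 8 ^ D.k * Wt t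
      ≤ y * (8 ^ D.k * 4 ^ 10 * (1 + D.h : ℝ) ^ 9 * η) * Mom D.n D.I + 2 * 8 ^ D.k * (#D.I : ℝ) * Zc := by
    have e1 : ∑ t ∈ D.I, 2 * 8 ^ D.k * Wt t = 2 * 8 ^ D.k * (y * η * (4 ^ 8 * ((1 + D.h : ℝ) ^ 9 *
        ∑ t ∈ D.I, (1 / (D.n t : ℝ)) + 3 * ∑ t ∈ D.I, μ t)) + #D.I * Zc) := by
      rw [← mul_sum]
      simp only [hWt, sum_add_distrib, ← mul_sum, sum_const, nsmul_eq_mul]
    rw [e1]
    have e2 : Mom D.n D.I = ∑ t ∈ D.I, (1 : ℝ) / (D.n t : ℝ) + ∑ t ∈ D.I, μ t := rfl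
    rw [e2]
    set a := ∑ t ∈ D.I, (1 : ℝ) / (D.n t : ℝ) with ha
    set c := ∑ t ∈ D.I, μ t with hc
    have ha0 : 0 ≤ a := sum_nonneg fun _ _ => by positivity
    have hc0 : 0 ≤ c := sum_nonneg fun t _ => hμ0 t
    set B := (1 + D.h : ℝ) ^ 9 with hB
    have hB1 : 1 ≤ B := one_le_pow₀ (by have : (0 : ℝ) ≤ D.h := Nat.cast_nonneg _; linarith)
    have e3 : B * a + 3 * c ≤ 3 * (B * (a + c)) := by nlinarith
    have e4 : 0 ≤ 2 * 8 ^ D.k * (y * η * 4 ^ 8) := by positivity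
    have e5 := mul_le_mul_of_nonneg_left e3 e4
    have e6 : 0 ≤ 8 ^ D.k * (y * η * 4 ^ 8) * (B * (a + c)) := by positivity
    nlinarith
  calc ∑ S : Finset ↥D.R with #S ≤ D.k, ∑ m ∈ Ioc y (2 * y), D.Q S (D.πs m) (D.πr m)
      ≤ y * (dens D.n D.b (range D.h ∪ D.I) - dens D.n D.b (range D.h))
        + (y * (8 ^ D.k * 4 ^ 10 * (1 + D.h : ℝ) ^ 9 * η) * Mom D.n D.I + 2 * 8 ^ D.k * (#D.I : ℝ) * Zc) :=
        h4.trans (add_le_add (mul_le_mul_of_nonneg_left hmean (Nat.cast_nonneg _)) (h5.trans h6))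
    _ = _ := by ring

end

end Pool.Agent.E25B
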