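import Mathlib
import Pool.Agent.E25B.GoodMod

/-!
# The near-diagonal moduli are negligible
-/

namespace Pool.Agent.E25B

open Finset Filter Topology Pool.Agent.E25
open scoped Classical

noncomputable section

lemma one_le_zz' (θ : ℝ) (j : ℕ) : 1 ≤ zz' θ j := by
  unfold zz'
  refine Nat.le_floor ?_
  rw [Nat.cast_one]
  refine Real.one_le_exp (Real.rpow_nonneg (Real.log_nonneg ?_) _)
  exact one_le_pow₀ (by norm_num)

lemma log_zz'_le (θ : ℝ) (j : ℕ) : Real.log (zz' θ j) ≤ ((j + 1) * Real.log 2) ^ θ := by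
  have h1 : (zz' θ j : ℝ) ≤ Real.exp ((Real.log ((2 : ℝ) ^ (j + 1))) ^ θ) :=
    Nat.floor_le (Real.exp_pos _).le
  have h2 : (0 : ℝ) < zz' θ j := by exact_mod_cast one_le_zz' θ j
  have h3 := Real.log_le_log h2 h1
  rw [Real.log_exp, Real.log_pow] at h3
  push_cast at h3
  exact h3

lemma cut_bound {θ δ : ℝ} (h0 : 0 < θ) (hδ0 : 0 < δ) (hδ1 : δ ≤ 1) (x : ℕ) (hx : 4 ≤ x) :
    |1 + Real.log (2 * cut θ (Nat.log 2 x))|
      ≤ (2 + 7800000 * (10 / δ + 1) ^ 2 * 2 ^ θ + 3 / δ) * (Real.log x) ^ (θ + 2 * δ) := by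
  set j : ℕ := Nat.log 2 x with hj
  set u : ℝ := Real.log x with hu
  have hx0 : (0 : ℝ) < x := by positivity
  have hlog2 : (1 / 2 : ℝ) ≤ Real.log 2 := by have := Real.log_two_gt_d9; linarith
  have hlog2' : Real.log 2 ≤ 1 := by have := Real.log_two_lt_d9; linarith
  have hu1 : 1 ≤ u := by
    have h4 : Real.log 4 ≤ u := Real.log_le_log (by norm_num) (by exact_mod_cast hx)
    have h44 : Real.log 4 = 2 * Real.log 2 := by
      rw [show (4 : ℝ) = 2 ^ 2 by norm_num, Real.log_pow]; norm_num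
    linarith
  have hu0 : 0 < u := by linarith
  -- j log 2 ≤ u
  have hju : (j : ℝ) * Real.log 2 ≤ u := by
    have h2 : 2 ^ j ≤ x := Nat.pow_log_le_self 2 (by omega)
    have h3 : (2 : ℝ) ^ j ≤ x := by exact_mod_cast h2
    have h4 := Real.log_le_log (by positivity) h3
    rwa [Real.log_pow] at h4
  have hj2 : (j : ℝ) ≤ 2 * u := by
    have : (j : ℝ) * (1 / 2) ≤ j * Real.log 2 := mul_le_mul_of_nonneg_left hlog2 (Nat.cast_nonneg _)
    linarith
  -- rpow facts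
  have hud : 1 ≤ u ^ δ := Real.one_le_rpow hu1 hδ0.le
  have hut : 1 ≤ u ^ θ := Real.one_le_rpow hu1 h0.le
  have hutd : u ^ (θ + 2 * δ) = u ^ θ * (u ^ δ) ^ 2 := by
    rw [Real.rpow_add hu0, ← Real.rpow_natCast (u ^ δ) 2, ← Real.rpow_mul hu0.le]
    congr 2
    push_cast; ring
  have hlogc : ∀ c : ℝ, 1 ≤ c → Real.log (c * u) ≤ c / δ * u ^ δ := by
    intro c hc
    have h1 := Real.log_le_rpow_div (show (0 : ℝ) ≤ c * u by positivity) hδ0
    have h2 : (c * u) ^ δ ≤ c * u ^ δ := by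
      rw [Real.mul_rpow (by linarith) hu0.le]
      refine mul_le_mul_of_nonneg_right ?_ (by positivity)
      calc c ^ δ ≤ c ^ (1 : ℝ) := Real.rpow_le_rpow_of_exponent_le hc hδ1
        _ = c := Real.rpow_one c
    calc Real.log (c * u) ≤ (c * u) ^ δ / δ := h1
      _ ≤ c * u ^ δ / δ := div_le_div_of_nonneg_right h2 hδ0.le
      _ = c / δ * u ^ δ := by ring
  -- the exponent
  set L : ℕ := Nat.log 2 (j + 3) with hL
  have hLb : (L : ℝ) + 1 ≤ (10 / δ + 1) * u ^ δ := by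
    have h2 : 2 ^ L ≤ j + 3 := Nat.pow_log_le_self 2 (by omega)
    have h3 : (2 : ℝ) ^ L ≤ j + 3 := by exact_mod_cast h2
    have h4 := Real.log_le_log (by positivity) h3
    rw [Real.log_pow] at h4
    have h5 : Real.log ((j : ℝ) + 3) ≤ Real.log (5 * u) :=
      Real.log_le_log (by positivity) (by linarith)
    have h6 := hlogc 5 (by norm_num)
    have h7 : (L : ℝ) * (1 / 2) ≤ L * Real.log 2 := mul_le_mul_of_nonneg_left hlog2 (Nat.cast_nonneg _)
    have h8 : (10 / δ + 1) * u ^ δ = 2 * (5 / δ * u ^ δ) + u ^ δ := by ring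
    rw [h8]
    linarith
  have hzl : Real.log (zz' θ j) ≤ 2 ^ θ * u ^ θ := by
    refine (log_zz'_le θ j).trans ?_
    rw [← Real.mul_rpow (by norm_num) hu0.le]
    refine Real.rpow_le_rpow (by positivity) ?_ h0.le
    have : ((j : ℝ) + 1) * Real.log 2 = j * Real.log 2 + Real.log 2 := by ring
    rw [this]; linarith
  have hzl0 : 0 ≤ Real.log (zz' θ j) := Real.log_nonneg (by exact_mod_cast one_le_zz' θ j)
  have hj1 : Real.log ((j : ℝ) + 1) ≤ 3 / δ * u ^ δ := by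
    refine le_trans (Real.log_le_log (by positivity) ?_) (hlogc 3 (by norm_num))
    linarith
  have hj10 : 0 ≤ Real.log ((j : ℝ) + 1) := Real.log_nonneg (by
    have : (0 : ℝ) ≤ j := Nat.cast_nonneg _
    linarith)
  have hexp : ((1300 * wj j * sj j : ℕ) : ℝ) = 7800000 * ((L : ℝ) + 1) ^ 2 := by
    unfold wj sj ww
    rw [show j + 1 + 2 = j + 3 by ring, ← hL]
    push_cast; ring
  have hz0 : (0 : ℝ) < zz' θ j := by exact_mod_cast one_le_zz' θ j
  have hlogcut : Real.log (2 * cut θ j)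
      = Real.log 2 + (7800000 * ((L : ℝ) + 1) ^ 2 * Real.log (zz' θ j) + Real.log ((j : ℝ) + 1)) := by
    unfold cut
    push_cast
    rw [Real.log_mul (by norm_num) (by positivity), Real.log_mul (by positivity) (by positivity),
      Real.log_pow, hexp]
  have hLnn : (0 : ℝ) ≤ (L : ℝ) + 1 := by positivity
  have hcut0 : 0 ≤ 7800000 * ((L : ℝ) + 1) ^ 2 * Real.log (zz' θ j) := by positivity
  rw [hlogcut, abs_of_nonneg (by linarith)]
  have hud2 : 1 ≤ (u ^ δ) ^ 2 := one_le_pow₀ hud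
  have hudd : u ^ δ ≤ (u ^ δ) ^ 2 := by nlinarith
  have e1 : 1 + Real.log 2 ≤ 2 * (u ^ θ * (u ^ δ) ^ 2) := by
    have : 1 ≤ u ^ θ * (u ^ δ) ^ 2 := by
      have := mul_le_mul hut hud2 (by norm_num) (by positivity)
      linarith
    linarith
  have e2 : 7800000 * ((L : ℝ) + 1) ^ 2 * Real.log (zz' θ j)
      ≤ 7800000 * (10 / δ + 1) ^ 2 * 2 ^ θ * (u ^ θ * (u ^ δ) ^ 2) := by
    calc 7800000 * ((L : ℝ) + 1) ^ 2 * Real.log (zz' θ j)
        ≤ 7800000 * ((10 / δ + 1) * u ^ δ) ^ 2 * (2 ^ θ * u ^ θ) := by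
          gcongr
      _ = 7800000 * (10 / δ + 1) ^ 2 * 2 ^ θ * (u ^ θ * (u ^ δ) ^ 2) := by ring
  have e3 : Real.log ((j : ℝ) + 1) ≤ 3 / δ * (u ^ θ * (u ^ δ) ^ 2) := by
    refine hj1.trans (mul_le_mul_of_nonneg_left ?_ (by positivity))
    calc u ^ δ ≤ 1 * (u ^ δ) ^ 2 := by rw [one_mul]; exact hudd
      _ ≤ u ^ θ * (u ^ δ) ^ 2 := mul_le_mul_of_nonneg_right hut (by positivity)
  rw [hutd]
  calc 1 + (Real.log 2 + (7800000 * ((L : ℝ) + 1) ^ 2 * Real.log (zz' θ j) + Real.log ((j : ℝ) + 1)))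
      = (1 + Real.log 2) + 7800000 * ((L : ℝ) + 1) ^ 2 * Real.log (zz' θ j) + Real.log ((j : ℝ) + 1) := by
        ring
    _ ≤ 2 * (u ^ θ * (u ^ δ) ^ 2) + 7800000 * (10 / δ + 1) ^ 2 * 2 ^ θ * (u ^ θ * (u ^ δ) ^ 2)
          + 3 / δ * (u ^ θ * (u ^ δ) ^ 2) := by linarith
    _ = (2 + 7800000 * (10 / δ + 1) ^ 2 * 2 ^ θ + 3 / δ) * (u ^ θ * (u ^ δ) ^ 2) := by ring

/-- The near-diagonal moduli are negligible. -/
theorem cut_small {θ α C : ℝ} (h0 : 0 < θ) (h1 : θ < 1) (hα : 0 ≤ α) (hαθ : α + θ < 1) :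
    Tendsto (fun x : ℕ => (1 + Real.log (2 * cut θ (Nat.log 2 x))) * (C * (Real.log x) ^ α) / Real.log x)
      atTop (𝓝 0) := by
  set δ : ℝ := (1 - α - θ) / 4 with hδ
  have hδ0 : 0 < δ := by rw [hδ]; linarith
  have hδ1 : δ ≤ 1 := by rw [hδ]; linarith
  set K : ℝ := 2 + 7800000 * (10 / δ + 1) ^ 2 * 2 ^ θ + 3 / δ with hK
  have hlim : Tendsto (fun x : ℕ => K * |C| * (Real.log x) ^ (-(2 * δ))) atTop (𝓝 0) := by
    have h2 : Tendsto (fun x : ℕ => Real.log (x : ℝ)) atTop atTop :=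
      Real.tendsto_log_atTop.comp tendsto_natCast_atTop_atTop
    have h3 := (tendsto_rpow_neg_atTop (show 0 < 2 * δ by linarith)).comp h2
    have h4 := h3.const_mul (K * |C|)
    rw [mul_zero] at h4
    exact h4
  refine squeeze_zero_norm' ?_ hlim
  filter_upwards [eventually_ge_atTop 4] with x hx
  have hb := cut_bound h0 hδ0 hδ1 x hx
  rw [← hK] at hb
  have hu0 : 0 < Real.log x := Real.log_pos (by
    have : (4 : ℝ) ≤ x := by exact_mod_cast hx
    linarith)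
  set u : ℝ := Real.log x with hu
  rw [Real.norm_eq_abs, abs_div, abs_mul, abs_mul, abs_of_pos hu0,
    abs_of_pos (Real.rpow_pos_of_pos hu0 α)]
  calc |1 + Real.log (2 * cut θ (Nat.log 2 x))| * (|C| * u ^ α) / u
      ≤ (K * u ^ (θ + 2 * δ)) * (|C| * u ^ α) / u := by
        gcongr
    _ = K * |C| * (u ^ (θ + 2 * δ) * u ^ α * u ^ (-1 : ℝ)) := by
        rw [Real.rpow_neg_one]; ring
    _ = K * |C| * u ^ (-(2 * δ)) := by
        rw [← Real.rpow_add hu0, ← Real.rpow_add hu0]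
        congr 2
        rw [hδ]; ring

end

end Pool.Agent.E25B
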