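import Mathlib
import Pool.Agent.E25B.BlockBound
import Pool.Agent.E25B.CutSmall

/-!
# The logarithmic sum of the tail
-/

namespace Pool.Agent.E25B

open Finset Filter Topology Pool.Agent.E25
open scoped Classical

noncomputable section

lemma ts_zz'_pos' (θ : ℝ) (j : ℕ) : 1 ≤ zz' θ j := by
  unfold zz'
  refine Nat.le_floor ?_
  rw [Nat.cast_one]
  refine Real.one_le_exp (Real.rpow_nonneg (Real.log_nonneg ?_) _)
  exact one_le_pow₀ (by norm_num)

lemma ts_zz'_mono {θ : ℝ} (h0 : 0 < θ) : Monotone (zz' θ) := by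
  intro i j hij
  unfold zz'
  apply Nat.floor_mono
  apply Real.exp_le_exp.mpr
  refine Real.rpow_le_rpow (Real.log_nonneg (one_le_pow₀ (by norm_num))) ?_ h0.le
  refine Real.log_le_log (by positivity) ?_
  exact pow_le_pow_right₀ (by norm_num) (by omega)

lemma ts_wj_mono : Monotone wj := by
  intro i j hij
  unfold wj ww
  have := Nat.log_mono_right (b := 2) (show i + 1 + 2 ≤ j + 1 + 2 by omega)
  omega

lemma ts_sj_mono : Monotone sj := by
  intro i j hij
  unfold sj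
  have := Nat.log_mono_right (b := 2) (show i + 3 ≤ j + 3 by omega)
  omega

lemma ts_cut_mono {θ : ℝ} (h0 : 0 < θ) : Monotone (cut θ) := by
  intro i j hij
  unfold cut
  refine Nat.mul_le_mul ?_ (by omega)
  have h1 := ts_wj_mono hij
  have h2 := ts_sj_mono hij
  calc zz' θ i ^ (1300 * wj i * sj i) ≤ zz' θ j ^ (1300 * wj i * sj i) :=
        Nat.pow_le_pow_left (ts_zz'_mono h0 hij) _
    _ ≤ zz' θ j ^ (1300 * wj j * sj j) :=
        Nat.pow_le_pow_right (ts_zz'_pos' θ j) (Nat.mul_le_mul (Nat.mul_le_mul le_rfl h1) h2)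

lemma ts_cut_pos (θ : ℝ) (j : ℕ) : 1 ≤ cut θ j := by
  unfold cut
  exact Nat.one_le_iff_ne_zero.mpr
    (Nat.mul_ne_zero (pow_ne_zero _ (by have := ts_zz'_pos' θ j; omega)) (by omega))

/-- The sum of `1/m` over a part of a dyadic block. -/
lemma ts_block_harm (j : ℕ) (p : ℕ → Prop) [DecidablePred p] :
    ∑ m ∈ Ioc (2 ^ j) (2 ^ (j + 1)) with p m, (1 : ℝ) / m
      ≤ (#{m ∈ Ioc (2 ^ j) (2 ^ (j + 1)) | p m} : ℝ) / 2 ^ j := by
  calc ∑ m ∈ Ioc (2 ^ j) (2 ^ (j + 1)) with p m, (1 : ℝ) / m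
      ≤ ∑ m ∈ Ioc (2 ^ j) (2 ^ (j + 1)) with p m, (1 : ℝ) / 2 ^ j := by
        refine sum_le_sum fun m hm => ?_
        rw [mem_filter, mem_Ioc] at hm
        refine one_div_le_one_div_of_le (by positivity) ?_
        exact_mod_cast hm.1.1.le
    _ = (#{m ∈ Ioc (2 ^ j) (2 ^ (j + 1)) | p m} : ℝ) / 2 ^ j := by
        rw [sum_const, nsmul_eq_mul, mul_one_div]

lemma ts_block_harm_le_one (j : ℕ) (p : ℕ → Prop) [DecidablePred p] :
    ∑ m ∈ Ioc (2 ^ j) (2 ^ (j + 1)) with p m, (1 : ℝ) / m ≤ 1 := by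
  refine (ts_block_harm j p).trans ?_
  rw [div_le_one (by positivity)]
  have h1 : #{m ∈ Ioc (2 ^ j) (2 ^ (j + 1)) | p m} ≤ 2 ^ j := by
    refine (card_filter_le _ _).trans ?_
    rw [Nat.card_Ioc, pow_succ]
    omega
  exact_mod_cast h1

/-- Logarithmic sum over the integers covered by a class of index `≥ h` but not by the first `h` classes.
Types, for `m ∈ (2^j, 2^(j+1)]`, `n i ≤ m`, `m ≡ b i (n i)`, `i ≥ h`:
 (1) `i ∈ X`: `harm_class` gives `≤ (1 + log x) * ∑_{i ∈ X, i ≥ h} 1/n i`;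
 (2) `i ∉ X`, `n i * cut θ j ≤ 2^j`: `block_bound`, summed over `j ≤ log2 x` (and trivially for small `j`);
 (3) `i ∉ X`, `2^j < n i * cut θ j`: then `m ≤ 2^(j+1) < 2 * n i * cut θ j ≤ 2 * n i * cut θ (Nat.log 2 x)`
     (cut is monotone), `harm_class` with `N = 2 * n i * cut` gives `≤ (1 + log (2 cut)) / n i`. -/
theorem logsum_tail {θ α C : ℝ} (h0 : 0 < θ) (h1 : θ < 1) (hα : 0 ≤ α) (hαθ : α + θ < 1) (k : ℕ) (n b : ℕ → ℕ)
    (hmono : StrictMono n) (hpos : ∀ i, 0 < n i) (X : Set ℕ)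
    (hX : Summable (X.indicator fun i => (1 : ℝ) / n i))
    (hgood : ∀ i, i ∉ X → GoodMod θ k (n i))
    (hgrow : ∀ x : ℕ, 2 ≤ x → ∑ i ∈ range (x + 1) with (i ∉ X ∧ n i ≤ x), (1 : ℝ) / n i ≤ C * (Real.log x) ^ α)
    (ε : ℝ) (hε : 0 < ε) :
    ∃ h0 : ℕ, ∀ h ≥ h0, ∀ᶠ x : ℕ in atTop,
      ∑ m ∈ Icc 1 x with ((∃ i, n i ≤ m ∧ m % n i = b i % n i) ∧ ¬ Hit n b (range h) m), (1 : ℝ) / m
        ≤ ε * Real.log x := by
  have hid : ∀ i, i ≤ n i := fun i => hmono.le_apply
  -- choice of the number of initial classes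
  obtain ⟨H1, hH1⟩ : ∃ H1 : ℕ, ∀ h ≥ H1, Cb k * (densInf n b - dens n b (range h)) < ε / 16 := by
    have h2 : Tendsto (fun h : ℕ => Cb k * (densInf n b - dens n b (range h))) atTop (𝓝 0) := by
      have h3 := ((dens_tendsto (n := n) (b := b) hpos).const_sub (densInf n b)).const_mul (Cb k)
      rwa [sub_self, mul_zero] at h3
    exact eventually_atTop.mp (h2.eventually_lt_const (by positivity))
  obtain ⟨H2, hH2⟩ : ∃ H2 : ℕ, ∀ s : Finset ℕ, (∀ i ∈ s, i ∈ X ∧ H2 ≤ i) →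
      ∑ i ∈ s, (1 : ℝ) / n i ≤ ε / 16 := by
    obtain ⟨s, hs⟩ := summable_iff_vanishing_norm.mp hX (ε / 16) (by positivity)
    obtain ⟨N, hN⟩ : ∃ N, s ⊆ range N := s.exists_nat_subset_range
    refine ⟨N, fun t ht => ?_⟩
    have h3 := hs t (by
      rw [Finset.disjoint_left]
      intro i hi his
      have h4 := (ht i hi).2
      have h5 := mem_range.mp (hN his)
      omega)
    have h4 : ∑ i ∈ t, (1 : ℝ) / n i = ∑ i ∈ t, X.indicator (fun i => (1 : ℝ) / n i) i := by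
      refine sum_congr rfl fun i hi => ?_
      rw [Set.indicator_of_mem (ht i hi).1]
    rw [h4]
    exact (le_abs_self _).trans h3.le
  refine ⟨max H1 H2, fun h hh => ?_⟩
  have hhH1 := hH1 h (le_trans (le_max_left _ _) hh)
  have hhH2 : H2 ≤ h := le_trans (le_max_right _ _) hh
  obtain ⟨err, herr, hblock⟩ := block_bound h0 h1 k h n b hmono hpos
  obtain ⟨J, hJ⟩ := eventually_atTop.mp
    ((herr.eventually_lt_const (show (0 : ℝ) < ε / 16 by positivity)).and hblock)
  -- size conditions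
  have hlogt : Tendsto (fun x : ℕ => Real.log x) atTop atTop :=
    Real.tendsto_log_atTop.comp tendsto_natCast_atTop_atTop
  have hcut := (cut_small (C := C) h0 h1 hα hαθ).eventually_lt_const (show (0 : ℝ) < ε / 16 by positivity)
  filter_upwards [hcut, eventually_ge_atTop 2, hlogt.eventually_ge_atTop 1,
    hlogt.eventually_ge_atTop ((2 + ε + J) * (4 / ε))] with x hx1 hx2 hx3 hx4
  have hx0 : (0 : ℝ) < x := by exact_mod_cast (by omega : 0 < x)
  have hL0 : 0 < Real.log x := by linarith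
  set L : ℕ := Nat.log 2 x with hL
  have hxL : x < 2 ^ (L + 1) := Nat.lt_pow_succ_log_self (by norm_num) x
  have hLx : 2 ^ L ≤ x := Nat.pow_log_le_self 2 (by omega)
  have hLlog : (L : ℝ) ≤ 3 / 2 * Real.log x := by
    have h2 : (L : ℝ) * Real.log 2 ≤ Real.log x := by
      rw [← Real.log_pow]
      refine Real.log_le_log (by positivity) ?_
      exact_mod_cast hLx
    have h3 : (2 / 3 : ℝ) ≤ Real.log 2 := by
      have := Real.log_two_gt_d9
      linarith
    have h4 : (0 : ℝ) ≤ L := Nat.cast_nonneg _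
    nlinarith
  -- the four pieces
  set S1 : Finset ℕ := {i ∈ range (x + 1) | (i ∈ X ∧ h ≤ i) ∧ n i ≤ x} with hS1
  obtain ⟨I, hI⟩ : ∃ I : ℕ → Finset ℕ, ∀ j i, i ∈ I j ↔ i < 2 ^ (j + 1) ∧ i ∉ X ∧ n i * cut θ j ≤ 2 ^ j :=
    ⟨fun j => {i ∈ range (2 ^ (j + 1)) | i ∉ X ∧ n i * cut θ j ≤ 2 ^ j}, fun j i => by
      rw [mem_filter, mem_range]⟩
  set S3 : Finset ℕ := {i ∈ range (x + 1) | i ∉ X ∧ n i ≤ x} with hS3
  set A1 : Finset ℕ := S1.biUnion fun i => {m ∈ Icc (n i) x | m % n i = b i % n i} with hA1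
  set A2 : Finset ℕ := (range (L + 1)).biUnion fun j =>
    {m ∈ Ioc (2 ^ j) (2 ^ (j + 1)) | Hit n b (I j) m ∧ ¬ Hit n b (range h) m} with hA2
  set A3 : Finset ℕ := S3.biUnion fun i =>
    {m ∈ Icc (n i) (2 * n i * cut θ L) | m % n i = b i % n i} with hA3
  have hsub : ({m ∈ Icc 1 x | (∃ i, n i ≤ m ∧ m % n i = b i % n i) ∧ ¬ Hit n b (range h) m} : Finset ℕ)
      ⊆ {1} ∪ (A1 ∪ (A2 ∪ A3)) := by
    intro m hm
    rw [mem_filter, mem_Icc] at hm
    obtain ⟨⟨hm1, hmx⟩, ⟨i, him, hmi⟩, hnh⟩ := hm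
    rw [mem_union, mem_union, mem_union, mem_singleton]
    rcases Nat.lt_or_ge m 2 with hm2 | hm2
    · left; omega
    right
    have hih : h ≤ i := by
      by_contra hcon
      exact hnh ⟨i, mem_range.mpr (by omega), hmi⟩
    have hix : n i ≤ x := him.trans hmx
    have hi' := hid i
    by_cases hiX : i ∈ X
    · left
      rw [hA1, mem_biUnion]
      refine ⟨i, ?_, ?_⟩
      · rw [hS1, mem_filter, mem_range]
        exact ⟨by omega, ⟨hiX, hih⟩, hix⟩
      · rw [mem_filter, mem_Icc]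
        exact ⟨⟨him, hmx⟩, hmi⟩
    right
    set j : ℕ := Nat.log 2 (m - 1) with hj
    have hj1 : 2 ^ j < m := by
      have := Nat.pow_log_le_self 2 (show m - 1 ≠ 0 by omega)
      rw [← hj] at this
      omega
    have hj2 : m ≤ 2 ^ (j + 1) := by
      have := Nat.lt_pow_succ_log_self (show 1 < 2 by norm_num) (m - 1)
      rw [← hj] at this
      omega
    have hjL : j ≤ L := Nat.log_mono_right (by omega)
    by_cases hc : n i * cut θ j ≤ 2 ^ j
    · left
      rw [hA2, mem_biUnion]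
      refine ⟨j, mem_range.mpr (by omega), ?_⟩
      rw [mem_filter, mem_Ioc]
      refine ⟨⟨hj1, hj2⟩, ⟨i, ?_, hmi⟩, hnh⟩
      rw [hI]
      refine ⟨?_, hiX, hc⟩
      have h2 : n i * 1 ≤ n i * cut θ j := Nat.mul_le_mul le_rfl (ts_cut_pos θ j)
      have h3 : 2 ^ (j + 1) = 2 * 2 ^ j := by ring
      have h4 : 0 < 2 ^ j := by positivity
      omega
    · right
      rw [hA3, mem_biUnion]
      refine ⟨i, ?_, ?_⟩
      · rw [hS3, mem_filter, mem_range]
        exact ⟨by omega, hiX, hix⟩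
      · rw [mem_filter, mem_Icc]
        refine ⟨⟨him, ?_⟩, hmi⟩
        have h2 : n i * cut θ j ≤ n i * cut θ L := Nat.mul_le_mul le_rfl (ts_cut_mono h0 hjL)
        have h3 : 2 ^ (j + 1) = 2 * 2 ^ j := by ring
        have h4 : 2 * n i * cut θ L = 2 * (n i * cut θ L) := by ring
        omega
  have hstep : ∑ m ∈ Icc 1 x with ((∃ i, n i ≤ m ∧ m % n i = b i % n i) ∧ ¬ Hit n b (range h) m),
      (1 : ℝ) / m ≤ 1 + (∑ m ∈ A1, (1 : ℝ) / m + (∑ m ∈ A2, (1 : ℝ) / m + ∑ m ∈ A3, (1 : ℝ) / m)) := by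
    refine (sum_le_sum_of_subset_of_nonneg hsub fun _ _ _ => by positivity).trans ?_
    have hu : ∀ s t : Finset ℕ, ∑ m ∈ s ∪ t, (1 : ℝ) / m ≤ ∑ m ∈ s, (1 : ℝ) / m + ∑ m ∈ t, (1 : ℝ) / m := by
      intro s t
      have h2 := sum_union_inter (s₁ := s) (s₂ := t) (f := fun m : ℕ => (1 : ℝ) / m)
      have h3 : 0 ≤ ∑ m ∈ s ∩ t, (1 : ℝ) / (m : ℝ) := sum_nonneg fun _ _ => by positivity
      linarith
    have h2 := hu {1} (A1 ∪ (A2 ∪ A3))
    have h3 := hu A1 (A2 ∪ A3)
    have h4 := hu A2 A3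
    have h5 : ∑ m ∈ ({1} : Finset ℕ), (1 : ℝ) / m = 1 := by simp
    linarith
  -- piece 1
  have hp1 : ∑ m ∈ A1, (1 : ℝ) / m ≤ (1 + Real.log x) * (ε / 16) := by
    refine (sum_biUnion_le_sum' _ _ _ (fun _ => by positivity)).trans ?_
    have h2 : ∀ i ∈ S1, ∑ m ∈ Icc (n i) x with m % n i = b i % n i, (1 : ℝ) / m
        ≤ (1 + Real.log x) * (1 / n i) := by
      intro i hi
      rw [hS1, mem_filter] at hi
      have hni : (1 : ℝ) ≤ n i := by exact_mod_cast hpos i
      refine (harm_class (n i) (b i) x (hpos i) hi.2.2).trans ?_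
      rw [mul_one_div]
      have h3 : Real.log ((x : ℝ) / n i) ≤ Real.log x := by
        refine Real.log_le_log (by positivity) ?_
        exact div_le_self hx0.le hni
      gcongr
    refine (sum_le_sum h2).trans ?_
    rw [← mul_sum]
    refine mul_le_mul_of_nonneg_left ?_ (by linarith)
    refine hH2 S1 fun i hi => ?_
    rw [hS1, mem_filter] at hi
    exact ⟨hi.2.1.1, hhH2.trans hi.2.1.2⟩
  -- piece 3
  have hp3 : ∑ m ∈ A3, (1 : ℝ) / m ≤ ε / 16 * Real.log x := by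
    refine (sum_biUnion_le_sum' _ _ _ (fun _ => by positivity)).trans ?_
    have hcutpos : (1 : ℝ) ≤ cut θ L := by exact_mod_cast ts_cut_pos θ L
    have h2 : ∀ i ∈ S3, ∑ m ∈ Icc (n i) (2 * n i * cut θ L) with m % n i = b i % n i, (1 : ℝ) / m
        ≤ (1 + Real.log (2 * cut θ L)) * (1 / n i) := by
      intro i hi
      have hni : (0 : ℝ) < n i := by exact_mod_cast hpos i
      have h3 : n i ≤ 2 * n i * cut θ L := by
        have := ts_cut_pos θ L
        nlinarith [hpos i]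
      refine (harm_class (n i) (b i) _ (hpos i) h3).trans ?_
      rw [mul_one_div]
      have h4 : (((2 * n i * cut θ L : ℕ) : ℝ)) / n i = 2 * cut θ L := by
        push_cast
        field_simp
      rw [h4]
    refine (sum_le_sum h2).trans ?_
    rw [← mul_sum]
    have h3 := hgrow x hx2
    have h4 : 0 ≤ 1 + Real.log (2 * cut θ L) := by
      have := Real.log_nonneg (show (1 : ℝ) ≤ 2 * cut θ L by linarith)
      linarith
    refine (mul_le_mul_of_nonneg_left h3 h4).trans ?_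
    rw [div_lt_iff₀ hL0] at hx1
    exact hx1.le
  -- piece 2
  have hp2 : ∑ m ∈ A2, (1 : ℝ) / m ≤ J + (L + 1) * (ε / 8) := by
    refine (sum_biUnion_le_sum' _ _ _ (fun _ => by positivity)).trans ?_
    have h2 : ∀ j ∈ range (L + 1), ∑ m ∈ Ioc (2 ^ j) (2 ^ (j + 1)) with
        (Hit n b (I j) m ∧ ¬ Hit n b (range h) m), (1 : ℝ) / m
        ≤ (if j < J then (1 : ℝ) else 0) + ε / 8 := by
      intro j _
      split_ifs with hjJ
      · have := ts_block_harm_le_one j (fun m => Hit n b (I j) m ∧ ¬ Hit n b (range h) m)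
        have h3 : (0 : ℝ) < ε / 8 := by positivity
        linarith
      · obtain ⟨h3, h4⟩ := hJ j (by omega)
        have h5 := h4 (I j) (by
          intro t ht
          rw [hI] at ht
          exact ⟨hgood t ht.2.1, ht.2.2⟩)
        refine (ts_block_harm j _).trans ?_
        rw [div_le_iff₀ (by positivity)]
        refine h5.trans ?_
        rw [zero_add, mul_comm]
        refine mul_le_mul_of_nonneg_right ?_ (by positivity)
        linarith
    refine (sum_le_sum h2).trans ?_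
    rw [sum_add_distrib, sum_const, card_range, nsmul_eq_mul]
    have h3 : ∑ j ∈ range (L + 1), (if j < J then (1 : ℝ) else 0) ≤ J := by
      rw [← sum_filter, sum_const, nsmul_eq_mul, mul_one]
      have h4 : #{j ∈ range (L + 1) | j < J} ≤ J := by
        calc #{j ∈ range (L + 1) | j < J} ≤ #(range J) := by
              refine card_le_card fun j hj => ?_
              rw [mem_filter] at hj
              exact mem_range.mpr hj.2
          _ = J := card_range J
      exact_mod_cast h4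
    push_cast
    linarith
  refine hstep.trans ?_
  have h2 : (L : ℝ) * (ε / 8) ≤ 3 / 2 * Real.log x * (ε / 8) :=
    mul_le_mul_of_nonneg_right hLlog (by positivity)
  have h3 : (2 + ε + J) * (4 / ε) * (ε / 4) ≤ Real.log x * (ε / 4) :=
    mul_le_mul_of_nonneg_right hx4 (by positivity)
  have h4 : (2 + ε + J) * (4 / ε) * (ε / 4) = 2 + ε + J := by
    field_simp
  rw [h4] at h3
  nlinarith

end

end Pool.Agent.E25B
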