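import Mathlib
import Pool.Agent.E25.LogDens
import Pool.Agent.E25B.TailSum

/-!
# The logarithmic density exists
-/

namespace Pool.Agent.E25B

open Finset Filter Topology Pool.Agent.E25
open scoped Classical

noncomputable section

/-- A finite union of classes has a natural density. -/
lemma hit_range_natdens (n b : ℕ → ℕ) (hpos : ∀ i, 0 < n i) (h : ℕ) :
    Tendsto (fun x : ℕ => (#{m ∈ Icc 1 x | Hit n b (range h) m} : ℝ) / x) atTop
      (𝓝 (dens n b (range h))) := by
  set P : ℕ := ∏ i ∈ range h, n i with hP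
  have h1 : Tendsto (fun x : ℕ => dens n b (range h) - ((P : ℝ) + 1) / x) atTop
      (𝓝 (dens n b (range h) - 0)) :=
    tendsto_const_nhds.sub (tendsto_const_nhds.div_atTop tendsto_natCast_atTop_atTop)
  have h2 : Tendsto (fun x : ℕ => dens n b (range h) + (P : ℝ) / x) atTop
      (𝓝 (dens n b (range h) + 0)) :=
    tendsto_const_nhds.add (tendsto_const_nhds.div_atTop tendsto_natCast_atTop_atTop)
  rw [sub_zero] at h1
  rw [add_zero] at h2
  refine tendsto_of_tendsto_of_tendsto_of_le_of_le' h1 h2 ?_ ?_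
  · filter_upwards [eventually_gt_atTop 0] with x hx
    have hx0 : (0 : ℝ) < x := by exact_mod_cast hx
    have hc2 := le_count (b := b) hpos (S := range h) x
    have hc2' : (x : ℝ) * dens n b (range h) ≤ (#{m ∈ Icc 1 x | Hit n b (range h) m} : ℝ) + P + 1 := by
      convert hc2 using 4
    rw [le_div_iff₀ hx0, sub_mul, div_mul_cancel₀ _ hx0.ne']
    linarith
  · filter_upwards [eventually_gt_atTop 0] with x hx
    have hx0 : (0 : ℝ) < x := by exact_mod_cast hx
    have hc1 := count_le (b := b) hpos (S := range h) x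
    have hc1' : (#{m ∈ Icc 1 x | Hit n b (range h) m} : ℝ) ≤ x * dens n b (range h) + P := by
      convert hc1 using 3
    rw [div_le_iff₀ hx0, add_mul, div_mul_cancel₀ _ hx0.ne']
    linarith

/-- Logarithmic sums over a finite union of classes. -/
lemma hit_range_logdens (n b : ℕ → ℕ) (hpos : ∀ i, 0 < n i) (h : ℕ) :
    Tendsto (fun x : ℕ => (∑ m ∈ Icc 1 x with Hit n b (range h) m, (1 : ℝ) / m) / Real.log (x : ℝ))
      atTop (𝓝 (dens n b (range h))) := by
  have h1 := logdens_of_natdens {m : ℕ | Hit n b (range h) m} (dens n b (range h)) (by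
    refine (hit_range_natdens n b hpos h).congr fun x => ?_
    congr 3
    ext m
    simp only [mem_filter, Set.mem_ofPred_eq])
  refine h1.congr fun x => ?_
  congr 1
  rw [sum_filter]
  refine sum_congr rfl fun m _ => ?_
  by_cases hm : Hit n b (range h) m
  · rw [if_pos hm, Set.indicator_of_mem (show m ∈ {m : ℕ | Hit n b (range h) m} from hm)]
  · rw [if_neg hm, Set.indicator_of_notMem (show m ∉ {m : ℕ | Hit n b (range h) m} from hm)]

/-- The set of hit integers has logarithmic density `densInf`, under a growth condition.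
(Discards: `X' = X ∪ {i | ¬ sq} ∪ {i | ¬ om}`, summable by `summable_square`, `summable_omega` and
`Summable.comp_injective`; then `logsum_tail` for the upper bound, `le_count`/`logdens_of_natdens` for the
periodic set `Hit n b (range h)`.) -/
theorem hit_logdens {θ α C : ℝ} (h0 : 0 < θ) (h1 : θ < 1) (hα : 0 ≤ α) (hαθ : α + θ < 1) (k : ℕ) (n b : ℕ → ℕ)
    (hmono : StrictMono n) (hpos : ∀ i, 0 < n i) (X : Set ℕ)
    (hX : Summable (X.indicator fun i => (1 : ℝ) / n i))
    (hk : ∀ i, i ∉ X →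
      ((n i).primeFactorsList.filter
        (fun p : ℕ => decide (Real.exp ((Real.log (n i)) ^ θ) < (p : ℝ)))).length ≤ k)
    (hgrow : ∀ x : ℕ, 2 ≤ x → ∑ i ∈ range (x + 1) with (i ∉ X ∧ n i ≤ x), (1 : ℝ) / n i ≤ C * (Real.log x) ^ α) :
    Tendsto (fun x : ℕ =>
      (∑ m ∈ Icc 1 x with (∃ i, n i ≤ m ∧ m % n i = b i % n i), (1 : ℝ) / m) / Real.log (x : ℝ)) atTop
      (𝓝 (densInf n b)) := by
  -- discards
  set A1 : Set ℕ := {i | ∃ c : ℕ, c ^ 2 ∣ n i ∧ Real.exp ((Real.log (n i)) ^ θ / 3) < c} with hA1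
  set A2 : Set ℕ := {i | ww (Nat.log 2 (n i)) < #(n i).primeFactors} with hA2
  obtain ⟨X', hX'def⟩ : ∃ X' : Set ℕ, X' = X ∪ A1 ∪ A2 := ⟨_, rfl⟩
  have hX' : Summable (X'.indicator fun i => (1 : ℝ) / n i) := by
    have hs1 : Summable (A1.indicator fun i => (1 : ℝ) / n i) := by
      refine ((summable_square h0).comp_injective hmono.injective).congr fun i => ?_
      simp only [Function.comp, Set.indicator, hA1, Set.mem_ofPred_eq]
    have hs2 : Summable (A2.indicator fun i => (1 : ℝ) / n i) := by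
      refine (summable_omega.comp_injective hmono.injective).congr fun i => ?_
      simp only [Function.comp, Set.indicator, hA2, Set.mem_ofPred_eq]
    have hnn : ∀ (S : Set ℕ) (i : ℕ), 0 ≤ S.indicator (fun i => (1 : ℝ) / n i) i := fun S i =>
      Set.indicator_nonneg (fun _ _ => by positivity) i
    refine Summable.of_nonneg_of_le (hnn X') ?_ ((hX.add hs1).add hs2)
    intro i
    by_cases hi : i ∈ X'
    · rw [Set.indicator_of_mem hi]
      have e1 := hnn X i
      have e2 := hnn A1 i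
      have e3 := hnn A2 i
      rw [hX'def] at hi
      rcases hi with (hi | hi) | hi
      · have := Set.indicator_of_mem hi (fun i => (1 : ℝ) / n i)
        linarith
      · have := Set.indicator_of_mem hi (fun i => (1 : ℝ) / n i)
        linarith
      · have := Set.indicator_of_mem hi (fun i => (1 : ℝ) / n i)
        linarith
    · rw [Set.indicator_of_notMem hi]
      exact add_nonneg (add_nonneg (hnn _ _) (hnn _ _)) (hnn _ _)
  have hgood : ∀ i, i ∉ X' → GoodMod θ k (n i) := by
    intro i hi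
    rw [hX'def] at hi
    refine ⟨hk i fun h => hi (Or.inl (Or.inl h)), fun h => hi (Or.inl (Or.inr h)), ?_⟩
    exact not_lt.1 fun h => hi (Or.inr h)
  have hgrow' : ∀ x : ℕ, 2 ≤ x →
      ∑ i ∈ range (x + 1) with (i ∉ X' ∧ n i ≤ x), (1 : ℝ) / n i ≤ C * (Real.log x) ^ α := by
    intro x hx
    refine le_trans (sum_le_sum_of_subset_of_nonneg ?_ fun i _ _ => by positivity) (hgrow x hx)
    intro i hi
    rw [mem_filter] at hi ⊢
    exact ⟨hi.1, fun h => hi.2.1 (by rw [hX'def]; exact Or.inl (Or.inl h)), hi.2.2⟩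
  have hlog : Tendsto (fun x : ℕ => Real.log (x : ℝ)) atTop atTop :=
    Real.tendsto_log_atTop.comp tendsto_natCast_atTop_atTop
  set S : ℕ → ℝ := fun x => ∑ m ∈ Icc 1 x with (∃ i, n i ≤ m ∧ m % n i = b i % n i), (1 : ℝ) / m with hS
  have hR := fun h : ℕ => hit_range_logdens n b hpos h
  rw [tendsto_order]
  constructor
  · intro a ha
    obtain ⟨h, hh⟩ := ((dens_tendsto (n := n) (b := b) hpos).eventually (lt_mem_nhds ha)).exists
    set P : ℕ := ∏ i ∈ range h, n i with hP
    have hPpos : 0 < P := prod_pos fun i _ => hpos i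
    have hlim : Tendsto (fun x : ℕ =>
        (∑ m ∈ Icc 1 x with Hit n b (range h) m, (1 : ℝ) / m) / Real.log (x : ℝ)
          - (∑ m ∈ Icc 1 P, (1 : ℝ) / m) / Real.log (x : ℝ)) atTop (𝓝 (dens n b (range h) - 0)) :=
      (hR h).sub (tendsto_const_nhds.div_atTop hlog)
    rw [sub_zero] at hlim
    filter_upwards [hlim.eventually (lt_mem_nhds hh), hlog.eventually_gt_atTop 0] with x hx hx0
    refine hx.trans_le ?_
    rw [← sub_div]
    refine div_le_div_of_nonneg_right ?_ hx0.le
    rw [sub_le_iff_le_add]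
    calc ∑ m ∈ Icc 1 x with Hit n b (range h) m, (1 : ℝ) / m
        ≤ ∑ m ∈ {m ∈ Icc 1 x | ∃ i, n i ≤ m ∧ m % n i = b i % n i} ∪ Icc 1 P, (1 : ℝ) / m := by
          refine sum_le_sum_of_subset_of_nonneg ?_ fun m _ _ => by positivity
          intro m hm
          rw [mem_filter] at hm
          obtain ⟨hm1, i, hi, hm2⟩ := hm
          rw [mem_union]
          by_cases hmP : m ≤ P
          · right; exact mem_Icc.mpr ⟨(mem_Icc.mp hm1).1, hmP⟩
          · left
            refine mem_filter.mpr ⟨hm1, i, ?_, hm2⟩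
            have : n i ≤ P := Nat.le_of_dvd hPpos (dvd_prod_of_mem n hi)
            omega
      _ ≤ S x + ∑ m ∈ Icc 1 P, (1 : ℝ) / m := by
          rw [hS]
          refine (le_add_of_nonneg_right (sum_nonneg fun m _ => by positivity)).trans_eq
            (sum_union_inter (s₁ := {m ∈ Icc 1 x | ∃ i, n i ≤ m ∧ m % n i = b i % n i})
              (s₂ := Icc 1 P) (f := fun m : ℕ => (1 : ℝ) / m))
  · intro a ha
    set ε : ℝ := (a - densInf n b) / 2 with hε
    have hε0 : 0 < ε := by rw [hε]; linarith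
    obtain ⟨h₀, hh₀⟩ := logsum_tail h0 h1 hα hαθ k n b hmono hpos X' hX' hgood hgrow' ε hε0
    have htail := hh₀ h₀ le_rfl
    have hd := dens_le_inf (b := b) hpos h₀
    have hlt : dens n b (range h₀) < a - ε := by
      have : a - ε = densInf n b + ε := by rw [hε]; ring
      linarith
    filter_upwards [htail, (hR h₀).eventually (gt_mem_nhds hlt), hlog.eventually_gt_atTop 0]
      with x hx1 hx2 hx0
    rw [div_lt_iff₀ hx0] at hx2 ⊢
    have hle : S x ≤ (∑ m ∈ Icc 1 x with Hit n b (range h₀) m, (1 : ℝ) / m)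
        + ∑ m ∈ Icc 1 x with ((∃ i, n i ≤ m ∧ m % n i = b i % n i) ∧ ¬ Hit n b (range h₀) m), (1 : ℝ) / m := by
      rw [hS]
      calc ∑ m ∈ Icc 1 x with (∃ i, n i ≤ m ∧ m % n i = b i % n i), (1 : ℝ) / m
          ≤ ∑ m ∈ {m ∈ Icc 1 x | Hit n b (range h₀) m}
              ∪ {m ∈ Icc 1 x | (∃ i, n i ≤ m ∧ m % n i = b i % n i) ∧ ¬ Hit n b (range h₀) m},
              (1 : ℝ) / m := by
            refine sum_le_sum_of_subset_of_nonneg ?_ fun m _ _ => by positivity
            intro m hm
            rw [mem_filter] at hm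
            rw [mem_union, mem_filter, mem_filter]
            by_cases hH : Hit n b (range h₀) m
            · exact Or.inl ⟨hm.1, hH⟩
            · exact Or.inr ⟨hm.1, hm.2, hH⟩
        _ ≤ _ := by
            refine (le_add_of_nonneg_right (sum_nonneg fun m _ => by positivity)).trans_eq
              (sum_union_inter (s₁ := {m ∈ Icc 1 x | Hit n b (range h₀) m})
                (s₂ := {m ∈ Icc 1 x | (∃ i, n i ≤ m ∧ m % n i = b i % n i) ∧ ¬ Hit n b (range h₀) m})
                (f := fun m : ℕ => (1 : ℝ) / m))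
    have : (a - ε) * Real.log x + ε * Real.log x = a * Real.log x := by ring
    linarith

/-- The growth condition holds automatically for `θ < 1/2` (by `class_sum`). -/
theorem growth {θ : ℝ} (h0 : 0 < θ) (h1 : θ < 1 / 2) (k : ℕ) (n : ℕ → ℕ) (hmono : StrictMono n)
    (hpos : ∀ i, 0 < n i) (X : Set ℕ)
    (hk : ∀ i, i ∉ X →
      ((n i).primeFactorsList.filter
        (fun p : ℕ => decide (Real.exp ((Real.log (n i)) ^ θ) < (p : ℝ)))).length ≤ k) :
    ∃ α C : ℝ, 0 ≤ α ∧ α + θ < 1 ∧
      ∀ x : ℕ, 2 ≤ x → ∑ i ∈ range (x + 1) with (i ∉ X ∧ n i ≤ x), (1 : ℝ) / n i ≤ C * (Real.log x) ^ α := by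
  obtain ⟨C, hC, hC2⟩ := class_sum (θ := θ) (α := 1 / 2) h0 (by linarith) h1 k
  refine ⟨1 / 2, C, by norm_num, by linarith, fun x hx => ?_⟩
  refine le_trans ?_ (hC2 x hx)
  rw [← sum_image (f := fun m : ℕ => (1 : ℝ) / m) (g := n) (s := {i ∈ range (x + 1) | i ∉ X ∧ n i ≤ x})
    (fun i _ j _ hij => hmono.injective hij)]
  refine sum_le_sum_of_subset_of_nonneg ?_ fun m _ _ => by positivity
  intro m hm
  rw [mem_image] at hm
  obtain ⟨i, hi, rfl⟩ := hm
  rw [mem_filter] at hi ⊢
  exact ⟨mem_Icc.2 ⟨hpos i, hi.2.2⟩, hk i hi.2.1⟩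

end

end Pool.Agent.E25B
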