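import Mathlib
import Pool.Agent.E25B.TailSum

/-!
# The near-diagonal moduli, bounded by coarser classes

`r i` is a divisor of `n i` such that `n i / r i` is `exp ((log (n i)) ^ θ)`-smooth.  The near-diagonal part of the
covered set is bounded by the sum of `1 / r` over the distinct classes `b i mod r i`.
-/

namespace Pool.Agent.E25B

open Finset Filter Topology Pool.Agent.E25
open scoped Classical

noncomputable section

/-- In a good modulus a prime power `p ^ e`, `e ≥ 2`, is below the level. -/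
lemma pow_le_zz'_of_good {θ : ℝ} (h0 : 0 < θ) {k m j p : ℕ} (hm0 : 0 < m) (hg : GoodMod θ k m)
    (hmj : m ≤ 2 ^ (j + 1)) (hp : p.Prime) (he : 2 ≤ m.factorization p) :
    p ^ m.factorization p ≤ zz' θ j := by
  set e := m.factorization p with hedef
  have hpe : p ^ e ∣ m := Nat.ordProj_dvd m p
  have h2 : (p ^ (e / 2)) ^ 2 ∣ m := by
    rw [← pow_mul]
    exact (pow_dvd_pow p (by omega)).trans hpe
  have h3 : ((p ^ (e / 2) : ℕ) : ℝ) ≤ Real.exp ((Real.log m) ^ θ / 3) := by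
    by_contra h4
    push Not at h4
    exact hg.sq ⟨_, h2, h4⟩
  refine le_zz' h0 hm0 hmj ?_
  have h5 : ((p ^ e : ℕ) : ℝ) ≤ ((p ^ (e / 2) : ℕ) : ℝ) ^ 3 := by
    have : p ^ e ≤ (p ^ (e / 2)) ^ 3 := by
      rw [← pow_mul]
      exact Nat.pow_le_pow_right hp.pos (by omega)
    exact_mod_cast this
  refine h5.trans ?_
  have h6 : Real.exp ((Real.log m) ^ θ) = Real.exp ((Real.log m) ^ θ / 3) ^ 3 := by
    rw [← Real.exp_nat_mul]
    congr 1
    push_cast
    ring
  rw [h6]
  exact pow_le_pow_left₀ (Nat.cast_nonneg _) h3 3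

/-- The cofactor of a good modulus is at most `z ^ w`. -/
lemma cofactor_le {θ : ℝ} (h0 : 0 < θ) {k m r j : ℕ} (hm0 : 0 < m) (hg : GoodMod θ k m)
    (hmj : m ≤ 2 ^ (j + 1)) (hr : r ∣ m)
    (hs : ∀ p : ℕ, p.Prime → p ∣ m / r → (p : ℝ) ≤ Real.exp ((Real.log m) ^ θ)) :
    m / r ≤ zz' θ j ^ wj j := by
  have hr0 : 0 < r := Nat.pos_of_dvd_of_pos hr hm0
  have hd0 : 0 < m / r := Nat.div_pos (Nat.le_of_dvd hm0 hr) hr0
  have hdm : m / r ∣ m := Nat.div_dvd_of_dvd hr
  have h1 : m / r = ∏ p ∈ (m / r).primeFactors, p ^ (m / r).factorization p :=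
    (Nat.prod_factorization_pow_eq_self hd0.ne').symm
  have h2 : ∀ p ∈ (m / r).primeFactors, p ^ (m / r).factorization p ≤ zz' θ j := by
    intro p hp
    have hpp := Nat.prime_of_mem_primeFactors hp
    have hpd := Nat.dvd_of_mem_primeFactors hp
    have hle : (m / r).factorization p ≤ m.factorization p :=
      (Nat.factorization_le_iff_dvd hd0.ne' hm0.ne').2 hdm p
    refine (Nat.pow_le_pow_right hpp.pos hle).trans ?_
    rcases Nat.lt_or_ge (m.factorization p) 2 with h3 | h3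
    · refine le_trans ?_ (le_zz' h0 hm0 hmj (hs p hpp hpd))
      calc p ^ m.factorization p ≤ p ^ 1 := Nat.pow_le_pow_right hpp.pos (by omega)
        _ = p := pow_one p
    · exact pow_le_zz'_of_good h0 hm0 hg hmj hpp h3
  have h3 : #(m / r).primeFactors ≤ wj j := by
    refine (card_le_card (Nat.primeFactors_mono hdm hm0.ne')).trans (hg.om.trans (ww_mono ?_))
    have h2 := Nat.log_mono_right (b := 2) hmj
    rwa [Nat.log_pow (by norm_num)] at h2
  calc m / r = ∏ p ∈ (m / r).primeFactors, p ^ (m / r).factorization p := h1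
    _ ≤ ∏ p ∈ (m / r).primeFactors, zz' θ j := prod_le_prod' h2
    _ = zz' θ j ^ #(m / r).primeFactors := prod_const _
    _ ≤ zz' θ j ^ wj j := Nat.pow_le_pow_right (ts_zz'_pos' θ j) h3

lemma pow_wj_le_cut (θ : ℝ) (j : ℕ) : zz' θ j ^ wj j ≤ cut θ j := by
  unfold cut
  have h1 : zz' θ j ^ wj j ≤ zz' θ j ^ (1300 * wj j * sj j) := by
    refine Nat.pow_le_pow_right (ts_zz'_pos' θ j) ?_
    have h2 : 1 ≤ sj j := by unfold sj; omega
    nlinarith [one_le_wj j]
  nlinarith [Nat.zero_le (zz' θ j ^ (1300 * wj j * sj j))]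

/-- Logarithmic sum over the integers covered by a class of index `≥ h` but not by the first `h` classes,
the near-diagonal part being bounded by coarser classes. -/
theorem logsum_tail_cl {θ α C : ℝ} (h0 : 0 < θ) (h1 : θ < 1) (hα : 0 ≤ α) (hαθ : α + θ < 1) (k : ℕ) (n b : ℕ → ℕ)
    (hmono : StrictMono n) (hpos : ∀ i, 0 < n i) (X : Set ℕ)
    (hX : Summable (X.indicator fun i => (1 : ℝ) / n i))
    (hgood : ∀ i, i ∉ X → GoodMod θ k (n i)) (r : ℕ → ℕ) (hr : ∀ i, i ∉ X → r i ∣ n i)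
    (hs : ∀ i, i ∉ X → ∀ p : ℕ, p.Prime → p ∣ n i / r i → (p : ℝ) ≤ Real.exp ((Real.log (n i)) ^ θ))
    (hgrow : ∀ x : ℕ, 2 ≤ x → ∑ c ∈ ({i ∈ range (x + 1) | i ∉ X ∧ n i ≤ x}).image (fun i => (r i, b i % r i)),
      (1 : ℝ) / (c.1 : ℝ) ≤ C * (Real.log x) ^ α)
    (ε : ℝ) (hε : 0 < ε) :
    ∃ h0 : ℕ, ∀ h ≥ h0, ∀ᶠ x : ℕ in atTop,
      ∑ m ∈ Icc 1 x with ((∃ i, n i ≤ m ∧ m % n i = b i % n i) ∧ ¬ Hit n b (range h) m), (1 : ℝ) / m
        ≤ ε * Real.log x := by
  have hid : ∀ i, i ≤ n i := fun i => hmono.le_apply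
  -- choice of the number of initial classes
  obtain ⟨H1, hH1⟩ : ∃ H1 : ℕ, ∀ h ≥ H1, Cb k * (densInf n b - dens n b (range h)) < ε / 16 := by
    have h2 : Tendsto (fun h : ℕ => Cb k * (densInf n b - dens n b (range h))) atTop (𝓝 0) := by
      have h3 := ((dens_tendsto (n := n) (b := b) hpos).const_sub (densInf n b)).const_mul (Cb k)
      rwa [sub_self, mul_zero] at h3
    exact eventually_atTop.mp (h2.eventually_lt_const (by positivity))
  obtain ⟨H2, hH2⟩ : ∃ H2 : ℕ, ∀ s : Finset ℕ, (∀ i ∈ s, i ∈ X ∧ H2 ≤ i) →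
      ∑ i ∈ s, (1 : ℝ) / n i ≤ ε / 16 := by
    obtain ⟨s, hs⟩ := summable_iff_vanishing_norm.mp hX (ε / 16) (by positivity)
    obtain ⟨N, hN⟩ : ∃ N, s ⊆ range N := s.exists_nat_subset_range
    refine ⟨N, fun t ht => ?_⟩
    have h3 := hs t (by
      rw [Finset.disjoint_left]
      intro i hi his
      have h4 := (ht i hi).2
      have h5 := mem_range.mp (hN his)
      omega)
    have h4 : ∑ i ∈ t, (1 : ℝ) / n i = ∑ i ∈ t, X.indicator (fun i => (1 : ℝ) / n i) i := by
      refine sum_congr rfl fun i hi => ?_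
      rw [Set.indicator_of_mem (ht i hi).1]
    rw [h4]
    exact (le_abs_self _).trans h3.le
  refine ⟨max H1 H2, fun h hh => ?_⟩
  have hhH1 := hH1 h (le_trans (le_max_left _ _) hh)
  have hhH2 : H2 ≤ h := le_trans (le_max_right _ _) hh
  obtain ⟨err, herr, hblock⟩ := block_bound h0 h1 k h n b hmono hpos
  obtain ⟨J, hJ⟩ := eventually_atTop.mp
    ((herr.eventually_lt_const (show (0 : ℝ) < ε / 16 by positivity)).and hblock)
  -- size conditions
  have hlogt : Tendsto (fun x : ℕ => Real.log x) atTop atTop :=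
    Real.tendsto_log_atTop.comp tendsto_natCast_atTop_atTop
  have hcut := (cut_small (C := 2 * C) h0 h1 hα hαθ).eventually_lt_const (show (0 : ℝ) < ε / 16 by positivity)
  filter_upwards [hcut, eventually_ge_atTop 2, hlogt.eventually_ge_atTop 1,
    hlogt.eventually_ge_atTop ((2 + ε + J) * (4 / ε))] with x hx1 hx2 hx3 hx4
  have hx0 : (0 : ℝ) < x := by exact_mod_cast (by omega : 0 < x)
  have hL0 : 0 < Real.log x := by linarith
  set L : ℕ := Nat.log 2 x with hL
  have hxL : x < 2 ^ (L + 1) := Nat.lt_pow_succ_log_self (by norm_num) x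
  have hLx : 2 ^ L ≤ x := Nat.pow_log_le_self 2 (by omega)
  have hLlog : (L : ℝ) ≤ 3 / 2 * Real.log x := by
    have h2 : (L : ℝ) * Real.log 2 ≤ Real.log x := by
      rw [← Real.log_pow]
      refine Real.log_le_log (by positivity) ?_
      exact_mod_cast hLx
    have h3 : (2 / 3 : ℝ) ≤ Real.log 2 := by
      have := Real.log_two_gt_d9
      linarith
    have h4 : (0 : ℝ) ≤ L := Nat.cast_nonneg _
    nlinarith
  -- the four pieces
  set S1 : Finset ℕ := {i ∈ range (x + 1) | (i ∈ X ∧ h ≤ i) ∧ n i ≤ x} with hS1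
  obtain ⟨I, hI⟩ : ∃ I : ℕ → Finset ℕ, ∀ j i, i ∈ I j ↔ i < 2 ^ (j + 1) ∧ i ∉ X ∧ n i * cut θ j ≤ 2 ^ j :=
    ⟨fun j => {i ∈ range (2 ^ (j + 1)) | i ∉ X ∧ n i * cut θ j ≤ 2 ^ j}, fun j i => by
      rw [mem_filter, mem_range]⟩
  set S3 : Finset (ℕ × ℕ) := ({i ∈ range (x + 1) | i ∉ X ∧ n i ≤ x}).image (fun i => (r i, b i % r i)) with hS3
  set A1 : Finset ℕ := S1.biUnion fun i => {m ∈ Icc (n i) x | m % n i = b i % n i} with hA1
  set A2 : Finset ℕ := (range (L + 1)).biUnion fun j =>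
    {m ∈ Ioc (2 ^ j) (2 ^ (j + 1)) | Hit n b (I j) m ∧ ¬ Hit n b (range h) m} with hA2
  set A3 : Finset ℕ := S3.biUnion fun c =>
    {m ∈ Icc c.1 (2 * c.1 * cut θ L ^ 2) | m % c.1 = c.2 % c.1} with hA3
  have hsub : ({m ∈ Icc 1 x | (∃ i, n i ≤ m ∧ m % n i = b i % n i) ∧ ¬ Hit n b (range h) m} : Finset ℕ)
      ⊆ {1} ∪ (A1 ∪ (A2 ∪ A3)) := by
    intro m hm
    rw [mem_filter, mem_Icc] at hm
    obtain ⟨⟨hm1, hmx⟩, ⟨i, him, hmi⟩, hnh⟩ := hm
    rw [mem_union, mem_union, mem_union, mem_singleton]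
    rcases Nat.lt_or_ge m 2 with hm2 | hm2
    · left; omega
    right
    have hih : h ≤ i := by
      by_contra hcon
      exact hnh ⟨i, mem_range.mpr (by omega), hmi⟩
    have hix : n i ≤ x := him.trans hmx
    have hi' := hid i
    by_cases hiX : i ∈ X
    · left
      rw [hA1, mem_biUnion]
      refine ⟨i, ?_, ?_⟩
      · rw [hS1, mem_filter, mem_range]
        exact ⟨by omega, ⟨hiX, hih⟩, hix⟩
      · rw [mem_filter, mem_Icc]
        exact ⟨⟨him, hmx⟩, hmi⟩
    right
    set j : ℕ := Nat.log 2 (m - 1) with hj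
    have hj1 : 2 ^ j < m := by
      have := Nat.pow_log_le_self 2 (show m - 1 ≠ 0 by omega)
      rw [← hj] at this
      omega
    have hj2 : m ≤ 2 ^ (j + 1) := by
      have := Nat.lt_pow_succ_log_self (show 1 < 2 by norm_num) (m - 1)
      rw [← hj] at this
      omega
    have hjL : j ≤ L := Nat.log_mono_right (by omega)
    by_cases hc : n i * cut θ j ≤ 2 ^ j
    · left
      rw [hA2, mem_biUnion]
      refine ⟨j, mem_range.mpr (by omega), ?_⟩
      rw [mem_filter, mem_Ioc]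
      refine ⟨⟨hj1, hj2⟩, ⟨i, ?_, hmi⟩, hnh⟩
      rw [hI]
      refine ⟨?_, hiX, hc⟩
      have h2 : n i * 1 ≤ n i * cut θ j := Nat.mul_le_mul le_rfl (ts_cut_pos θ j)
      have h3 : 2 ^ (j + 1) = 2 * 2 ^ j := by ring
      have h4 : 0 < 2 ^ j := by positivity
      omega
    · right
      have hri := hr i hiX
      have hle : r i ≤ n i := Nat.le_of_dvd (hpos i) hri
      rw [hA3, mem_biUnion]
      refine ⟨(r i, b i % r i), ?_, ?_⟩
      · rw [hS3]
        refine mem_image_of_mem _ ?_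
        rw [mem_filter, mem_range]
        exact ⟨by omega, hiX, hix⟩
      · rw [mem_filter, mem_Icc]
        refine ⟨⟨hle.trans him, ?_⟩, ?_⟩
        · have hcof : n i / r i ≤ cut θ j :=
            (cofactor_le h0 (hpos i) (hgood i hiX) (him.trans hj2) hri (hs i hiX)).trans (pow_wj_le_cut θ j)
          have h5 : n i = r i * (n i / r i) := (Nat.mul_div_cancel' hri).symm
          have h6 : n i ≤ r i * cut θ L := by
            rw [h5]
            exact Nat.mul_le_mul le_rfl (hcof.trans (ts_cut_mono h0 hjL))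
          have h2 : n i * cut θ j ≤ n i * cut θ L := Nat.mul_le_mul le_rfl (ts_cut_mono h0 hjL)
          have h7 : n i * cut θ L ≤ r i * cut θ L * cut θ L := Nat.mul_le_mul h6 le_rfl
          have h3 : 2 ^ (j + 1) = 2 * 2 ^ j := by ring
          have h4 : 2 * r i * cut θ L ^ 2 = 2 * (r i * cut θ L * cut θ L) := by ring
          show m ≤ 2 * r i * cut θ L ^ 2
          omega
        · show m % r i = b i % r i % r i
          rw [Nat.mod_mod, ← Nat.mod_mod_of_dvd m hri, hmi, Nat.mod_mod_of_dvd _ hri]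
  have hstep : ∑ m ∈ Icc 1 x with ((∃ i, n i ≤ m ∧ m % n i = b i % n i) ∧ ¬ Hit n b (range h) m),
      (1 : ℝ) / m ≤ 1 + (∑ m ∈ A1, (1 : ℝ) / m + (∑ m ∈ A2, (1 : ℝ) / m + ∑ m ∈ A3, (1 : ℝ) / m)) := by
    refine (sum_le_sum_of_subset_of_nonneg hsub fun _ _ _ => by positivity).trans ?_
    have hu : ∀ s t : Finset ℕ, ∑ m ∈ s ∪ t, (1 : ℝ) / m ≤ ∑ m ∈ s, (1 : ℝ) / m + ∑ m ∈ t, (1 : ℝ) / m := by
      intro s t
      have h2 := sum_union_inter (s₁ := s) (s₂ := t) (f := fun m : ℕ => (1 : ℝ) / m)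
      have h3 : 0 ≤ ∑ m ∈ s ∩ t, (1 : ℝ) / (m : ℝ) := sum_nonneg fun _ _ => by positivity
      linarith
    have h2 := hu {1} (A1 ∪ (A2 ∪ A3))
    have h3 := hu A1 (A2 ∪ A3)
    have h4 := hu A2 A3
    have h5 : ∑ m ∈ ({1} : Finset ℕ), (1 : ℝ) / m = 1 := by simp
    linarith
  -- piece 1
  have hp1 : ∑ m ∈ A1, (1 : ℝ) / m ≤ (1 + Real.log x) * (ε / 16) := by
    refine (sum_biUnion_le_sum' _ _ _ (fun _ => by positivity)).trans ?_
    have h2 : ∀ i ∈ S1, ∑ m ∈ Icc (n i) x with m % n i = b i % n i, (1 : ℝ) / m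
        ≤ (1 + Real.log x) * (1 / n i) := by
      intro i hi
      rw [hS1, mem_filter] at hi
      have hni : (1 : ℝ) ≤ n i := by exact_mod_cast hpos i
      refine (harm_class (n i) (b i) x (hpos i) hi.2.2).trans ?_
      rw [mul_one_div]
      have h3 : Real.log ((x : ℝ) / n i) ≤ Real.log x := by
        refine Real.log_le_log (by positivity) ?_
        exact div_le_self hx0.le hni
      gcongr
    refine (sum_le_sum h2).trans ?_
    rw [← mul_sum]
    refine mul_le_mul_of_nonneg_left ?_ (by linarith)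
    refine hH2 S1 fun i hi => ?_
    rw [hS1, mem_filter] at hi
    exact ⟨hi.2.1.1, hhH2.trans hi.2.1.2⟩
  -- piece 3
  have hp3 : ∑ m ∈ A3, (1 : ℝ) / m ≤ ε / 16 * Real.log x := by
    refine (sum_biUnion_le_sum' _ _ _ (fun _ => by positivity)).trans ?_
    have hcutpos : (1 : ℝ) ≤ cut θ L := by exact_mod_cast ts_cut_pos θ L
    have h2 : ∀ c ∈ S3, ∑ m ∈ Icc c.1 (2 * c.1 * cut θ L ^ 2) with m % c.1 = c.2 % c.1, (1 : ℝ) / m
        ≤ (2 * (1 + Real.log (2 * cut θ L))) * (1 / (c.1 : ℝ)) := by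
      intro c hc
      have hc0 : 0 < c.1 := by
        rw [hS3, mem_image] at hc
        obtain ⟨i, hi, rfl⟩ := hc
        rw [mem_filter] at hi
        exact Nat.pos_of_dvd_of_pos (hr i hi.2.1) (hpos i)
      have hni : (0 : ℝ) < c.1 := by exact_mod_cast hc0
      have h3 : c.1 ≤ 2 * c.1 * cut θ L ^ 2 := by
        have h5 : 1 ≤ cut θ L ^ 2 := Nat.one_le_pow _ _ (ts_cut_pos θ L)
        nlinarith
      refine (harm_class c.1 c.2 _ hc0 h3).trans ?_
      rw [mul_one_div]
      have h4 : (((2 * c.1 * cut θ L ^ 2 : ℕ) : ℝ)) / c.1 = 2 * (cut θ L : ℝ) ^ 2 := by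
        push_cast
        field_simp
      rw [h4]
      have h5 : Real.log (2 * (cut θ L : ℝ) ^ 2) ≤ 2 * Real.log (2 * cut θ L) := by
        rw [show 2 * Real.log (2 * (cut θ L : ℝ)) = Real.log ((2 * (cut θ L : ℝ)) ^ 2) by
          rw [Real.log_pow]; norm_num]
        refine Real.log_le_log (by positivity) ?_
        nlinarith [sq_nonneg (cut θ L : ℝ)]
      have h6 : 1 + Real.log (2 * (cut θ L : ℝ) ^ 2) ≤ 2 * (1 + Real.log (2 * cut θ L)) := by linarith
      gcongr
    refine (sum_le_sum h2).trans ?_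
    rw [← mul_sum]
    have h3 := hgrow x hx2
    have h4 : 0 ≤ 1 + Real.log (2 * cut θ L) := by
      have := Real.log_nonneg (show (1 : ℝ) ≤ 2 * cut θ L by linarith)
      linarith
    refine (mul_le_mul_of_nonneg_left h3 (by positivity)).trans ?_
    rw [div_lt_iff₀ hL0] at hx1
    refine le_trans (le_of_eq ?_) hx1.le
    ring
  -- piece 2
  have hp2 : ∑ m ∈ A2, (1 : ℝ) / m ≤ J + (L + 1) * (ε / 8) := by
    refine (sum_biUnion_le_sum' _ _ _ (fun _ => by positivity)).trans ?_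
    have h2 : ∀ j ∈ range (L + 1), ∑ m ∈ Ioc (2 ^ j) (2 ^ (j + 1)) with
        (Hit n b (I j) m ∧ ¬ Hit n b (range h) m), (1 : ℝ) / m
        ≤ (if j < J then (1 : ℝ) else 0) + ε / 8 := by
      intro j _
      split_ifs with hjJ
      · have := ts_block_harm_le_one j (fun m => Hit n b (I j) m ∧ ¬ Hit n b (range h) m)
        have h3 : (0 : ℝ) < ε / 8 := by positivity
        linarith
      · obtain ⟨h3, h4⟩ := hJ j (by omega)
        have h5 := h4 (I j) (by
          intro t ht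
          rw [hI] at ht
          exact ⟨hgood t ht.2.1, ht.2.2⟩)
        refine (ts_block_harm j _).trans ?_
        rw [div_le_iff₀ (by positivity)]
        refine h5.trans ?_
        rw [zero_add, mul_comm]
        refine mul_le_mul_of_nonneg_right ?_ (by positivity)
        linarith
    refine (sum_le_sum h2).trans ?_
    rw [sum_add_distrib, sum_const, card_range, nsmul_eq_mul]
    have h3 : ∑ j ∈ range (L + 1), (if j < J then (1 : ℝ) else 0) ≤ J := by
      rw [← sum_filter, sum_const, nsmul_eq_mul, mul_one]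
      have h4 : #{j ∈ range (L + 1) | j < J} ≤ J := by
        calc #{j ∈ range (L + 1) | j < J} ≤ #(range J) := by
              refine card_le_card fun j hj => ?_
              rw [mem_filter] at hj
              exact mem_range.mpr hj.2
          _ = J := card_range J
      exact_mod_cast h4
    push_cast
    linarith
  refine hstep.trans ?_
  have h2 : (L : ℝ) * (ε / 8) ≤ 3 / 2 * Real.log x * (ε / 8) :=
    mul_le_mul_of_nonneg_right hLlog (by positivity)
  have h3 : (2 + ε + J) * (4 / ε) * (ε / 4) ≤ Real.log x * (ε / 4) :=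
    mul_le_mul_of_nonneg_right hx4 (by positivity)
  have h4 : (2 + ε + J) * (4 / ε) * (ε / 4) = 2 + ε + J := by
    field_simp
  rw [h4] at h3
  nlinarith

end

end Pool.Agent.E25B
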