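import Mathlib
import Pool.Agent.E25B.Final
import Pool.Agent.E25B.TailClasses

/-!
# The logarithmic density exists: version with coarser classes near the diagonal
-/

namespace Pool.Agent.E25B

open Finset Filter Topology Pool.Agent.E25 Pool.Agent.E456
open scoped Classical

noncomputable section

/-- The set of hit integers has logarithmic density `densInf`; growth condition on coarser classes. -/
theorem hit_logdens_cl {θ α C : ℝ} (h0 : 0 < θ) (h1 : θ < 1) (hα : 0 ≤ α) (hαθ : α + θ < 1) (k : ℕ) (n b : ℕ → ℕ)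
    (hmono : StrictMono n) (hpos : ∀ i, 0 < n i) (X : Set ℕ)
    (hX : Summable (X.indicator fun i => (1 : ℝ) / n i))
    (hk : ∀ i, i ∉ X →
      ((n i).primeFactorsList.filter
        (fun p : ℕ => decide (Real.exp ((Real.log (n i)) ^ θ) < (p : ℝ)))).length ≤ k)
    (r : ℕ → ℕ) (hr : ∀ i, i ∉ X → r i ∣ n i)
    (hs : ∀ i, i ∉ X → ∀ p : ℕ, p.Prime → p ∣ n i / r i → (p : ℝ) ≤ Real.exp ((Real.log (n i)) ^ θ))
    (hgrow : ∀ x : ℕ, 2 ≤ x → ∑ c ∈ ({i ∈ range (x + 1) | i ∉ X ∧ n i ≤ x}).image (fun i => (r i, b i % r i)),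
      (1 : ℝ) / (c.1 : ℝ) ≤ C * (Real.log x) ^ α) :
    Tendsto (fun x : ℕ =>
      (∑ m ∈ Icc 1 x with (∃ i, n i ≤ m ∧ m % n i = b i % n i), (1 : ℝ) / m) / Real.log (x : ℝ)) atTop
      (𝓝 (densInf n b)) := by
  -- discards
  set A1 : Set ℕ := {i | ∃ c : ℕ, c ^ 2 ∣ n i ∧ Real.exp ((Real.log (n i)) ^ θ / 3) < c} with hA1
  set A2 : Set ℕ := {i | ww (Nat.log 2 (n i)) < #(n i).primeFactors} with hA2
  obtain ⟨X', hX'def⟩ : ∃ X' : Set ℕ, X' = X ∪ A1 ∪ A2 := ⟨_, rfl⟩
  have hX' : Summable (X'.indicator fun i => (1 : ℝ) / n i) := by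
    have hs1 : Summable (A1.indicator fun i => (1 : ℝ) / n i) := by
      refine ((summable_square h0).comp_injective hmono.injective).congr fun i => ?_
      simp only [Function.comp, Set.indicator, hA1, Set.mem_ofPred_eq]
    have hs2 : Summable (A2.indicator fun i => (1 : ℝ) / n i) := by
      refine (summable_omega.comp_injective hmono.injective).congr fun i => ?_
      simp only [Function.comp, Set.indicator, hA2, Set.mem_ofPred_eq]
    have hnn : ∀ (S : Set ℕ) (i : ℕ), 0 ≤ S.indicator (fun i => (1 : ℝ) / n i) i := fun S i =>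
      Set.indicator_nonneg (fun _ _ => by positivity) i
    refine Summable.of_nonneg_of_le (hnn X') ?_ ((hX.add hs1).add hs2)
    intro i
    by_cases hi : i ∈ X'
    · rw [Set.indicator_of_mem hi]
      have e1 := hnn X i
      have e2 := hnn A1 i
      have e3 := hnn A2 i
      rw [hX'def] at hi
      rcases hi with (hi | hi) | hi
      · have := Set.indicator_of_mem hi (fun i => (1 : ℝ) / n i)
        linarith
      · have := Set.indicator_of_mem hi (fun i => (1 : ℝ) / n i)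
        linarith
      · have := Set.indicator_of_mem hi (fun i => (1 : ℝ) / n i)
        linarith
    · rw [Set.indicator_of_notMem hi]
      exact add_nonneg (add_nonneg (hnn _ _) (hnn _ _)) (hnn _ _)
  have hX'X : ∀ i, i ∉ X' → i ∉ X := fun i hi h => hi (by rw [hX'def]; exact Or.inl (Or.inl h))
  have hgood : ∀ i, i ∉ X' → GoodMod θ k (n i) := by
    intro i hi
    rw [hX'def] at hi
    refine ⟨hk i fun h => hi (Or.inl (Or.inl h)), fun h => hi (Or.inl (Or.inr h)), ?_⟩
    exact not_lt.1 fun h => hi (Or.inr h)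
  have hgrow' : ∀ x : ℕ, 2 ≤ x →
      ∑ c ∈ ({i ∈ range (x + 1) | i ∉ X' ∧ n i ≤ x}).image (fun i => (r i, b i % r i)),
        (1 : ℝ) / (c.1 : ℝ) ≤ C * (Real.log x) ^ α := by
    intro x hx
    refine le_trans (sum_le_sum_of_subset_of_nonneg ?_ fun i _ _ => by positivity) (hgrow x hx)
    refine image_subset_image ?_
    intro i hi
    rw [mem_filter] at hi ⊢
    exact ⟨hi.1, hX'X i hi.2.1, hi.2.2⟩
  have hlog : Tendsto (fun x : ℕ => Real.log (x : ℝ)) atTop atTop :=
    Real.tendsto_log_atTop.comp tendsto_natCast_atTop_atTop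
  set S : ℕ → ℝ := fun x => ∑ m ∈ Icc 1 x with (∃ i, n i ≤ m ∧ m % n i = b i % n i), (1 : ℝ) / m with hS
  have hR := fun h : ℕ => hit_range_logdens n b hpos h
  rw [tendsto_order]
  constructor
  · intro a ha
    obtain ⟨h, hh⟩ := ((dens_tendsto (n := n) (b := b) hpos).eventually (lt_mem_nhds ha)).exists
    set P : ℕ := ∏ i ∈ range h, n i with hP
    have hPpos : 0 < P := prod_pos fun i _ => hpos i
    have hlim : Tendsto (fun x : ℕ =>
        (∑ m ∈ Icc 1 x with Hit n b (range h) m, (1 : ℝ) / m) / Real.log (x : ℝ)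
          - (∑ m ∈ Icc 1 P, (1 : ℝ) / m) / Real.log (x : ℝ)) atTop (𝓝 (dens n b (range h) - 0)) :=
      (hR h).sub (tendsto_const_nhds.div_atTop hlog)
    rw [sub_zero] at hlim
    filter_upwards [hlim.eventually (lt_mem_nhds hh), hlog.eventually_gt_atTop 0] with x hx hx0
    refine hx.trans_le ?_
    rw [← sub_div]
    refine div_le_div_of_nonneg_right ?_ hx0.le
    rw [sub_le_iff_le_add]
    calc ∑ m ∈ Icc 1 x with Hit n b (range h) m, (1 : ℝ) / m
        ≤ ∑ m ∈ {m ∈ Icc 1 x | ∃ i, n i ≤ m ∧ m % n i = b i % n i} ∪ Icc 1 P, (1 : ℝ) / m := by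
          refine sum_le_sum_of_subset_of_nonneg ?_ fun m _ _ => by positivity
          intro m hm
          rw [mem_filter] at hm
          obtain ⟨hm1, i, hi, hm2⟩ := hm
          rw [mem_union]
          by_cases hmP : m ≤ P
          · right; exact mem_Icc.mpr ⟨(mem_Icc.mp hm1).1, hmP⟩
          · left
            refine mem_filter.mpr ⟨hm1, i, ?_, hm2⟩
            have : n i ≤ P := Nat.le_of_dvd hPpos (dvd_prod_of_mem n hi)
            omega
      _ ≤ S x + ∑ m ∈ Icc 1 P, (1 : ℝ) / m := by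
          rw [hS]
          refine (le_add_of_nonneg_right (sum_nonneg fun m _ => by positivity)).trans_eq
            (sum_union_inter (s₁ := {m ∈ Icc 1 x | ∃ i, n i ≤ m ∧ m % n i = b i % n i})
              (s₂ := Icc 1 P) (f := fun m : ℕ => (1 : ℝ) / m))
  · intro a ha
    set ε : ℝ := (a - densInf n b) / 2 with hε
    have hε0 : 0 < ε := by rw [hε]; linarith
    obtain ⟨h₀, hh₀⟩ := logsum_tail_cl h0 h1 hα hαθ k n b hmono hpos X' hX' hgood r
      (fun i hi => hr i (hX'X i hi)) (fun i hi => hs i (hX'X i hi)) hgrow' ε hε0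
    have htail := hh₀ h₀ le_rfl
    have hd := dens_le_inf (b := b) hpos h₀
    have hlt : dens n b (range h₀) < a - ε := by
      have : a - ε = densInf n b + ε := by rw [hε]; ring
      linarith
    filter_upwards [htail, (hR h₀).eventually (gt_mem_nhds hlt), hlog.eventually_gt_atTop 0]
      with x hx1 hx2 hx0
    rw [div_lt_iff₀ hx0] at hx2 ⊢
    have hle : S x ≤ (∑ m ∈ Icc 1 x with Hit n b (range h₀) m, (1 : ℝ) / m)
        + ∑ m ∈ Icc 1 x with ((∃ i, n i ≤ m ∧ m % n i = b i % n i) ∧ ¬ Hit n b (range h₀) m), (1 : ℝ) / m := by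
      rw [hS]
      calc ∑ m ∈ Icc 1 x with (∃ i, n i ≤ m ∧ m % n i = b i % n i), (1 : ℝ) / m
          ≤ ∑ m ∈ {m ∈ Icc 1 x | Hit n b (range h₀) m}
              ∪ {m ∈ Icc 1 x | (∃ i, n i ≤ m ∧ m % n i = b i % n i) ∧ ¬ Hit n b (range h₀) m},
              (1 : ℝ) / m := by
            refine sum_le_sum_of_subset_of_nonneg ?_ fun m _ _ => by positivity
            intro m hm
            rw [mem_filter] at hm
            rw [mem_union, mem_filter, mem_filter]
            by_cases hH : Hit n b (range h₀) m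
            · exact Or.inl ⟨hm.1, hH⟩
            · exact Or.inr ⟨hm.1, hm.2, hH⟩
        _ ≤ _ := by
            refine (le_add_of_nonneg_right (sum_nonneg fun m _ => by positivity)).trans_eq
              (sum_union_inter (s₁ := {m ∈ Icc 1 x | Hit n b (range h₀) m})
                (s₂ := {m ∈ Icc 1 x | (∃ i, n i ≤ m ∧ m % n i = b i % n i) ∧ ¬ Hit n b (range h₀) m})
                (f := fun m : ℕ => (1 : ℝ) / m))
    have : (a - ε) * Real.log x + ε * Real.log x = a * Real.log x := by ring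
    linarith

/-- The product of the prime factors (with multiplicity) above `exp ((log m) ^ θ)`. -/
def roughPart (θ : ℝ) (m : ℕ) : ℕ :=
  (m.primeFactorsList.filter (fun p : ℕ => decide (Real.exp ((Real.log m) ^ θ) < (p : ℝ)))).prod

/-- Reciprocal sum of the integers with at most `k` prime factors, with a logarithmic weight. -/
lemma sum_almost_primes {β α : ℝ} (hβ : 0 ≤ β) (hβα : β < α) (k : ℕ) :
    ∃ C : ℝ, 0 < C ∧ ∀ x : ℕ, 2 ≤ x →
      ∑ m ∈ Icc 1 x with m.primeFactorsList.length ≤ k, (1 : ℝ) / m * (1 + Real.log m) ^ β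
        ≤ C * (Real.log x) ^ α := by
  obtain ⟨C₂, hC₂, hM⟩ := mertens2
  have hl2 : 0 < Real.log 2 := Real.log_pos (by norm_num)
  have hl2' : (1 / 2 : ℝ) ≤ Real.log 2 := by
    have := Real.log_two_gt_d9
    linarith
  set ε : ℝ := (α - β) / (k + 1) with hε
  have hk : (0 : ℝ) < (k : ℝ) + 1 := by positivity
  have hε0 : 0 < ε := div_pos (by linarith) hk
  set K₁ : ℝ := (1 + C₂) / (Real.log 2) ^ ε + 1 / ε with hK₁
  have hK₁0 : 0 < K₁ := by positivity
  set K₂ : ℝ := 1 / (Real.log 2) ^ ε with hK₂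
  have hK₂0 : 0 < K₂ := by positivity
  refine ⟨3 ^ β * K₁ ^ k * K₂, by positivity, ?_⟩
  intro x hx
  have hx' : (2 : ℝ) ≤ x := by exact_mod_cast hx
  have hy : Real.log 2 ≤ Real.log x := Real.log_le_log (by norm_num) hx'
  have hy0 : 0 < Real.log x := hl2.trans_le hy
  set y : ℝ := Real.log x with hydef
  have hyε : (Real.log 2) ^ ε ≤ y ^ ε := Real.rpow_le_rpow hl2.le hy hε0.le
  have hyε0 : 0 < (Real.log 2) ^ ε := by positivity
  have hbig : ∀ m : ℕ, big 0 m = m.primeFactorsList.length := by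
    intro m
    unfold big
    congr 1
    rw [List.filter_eq_self]
    intro p hp
    have := (Nat.prime_of_mem_primeFactorsList hp).pos
    simp only [decide_eq_true_eq]
    omega
  have hA0 : A 0 0 x ≤ 1 := by
    unfold A
    have h1 : ({m ∈ Icc 1 x | big 0 m ≤ 0} : Finset ℕ) ⊆ {1} := by
      intro m hm
      rw [mem_filter, mem_Icc, hbig] at hm
      rw [mem_singleton]
      have h2 : m.primeFactorsList = [] := List.length_eq_zero_iff.mp (by omega)
      rw [Nat.primeFactorsList_eq_nil] at h2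
      omega
    refine (sum_le_sum_of_subset_of_nonneg h1 fun _ _ _ => by positivity).trans ?_
    simp
  have h1 : ∑ m ∈ Icc 1 x with m.primeFactorsList.length ≤ k, (1 : ℝ) / m * (1 + Real.log m) ^ β
      ≤ A 0 k x * (3 ^ β * y ^ β) := by
    unfold A
    rw [sum_mul]
    simp only [hbig]
    refine sum_le_sum fun m hm => ?_
    rw [mem_filter, mem_Icc] at hm
    have hm1 : (1 : ℝ) ≤ m := by exact_mod_cast hm.1.1
    have hmx : (m : ℝ) ≤ x := by exact_mod_cast hm.1.2
    have h2 : Real.log m ≤ y := Real.log_le_log (by linarith) hmx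
    have h3 : 0 ≤ Real.log (m : ℝ) := Real.log_nonneg hm1
    refine mul_le_mul_of_nonneg_left ?_ (by positivity)
    rw [← Real.mul_rpow (by norm_num) hy0.le]
    refine Real.rpow_le_rpow (by positivity) ?_ hβ
    linarith
  refine h1.trans ?_
  have hS : 0 ≤ S1 x := sum_nonneg fun _ _ => by positivity
  have h2 : 1 + S1 x ≤ K₁ * y ^ ε := by
    have h3 := (abs_le.mp (hM x hx)).2
    have h4 := Real.log_le_rpow_div hy0.le hε0
    have h5 : 1 + C₂ ≤ (1 + C₂) / (Real.log 2) ^ ε * y ^ ε := by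
      rw [div_mul_eq_mul_div, le_div_iff₀ hyε0]
      exact mul_le_mul_of_nonneg_left hyε (by positivity)
    rw [hK₁, add_mul, one_div_mul_eq_div]
    linarith
  have h3 : (1 + S1 x) ^ k ≤ K₁ ^ k * (y ^ ε) ^ k := by
    rw [← mul_pow]
    exact pow_le_pow_left₀ (by linarith) h2 k
  have h4 : 1 ≤ K₂ * y ^ ε := by
    rw [hK₂, one_div_mul_eq_div, le_div_iff₀ hyε0, one_mul]
    exact hyε
  have h5 : y ^ β * (y ^ ε) ^ k * y ^ ε = y ^ α := by
    rw [mul_assoc, ← pow_succ, ← Real.rpow_natCast, ← Real.rpow_mul hy0.le, ← Real.rpow_add hy0]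
    congr 1
    rw [hε]
    push_cast
    field_simp
    ring
  have h6 : A 0 k x ≤ K₁ ^ k * (y ^ ε) ^ k := by
    refine (A_le 0 k x).trans ?_
    calc A 0 0 x * (1 + S1 x) ^ k ≤ 1 * (K₁ ^ k * (y ^ ε) ^ k) :=
          mul_le_mul hA0 h3 (by positivity) (by norm_num)
      _ = _ := one_mul _
  have hyβ : 0 ≤ y ^ β := by positivity
  calc A 0 k x * (3 ^ β * y ^ β) ≤ (K₁ ^ k * (y ^ ε) ^ k) * (3 ^ β * y ^ β) :=
        mul_le_mul_of_nonneg_right h6 (by positivity)
    _ ≤ (K₁ ^ k * (y ^ ε) ^ k) * (3 ^ β * y ^ β) * (K₂ * y ^ ε) := by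
        refine le_mul_of_one_le_right ?_ h4
        positivity
    _ = 3 ^ β * K₁ ^ k * K₂ * (y ^ β * (y ^ ε) ^ k * y ^ ε) := by ring
    _ = 3 ^ β * K₁ ^ k * K₂ * y ^ α := by rw [h5]

lemma roughPart_dvd (θ : ℝ) {m : ℕ} (hm : 0 < m) : roughPart θ m ∣ m := by
  have h1 : (m.primeFactorsList.filter
      (fun p : ℕ => decide (Real.exp ((Real.log m) ^ θ) < (p : ℝ)))).Sublist m.primeFactorsList :=
    List.filter_sublist
  have h2 := h1.prod_dvd_prod
  rwa [Nat.prod_primeFactorsList hm.ne'] at h2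

lemma primeFactorsList_roughPart (θ : ℝ) {m : ℕ} :
    (roughPart θ m).primeFactorsList.Perm
      (m.primeFactorsList.filter (fun p : ℕ => decide (Real.exp ((Real.log m) ^ θ) < (p : ℝ)))) := by
  refine (Nat.primeFactorsList_unique rfl ?_).symm
  intro p hp
  exact Nat.prime_of_mem_primeFactorsList (List.mem_of_mem_filter hp)

lemma smooth_cofactor (θ : ℝ) {m : ℕ} (hm : 0 < m) (p : ℕ) (hp : p.Prime) (hd : p ∣ m / roughPart θ m) :
    (p : ℝ) ≤ Real.exp ((Real.log m) ^ θ) := by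
  by_contra hcon
  push Not at hcon
  have hr := roughPart_dvd θ hm
  have hr0 : roughPart θ m ≠ 0 := (Nat.pos_of_dvd_of_pos hr hm).ne'
  have hd0 : m / roughPart θ m ≠ 0 := (Nat.div_pos (Nat.le_of_dvd hm hr) (Nat.pos_of_ne_zero hr0)).ne'
  have h1 : m.factorization p = (roughPart θ m).factorization p + (m / roughPart θ m).factorization p := by
    rw [← Finsupp.add_apply, ← Nat.factorization_mul hr0 hd0, Nat.mul_div_cancel' hr]
  have h2 : (roughPart θ m).factorization p = m.factorization p := by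
    rw [← Nat.primeFactorsList_count_eq, ← Nat.primeFactorsList_count_eq,
      (primeFactorsList_roughPart θ).count_eq, List.count_filter (by simpa using hcon)]
  have h3 := (hp.dvd_iff_one_le_factorization hd0).1 hd
  omega

/-- The growth condition for the rough parts, from a bound on the number of residues for each rough part. -/
lemma growth_of_residues {θ β C : ℝ} (hβ : 0 ≤ β) (hβθ : β + θ < 1) (k : ℕ) (n b : ℕ → ℕ)
    (hpos : ∀ i, 0 < n i) (X : Set ℕ)
    (hk : ∀ i, i ∉ X →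
      ((n i).primeFactorsList.filter
        (fun p : ℕ => decide (Real.exp ((Real.log (n i)) ^ θ) < (p : ℝ)))).length ≤ k)
    (hB : ∀ R : ℕ, 1 ≤ R → ∀ T : Finset ℕ, (∀ ρ ∈ T, ∃ i, i ∉ X ∧ roughPart θ (n i) = R ∧ b i % R = ρ) →
      (#T : ℝ) ≤ C * (1 + Real.log R) ^ β) :
    ∃ α C' : ℝ, 0 ≤ α ∧ α + θ < 1 ∧ ∀ x : ℕ, 2 ≤ x →
      ∑ c ∈ ({i ∈ range (x + 1) | i ∉ X ∧ n i ≤ x}).image
          (fun i => (roughPart θ (n i), b i % roughPart θ (n i))),
        (1 : ℝ) / (c.1 : ℝ) ≤ C' * (Real.log x) ^ α := by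
  set α : ℝ := (β + (1 - θ)) / 2 with hα
  have hβα : β < α := by rw [hα]; linarith
  have hαθ : α + θ < 1 := by rw [hα]; linarith
  obtain ⟨C₁, hC₁, hsum⟩ := sum_almost_primes hβ hβα k
  refine ⟨α, |C| * C₁, by linarith, hαθ, fun x hx => ?_⟩
  set S : Finset (ℕ × ℕ) := ({i ∈ range (x + 1) | i ∉ X ∧ n i ≤ x}).image
    (fun i => (roughPart θ (n i), b i % roughPart θ (n i))) with hS
  have h1 : ∑ c ∈ S, (1 : ℝ) / (c.1 : ℝ) = ∑ R ∈ S.image Prod.fst, #{c ∈ S | c.1 = R} • ((1 : ℝ) / (R : ℝ)) :=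
    Finset.sum_comp (fun R : ℕ => (1 : ℝ) / (R : ℝ)) Prod.fst
  rw [h1]
  have h2 : S.image Prod.fst ⊆ {m ∈ Icc 1 x | m.primeFactorsList.length ≤ k} := by
    intro R hR
    rw [mem_image] at hR
    obtain ⟨c, hc, rfl⟩ := hR
    rw [hS, mem_image] at hc
    obtain ⟨i, hi, rfl⟩ := hc
    rw [mem_filter] at hi
    have hd := roughPart_dvd θ (hpos i)
    rw [mem_filter, mem_Icc]
    refine ⟨⟨Nat.pos_of_dvd_of_pos hd (hpos i), (Nat.le_of_dvd (hpos i) hd).trans hi.2.2⟩, ?_⟩
    show (roughPart θ (n i)).primeFactorsList.length ≤ k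
    rw [(primeFactorsList_roughPart θ).length_eq]
    exact hk i hi.2.1
  have h3 : ∀ R ∈ S.image Prod.fst, #{c ∈ S | c.1 = R} • ((1 : ℝ) / (R : ℝ))
      ≤ |C| * ((1 : ℝ) / R * (1 + Real.log R) ^ β) := by
    intro R hR
    have hR1 : 1 ≤ R := (mem_Icc.1 (mem_filter.1 (h2 hR)).1).1
    have hlog : 0 ≤ Real.log (R : ℝ) := Real.log_natCast_nonneg R
    have h4 : (#{c ∈ S | c.1 = R} : ℝ) ≤ C * (1 + Real.log R) ^ β := by
      have h5 : #{c ∈ S | c.1 = R} = #(({c ∈ S | c.1 = R}).image Prod.snd) := by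
        refine (card_image_of_injOn ?_).symm
        intro c hc d hd hcd
        rw [mem_coe, mem_filter] at hc hd
        exact Prod.ext (hc.2.trans hd.2.symm) hcd
      rw [h5]
      refine hB R hR1 _ fun ρ hρ => ?_
      rw [mem_image] at hρ
      obtain ⟨c, hc, rfl⟩ := hρ
      rw [mem_filter, hS, mem_image] at hc
      obtain ⟨⟨i, hi, rfl⟩, hcR⟩ := hc
      rw [mem_filter] at hi
      refine ⟨i, hi.2.1, hcR, ?_⟩
      show b i % R = b i % roughPart θ (n i)
      rw [← hcR]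
    rw [nsmul_eq_mul]
    calc (#{c ∈ S | c.1 = R} : ℝ) * ((1 : ℝ) / (R : ℝ))
        ≤ (|C| * (1 + Real.log R) ^ β) * ((1 : ℝ) / (R : ℝ)) := by
          refine mul_le_mul_of_nonneg_right (h4.trans ?_) (by positivity)
          exact mul_le_mul_of_nonneg_right (le_abs_self C) (by positivity)
      _ = _ := by ring
  refine (sum_le_sum h3).trans ?_
  rw [← mul_sum, mul_assoc]
  refine mul_le_mul_of_nonneg_left ?_ (abs_nonneg C)
  refine le_trans (sum_le_sum_of_subset_of_nonneg h2 fun m _ _ => ?_) (hsum x hx)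
  have : 0 ≤ Real.log (m : ℝ) := Real.log_natCast_nonneg m
  positivity

end

end Pool.Agent.E25B
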